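import Pool.Agent.TH398.Sing

set_option autoImplicit false

/-!
# The spine theorem for posets of finite width
-/

namespace Pool.Agent.TH398

open Cardinal

universe u

theorem comp_interval' {P : Type u} [PartialOrder P] {κ : Cardinal.{u}} (hκ : ℵ₀ ≤ κ) {Z : Set P}
    (hZ : ∀ x ∈ Z, #(NI Z x) < κ) (a b : P) (h : b ∈ comp Z a) :
    #({z | z ∈ Z ∧ z ≤ a ∧ ¬ z ≤ b} : Set P) < κ := by
  have h' : Relation.ReflTransGen (NR Z) a b := h
  induction h' with
  | refl =>
    have : ({z | z ∈ Z ∧ z ≤ a ∧ ¬ z ≤ a} : Set P) = ∅ := by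
      ext z
      simp only [Set.mem_ofPred_eq, Set.mem_empty_iff_false, iff_false]
      exact fun h => h.2.2 h.2.1
    rw [this]
    have h0 : #(∅ : Set P) = 0 := by simp
    rw [h0]
    exact lt_of_lt_of_le aleph0_pos hκ
  | @tail b b' hab hbb ih =>
    refine lt_of_le_of_lt (mk_le_mk_of_subset (t := {z | z ∈ Z ∧ z ≤ a ∧ ¬ z ≤ b} ∪ NI Z b') ?_)
      (lt_of_union hκ (ih hab) (hZ b' hbb.2.1))
    rintro z ⟨hz, haz, hbz⟩
    by_cases hb : z ≤ b
    · right
      exact ⟨hz, hbz, fun h => hbb.2.2.1 (h.trans hb)⟩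
    · exact Or.inl ⟨hz, haz, hb⟩

theorem exists_tower (n : ℕ) (κ : Cardinal.{u}) : ∀ (P : Type u) [PartialOrder P],
    Wd P n → #P = κ → ∃ X, IsTower (Set.univ : Set P) X := by
  induction κ using WellFoundedLT.induction with
  | _ κ ih =>
    intro P _ hn hP
    by_cases h0 : κ ≤ ℵ₀
    · obtain ⟨Z, hZ⟩ := exists_isST (P := P) hn (lam := ℵ₀) le_rfl
      exact tower_extend (hP.le.trans h0) hZ (fun _ => ∅)
        (fun lam h1 h2 => absurd h1 (not_le_of_gt h2))
        (fun lam lam' h1 h2 h3 => absurd (h1.trans h2) (not_le_of_gt h3))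
        (fun lam h1 h2 => absurd h1 (not_le_of_gt h2))
    · rw [not_le] at h0
      have hκ : ℵ₀ ≤ κ := h0.le
      obtain ⟨Z, hZ⟩ := exists_isST (P := P) hn (lam := κ) hκ
      have IH : ∀ D : Set P, #D < κ → ∃ X, IsTower D X := by
        intro D hD
        obtain ⟨X, hX⟩ := ih _ hD D (hn.sub D) rfl
        exact ⟨_, hX.map D⟩
      by_cases hreg : κ.IsRegular
      · obtain ⟨X, hX⟩ := tower_of_comps (Z := Z) (fun z hz =>
          IH _ (comp_small hreg h0 Z hZ.lt z hz))
        exact tower_extend hP.le hZ X (fun lam h1 _ => hX.st lam h1)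
          (fun lam lam' h1 h2 _ => hX.mono lam lam' h1 h2)
          (fun lam h1 h2 y hy => ST_trans hn hreg h2.le (hX.st lam h1) hZ.lt y hy)
      · have hsing : κ.ord.cof < κ := by
          by_contra h
          exact hreg ⟨hκ, not_lt.1 h⟩
        have hlim : ∀ c < κ, Order.succ c < κ := by
          intro c hc
          by_contra h
          have h1 : Order.succ c = κ := le_antisymm (Order.succ_le_of_lt hc) (not_lt.1 h)
          by_cases h2 : c < ℵ₀
          · exact absurd (h1 ▸ Order.succ_le_of_lt h2) (not_le_of_gt h0)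
          · exact hreg (h1 ▸ isRegular_succ (not_lt.1 h2))
        obtain ⟨X, hX⟩ := tower_of_comps (Z := Z) (fun z hz => by
          by_cases hD : #(comp Z z) < κ
          · exact IH _ hD
          · have hNI : ∀ x : comp Z z, #(NI (Set.univ : Set (comp Z z)) x) < κ := by
              intro x
              rw [← mk_NI_image]
              refine lt_of_le_of_lt (mk_le_mk_of_subset ?_)
                (hZ.lt x.1 (comp_subset hz x.2))
              rintro q ⟨⟨q', _, rfl⟩, hq⟩
              exact ⟨comp_subset hz q'.2, hq⟩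
            have hab : ∀ a b : comp Z z, b.1 ∈ comp Z a.1 := fun a b => by
              rw [comp_eq a.2]
              exact b.2
            obtain ⟨X, hX⟩ := glue_singular (P := comp Z z) (hn.sub _) hκ hlim hsing hNI
              (fun a b => by
                rw [← mk_image_eq (s := {z' : comp Z z | a ≤ z' ∧ ¬ b ≤ z'})
                  Subtype.val_injective]
                refine lt_of_le_of_lt (mk_le_mk_of_subset ?_)
                  (comp_interval hκ hZ.lt a.1 b.1 (hab a b))
                rintro _ ⟨q, ⟨h1, h2⟩, rfl⟩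
                exact ⟨comp_subset hz q.2, h1, h2⟩)
              (fun a b => by
                rw [← mk_image_eq (s := {z' : comp Z z | z' ≤ a ∧ ¬ z' ≤ b})
                  Subtype.val_injective]
                refine lt_of_le_of_lt (mk_le_mk_of_subset ?_)
                  (comp_interval' hκ hZ.lt a.1 b.1 (hab a b))
                rintro _ ⟨q, ⟨h1, h2⟩, rfl⟩
                exact ⟨comp_subset hz q.2, h1, h2⟩)
              (fun Q hQ => by
                obtain ⟨X, hX⟩ := ih _ hQ Q ((hn.sub _).sub Q) rfl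
                exact ⟨_, hX.map Q⟩) ⟨z, comp_self Z z⟩
            exact ⟨_, hX.map (comp Z z)⟩)
        exact tower_extend hP.le hZ X (fun lam h1 _ => hX.st lam h1)
          (fun lam lam' h1 h2 _ => hX.mono lam lam' h1 h2)
          (fun lam h1 h2 y hy => ST_trans_lim hn hκ hlim hX hZ.lt y hy lam h1 h2)

/-- **Spine theorem** in functional form. -/
theorem exists_spine_fun {P : Type u} [PartialOrder P] (n : ℕ)
    (hn : ∀ A : Finset P, IsAntichain (· ≤ ·) (A : Set P) → A.card ≤ n) :
    ∃ Φ : P → P, (∀ p, Φ (Φ p) = Φ p) ∧ (∀ p q, Φ p = Φ q → ¬ p < q) ∧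
      (∀ p q, Φ p ≤ Φ q ∨ Φ q ≤ Φ p) := by
  obtain ⟨X, hX⟩ := exists_tower n _ P hn rfl
  obtain ⟨Φ, h⟩ := spine_of_tower hn hX
  exact ⟨Φ, fun p => h.idem p (Set.mem_univ _),
    fun p q hpq => h.anti p (Set.mem_univ _) q (Set.mem_univ _) hpq,
    fun p q => h.chain p (Set.mem_univ _) q (Set.mem_univ _)⟩

/-- **Spine theorem.** -/
theorem exists_spine {P : Type u} [PartialOrder P] (n : ℕ)
    (hn : ∀ A : Finset P, IsAntichain (· ≤ ·) (A : Set P) → A.card ≤ n) :
    ∃ C : Set P, IsChain (· ≤ ·) C ∧ ∃ D : Set (Set P), Setoid.IsPartition D ∧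
      (∀ A ∈ D, IsAntichain (· ≤ ·) A) ∧ (∀ A ∈ D, (A ∩ C).Nonempty) := by
  obtain ⟨Φ, h1, h2, h3⟩ := exists_spine_fun n hn
  refine ⟨Set.range Φ, ?_, (Setoid.ker Φ).classes, Setoid.isPartition_classes _, ?_, ?_⟩
  · rintro _ ⟨p, rfl⟩ _ ⟨q, rfl⟩ _
    exact h3 p q
  · rintro A ⟨y, rfl⟩ a ha b hb hab hle
    have ha' : Φ a = Φ y := ha
    have hb' : Φ b = Φ y := hb
    exact h2 a b (ha'.trans hb'.symm) (lt_of_le_of_ne hle hab)
  · rintro A ⟨y, rfl⟩
    exact ⟨Φ y, h1 y, y, rfl⟩

end Pool.Agent.TH398
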