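import Pool.Agent.TH398.Real

set_option autoImplicit false

/-!
# Spines
-/

namespace Pool.Agent.TH398

open Filter

universe u

variable {P : Type u} [PartialOrder P]

/-- finite posets have spines -/
theorem finite_spine (n : ℕ) : ∀ F : Finset P, F.card ≤ n → ∃ c : P → P,
    (∀ x ∈ F, c x ∈ F) ∧ (∀ x ∈ F, c (c x) = c x) ∧
    (∀ x ∈ F, ∀ y ∈ F, c x = c y → ¬ x < y) ∧
    (∀ x ∈ F, ∀ y ∈ F, c x ≤ c y ∨ c y ≤ c x) := by
  classical
  induction n with
  | zero =>
    intro F hF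
    have : F = ∅ := by simpa using hF
    subst this
    exact ⟨id, by simp, by simp, by simp, by simp⟩
  | succ n ih =>
    intro F hF
    by_cases hne : F.Nonempty
    · let M := F.filter (fun m => ∀ x ∈ F, ¬ x < m)
      have hMne : M.Nonempty := by
        obtain ⟨m, hm⟩ := F.exists_minimal hne
        refine ⟨m, Finset.mem_filter.2 ⟨hm.1, fun x hx hlt => ?_⟩⟩
        exact absurd (hm.2 hx hlt.le) (not_le_of_gt hlt)
      have hMcard : 0 < M.card := Finset.card_pos.2 hMne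
      have hMF : M ⊆ F := Finset.filter_subset _ _
      obtain ⟨c, hc1, hc2, hc3, hc4⟩ := ih (F \ M) (by
        rw [Finset.card_sdiff_of_subset hMF]
        omega)
      have hsplit : ∀ x ∈ F, x ∉ M → x ∈ F \ M := fun x hx hxM => Finset.mem_sdiff.2 ⟨hx, hxM⟩
      -- the minimal element below the chain
      obtain ⟨m, hmM, hmc⟩ : ∃ m ∈ M, ∀ x ∈ F \ M, m < c x := by
        by_cases hne2 : (F \ M).Nonempty
        · -- least element of the chain
          obtain ⟨m', hm'⟩ := ((F \ M).image c).exists_minimal (hne2.image c)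
          obtain ⟨x0, hx0, hx0'⟩ := Finset.mem_image.1 hm'.1
          have hm'F : m' ∈ F \ M := hx0' ▸ hc1 x0 hx0
          have hleast : ∀ x ∈ F \ M, m' ≤ c x := by
            intro x hx
            have h1 := hc4 x0 hx0 x hx
            rw [hx0'] at h1
            rcases h1 with h1 | h1
            · exact h1
            · exact hm'.2 (Finset.mem_image_of_mem c hx) h1
          -- a minimal element of F below m'
          have hm'nM := (Finset.mem_sdiff.1 hm'F).2
          have hex : ((F.filter (fun x => x ≤ m'))).Nonempty :=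
            ⟨m', Finset.mem_filter.2 ⟨(Finset.mem_sdiff.1 hm'F).1, le_rfl⟩⟩
          obtain ⟨m, hm⟩ := (F.filter (fun x => x ≤ m')).exists_minimal hex
          have hmF := Finset.mem_filter.1 hm.1
          have hmM : m ∈ M := by
            refine Finset.mem_filter.2 ⟨hmF.1, fun x hx hlt => ?_⟩
            have := hm.2 (Finset.mem_filter.2 ⟨hx, hlt.le.trans hmF.2⟩) hlt.le
            exact absurd this (not_le_of_gt hlt)
          have hmne : m ≠ m' := fun h => hm'nM (h ▸ hmM)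
          exact ⟨m, hmM, fun x hx => lt_of_lt_of_le (lt_of_le_of_ne hmF.2 hmne) (hleast x hx)⟩
        · obtain ⟨m, hm⟩ := hMne
          exact ⟨m, hm, fun x hx => absurd ⟨x, hx⟩ hne2⟩
      refine ⟨fun x => if x ∈ M then m else c x, ?_, ?_, ?_, ?_⟩
      · intro x hx
        by_cases hxM : x ∈ M
        · simp only [hxM, if_true]; exact hMF hmM
        · simp only [hxM, if_false]; exact (Finset.mem_sdiff.1 (hc1 x (hsplit x hx hxM))).1
      · intro x hx
        by_cases hxM : x ∈ M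
        · simp only [hxM, if_true, hmM]
        · have h1 := (Finset.mem_sdiff.1 (hc1 x (hsplit x hx hxM))).2
          simp only [hxM, if_false, h1]
          exact hc2 x (hsplit x hx hxM)
      · intro x hx y hy hxy hlt
        have hyM : y ∉ M := fun h => (Finset.mem_filter.1 h).2 x hx hlt
        by_cases hxM : x ∈ M
        · simp only [hxM, hyM, if_true, if_false] at hxy
          exact absurd hxy (ne_of_lt (hmc y (hsplit y hy hyM)))
        · simp only [hxM, hyM, if_false] at hxy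
          exact hc3 x (hsplit x hx hxM) y (hsplit y hy hyM) hxy hlt
      · intro x hx y hy
        by_cases hxM : x ∈ M <;> by_cases hyM : y ∈ M
        · simp only [hxM, hyM, if_true]; exact Or.inl le_rfl
        · simp only [hxM, hyM, if_true, if_false]
          exact Or.inl (hmc y (hsplit y hy hyM)).le
        · simp only [hxM, hyM, if_true, if_false]
          exact Or.inr (hmc x (hsplit x hx hxM)).le
        · simp only [hxM, hyM, if_false]
          exact hc4 x (hsplit x hx hxM) y (hsplit y hy hyM)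
    · have : F = ∅ := Finset.not_nonempty_iff_eq_empty.1 hne
      subst this
      exact ⟨id, by simp, by simp, by simp, by simp⟩

/-- Sets with finite incomparability sets have spines (compactness). -/
theorem locfin_spine (X : Set P) (hX : ∀ x ∈ X, {q | q ∈ X ∧ ¬ q ≤ x ∧ ¬ x ≤ q}.Finite) :
    ∃ c : P → P, (∀ x ∈ X, c x ∈ X) ∧ (∀ x ∈ X, c (c x) = c x) ∧
    (∀ x ∈ X, ∀ y ∈ X, c x = c y → ¬ x < y) ∧
    (∀ x ∈ X, ∀ y ∈ X, c x ≤ c y ∨ c y ≤ c x) := by
  classical
  have h0 : ∀ F : Finset P, ∃ c : P → P,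
      (∀ x ∈ F.filter (· ∈ X), c x ∈ F.filter (· ∈ X)) ∧
      (∀ x ∈ F.filter (· ∈ X), c (c x) = c x) ∧
      (∀ x ∈ F.filter (· ∈ X), ∀ y ∈ F.filter (· ∈ X), c x = c y → ¬ x < y) ∧
      (∀ x ∈ F.filter (· ∈ X), ∀ y ∈ F.filter (· ∈ X), c x ≤ c y ∨ c y ≤ c x) :=
    fun F => finite_spine _ _ le_rfl
  choose c h1 h2 h3 h4 using h0
  let U : Ultrafilter (Finset P) := Ultrafilter.of atTop
  have hU : ∀ s ∈ X, ∀ᶠ Q in (U : Filter (Finset P)), s ∈ Finset.filter (· ∈ X) Q := by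
    intro s hs
    have : ∀ᶠ Q in (atTop : Filter (Finset P)), s ∈ Finset.filter (· ∈ X) Q := by
      filter_upwards [eventually_ge_atTop ({s} : Finset P)] with Q hQ
      exact Finset.mem_filter.2 ⟨hQ (Finset.mem_singleton_self s), hs⟩
    exact (Ultrafilter.of_le atTop) this
  have hlim : ∀ x ∈ X, ∃ t ∈ ({x} ∪ {q | q ∈ X ∧ ¬ q ≤ x ∧ ¬ x ≤ q} : Set P),
      ∀ᶠ Q in (U : Filter (Finset P)), c Q x = t := by
    intro x hx
    have hfin : ({x} ∪ {q | q ∈ X ∧ ¬ q ≤ x ∧ ¬ x ≤ q} : Set P).Finite :=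
      (Set.finite_singleton x).union (hX x hx)
    rw [← Ultrafilter.eventually_exists_mem_iff hfin]
    filter_upwards [hU x hx] with Q hQ
    have hcx := h1 Q x hQ
    have hccx := h2 Q x hQ
    refine ⟨c Q x, ?_, rfl⟩
    by_cases heq : c Q x = x
    · exact Or.inl heq
    · right
      refine ⟨(Finset.mem_filter.1 hcx).2, fun hle => ?_, fun hle => ?_⟩
      · exact h3 Q (c Q x) hcx x hQ hccx (lt_of_le_of_ne hle heq)
      · exact h3 Q x hQ (c Q x) hcx hccx.symm (lt_of_le_of_ne hle (Ne.symm heq))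
  have hlim' : ∀ x, ∃ t, x ∈ X → t ∈ X ∧ ∀ᶠ Q in (U : Filter (Finset P)), c Q x = t := by
    intro x
    by_cases hx : x ∈ X
    · obtain ⟨t, ht, h5⟩ := hlim x hx
      refine ⟨t, fun _ => ⟨?_, h5⟩⟩
      rcases ht with ht | ht
      · rw [Set.mem_singleton_iff.1 ht]; exact hx
      · exact ht.1
    · exact ⟨x, fun h => absurd h hx⟩
  choose d hd using hlim'
  refine ⟨d, fun x hx => (hd x hx).1, ?_, ?_, ?_⟩
  · intro x hx
    obtain ⟨Q, ⟨hQ1, hQ2⟩, hQ3⟩ :=
      (((hd x hx).2.and (hd (d x) (hd x hx).1).2).and (hU x hx)).exists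
    rw [← hQ2, ← hQ1]
    exact h2 Q x hQ3
  · intro x hx y hy hxy
    obtain ⟨Q, ⟨hQ1, hQ2⟩, hQ3, hQ4⟩ :=
      (((hd x hx).2.and (hd y hy).2).and ((hU x hx).and (hU y hy))).exists
    exact h3 Q x hQ3 y hQ4 (by rw [hQ1, hQ2, hxy])
  · intro x hx y hy
    obtain ⟨Q, ⟨hQ1, hQ2⟩, hQ3, hQ4⟩ :=
      (((hd x hx).2.and (hd y hy).2).and ((hU x hx).and (hU y hy))).exists
    rw [← hQ1, ← hQ2]
    exact h4 Q x hQ3 y hQ4

/-- classes which meet the neighbourhood of `y` and contain an element below `y` -/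
theorem bad_finite (hfac : ∀ s : ℕ → P, ∃ m n, m < n ∧ (s m ≤ s n ∨ s n ≤ s m))
    (X : Set P) (hX : ∀ x ∈ X, {q | q ∈ X ∧ ¬ q ≤ x ∧ ¬ x ≤ q}.Finite)
    (c : P → P) (hc : ∀ x ∈ X, ∀ y ∈ X, c x = c y → ¬ x < y) (y : P) :
    {z | ∃ t ∈ X, ∃ s ∈ X, c t = z ∧ c s = z ∧ (¬ t ≤ y ∧ ¬ y ≤ t) ∧ s < y}.Finite := by
  by_contra hinf
  obtain ⟨z, hz, hzinj⟩ : ∃ z : ℕ → P, (∀ n, ∃ t ∈ X, ∃ s ∈ X, c t = z n ∧ c s = z n ∧
      (¬ t ≤ y ∧ ¬ y ≤ t) ∧ s < y) ∧ Function.Injective z := by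
    have := Set.Infinite.natEmbedding _ hinf
    exact ⟨fun n => (this n : P), fun n => (this n).2, fun m n hmn =>
      this.injective (Subtype.ext hmn)⟩
  choose t ht s hs h1 h2 h3 h4 using hz
  have htinj : Function.Injective t := fun a b hab => hzinj (by rw [← h1 a, ← h1 b, hab])
  have hsinj : Function.Injective s := fun a b hab => hzinj (by rw [← h2 a, ← h2 b, hab])
  obtain ⟨φ, hφ, hmono | hanti⟩ := exists_mono_or_anti hfac t htinj
  · -- t increasing
    have hfin := hX (t (φ 0)) (ht _)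
    obtain ⟨n, hn0, hn⟩ : ∃ n, 0 < n ∧
        s (φ n) ∉ ({t (φ 0)} ∪ {q | q ∈ X ∧ ¬ q ≤ t (φ 0) ∧ ¬ t (φ 0) ≤ q} : Set P) := by
      by_contra hcon
      push Not at hcon
      have hsub : (fun n => s (φ n)) '' {n | 0 < n} ⊆
          ({t (φ 0)} ∪ {q | q ∈ X ∧ ¬ q ≤ t (φ 0) ∧ ¬ t (φ 0) ≤ q} : Set P) := by
        rintro _ ⟨n, hn, rfl⟩
        exact hcon n hn
      have hinf2 : ((fun n => s (φ n)) '' {n | 0 < n}).Infinite :=
        Set.Infinite.image (fun a _ b _ hab => hφ.injective (hsinj hab)) (Set.Ioi_infinite 0)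
      exact hinf2 (((Set.finite_singleton _).union hfin).subset hsub)
    simp only [Set.mem_union, Set.mem_singleton_iff, Set.mem_setOf_eq, not_or, not_and,
      not_not] at hn
    by_cases hle : s (φ n) ≤ t (φ 0)
    · exact hc _ (hs _) _ (ht _) ((h2 (φ n)).trans (h1 (φ n)).symm)
        (lt_of_le_of_lt hle (hmono hn0))
    · have := hn.2 (hs _) hle
      exact (h3 (φ 0)).1 (this.trans (h4 _).le)
  · have hfin := hX (s (φ 0)) (hs _)
    obtain ⟨n, hn0, hn⟩ : ∃ n, 0 < n ∧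
        t (φ n) ∉ ({s (φ 0)} ∪ {q | q ∈ X ∧ ¬ q ≤ s (φ 0) ∧ ¬ s (φ 0) ≤ q} : Set P) := by
      by_contra hcon
      push Not at hcon
      have hsub : (fun n => t (φ n)) '' {n | 0 < n} ⊆
          ({s (φ 0)} ∪ {q | q ∈ X ∧ ¬ q ≤ s (φ 0) ∧ ¬ s (φ 0) ≤ q} : Set P) := by
        rintro _ ⟨n, hn, rfl⟩
        exact hcon n hn
      have hinf2 : ((fun n => t (φ n)) '' {n | 0 < n}).Infinite :=
        Set.Infinite.image (fun a _ b _ hab => hφ.injective (htinj hab)) (Set.Ioi_infinite 0)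
      exact hinf2 (((Set.finite_singleton _).union hfin).subset hsub)
    simp only [Set.mem_union, Set.mem_singleton_iff, Set.mem_setOf_eq, not_or, not_and,
      not_not] at hn
    by_cases hle : t (φ n) ≤ s (φ 0)
    · exact (h3 (φ n)).1 (hle.trans (h4 _).le)
    · have := hn.2 (ht _) hle
      exact hc _ (hs _) _ (ht _) ((h2 (φ 0)).trans (h1 (φ 0)).symm)
        (lt_of_le_of_lt this (hanti hn0))

/-- classes meeting the neighbourhood of `y` and not contained in it are finitely many -/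
theorem bad_finite' (hfac : ∀ s : ℕ → P, ∃ m n, m < n ∧ (s m ≤ s n ∨ s n ≤ s m))
    (X : Set P) (hX : ∀ x ∈ X, {q | q ∈ X ∧ ¬ q ≤ x ∧ ¬ x ≤ q}.Finite)
    (c : P → P) (hc : ∀ x ∈ X, ∀ y ∈ X, c x = c y → ¬ x < y) (y : P) (hy : y ∉ X) :
    {z | ∃ t ∈ X, ∃ s ∈ X, c t = z ∧ c s = z ∧ (¬ t ≤ y ∧ ¬ y ≤ t) ∧
      ¬ (¬ s ≤ y ∧ ¬ y ≤ s)}.Finite := by
  have h1 := bad_finite hfac X hX c hc y
  have h2 : {z | ∃ t ∈ X, ∃ s ∈ X, c t = z ∧ c s = z ∧ (¬ t ≤ y ∧ ¬ y ≤ t) ∧ y < s}.Finite := by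
    let tD : P → Pᵒᵈ := OrderDual.toDual
    have := bad_finite (P := Pᵒᵈ) (fun s => by
        obtain ⟨m, n, hmn, h⟩ := hfac s
        exact ⟨m, n, hmn, h.symm⟩) X (fun x hx => by
          refine (hX x hx).subset ?_
          rintro q ⟨hq1, hq2, hq3⟩
          exact ⟨hq1, hq3, hq2⟩) c (fun x hx y hy hxy hlt => hc y hy x hx hxy.symm hlt) y
    refine Set.Finite.subset this ?_
    rintro z ⟨t, ht, s, hs, h3, h4, h5, h6⟩
    exact ⟨t, ht, s, hs, h3, h4, ⟨h5.2, h5.1⟩, h6⟩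
  refine (h1.union h2).subset ?_
  rintro z ⟨t, ht, s, hs, h3, h4, h5, h6⟩
  by_cases hle : s ≤ y
  · left
    exact ⟨t, ht, s, hs, h3, h4, h5, lt_of_le_of_ne hle (fun h => hy (h ▸ hs))⟩
  · right
    have h7 : y ≤ s := by
      by_contra h8
      exact h6 ⟨hle, h8⟩
    exact ⟨t, ht, s, hs, h3, h4, h5, lt_of_le_of_ne h7 (fun h => hy (h ▸ hs))⟩

/-- distinct representatives for countably many infinite sets -/
theorem exists_transversal_countable {ι : Type u} [Countable ι] {Q : Type u}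
    (G : ι → Set Q) (hG : ∀ i, (G i).Infinite) :
    ∃ f : ι → Q, (∀ i, f i ∈ G i) ∧ Function.Injective f := by
  classical
  have hn : Nonempty (ι → Q) := ⟨fun i => (hG i).nonempty.choose⟩
  obtain ⟨enc, henc⟩ := (Countable.exists_injective_nat (α := ι))
  -- sets indexed by ℕ
  let H : ℕ → Set Q := fun n => if h : ∃ i, enc i = n then G h.choose else Set.univ
  by_cases hι : Nonempty ι
  · obtain ⟨i0⟩ := hι
    have hHinf : ∀ n, (H n).Infinite := by
      intro n
      by_cases h : ∃ i, enc i = n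
      · simp only [H, dif_pos h]; exact hG _
      · simp only [H, dif_neg h]
        exact (hG i0).mono (Set.subset_univ _)
    have hstep : ∀ (n : ℕ) (s : Finset Q), ∃ q ∈ H n, q ∉ s := by
      intro n s
      obtain ⟨q, hq, hqs⟩ := (hHinf n).exists_notMem_finset s
      exact ⟨q, hq, hqs⟩
    choose g hg1 hg2 using hstep
    let S : ℕ → Finset Q := fun n => Nat.rec ∅ (fun n s => insert (g n s) s) n
    have hS : ∀ n, S (n + 1) = insert (g n (S n)) (S n) := fun n => rfl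
    have hmono : ∀ m n, m ≤ n → S m ⊆ S n := by
      intro m n hmn
      induction n, hmn using Nat.le_induction with
      | base => exact Finset.Subset.refl _
      | succ n hn ih => exact ih.trans (by rw [hS]; exact Finset.subset_insert _ _)
    let f : ℕ → Q := fun n => g n (S n)
    have hfne : ∀ m n, m < n → f m ≠ f n := by
      intro m n hmn heq
      have h1 : f m ∈ S (m + 1) := by rw [hS]; exact Finset.mem_insert_self _ _
      have h2 : f m ∈ S n := hmono (m + 1) n hmn h1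
      have h3 : f n ∈ S n := by rw [← heq]; exact h2
      exact hg2 n (S n) h3
    refine ⟨fun i => f (enc i), fun i => ?_, ?_⟩
    · have h : ∃ j, enc j = enc i := ⟨i, rfl⟩
      have h1 := hg1 (enc i) (S (enc i))
      have h2 : H (enc i) = G i := by
        simp only [H, dif_pos h]
        rw [henc h.choose_spec]
      rw [h2] at h1
      exact h1
    · intro a b hab
      apply henc
      rcases lt_trichotomy (enc a) (enc b) with h | h | h
      · exact absurd hab (hfne _ _ h)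
      · exact h
      · exact absurd hab.symm (hfne _ _ h)
  · exact ⟨fun i => absurd ⟨i⟩ hι, fun i => absurd ⟨i⟩ hι, fun i => absurd ⟨i⟩ hι⟩

/-- **Spine theorem**, countable case, in functional form. -/
theorem countable_spine_fun [Countable P] (w : ℕ)
    (hw : ∀ A : Finset P, IsAntichain (· ≤ ·) (A : Set P) → A.card ≤ w) :
    ∃ Φ : P → P, (∀ p, Φ (Φ p) = Φ p) ∧ (∀ p q, Φ p = Φ q → ¬ p < q) ∧
      (∀ p q, Φ p ≤ Φ q ∨ Φ q ≤ Φ p) := by
  classical
  have hfac : ∀ s : ℕ → P, ∃ m n, m < n ∧ (s m ≤ s n ∨ s n ≤ s m) := by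
    intro s
    by_contra hcon
    push Not at hcon
    have hinj : Function.Injective s := by
      intro a b hab
      by_contra hne
      rcases lt_or_gt_of_ne hne with h1 | h1
      · exact (hcon a b h1).1 hab.le
      · exact (hcon b a h1).1 hab.ge
    have := hw ((Finset.range (w + 1)).image s) (by
      intro p hp q hq hpq hle
      simp only [Finset.coe_image, Set.mem_image, Finset.coe_range, Set.mem_Iio] at hp hq
      obtain ⟨i, hi, rfl⟩ := hp
      obtain ⟨j, hj, rfl⟩ := hq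
      rcases lt_trichotomy i j with h3 | h3 | h3
      · exact (hcon i j h3).1 hle
      · exact hpq (by rw [h3])
      · exact (hcon j i h3).2 hle)
    rw [Finset.card_image_of_injective _ hinj, Finset.card_range] at this
    omega
  obtain ⟨X, hX1, hX2⟩ := exists_ST (P := P) w hw
  obtain ⟨c, hc1, hc2, hc3, hc4⟩ := locfin_spine X hX1
  -- good classes for `y ∉ X`
  let G : {y // y ∉ X} → Set P := fun y =>
    {z | z ∈ X ∧ c z = z ∧ ∀ x ∈ X, c x = z → ¬ x ≤ y.1 ∧ ¬ y.1 ≤ x}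
  have hG : ∀ y, (G y).Infinite := by
    rintro ⟨y, hy⟩ hfin
    apply hX2 y hy
    have hbad := bad_finite' hfac X hX1 c hc3 y hy
    have hcl : ∀ z ∈ X, {x | x ∈ X ∧ c x = z}.Finite := by
      intro z hz
      by_cases hcz : c z = z
      · refine ((Set.finite_singleton z).union (hX1 z hz)).subset ?_
        rintro x ⟨hx, hxz⟩
        by_cases heq : x = z
        · exact Or.inl heq
        · right
          refine ⟨hx, fun hle => ?_, fun hle => ?_⟩
          · exact hc3 x hx z hz (hxz.trans hcz.symm) (lt_of_le_of_ne hle heq)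
          · exact hc3 z hz x hx (hcz.trans hxz.symm) (lt_of_le_of_ne hle (Ne.symm heq))
      · refine Set.Finite.subset Set.finite_empty ?_
        rintro x ⟨hx, hxz⟩
        exact absurd (by rw [← hxz]; exact hc2 x hx) hcz
    have hun := (hfin.union hbad)
    have hZ : (⋃ z ∈ (G ⟨y, hy⟩ ∪ {z | ∃ t ∈ X, ∃ s ∈ X, c t = z ∧ c s = z ∧
        (¬ t ≤ y ∧ ¬ y ≤ t) ∧ ¬ (¬ s ≤ y ∧ ¬ y ≤ s)}), {x | x ∈ X ∧ c x = z}).Finite := by
      refine hun.biUnion ?_
      rintro z (hz | ⟨t, ht, s, hs, h3, h4, -⟩)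
      · exact hcl z hz.1
      · exact hcl z (h3 ▸ hc1 t ht)
    refine hZ.subset ?_
    rintro q ⟨hqX, hq1, hq2⟩
    simp only [Set.mem_iUnion]
    refine ⟨c q, ?_, hqX, rfl⟩
    by_cases hall : ∀ x ∈ X, c x = c q → ¬ x ≤ y ∧ ¬ y ≤ x
    · left
      exact ⟨hc1 q hqX, hc2 q hqX, hall⟩
    · right
      push Not at hall
      obtain ⟨s, hs, hsq, hsy⟩ := hall
      exact ⟨q, hqX, s, hs, rfl, hsq, ⟨hq1, hq2⟩, fun h => h.2 (hsy h.1)⟩
  obtain ⟨f, hf1, hf2⟩ := exists_transversal_countable G hG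
  let Φ : P → P := fun p => if h : p ∈ X then c p else f ⟨p, h⟩
  have hΦX : ∀ p ∈ X, Φ p = c p := fun p hp => by simp only [Φ, dif_pos hp]
  have hΦn : ∀ p (hp : p ∉ X), Φ p = f ⟨p, hp⟩ := fun p hp => by simp only [Φ, dif_neg hp]
  have hΦmem : ∀ p, Φ p ∈ X ∧ c (Φ p) = Φ p := by
    intro p
    by_cases hp : p ∈ X
    · rw [hΦX p hp]; exact ⟨hc1 p hp, hc2 p hp⟩
    · rw [hΦn p hp]; exact ⟨(hf1 ⟨p, hp⟩).1, (hf1 ⟨p, hp⟩).2.1⟩
  refine ⟨Φ, ?_, ?_, ?_⟩
  · intro p
    rw [hΦX _ (hΦmem p).1, (hΦmem p).2]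
  · intro p q hpq hlt
    by_cases hp : p ∈ X <;> by_cases hq : q ∈ X
    · rw [hΦX p hp, hΦX q hq] at hpq
      exact hc3 p hp q hq hpq hlt
    · rw [hΦX p hp, hΦn q hq] at hpq
      exact ((hf1 ⟨q, hq⟩).2.2 p hp hpq).1 hlt.le
    · rw [hΦn p hp, hΦX q hq] at hpq
      exact ((hf1 ⟨p, hp⟩).2.2 q hq hpq.symm).2 hlt.le
    · rw [hΦn p hp, hΦn q hq] at hpq
      have := hf2 hpq
      simp only [Subtype.mk.injEq] at this
      exact absurd hlt (this ▸ lt_irrefl _)
  · intro p q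
    have h1 := hΦmem p
    have h2 := hΦmem q
    have h3 := hc4 (Φ p) h1.1 (Φ q) h2.1
    rw [h1.2, h2.2] at h3
    exact h3

/-- **Spine theorem**, countable case. -/
theorem countable_spine [Countable P] (w : ℕ)
    (hw : ∀ A : Finset P, IsAntichain (· ≤ ·) (A : Set P) → A.card ≤ w) :
    ∃ C : Set P, IsChain (· ≤ ·) C ∧ ∃ D : Set (Set P), Setoid.IsPartition D ∧
      (∀ A ∈ D, IsAntichain (· ≤ ·) A) ∧ (∀ A ∈ D, (A ∩ C).Nonempty) := by
  obtain ⟨Φ, h1, h2, h3⟩ := countable_spine_fun w hw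
  refine ⟨Set.range Φ, ?_, (Setoid.ker Φ).classes, Setoid.isPartition_classes _, ?_, ?_⟩
  · rintro _ ⟨p, rfl⟩ _ ⟨q, rfl⟩ _
    exact h3 p q
  · rintro A ⟨y, rfl⟩ a ha b hb hab hle
    have ha' : Φ a = Φ y := ha
    have hb' : Φ b = Φ y := hb
    exact h2 a b (ha'.trans hb'.symm) (lt_of_le_of_ne hle hab)
  · rintro A ⟨y, rfl⟩
    exact ⟨Φ y, h1 y, y, rfl⟩

end Pool.Agent.TH398
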