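import Pool.Agent.TH398.GKer
import Pool.Agent.TH398.Spine

set_option autoImplicit false

/-!
# Attaching elements to spines
-/

namespace Pool.Agent.TH398

open Cardinal

universe u

variable {P : Type u} [PartialOrder P]

/-- the elements of `X` incomparable with `y` -/
def NI (X : Set P) (y : P) : Set P := {q | q ∈ X ∧ ¬ q ≤ y ∧ ¬ y ≤ q}

theorem NI_subset (X : Set P) (y : P) : NI X y ⊆ X := fun _ h => h.1

theorem NI_mono {X Y : Set P} (h : X ⊆ Y) (y : P) : NI X y ⊆ NI Y y := fun _ hq => ⟨h hq.1, hq.2⟩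

theorem NI_comm {X : Set P} {x y : P} (hx : x ∈ X) (h : y ∈ NI X x) : x ∈ NI X y :=
  ⟨hx, h.2.2, h.2.1⟩

/-- width at most `w` -/
def Wd (P : Type u) [PartialOrder P] (w : ℕ) : Prop :=
  ∀ A : Finset P, IsAntichain (· ≤ ·) (A : Set P) → A.card ≤ w

theorem Wd.dual {w : ℕ} (hw : Wd P w) : Wd Pᵒᵈ w := by
  intro A hA
  refine hw A ?_
  intro a ha b hb hab hle
  exact hA hb ha (fun h => hab h.symm) hle

theorem Wd.sub {w : ℕ} (hw : Wd P w) (S : Set P) : Wd S w := by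
  classical
  intro A hA
  have h := hw (A.map ⟨Subtype.val, Subtype.val_injective⟩) (by
    intro a ha b hb hab hle
    simp only [Finset.coe_map, Function.Embedding.coeFn_mk, Set.mem_image, Finset.mem_coe] at ha hb
    obtain ⟨a', ha', rfl⟩ := ha
    obtain ⟨b', hb', rfl⟩ := hb
    exact hA ha' hb' (fun h => hab (by rw [h])) hle)
  simpa using h

/-- spines on a subset -/
structure IsSpine (S : Set P) (Φ : P → P) : Prop where
  mem : ∀ x ∈ S, Φ x ∈ S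
  idem : ∀ x ∈ S, Φ (Φ x) = Φ x
  anti : ∀ x ∈ S, ∀ y ∈ S, Φ x = Φ y → ¬ x < y
  chain : ∀ x ∈ S, ∀ y ∈ S, Φ x ≤ Φ y ∨ Φ y ≤ Φ x

theorem IsSpine.dual {S : Set P} {Φ : P → P} (h : IsSpine S Φ) : IsSpine (P := Pᵒᵈ) S Φ where
  mem := h.mem
  idem := h.idem
  anti := fun x hx y hy hxy => h.anti y hy x hx hxy.symm
  chain := fun x hx y hy => (h.chain x hx y hy).symm

theorem IsST.lt {lam : Cardinal.{u}} {X Y : Set P} (h : IsST lam X Y) :
    ∀ x ∈ X, #(NI X x) < lam := h.2.1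

theorem IsST.le {lam : Cardinal.{u}} {X Y : Set P} (h : IsST lam X Y) :
    ∀ y ∈ Y, y ∉ X → lam ≤ #(NI X y) := h.2.2

/-- classes which meet the neighbourhood of `y` and contain an element below `y` -/
theorem bad_small {w : ℕ} (hw : Wd P w) {lam : Cardinal.{u}} (hlam : ℵ₀ ≤ lam)
    (X : Set P) (hX : ∀ x ∈ X, #(NI X x) < lam)
    (c : P → P) (hc : ∀ x ∈ X, ∀ y ∈ X, c x = c y → ¬ x < y) (y : P) :
    #({z | ∃ t ∈ X, ∃ s ∈ X, c t = z ∧ c s = z ∧ (¬ t ≤ y ∧ ¬ y ≤ t) ∧ s < y} : Set P) < lam := by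
  classical
  by_contra hcon
  rw [not_lt] at hcon
  have hpos : (0 : Cardinal.{u}) < lam := lt_of_lt_of_le aleph0_pos hlam
  set B : Set P := {z | ∃ t ∈ X, ∃ s ∈ X, c t = z ∧ c s = z ∧ (¬ t ≤ y ∧ ¬ y ≤ t) ∧ s < y} with hB
  have hch : ∀ z : B, ∃ t ∈ X, ∃ s ∈ X, c t = z.1 ∧ c s = z.1 ∧ (¬ t ≤ y ∧ ¬ y ≤ t) ∧ s < y :=
    fun z => z.2
  choose t ht s hs h1 h2 h3 h4 using hch
  have htinj : Function.Injective t := fun a b hab => Subtype.ext (by rw [← h1 a, ← h1 b, hab])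
  have hsinj : Function.Injective s := fun a b hab => Subtype.ext (by rw [← h2 a, ← h2 b, hab])
  have hT : lam ≤ #(Set.range t) := by
    rw [mk_range_eq t htinj]
    exact hcon
  obtain ⟨e, he⟩ := GE.acc hlam w (Set.range t) (fun A _ hA => hw A hA) hT
  have hex : ∀ x ∈ e.S, ∃ z : B, t z ∈ e.nb x := by
    intro x hx
    have h5 : (e.nb x ∩ Set.range t).Nonempty := by
      rw [Set.nonempty_iff_ne_empty]
      intro h6
      have := he x hx
      rw [h6, mk_emptyCollection] at this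
      exact absurd this (not_le_of_gt hpos)
    obtain ⟨_, h6, ⟨z, rfl⟩⟩ := h5
    exact ⟨z, h6⟩
  obtain ⟨x0, hx0⟩ := e.ne
  obtain ⟨z0, hz0⟩ := hex x0 hx0
  have hz0S : t z0 ∈ e.S := hz0.1
  have hbig := he (t z0) hz0S
  by_cases heu : e.up
  · -- all other `s` are incomparable with `t z0`
    have hsub : e.nb (t z0) ∩ Set.range t ⊆ {t z0} ∪ t '' {z | s z ∈ NI X (t z0)} := by
      rintro _ ⟨hq, ⟨z, rfl⟩⟩
      by_cases hzz : t z = t z0
      · exact Or.inl hzz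
      · right
        refine ⟨z, ?_, rfl⟩
        have hle : t z0 ≤ t z := by
          rcases hq.2 with h6 | h6
          · exact h6.2
          · exact absurd heu h6.1
        refine ⟨hs z, fun h6 => ?_, fun h6 => ?_⟩
        · exact hc (s z) (hs z) (t z) (ht z) ((h2 z).trans (h1 z).symm)
            (lt_of_le_of_lt h6 (lt_of_le_of_ne hle (fun h => hzz h.symm)))
        · exact (h3 z0).1 (h6.trans (h4 z).le)
    have h5 : #({z | s z ∈ NI X (t z0)} : Set B) ≤ #(NI X (t z0)) :=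
      mk_le_of_injective (f := fun z : ({z | s z ∈ NI X (t z0)} : Set B) =>
        (⟨s z.1, z.2⟩ : NI X (t z0))) (by
          intro a b hab
          simp only [Subtype.mk.injEq] at hab
          exact Subtype.ext (hsinj hab))
    refine absurd (hbig.trans (mk_le_mk_of_subset hsub)) (not_le_of_gt ?_)
    refine lt_of_union hlam ?_ ?_
    · rw [mk_singleton]
      exact lt_of_lt_of_le one_lt_aleph0 hlam
    · exact lt_of_le_of_lt (mk_image_le.trans h5) (hX _ (ht z0))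
  · have hsub : e.nb (t z0) ∩ Set.range t ⊆ {t z0} ∪ NI X (s z0) := by
      rintro _ ⟨hq, ⟨z, rfl⟩⟩
      by_cases hzz : t z = t z0
      · exact Or.inl hzz
      · right
        have hle : t z ≤ t z0 := by
          rcases hq.2 with h6 | h6
          · exact absurd h6.1 heu
          · exact h6.2
        refine ⟨ht z, fun h6 => ?_, fun h6 => ?_⟩
        · exact (h3 z).1 (h6.trans (h4 z0).le)
        · exact hc (s z0) (hs z0) (t z0) (ht z0) ((h2 z0).trans (h1 z0).symm)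
            (lt_of_le_of_lt h6 (lt_of_le_of_ne hle hzz))
    refine absurd (hbig.trans (mk_le_mk_of_subset hsub)) (not_le_of_gt ?_)
    refine lt_of_union hlam ?_ (hX _ (hs z0))
    rw [mk_singleton]
    exact lt_of_lt_of_le one_lt_aleph0 hlam

/-- classes meeting the neighbourhood of `y` and not contained in it are few -/
theorem bad_small' {w : ℕ} (hw : Wd P w) {lam : Cardinal.{u}} (hlam : ℵ₀ ≤ lam)
    (X : Set P) (hX : ∀ x ∈ X, #(NI X x) < lam)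
    (c : P → P) (hc : ∀ x ∈ X, ∀ y ∈ X, c x = c y → ¬ x < y) (y : P) (hy : y ∉ X) :
    #({z | ∃ t ∈ X, ∃ s ∈ X, c t = z ∧ c s = z ∧ (¬ t ≤ y ∧ ¬ y ≤ t) ∧
      ¬ (¬ s ≤ y ∧ ¬ y ≤ s)} : Set P) < lam := by
  have h1 := bad_small hw hlam X hX c hc y
  have h2 : #({z | ∃ t ∈ X, ∃ s ∈ X, c t = z ∧ c s = z ∧ (¬ t ≤ y ∧ ¬ y ≤ t) ∧ y < s} : Set P)
      < lam := by
    have := bad_small (P := Pᵒᵈ) hw.dual hlam X (fun x hx => by
          refine lt_of_le_of_lt (mk_le_mk_of_subset ?_) (hX x hx)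
          rintro q ⟨hq1, hq2, hq3⟩
          exact ⟨hq1, hq3, hq2⟩) c (fun x hx y hy hxy hlt => hc y hy x hx hxy.symm hlt) y
    refine lt_of_le_of_lt (mk_le_mk_of_subset ?_) this
    rintro z ⟨t, ht, s, hs, h3, h4, h5, h6⟩
    exact ⟨t, ht, s, hs, h3, h4, ⟨h5.2, h5.1⟩, h6⟩
  refine lt_of_le_of_lt (mk_le_mk_of_subset ?_) (lt_of_union hlam h1 h2)
  rintro z ⟨t, ht, s, hs, h3, h4, h5, h6⟩
  by_cases hle : s ≤ y
  · left
    exact ⟨t, ht, s, hs, h3, h4, h5, lt_of_le_of_ne hle (fun h => hy (h ▸ hs))⟩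
  · right
    have h7 : y ≤ s := by
      by_contra h8
      exact h6 ⟨hle, h8⟩
    exact ⟨t, ht, s, hs, h3, h4, h5, lt_of_le_of_ne h7 (fun h => hy (h ▸ hs))⟩

theorem antichain_card_le {w : ℕ} (hw : Wd P w) (A : Set P) (hA : IsAntichain (· ≤ ·) A) :
    #A ≤ w := by
  classical
  by_contra hcon
  rw [not_le] at hcon
  have h1 : ((w + 1 : ℕ) : Cardinal.{u}) ≤ #A := by
    have := (Cardinal.natCast_add_one_le_iff (n := w) (c := #A)).2 hcon
    simpa using this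
  obtain ⟨s, hs⟩ := Cardinal.exists_finset_le_card A (w + 1) h1
  have h2 := hw (s.map ⟨Subtype.val, Subtype.val_injective⟩) (by
    intro a ha b hb hab hle
    simp only [Finset.coe_map, Function.Embedding.coeFn_mk, Set.mem_image, Finset.mem_coe] at ha hb
    obtain ⟨a', _, rfl⟩ := ha
    obtain ⟨b', _, rfl⟩ := hb
    exact hA a'.2 b'.2 hab hle)
  rw [Finset.card_map] at h2
  omega

/-- there are many good classes -/
theorem good_large {w : ℕ} (hw : Wd P w) {lam : Cardinal.{u}} (hlam : ℵ₀ ≤ lam)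
    (X : Set P) (hX : ∀ x ∈ X, #(NI X x) < lam)
    (c : P → P) (hc : IsSpine X c) (y : P) (hy : y ∉ X) (hy2 : lam ≤ #(NI X y)) :
    lam ≤ #({z | z ∈ X ∧ c z = z ∧ ∀ x ∈ X, c x = z → ¬ x ≤ y ∧ ¬ y ≤ x} : Set P) := by
  classical
  by_contra hcon
  rw [not_le] at hcon
  have hbad := bad_small' hw hlam X hX c hc.anti y hy
  have hun := lt_of_union hlam hcon hbad
  have hsub : NI X y ⊆ ⋃ z ∈ ({z | z ∈ X ∧ c z = z ∧ ∀ x ∈ X, c x = z → ¬ x ≤ y ∧ ¬ y ≤ x} ∪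
      {z | ∃ t ∈ X, ∃ s ∈ X, c t = z ∧ c s = z ∧ (¬ t ≤ y ∧ ¬ y ≤ t) ∧
        ¬ (¬ s ≤ y ∧ ¬ y ≤ s)} : Set P), {x | x ∈ X ∧ c x = z} := by
    rintro q ⟨hqX, hq1, hq2⟩
    simp only [Set.mem_iUnion]
    refine ⟨c q, ?_, hqX, rfl⟩
    by_cases hall : ∀ x ∈ X, c x = c q → ¬ x ≤ y ∧ ¬ y ≤ x
    · left
      exact ⟨hc.mem q hqX, hc.idem q hqX, hall⟩
    · right
      push Not at hall
      obtain ⟨s, hs, hsq, hsy⟩ := hall
      exact ⟨q, hqX, s, hs, rfl, hsq, ⟨hq1, hq2⟩, fun h => h.2 (hsy h.1)⟩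
  have h1 := (hy2.trans (mk_le_mk_of_subset hsub)).trans (mk_biUnion_le _ _)
  have h2 : (⨆ x : ({z | z ∈ X ∧ c z = z ∧ ∀ x ∈ X, c x = z → ¬ x ≤ y ∧ ¬ y ≤ x} ∪
      {z | ∃ t ∈ X, ∃ s ∈ X, c t = z ∧ c s = z ∧ (¬ t ≤ y ∧ ¬ y ≤ t) ∧
        ¬ (¬ s ≤ y ∧ ¬ y ≤ s)} : Set P), #({q | q ∈ X ∧ c q = x.1} : Set P)) ≤ (w : Cardinal.{u}) := by
    refine ciSup_le' ?_
    intro z
    refine antichain_card_le hw _ ?_
    rintro a ⟨ha, haz⟩ b ⟨hb, hbz⟩ hab hle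
    exact hc.anti a ha b hb (haz.trans hbz.symm) (lt_of_le_of_ne hle hab)
  have h3 := h1.trans (mul_le_mul_right h2 _)
  refine absurd h3 (not_le_of_gt ?_)
  exact mul_lt_of_lt hlam hun (lt_of_lt_of_le (natCast_lt_aleph0) hlam)

/-- distinct representatives -/
theorem exists_transversal {ι Q : Type u} {lam : Cardinal.{u}} (hι : #ι ≤ lam)
    (G : ι → Set Q) (hG : ∀ i, lam ≤ #(G i)) :
    ∃ f : ι → Q, (∀ i, f i ∈ G i) ∧ Function.Injective f := by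
  classical
  obtain ⟨r, wo, hr⟩ := Cardinal.exists_ord_eq ι
  have hwf : WellFounded r := wo.wf
  have hstep : ∀ (i : ι) (prev : ∀ j, r j i → Q), ∃ q ∈ G i, ∀ j (h : r j i), prev j h ≠ q := by
    intro i prev
    by_contra hcon
    push Not at hcon
    have h1 : G i ⊆ Set.range (fun j : {j // r j i} => prev j.1 j.2) := by
      intro q hq
      obtain ⟨j, h, hj⟩ := hcon q hq
      exact ⟨⟨j, h⟩, hj⟩
    have h2 : #({j // r j i}) < #ι := by
      have h0 : #({j // r j i}) = (Ordinal.typein r i).card := by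
        rw [← Ordinal.type_subrel r i]
        exact (Ordinal.card_type _).symm
      rw [h0]
      exact Cardinal.card_typein_lt (r := r) i hr
    have h3 : #(G i) ≤ #({j // r j i}) := (mk_le_mk_of_subset h1).trans mk_range_le
    exact absurd ((hG i).trans h3) (not_le_of_gt (lt_of_lt_of_le h2 hι))
  choose pick hp1 hp2 using hstep
  let f : ι → Q := hwf.fix pick
  have hf : ∀ i, f i = pick i (fun j _ => f j) := fun i => hwf.fix_eq pick i
  refine ⟨f, fun i => ?_, ?_⟩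
  · rw [hf]
    exact hp1 _ _
  · intro a b hab
    rcases @trichotomous _ r _ a b with h | h | h
    · exfalso
      apply hp2 b (fun j _ => f j) a h
      rw [← hf]
      exact hab
    · exact h
    · exfalso
      apply hp2 a (fun j _ => f j) b h
      rw [← hf]
      exact hab.symm

/-- **Attaching**: spines extend from ST sets. -/
theorem attach {w : ℕ} (hw : Wd P w) {lam : Cardinal.{u}} (hlam : ℵ₀ ≤ lam)
    {X Z : Set P} (hST : IsST lam X Z) (hcard : #(Z \ X : Set P) ≤ lam) (Φ : P → P)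
    (hΦ : IsSpine X Φ) :
    ∃ Ψ : P → P, IsSpine Z Ψ ∧ (∀ x ∈ X, Ψ x = Φ x) ∧
      (∀ z ∈ Z, Ψ z ∈ X ∧ Φ (Ψ z) = Ψ z) := by
  classical
  let G : (Z \ X : Set P) → Set P := fun y =>
    {z | z ∈ X ∧ Φ z = z ∧ ∀ x ∈ X, Φ x = z → ¬ x ≤ y.1 ∧ ¬ y.1 ≤ x}
  obtain ⟨f, hf1, hf2⟩ := exists_transversal hcard G (fun y =>
    good_large hw hlam X hST.lt Φ hΦ y.1 y.2.2 (hST.le y.1 y.2.1 y.2.2))
  let Ψ : P → P := fun p => if h : p ∈ Z \ X then f ⟨p, h⟩ else Φ p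
  have hΨX : ∀ p ∈ X, Ψ p = Φ p := fun p hp => by
    have : p ∉ Z \ X := fun h => h.2 hp
    simp only [Ψ, dif_neg this]
  have hΨn : ∀ p (hp : p ∈ Z \ X), Ψ p = f ⟨p, hp⟩ := fun p hp => by simp only [Ψ, dif_pos hp]
  have hΨmem : ∀ p ∈ Z, Ψ p ∈ X ∧ Φ (Ψ p) = Ψ p := by
    intro p hpZ
    by_cases hp : p ∈ X
    · rw [hΨX p hp]; exact ⟨hΦ.mem p hp, hΦ.idem p hp⟩
    · rw [hΨn p ⟨hpZ, hp⟩]; exact ⟨(hf1 ⟨p, ⟨hpZ, hp⟩⟩).1, (hf1 ⟨p, ⟨hpZ, hp⟩⟩).2.1⟩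
  refine ⟨Ψ, ⟨?_, ?_, ?_, ?_⟩, hΨX, hΨmem⟩
  · intro p hp
    exact hST.1 (hΨmem p hp).1
  · intro p hp
    rw [hΨX _ (hΨmem p hp).1, (hΨmem p hp).2]
  · intro p hpZ q hqZ hpq hlt
    by_cases hp : p ∈ X <;> by_cases hq : q ∈ X
    · rw [hΨX p hp, hΨX q hq] at hpq
      exact hΦ.anti p hp q hq hpq hlt
    · rw [hΨX p hp, hΨn q ⟨hqZ, hq⟩] at hpq
      exact ((hf1 ⟨q, ⟨hqZ, hq⟩⟩).2.2 p hp hpq).1 hlt.le
    · rw [hΨn p ⟨hpZ, hp⟩, hΨX q hq] at hpq
      exact ((hf1 ⟨p, ⟨hpZ, hp⟩⟩).2.2 q hq hpq.symm).2 hlt.le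
    · rw [hΨn p ⟨hpZ, hp⟩, hΨn q ⟨hqZ, hq⟩] at hpq
      have h5 : p = q := congrArg Subtype.val (hf2 hpq)
      exact absurd hlt (h5 ▸ lt_irrefl _)
  · intro p hp q hq
    have h1 := hΨmem p hp
    have h2 := hΨmem q hq
    have h3 := hΦ.chain (Ψ p) h1.1 (Ψ q) h2.1
    rw [h1.2, h2.2] at h3
    exact h3

end Pool.Agent.TH398
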