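import Pool.Agent.TH398.Cut

set_option autoImplicit false

/-!
# Cofinal sequences of cardinals and large intervals
-/

namespace Pool.Agent.TH398

open Cardinal

universe u

theorem exists_cofinal_wo (κ : Cardinal.{u}) :
    ∃ (ι : Type u) (_ : LinearOrder ι) (_ : WellFoundedLT ι) (f : ι → Cardinal.{u}),
      #ι = κ.ord.cof ∧ (∀ i : ι, #(Set.Iio i) < κ.ord.cof) ∧ (∀ i, f i < κ) ∧
      ∀ c < κ, ∃ i, c ≤ f i := by
  obtain ⟨s, hs, hst⟩ := Ordinal.exists_ord_cof_eq (κ.ord.ToType)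
  have h1 : #s = κ.ord.cof := by
    have h2 := congrArg Ordinal.card hst
    rw [Cardinal.card_ord, Ordinal.card_type, Ordinal.cof_toType] at h2
    exact h2
  have h3 : (#s).ord = Ordinal.type (α := s) (· < ·) := by
    rw [h1, hst, Ordinal.cof_toType]
  refine ⟨s, inferInstance, inferInstance, fun x => #(Set.Iio x.1), h1, ?_, ?_, ?_⟩
  · intro i
    rw [← h1]
    exact Cardinal.mk_Iio_lt i h3
  · intro i
    have h4 := Cardinal.mk_Iio_lt i.1 (by simp)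
    simpa using h4
  · intro c hc
    have h4 : c.ord < Ordinal.type (α := κ.ord.ToType) (· < ·) := by
      rw [Ordinal.type_toType]
      exact Cardinal.ord_lt_ord.2 hc
    obtain ⟨x, hx⟩ := Ordinal.typein_surj (α := κ.ord.ToType) (· < ·) h4
    obtain ⟨y, hy, hxy⟩ := hs x
    refine ⟨⟨y, hy⟩, ?_⟩
    have h5 : c = #(Set.Iio x) := by
      have h6 := congrArg Ordinal.card hx
      rw [Cardinal.card_ord] at h6
      rw [← h6]
      rfl
    rw [h5]
    exact mk_le_mk_of_subset (Set.Iio_subset_Iio hxy)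

theorem exists_seq (κ : Cardinal.{u}) (hlim : ∀ c < κ, Order.succ c < κ)
    (G : Cardinal.{u} → Cardinal.{u}) (hG : ∀ c < κ, G c < κ) (l0 : Cardinal.{u})
    (hl0 : ℵ₀ ≤ l0) (hl0κ : l0 < κ) :
    ∃ (ι : Type u) (_ : LinearOrder ι) (_ : WellFoundedLT ι) (Λ : ι → Cardinal.{u}),
      #ι = κ.ord.cof ∧ (∀ i : ι, (Λ i).IsRegular) ∧ (∀ i, l0 < Λ i) ∧ (∀ i, Λ i < κ) ∧
      (∀ i j, i < j → Λ i < Λ j ∧ G (Λ i) ≤ Λ j) ∧ ∀ c < κ, ∃ i, c ≤ Λ i := by
  obtain ⟨ι, hlo, hwf, f, hι, hIio, hf, hcof⟩ := exists_cofinal_wo κ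
  let F : ∀ i : ι, (∀ j, j < i → Cardinal.{u}) → Cardinal.{u} := fun i prev =>
    Order.succ (max (max l0 (f i))
      (⨆ j : Set.Iio i, max (G (prev j.1 j.2)) (prev j.1 j.2)))
  let Λ : ι → Cardinal.{u} := (wellFounded_lt (α := ι)).fix F
  have hΛ : ∀ i, Λ i = Order.succ (max (max l0 (f i))
      (⨆ j : Set.Iio i, max (G (Λ j.1)) (Λ j.1))) := fun i =>
    (wellFounded_lt (α := ι)).fix_eq F i
  have hlt : ∀ i, Λ i < κ := by
    intro i
    induction i using (wellFounded_lt (α := ι)).induction with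
    | _ i ih =>
      rw [hΛ]
      apply hlim
      refine max_lt (max_lt hl0κ (hf i)) ?_
      refine Cardinal.iSup_lt_of_lt_cof_ord (hIio i) ?_
      intro j
      exact max_lt (hG _ (ih j.1 j.2)) (ih j.1 j.2)
  have hge : ∀ i, l0 < Λ i := by
    intro i
    rw [hΛ]
    exact Order.lt_succ_of_le ((le_max_left _ _).trans (le_max_left _ _))
  refine ⟨ι, hlo, hwf, Λ, hι, ?_, hge, hlt, ?_, ?_⟩
  · intro i
    rw [hΛ]
    exact isRegular_succ (hl0.trans ((le_max_left _ _).trans (le_max_left _ _)))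
  · intro i j hij
    have h1 : max (G (Λ i)) (Λ i) ≤ ⨆ j' : Set.Iio j, max (G (Λ j'.1)) (Λ j'.1) :=
      le_ciSup (f := fun j' : Set.Iio j => max (G (Λ j'.1)) (Λ j'.1))
        Cardinal.bddAbove_of_small ⟨i, hij⟩
    have h2 : (⨆ j' : Set.Iio j, max (G (Λ j'.1)) (Λ j'.1)) < Λ j := by
      rw [hΛ j]
      exact Order.lt_succ_of_le (le_max_right _ _)
    exact ⟨lt_of_le_of_lt ((le_max_right _ _).trans h1) h2,
      (((le_max_left _ _).trans h1).trans_lt h2).le⟩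
  · intro c hc
    obtain ⟨i, hi⟩ := hcof c hc
    refine ⟨i, hi.trans ?_⟩
    rw [hΛ]
    exact ((le_max_right _ _).trans (le_max_left _ _)).trans (Order.le_succ _)

variable {P : Type u} [PartialOrder P]

theorem large_interval {κ : Cardinal.{u}} (hκ : ℵ₀ ≤ κ) (hsing : κ.ord.cof < κ)
    (hN : ∀ x : P, #(NI Set.univ x) < κ) (w : P) (hA : κ ≤ #({z | w < z} : Set P))
    (θ : Cardinal.{u}) (hθ : θ < κ) : ∃ b, θ ≤ #({z | w < z ∧ z ≤ b} : Set P) := by
  by_contra hcon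
  push Not at hcon
  obtain ⟨ι, _, _, f, hι, -, hf, hcof⟩ := exists_cofinal_wo κ
  have hcof0 : ℵ₀ ≤ κ.ord.cof := by
    by_contra h
    rw [not_le, Ordinal.cof_lt_aleph0_iff] at h
    exact absurd (Ordinal.one_lt_cof_iff.2 (Cardinal.isSuccLimit_ord hκ)) (not_lt_of_ge h)
  have hκ' : ℵ₀ < κ := lt_of_le_of_lt hcof0 hsing
  set θ' : Cardinal.{u} := max θ ℵ₀ with hθ'
  have hθ'κ : θ' < κ := max_lt hθ hκ'
  have hcov : ({z | w < z} : Set P) ⊆
      ⋃ i : ι, {x | w < x ∧ #(NI Set.univ x) ≤ f i} := by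
    intro x hx
    obtain ⟨i, hi⟩ := hcof _ (hN x)
    rw [Set.mem_iUnion]
    exact ⟨i, hx, hi⟩
  obtain ⟨i, hi⟩ : ∃ i : ι, θ' ≤ #({x | w < x ∧ #(NI Set.univ x) ≤ f i} : Set P) := by
    by_contra h
    push Not at h
    refine absurd (hA.trans (mk_le_mk_of_subset hcov)) (not_le_of_gt ?_)
    refine lt_of_le_of_lt (mk_iUnion_le _) ?_
    refine lt_of_le_of_lt (mul_le_mul' le_rfl (ciSup_le' (a := θ') (fun i => (h i).le))) ?_
    rw [hι]
    exact mul_lt_of_lt hκ hsing hθ'κ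
  obtain ⟨E, hE, hEc⟩ := Cardinal.le_mk_iff_exists_subset.1 hi
  have hsub : ({z | w < z} : Set P) ⊆ ⋃ x ∈ E, ({z | w < z ∧ z ≤ x} ∪ NI Set.univ x) := by
    intro z hz
    obtain ⟨x, hx, hxn⟩ : ∃ x ∈ E, ¬ x ≤ z := by
      by_contra h
      push Not at h
      refine absurd (hEc.ge.trans (mk_le_mk_of_subset (t := {x | w < x ∧ x ≤ z}) ?_))
        (not_le_of_gt (lt_of_lt_of_le (hcon z) (le_max_left _ _)))
      intro x hx
      exact ⟨(hE hx).1, h x hx⟩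
    simp only [Set.mem_iUnion]
    refine ⟨x, hx, ?_⟩
    by_cases h1 : z ≤ x
    · exact Or.inl ⟨hz, h1⟩
    · exact Or.inr ⟨Set.mem_univ _, h1, hxn⟩
  refine absurd (hA.trans (mk_le_mk_of_subset hsub)) (not_le_of_gt ?_)
  refine lt_of_le_of_lt (mk_biUnion_le _ _) ?_
  refine lt_of_le_of_lt (mul_le_mul' hEc.le (ciSup_le' (a := θ' + f i) (fun x => ?_))) ?_
  · refine (mk_union_le _ _).trans (add_le_add ?_ (hE x.2).2)
    exact (hcon x.1).le.trans (le_max_left _ _)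
  · exact mul_lt_of_lt hκ hθ'κ (add_lt_of_lt hκ hθ'κ (hf i))

end Pool.Agent.TH398
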