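import Pool.Agent.TH398.Attach

set_option autoImplicit false

/-!
# Components of the incomparability graph, towers, and spines from towers
-/

namespace Pool.Agent.TH398

open Cardinal

universe u

variable {P : Type u} [PartialOrder P]

/-- incomparability inside `X` -/
def NR (X : Set P) (x y : P) : Prop := x ∈ X ∧ y ∈ NI X x

theorem NR_symm {X : Set P} {x y : P} (h : NR X x y) : NR X y x := ⟨h.2.1, NI_comm h.1 h.2⟩

/-- components of the incomparability graph of `X` -/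
def comp (X : Set P) (x : P) : Set P := {y | Relation.ReflTransGen (NR X) x y}

theorem comp_self (X : Set P) (x : P) : x ∈ comp X x := Relation.ReflTransGen.refl

theorem comp_symm {X : Set P} {x y : P} (h : y ∈ comp X x) : x ∈ comp X y := by
  have h' : Relation.ReflTransGen (NR X) x y := h
  change Relation.ReflTransGen (NR X) y x
  induction h' with
  | refl => exact Relation.ReflTransGen.refl
  | tail hxy hyz ih => exact Relation.ReflTransGen.head (NR_symm hyz) (ih hxy)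

theorem comp_trans {X : Set P} {x y z : P} (h : y ∈ comp X x) (h' : z ∈ comp X y) :
    z ∈ comp X x := Relation.ReflTransGen.trans h h'

theorem comp_eq {X : Set P} {x y : P} (h : y ∈ comp X x) : comp X y = comp X x :=
  Set.Subset.antisymm (fun _ hz => comp_trans h hz) (fun _ hz => comp_trans (comp_symm h) hz)

theorem comp_subset {X : Set P} {x : P} (hx : x ∈ X) : comp X x ⊆ X := by
  intro y hy
  rcases Relation.ReflTransGen.cases_tail hy with h | ⟨z, _, h⟩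
  · rw [h]; exact hx
  · exact h.2.1

theorem mem_comp_of_NI {X : Set P} {x y : P} (hx : x ∈ X) (h : y ∈ NI X x) : y ∈ comp X x :=
  Relation.ReflTransGen.single ⟨hx, h⟩

theorem NI_subset_comp {X : Set P} {x y : P} (hx : x ∈ X) (hy : y ∈ comp X x) :
    NI X y ⊆ comp X x := fun _ hz => comp_trans hy (mem_comp_of_NI (comp_subset hx hy) hz)

theorem comp_small {κ : Cardinal.{u}} (hκ : κ.IsRegular) (hκ' : ℵ₀ < κ) (X : Set P)
    (hX : ∀ x ∈ X, #(NI X x) < κ) (x : P) (hx : x ∈ X) : #(comp X x) < κ := by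
  let D : ℕ → Set P := fun n => Nat.rec {x} (fun _ s => s ∪ ⋃ y ∈ s, NI X y) n
  have hD : ∀ n, D (n + 1) = D n ∪ ⋃ y ∈ D n, NI X y := fun n => rfl
  have hsub : ∀ n, D n ⊆ X := by
    intro n
    induction n with
    | zero => intro y hy; rw [Set.mem_singleton_iff.1 hy]; exact hx
    | succ n ih =>
      rw [hD]
      rintro y (hy | hy)
      · exact ih hy
      · simp only [Set.mem_iUnion] at hy
        obtain ⟨z, _, hy⟩ := hy
        exact hy.1
  have hsmall : ∀ n : ℕ, #(↥(D n)) < κ := by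
    intro n
    induction n with
    | zero =>
      have : #(↥(D 0)) = 1 := mk_singleton x
      rw [this]
      exact lt_trans one_lt_aleph0 hκ'
    | succ n ih =>
      rw [hD]
      refine lt_of_union hκ.aleph0_le ih ?_
      exact (card_biUnion_lt_iff_forall_of_isRegular (t := fun y _ => NI X y) hκ ih).2
        (fun y hy => hX y (hsub n hy))
  have hcov : comp X x ⊆ ⋃ n : ULift.{u} ℕ, D n.down := by
    intro y hy
    rw [Set.mem_iUnion]
    induction hy with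
    | refl => exact ⟨⟨0⟩, Set.mem_singleton x⟩
    | tail _ h ih =>
      obtain ⟨⟨n⟩, hn⟩ := ih
      refine ⟨⟨n + 1⟩, ?_⟩
      change _ ∈ D (n + 1)
      rw [hD]
      right
      simp only [Set.mem_iUnion]
      exact ⟨_, hn, h.2⟩
  refine lt_of_le_of_lt (mk_le_mk_of_subset hcov) ?_
  refine (card_iUnion_lt_iff_forall_of_isRegular hκ ?_).2 (fun n => hsmall n.down)
  simpa using hκ'

/-- towers of ST sets -/
structure IsTower (S : Set P) (X : Cardinal.{u} → Set P) : Prop where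
  st : ∀ lam, ℵ₀ ≤ lam → IsST lam (X lam) S
  mono : ∀ lam lam', ℵ₀ ≤ lam → lam ≤ lam' → X lam ⊆ X lam'

theorem IsTower.sub {S : Set P} {X : Cardinal.{u} → Set P} (h : IsTower S X)
    {lam lam' : Cardinal.{u}} (h1 : ℵ₀ ≤ lam) (h2 : lam ≤ lam') : IsST lam (X lam) (X lam') :=
  ⟨h.mono lam lam' h1 h2, (h.st lam h1).2.1, fun y hy hyn =>
    (h.st lam h1).2.2 y ((h.st lam' (h1.trans h2)).1 hy) hyn⟩

theorem spine_self {S : Set P} {Φ : P → P} (h : IsSpine S Φ) {x : P} (hx : x ∈ S) :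
    Φ x = x ∨ Φ x ∈ NI S x := by
  by_cases heq : Φ x = x
  · exact Or.inl heq
  · right
    refine ⟨h.mem x hx, fun hle => ?_, fun hle => ?_⟩
    · exact h.anti (Φ x) (h.mem x hx) x hx (h.idem x hx) (lt_of_le_of_ne hle heq)
    · exact h.anti x hx (Φ x) (h.mem x hx) (h.idem x hx).symm
        (lt_of_le_of_ne hle (fun h => heq h.symm))

/-- Extension of a spine to a larger set with small components. -/
theorem extend_comps {w : ℕ} (hw : Wd P w) {lam : Cardinal.{u}} (hlam : ℵ₀ ≤ lam)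
    {X Z : Set P} (hST : IsST lam X Z) (hcomp : ∀ z ∈ Z, #(comp Z z) ≤ lam)
    (Φ : P → P) (hΦ : IsSpine X Φ) :
    ∃ Ψ : P → P, IsSpine Z Ψ ∧ (∀ x ∈ X, Ψ x = Φ x) := by
  classical
  have hex : ∀ D : Set P, ∃ Ψ : P → P, (∃ z ∈ Z, D = comp Z z) →
      (IsSpine D Ψ ∧ (∀ x ∈ X ∩ D, Ψ x = Φ x) ∧ ∀ z ∈ D, Ψ z ∈ X ∩ D ∧ Φ (Ψ z) = Ψ z) := by
    intro D
    by_cases hD : ∃ z ∈ Z, D = comp Z z
    · obtain ⟨z, hz, rfl⟩ := hD
      have h1 : IsST lam (X ∩ comp Z z) (comp Z z) := by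
        refine ⟨Set.inter_subset_right, ?_, ?_⟩
        · intro x hx
          refine lt_of_le_of_lt (mk_le_mk_of_subset ?_) (hST.lt x hx.1)
          exact NI_mono Set.inter_subset_left x
        · intro y hy hyX
          have hyX' : y ∉ X := fun h => hyX ⟨h, hy⟩
          refine (hST.le y (comp_subset hz hy) hyX').trans (mk_le_mk_of_subset ?_)
          intro q hq
          exact ⟨⟨hq.1, NI_subset_comp hz hy (NI_mono hST.1 y hq)⟩, hq.2⟩
      have h2 : IsSpine (X ∩ comp Z z) Φ := by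
        refine ⟨fun x hx => ?_, fun x hx => hΦ.idem x hx.1,
          fun x hx y hy => hΦ.anti x hx.1 y hy.1, fun x hx y hy => hΦ.chain x hx.1 y hy.1⟩
        refine ⟨hΦ.mem x hx.1, ?_⟩
        rcases spine_self hΦ hx.1 with h | h
        · rw [h]; exact hx.2
        · exact NI_subset_comp hz hx.2 (NI_mono hST.1 x h)
      obtain ⟨Ψ, h3, h4, h5⟩ := attach hw hlam h1
        ((mk_le_mk_of_subset Set.sdiff_subset).trans (hcomp z hz)) Φ h2
      exact ⟨Ψ, fun _ => ⟨h3, h4, h5⟩⟩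
    · exact ⟨id, fun h => absurd h hD⟩
  choose T hT using hex
  have hT1 : ∀ z ∈ Z, IsSpine (comp Z z) (T (comp Z z)) := fun z hz => (hT _ ⟨z, hz, rfl⟩).1
  have hT2 : ∀ z ∈ Z, ∀ x ∈ X ∩ comp Z z, T (comp Z z) x = Φ x :=
    fun z hz => (hT _ ⟨z, hz, rfl⟩).2.1
  have hT3 : ∀ z ∈ Z, ∀ x ∈ comp Z z, T (comp Z z) x ∈ X ∩ comp Z z ∧
      Φ (T (comp Z z) x) = T (comp Z z) x :=
    fun z hz => (hT _ ⟨z, hz, rfl⟩).2.2
  let Ψ : P → P := fun z => T (comp Z z) z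
  have hΨX : ∀ x ∈ X, Ψ x = Φ x := fun x hx => hT2 x (hST.1 hx) x ⟨hx, comp_self _ _⟩
  have hΨ : ∀ z ∈ Z, Ψ z ∈ X ∩ comp Z z ∧ Φ (Ψ z) = Ψ z := fun z hz =>
    hT3 z hz z (comp_self _ _)
  refine ⟨Ψ, ⟨?_, ?_, ?_, ?_⟩, hΨX⟩
  · intro z hz
    exact hST.1 (hΨ z hz).1.1
  · intro z hz
    rw [hΨX _ (hΨ z hz).1.1, (hΨ z hz).2]
  · intro x hx y hy hxy
    have h1 : comp Z x = comp Z y := by
      have h2 := comp_eq (hΨ x hx).1.2
      have h3 := comp_eq (hΨ y hy).1.2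
      rw [hxy] at h2
      rw [← h2, h3]
    have h4 : T (comp Z x) x = T (comp Z y) y := hxy
    rw [← h1] at h4
    exact (hT1 x hx).anti x (comp_self _ _) y (by rw [h1]; exact comp_self _ _) h4
  · intro x hx y hy
    have h3 := hΦ.chain (Ψ x) (hΨ x hx).1.1 (Ψ y) (hΨ y hy).1.1
    rw [(hΨ x hx).2, (hΨ y hy).2] at h3
    exact h3

/-- towers are continuous -/
theorem IsTower.exists_mem {S : Set P} {X : Cardinal.{u} → Set P} (h : IsTower S X)
    (L : Set Cardinal.{u}) (hne : L.Nonempty) (hL : ∀ l ∈ L, ℵ₀ ≤ l) (hb : BddAbove L)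
    (x : P) (hx : x ∈ X (sSup L)) : ∃ l ∈ L, x ∈ X l := by
  obtain ⟨l0, hl0⟩ := hne
  have hs : ℵ₀ ≤ sSup L := (hL l0 hl0).trans (le_csSup hb hl0)
  obtain ⟨l, hl, hlt⟩ := exists_lt_of_lt_csSup ⟨l0, hl0⟩ ((h.st _ hs).lt x hx)
  refine ⟨l, hl, ?_⟩
  by_contra hxn
  have h1 := (h.st l (hL l hl)).le x ((h.st _ hs).1 hx) hxn
  exact absurd (h1.trans (mk_le_mk_of_subset (NI_mono (h.mono _ _ (hL l hl) (le_csSup hb hl)) x)))
    (not_le_of_gt hlt)

/-- A tower gives a spine. -/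
theorem spine_of_tower {w : ℕ} (hw : Wd P w) {X : Cardinal.{u} → Set P}
    (hX : IsTower (Set.univ : Set P) X) : ∃ Φ : P → P, IsSpine (Set.univ : Set P) Φ := by
  classical
  let θ : Cardinal.{u} := Order.succ (max ℵ₀ #P)
  have hθ0 : ℵ₀ ≤ θ := (le_max_left _ _).trans (Order.le_succ _)
  have hθ : #P < θ := lt_of_le_of_lt (le_max_right _ _) (Order.lt_succ _)
  have hXθ : X θ = Set.univ := by
    rw [Set.eq_univ_iff_forall]
    intro y
    by_contra hy
    exact absurd ((hX.st θ hθ0).le y (Set.mem_univ _) hy)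
      (not_le_of_gt (lt_of_le_of_lt (mk_set_le _) hθ))
  let A := {q : Cardinal.{u} × (P → P) // ℵ₀ ≤ q.1 ∧ q.1 ≤ θ ∧ IsSpine (X q.1) q.2}
  let r : A → A → Prop := fun q q' => q.1.1 ≤ q'.1.1 ∧ ∀ x ∈ X q.1.1, q'.1.2 x = q.1.2 x
  have hAne : Nonempty A := by
    obtain ⟨c, h1, h2, h3, h4⟩ := locfin_spine (X ℵ₀) (fun x hx => by
      have := (hX.st ℵ₀ le_rfl).lt x hx
      exact Cardinal.lt_aleph0_iff_set_finite.1 this)
    exact ⟨⟨(ℵ₀, c), le_rfl, hθ0, ⟨h1, h2, h3, h4⟩⟩⟩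
  obtain ⟨m, hm⟩ := exists_maximal_of_nonempty_chains_bounded (r := r) (by
    intro c hc hcne
    let L : Set Cardinal.{u} := (fun q : A => q.1.1) '' c
    have hLne : L.Nonempty := hcne.image _
    have hL0 : ∀ l ∈ L, ℵ₀ ≤ l := by
      rintro _ ⟨q, _, rfl⟩
      exact q.2.1
    have hLθ : ∀ l ∈ L, l ≤ θ := by
      rintro _ ⟨q, _, rfl⟩
      exact q.2.2.1
    have hLb : BddAbove L := ⟨θ, hLθ⟩
    have hmem : ∀ x ∈ X (sSup L), ∃ q ∈ c, x ∈ X q.1.1 := by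
      intro x hx
      obtain ⟨_, ⟨q, hq, rfl⟩, h1⟩ := hX.exists_mem L hLne hL0 hLb x hx
      exact ⟨q, hq, h1⟩
    have htot : ∀ q ∈ c, ∀ q' ∈ c, r q q' ∨ r q' q := by
      intro q hq q' hq'
      by_cases h : q = q'
      · left
        rw [h]
        exact ⟨le_rfl, fun _ _ => rfl⟩
      · exact hc hq hq' h
    have hmono : ∀ q q' : A, q.1.1 ≤ q'.1.1 → X q.1.1 ⊆ X q'.1.1 := fun q q' h =>
      hX.mono _ _ q.2.1 h
    let Φ : P → P := fun x => if h : ∃ q ∈ c, x ∈ X q.1.1 then h.choose.1.2 x else x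
    have hΦ : ∀ q ∈ c, ∀ x ∈ X q.1.1, Φ x = q.1.2 x := by
      intro q hq x hx
      have h : ∃ q ∈ c, x ∈ X q.1.1 := ⟨q, hq, hx⟩
      have h1 : Φ x = h.choose.1.2 x := by simp only [Φ, dif_pos h]
      rw [h1]
      obtain ⟨h2, h3⟩ := h.choose_spec
      rcases htot _ h2 q hq with h4 | h4
      · exact (h4.2 x h3).symm
      · exact h4.2 x hx
    have hpair : ∀ x ∈ X (sSup L), ∀ y ∈ X (sSup L), ∃ q ∈ c, x ∈ X q.1.1 ∧ y ∈ X q.1.1 := by
      intro x hx y hy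
      obtain ⟨q, hq, hxq⟩ := hmem x hx
      obtain ⟨q', hq', hyq⟩ := hmem y hy
      rcases htot q hq q' hq' with h | h
      · exact ⟨q', hq', hmono _ _ h.1 hxq, hyq⟩
      · exact ⟨q, hq, hxq, hmono _ _ h.1 hyq⟩
    obtain ⟨l0, hl0⟩ := hLne
    have hs0 : ℵ₀ ≤ sSup L := (hL0 l0 hl0).trans (le_csSup hLb hl0)
    have hsub : ∀ q ∈ c, q.1.1 ≤ sSup L := fun q hq => le_csSup hLb ⟨q, hq, rfl⟩
    refine ⟨⟨(sSup L, Φ), hs0, csSup_le ⟨l0, hl0⟩ hLθ, ?_, ?_, ?_, ?_⟩, ?_⟩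
    · intro x hx
      obtain ⟨q, hq, hxq⟩ := hmem x hx
      change Φ x ∈ X (sSup L)
      rw [hΦ q hq x hxq]
      exact hX.mono _ _ q.2.1 (hsub q hq) (q.2.2.2.mem x hxq)
    · intro x hx
      obtain ⟨q, hq, hxq⟩ := hmem x hx
      change Φ (Φ x) = Φ x
      rw [hΦ q hq x hxq, hΦ q hq _ (q.2.2.2.mem x hxq), q.2.2.2.idem x hxq]
    · intro x hx y hy hxy
      obtain ⟨q, hq, hxq, hyq⟩ := hpair x hx y hy
      change Φ x = Φ y at hxy
      rw [hΦ q hq x hxq, hΦ q hq y hyq] at hxy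
      exact q.2.2.2.anti x hxq y hyq hxy
    · intro x hx y hy
      obtain ⟨q, hq, hxq, hyq⟩ := hpair x hx y hy
      change Φ x ≤ Φ y ∨ Φ y ≤ Φ x
      rw [hΦ q hq x hxq, hΦ q hq y hyq]
      exact q.2.2.2.chain x hxq y hyq
    · intro q hq
      exact ⟨hsub q hq, fun x hx => hΦ q hq x hx⟩) (by
    rintro a b c ⟨h1, h2⟩ ⟨h3, h4⟩
    exact ⟨h1.trans h3, fun x hx => (h4 x (hX.mono _ _ a.2.1 h1 hx)).trans (h2 x hx)⟩)
  have hmθ : m.1.1 = θ := by
    by_contra hne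
    have hlt : m.1.1 < θ := lt_of_le_of_ne m.2.2.1 hne
    have hreg : (Order.succ m.1.1).IsRegular := isRegular_succ m.2.1
    have hle : ℵ₀ ≤ Order.succ m.1.1 := hreg.aleph0_le
    obtain ⟨Ψ, h1, h2⟩ := extend_comps hw m.2.1 (hX.sub m.2.1 (Order.le_succ m.1.1)) (by
      intro z hz
      have := comp_small hreg (lt_of_le_of_lt m.2.1 (Order.lt_succ _)) (X (Order.succ m.1.1))
        (hX.st _ hle).lt z hz
      exact Order.lt_succ_iff.1 this) m.1.2 m.2.2.2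
    have h3 := hm ⟨(Order.succ m.1.1, Ψ), hle, Order.succ_le_of_lt hlt, h1⟩
      ⟨Order.le_succ _, h2⟩
    exact absurd h3.1 (not_le_of_gt (Order.lt_succ _))
  have h5 := m.2.2.2
  rw [hmθ, hXθ] at h5
  exact ⟨_, h5⟩

end Pool.Agent.TH398
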