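import Pool.Agent.TH398.Spine

set_option autoImplicit false

/-!
# Countable posets of finite width have spines
-/

namespace Pool.Agent.TH398.CountableSpine

universe u

/-- Every countable partially ordered set of finite width has a spine: a chain `C` and a
partition of the poset into antichains each of which meets `C`. -/
theorem result (P : Type u) [PartialOrder P] [Countable P] (w : ℕ)
    (hw : ∀ A : Set P, IsAntichain (· ≤ ·) A → A.encard ≤ (w : ℕ∞)) :
    ∃ C : Set P, IsChain (· ≤ ·) C ∧
      ∃ D : Set (Set P), Setoid.IsPartition D ∧
        (∀ A ∈ D, IsAntichain (· ≤ ·) A) ∧ ∀ A ∈ D, (A ∩ C).Nonempty := by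
  refine Pool.Agent.TH398.countable_spine w ?_
  intro A hA
  have := hw (A : Set P) hA
  rw [Set.encard_coe_eq_coe_finsetCard] at this
  exact_mod_cast this

end Pool.Agent.TH398.CountableSpine
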