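import Pool.Agent.TH398.Tower

set_option autoImplicit false

/-!
# Cuts
-/

namespace Pool.Agent.TH398

open Cardinal

universe u

variable {P : Type u} [PartialOrder P]

/-- the elements of `X` above `w` -/
def XA (w : P) (X : Set P) : Set P := {x | x ∈ X ∧ w < x}

/-- lower side of the cut -/
def cJ (w : P) (L : Cardinal.{u}) (X : Set P) : Set P :=
  {z | #({x | x ∈ X ∧ w < x ∧ ¬ z < x} : Set P) < L}

/-- upper side of the cut -/
def cU (w : P) (L : Cardinal.{u}) (X : Set P) : Set P :=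
  {z | L ≤ #({x | x ∈ X ∧ w < x ∧ x < z} : Set P)}

theorem cJ_lower {w : P} {L : Cardinal.{u}} {X : Set P} {z z' : P} (hz : z ∈ cJ w L X)
    (h : z' ≤ z) : z' ∈ cJ w L X := by
  refine lt_of_le_of_lt (mk_le_mk_of_subset ?_) hz
  rintro x ⟨h1, h2, h3⟩
  exact ⟨h1, h2, fun h4 => h3 (lt_of_le_of_lt h h4)⟩

theorem cU_upper {w : P} {L : Cardinal.{u}} {X : Set P} {z z' : P} (hz : z ∈ cU w L X)
    (h : z ≤ z') : z' ∈ cU w L X := by
  refine le_trans hz (mk_le_mk_of_subset ?_)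
  rintro x ⟨h1, h2, h3⟩
  exact ⟨h1, h2, lt_of_lt_of_le h3 h⟩

theorem cJ_lt_cU {w : P} {L : Cardinal.{u}} {X : Set P} {z z' : P} (hz : z ∈ cJ w L X)
    (hz' : z' ∈ cU w L X) : z < z' := by
  obtain ⟨x, ⟨h1, h2, h3⟩, h4⟩ := exists_diff hz' hz
  by_contra hcon
  exact h4 ⟨h1, h2, fun h5 => hcon (h5.trans h3)⟩

theorem mem_cJ_self {w : P} {L : Cardinal.{u}} (hL : ℵ₀ ≤ L) (X : Set P) : w ∈ cJ w L X := by
  have h : ({x | x ∈ X ∧ w < x ∧ ¬ w < x} : Set P) = ∅ := by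
    ext x
    simp only [Set.mem_ofPred_eq, Set.mem_empty_iff_false, iff_false]
    exact fun h => h.2.2 h.2.1
  change #({x | x ∈ X ∧ w < x ∧ ¬ w < x} : Set P) < L
  rw [h]
  have h0 : #(∅ : Set P) = 0 := by simp
  rw [h0]
  exact lt_of_lt_of_le aleph0_pos hL

theorem cU_gt {w : P} {L : Cardinal.{u}} (hL : ℵ₀ ≤ L) {X : Set P} {z : P}
    (hz : z ∈ cU w L X) : w < z := cJ_lt_cU (mem_cJ_self hL X) hz

theorem not_cut {w : P} {L : Cardinal.{u}} (hL : ℵ₀ ≤ L) {X : Set P} {z : P}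
    (h1 : z ∉ cJ w L X) (h2 : z ∉ cU w L X) : L ≤ #(NI (XA w X) z) := by
  have h1' : L ≤ #({x | x ∈ X ∧ w < x ∧ ¬ z < x} : Set P) := not_lt.1 h1
  have h2' : #({x | x ∈ X ∧ w < x ∧ x < z} : Set P) < L := not_le.1 h2
  by_contra hcon
  rw [not_le] at hcon
  refine absurd (h1'.trans (mk_le_mk_of_subset (t := ({x | x ∈ X ∧ w < x ∧ x < z} ∪ {z}) ∪
    NI (XA w X) z) ?_)) (not_le_of_gt ?_)
  · rintro x ⟨h3, h4, h5⟩
    by_cases h6 : x = z
    · exact Or.inl (Or.inr h6)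
    · by_cases h7 : x ≤ z
      · exact Or.inl (Or.inl ⟨h3, h4, lt_of_le_of_ne h7 h6⟩)
      · exact Or.inr ⟨⟨h3, h4⟩, h7, fun h8 => h5 (lt_of_le_of_ne h8 (Ne.symm h6))⟩
  · refine lt_of_union hL (lt_of_union hL h2' ?_) hcon
    rw [mk_singleton]
    exact one_lt_of_aleph0 hL

theorem mem_cut {w : P} {L : Cardinal.{u}} (hL : ℵ₀ ≤ L) {X : Set P} {z : P}
    (h : #(NI X z) < L) : z ∈ cJ w L X ∨ z ∈ cU w L X := by
  by_contra hcon
  push Not at hcon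
  exact absurd ((not_cut hL hcon.1 hcon.2).trans (mk_le_mk_of_subset
    (NI_mono (fun x hx => hx.1) z))) (not_le_of_gt h)

theorem gt_mem_dual {w : P} {L : Cardinal.{u}} (hL : ℵ₀ ≤ L) (X : Set P) {z : P} (h : w ≤ z) :
    z ∈ cJ (P := Pᵒᵈ) w L X :=
  cJ_lower (P := Pᵒᵈ) (mem_cJ_self (P := Pᵒᵈ) hL X) h

/-- core elements belong to ST sets -/
theorem core_mem {w : P} {L : Cardinal.{u}} (hL : ℵ₀ ≤ L) {X Q : Set P} (hST : IsST L X Q)
    (hw : #(NI Set.univ w) < L) {z : P} (hz : z ∈ Q) (h1 : z ∈ cJ w L X)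
    (h2 : z ∈ cJ (P := Pᵒᵈ) w L X) : z ∈ X := by
  by_contra hzX
  have h2' : #({x | x ∈ X ∧ x < w ∧ ¬ x < z} : Set P) < L := h2
  have h1' : #({x | x ∈ X ∧ w < x ∧ ¬ z < x} : Set P) < L := h1
  refine absurd ((hST.le z hz hzX).trans (mk_le_mk_of_subset
    (t := (({x | x ∈ X ∧ w < x ∧ ¬ z < x} ∪ {x | x ∈ X ∧ x < w ∧ ¬ x < z}) ∪
      NI Set.univ w) ∪ {w}) ?_)) (not_le_of_gt ?_)
  · rintro x ⟨h3, h4, h5⟩
    by_cases h6 : x = w
    · exact Or.inr h6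
    · by_cases h7 : x ≤ w
      · exact Or.inl (Or.inl (Or.inr ⟨h3, lt_of_le_of_ne h7 h6, fun h8 => h4 h8.le⟩))
      · by_cases h8 : w ≤ x
        · exact Or.inl (Or.inl (Or.inl ⟨h3, lt_of_le_of_ne h8 (Ne.symm h6), fun h9 => h5 h9.le⟩))
        · exact Or.inl (Or.inr ⟨Set.mem_univ _, h7, h8⟩)
  · refine lt_of_union hL (lt_of_union hL (lt_of_union hL h1' h2') hw) ?_
    rw [mk_singleton]
    exact one_lt_of_aleph0 hL

/-- cuts are represented by ends -/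
theorem exists_end {w : P} {L : Cardinal.{u}} (hL : ℵ₀ ≤ L) (X : Set P)
    (hX : ∀ x ∈ X, #(NI X x) < L) (hbig : L ≤ #(XA w X)) :
    ∃ k : GE P, (∀ z, GE.Above k z ↔ z ∈ cJ w L X) ∧ (∀ z, GE.Below k z ↔ z ∈ cU w L X) ∧
      (k.up ↔ L ≤ #({x | x ∈ XA w X ∧ x ∈ cJ w L X} : Set P)) := by
  have hsub : ∀ (A B : Set P), #A < L → #B < L → #(A ∪ B : Set P) < L := fun A B hA hB =>
    lt_of_union hL hA hB
  by_cases hup : L ≤ #({x | x ∈ XA w X ∧ x ∈ cJ w L X} : Set P)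
  · have hS : IsUpEnd (cJ w L X) := by
      refine ⟨⟨w, mem_cJ_self hL X⟩, fun x hx y hy => cJ_lower hx hy, ?_⟩
      intro x hx y hy
      obtain ⟨v, ⟨⟨h1, h2⟩, h3⟩, h4⟩ := exists_diff hup (hsub _ _ hx hy)
      refine ⟨v, h3, ?_, ?_⟩
      · by_contra h5
        exact h4 (Or.inl ⟨h1, h2, h5⟩)
      · by_contra h5
        exact h4 (Or.inr ⟨h1, h2, h5⟩)
    refine ⟨GE.mkUp _ hS, fun z => GE.above_up (GE.mkUp_up _ hS), fun z => ?_,
      ⟨fun _ => hup, fun _ => GE.mkUp_up _ hS⟩⟩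
    rw [GE.below_up (GE.mkUp_up _ hS)]
    constructor
    · intro h
      refine hup.trans (mk_le_mk_of_subset ?_)
      rintro x ⟨⟨h1, h2⟩, h3⟩
      exact ⟨h1, h2, h x h3⟩
    · intro h x hx
      exact cJ_lt_cU hx h
  · rw [not_le] at hup
    have hnJ : ∀ x ∈ XA w X, x ∉ cJ w L X → x ∈ cU w L X := fun x hx hxJ =>
      (mem_cut hL (hX x hx.1)).resolve_left hxJ
    have hS : IsDnEnd (cU w L X) := by
      refine ⟨?_, fun x hx y hy => cU_upper hx hy, ?_⟩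
      · obtain ⟨x, hx, hxJ⟩ := exists_diff hbig hup
        exact ⟨x, hnJ x hx (fun h => hxJ ⟨hx, h⟩)⟩
      · intro x hx y hy
        obtain ⟨y', ⟨hy1, hy2, hy3⟩, hy4⟩ := exists_diff hy hup
        have hy'U : y' ∈ cU w L X := hnJ y' ⟨hy1, hy2⟩ (fun h => hy4 ⟨⟨hy1, hy2⟩, h⟩)
        obtain ⟨x', ⟨hx1, hx2, hx3⟩, hx4⟩ := exists_diff hx (hsub _ _ hup (hX y' hy1))
        have hx'U : x' ∈ cU w L X := hnJ x' ⟨hx1, hx2⟩ (fun h => hx4 (Or.inl ⟨⟨hx1, hx2⟩, h⟩))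
        by_cases h1 : x' ≤ y'
        · exact ⟨x', hx'U, hx3, lt_of_le_of_lt h1 hy3⟩
        · by_cases h2 : y' ≤ x'
          · exact ⟨y', hy'U, lt_of_le_of_lt h2 hx3, hy3⟩
          · exact absurd (Or.inr ⟨hx1, h1, h2⟩) hx4
    refine ⟨GE.mkDn _ hS, fun z => ?_, fun z => GE.below_dn (GE.mkDn_up _ hS),
      ⟨fun h => absurd h (GE.mkDn_up _ hS), fun h => absurd h (not_le_of_gt hup)⟩⟩
    rw [GE.above_dn (GE.mkDn_up _ hS)]
    constructor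
    · intro h
      refine lt_of_le_of_lt (mk_le_mk_of_subset ?_) hup
      rintro x ⟨h1, h2, h3⟩
      refine ⟨⟨h1, h2⟩, ?_⟩
      by_contra h4
      exact h3 (h x (hnJ x ⟨h1, h2⟩ h4))
    · intro h x hx
      exact cJ_lt_cU h hx

/-- the ends coming from ST sets -/
def KS (w : P) (L : Cardinal.{u}) : Set (GE P) :=
  {k | ∃ Q X : Set P, w ∈ Q ∧ Q.OrdConnected ∧ IsST L X Q ∧ L ≤ #(XA w X) ∧
    (∀ z, GE.Above k z ↔ z ∈ cJ w L X) ∧ (∀ z, GE.Below k z ↔ z ∈ cU w L X) ∧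
    (k.up ↔ L ≤ #({x | x ∈ XA w X ∧ x ∈ cJ w L X} : Set P))}

theorem mem_of_core {w : P} {L : Cardinal.{u}} (hL : ℵ₀ ≤ L) (hw : #(NI Set.univ w) < L)
    {Q X : Set P} (hwQ : w ∈ Q) (hQ : Q.OrdConnected) (hST : IsST L X Q)
    (hbig : L ≤ #(XA w X)) {z : P} (hz : z ∈ cJ w L X) (hwz : w < z) : z ∈ X := by
  obtain ⟨x, hx, hxz⟩ := exists_diff hbig hz
  have h1 : z < x := by
    by_contra h
    exact hxz ⟨hx.1, hx.2, h⟩
  exact core_mem hL hST hw (hQ.out hwQ (hST.1 hx.1) ⟨hwz.le, h1.le⟩) hz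
    (gt_mem_dual hL X hwz.le)

theorem KS_not_slt {w : P} {L : Cardinal.{u}} (hL : ℵ₀ ≤ L) (hw : #(NI Set.univ w) < L)
    {k k' : GE P} (hk : k ∈ KS w L) (hk' : k' ∈ KS w L) : ¬ GE.slt k k' := by
  obtain ⟨Q, X, hwQ, hQ, hST, hbig, hA, hB, hup⟩ := hk
  obtain ⟨Q', X', hwQ', hQ', hST', hbig', hA', hB', hup'⟩ := hk'
  intro hlt
  have hmain : ∀ z, GE.Below k z → GE.Above k' z → False := by
    intro z h1 h2
    have h1' : L ≤ #({x | x ∈ X ∧ w < x ∧ x < z} : Set P) := (hB z).1 h1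
    have h2' : #({x | x ∈ X' ∧ w < x ∧ ¬ z < x} : Set P) < L := (hA' z).1 h2
    refine absurd (h1'.trans (mk_le_mk_of_subset ?_)) (not_le_of_gt h2')
    rintro x ⟨h3, h4, h5⟩
    exact ⟨mem_of_core hL hw hwQ' hQ' hST' hbig' (cJ_lower h2' h5.le) h4, h4, fun h6 =>
      lt_asymm h5 h6⟩
  by_cases hu' : k'.up
  · obtain ⟨z, hz, h1⟩ := (GE.slt_ev' hlt).exists
    exact hmain z h1 ((GE.above_up hu').2 hz)
  · by_cases hu : k.up
    · obtain ⟨x, hx, y, hy, h3⟩ := hlt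
      have h5 : ∀ v ∈ k.S, v ∈ cJ w L X' := by
        intro v hv
        rw [← hA', GE.above_dn hu']
        intro s hs
        obtain ⟨v', hv', hv1, hv2⟩ := (GE.isUp hu).dir v hv x hx
        obtain ⟨s', hs', hs1, hs2⟩ := (GE.isDn hu').dir s hs y hy
        exact (hv1.trans (h3 v' ⟨hv', Or.inl ⟨hu, hv2.le⟩⟩ s'
          ⟨hs', Or.inr ⟨hu', hs2.le⟩⟩)).trans hs1
      apply hu'
      rw [hup']
      refine (hup.1 hu).trans (mk_le_mk_of_subset ?_)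
      rintro v ⟨hv1, hv2⟩
      have hvS : v ∈ k.S := (GE.above_up hu).1 ((hA v).2 hv2)
      have hvJ := h5 v hvS
      exact ⟨⟨mem_of_core hL hw hwQ' hQ' hST' hbig' hvJ hv1.2, hv1.2⟩, hvJ⟩
    · obtain ⟨z, hz, h1⟩ := (GE.slt_ev hlt).exists
      exact hmain z ((GE.below_dn hu).2 hz) h1

theorem KS_finite {n : ℕ} (hn : Wd P n) {w : P} {L : Cardinal.{u}} (hL : ℵ₀ ≤ L)
    (hw : #(NI Set.univ w) < L) : (KS w L).Finite := by
  by_contra hinf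
  obtain ⟨s, hs, hsinj⟩ : ∃ s : ℕ → GE P, (∀ n, s n ∈ KS w L) ∧ Function.Injective s := by
    have := Set.Infinite.natEmbedding _ hinf
    exact ⟨fun n => (this n : GE P), fun n => (this n).2, fun m n hmn =>
      this.injective (Subtype.ext hmn)⟩
  obtain ⟨m, k, hmk, h⟩ := GE.fac_ends n hn s
  rcases h with h | h | h
  · exact absurd (hsinj h) (ne_of_lt hmk)
  · exact KS_not_slt hL hw (hs m) (hs k) h
  · exact KS_not_slt hL hw (hs k) (hs m) h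

/-- the cuts coming from ST sets -/
def CS (w : P) (L : Cardinal.{u}) : Set (Set P × Set P) :=
  {c | ∃ Q X : Set P, w ∈ Q ∧ Q.OrdConnected ∧ IsST L X Q ∧ c = (cJ w L X, cU w L X)}

theorem cut_of_small {w : P} {L : Cardinal.{u}} {X : Set P} (h : #(XA w X) < L) :
    cJ w L X = Set.univ ∧ cU w L X = ∅ := by
  constructor
  · rw [Set.eq_univ_iff_forall]
    intro z
    refine lt_of_le_of_lt (mk_le_mk_of_subset ?_) h
    rintro x ⟨h1, h2, -⟩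
    exact ⟨h1, h2⟩
  · rw [Set.eq_empty_iff_forall_notMem]
    intro z hz
    refine absurd (le_trans hz (mk_le_mk_of_subset ?_)) (not_le_of_gt h)
    rintro x ⟨h1, h2, -⟩
    exact ⟨h1, h2⟩

theorem CS_finite {n : ℕ} (hn : Wd P n) {w : P} {L : Cardinal.{u}} (hL : ℵ₀ ≤ L)
    (hw : #(NI Set.univ w) < L) : (CS w L).Finite := by
  refine Set.Finite.subset (((KS_finite hn hL hw).image (fun k =>
    ({z | GE.Above k z}, {z | GE.Below k z}))).union (Set.finite_singleton (Set.univ, ∅))) ?_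
  rintro c ⟨Q, X, hwQ, hQ, hST, rfl⟩
  by_cases hbig : L ≤ #(XA w X)
  · left
    obtain ⟨k, h1, h2, h3⟩ := exists_end hL X hST.lt hbig
    refine ⟨k, ⟨Q, X, hwQ, hQ, hST, hbig, h1, h2, h3⟩, ?_⟩
    have h4 : {z | GE.Above k z} = cJ w L X := Set.ext h1
    have h5 : {z | GE.Below k z} = cU w L X := Set.ext h2
    simp only [h4, h5]
  · right
    obtain ⟨h1, h2⟩ := cut_of_small (not_le.1 hbig)
    rw [h1, h2]
    rfl

/-- boundedness of cuts -/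
def Bd (w : P) (L : Cardinal.{u}) (J U : Set P) : Prop :=
  (∃ b ∈ U, #({z | w < z ∧ ¬ b < z} : Set P) < L) ∨
    (J = Set.univ ∧ U = ∅ ∧ #({z | w < z} : Set P) < L)

theorem Bd.mono {w : P} {L L' : Cardinal.{u}} {J U : Set P} (h : Bd w L J U) (hle : L ≤ L') :
    Bd w L' J U := by
  rcases h with ⟨b, hb, h⟩ | ⟨h1, h2, h3⟩
  · exact Or.inl ⟨b, hb, lt_of_lt_of_le h hle⟩
  · exact Or.inr ⟨h1, h2, lt_of_lt_of_le h3 hle⟩

theorem Bd.J_subset {w : P} {L L' : Cardinal.{u}} {J U : Set P} (h : Bd w L J U) (hle : L ≤ L')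
    (hJU : ∀ z ∈ J, ∀ z' ∈ U, z < z') (X : Set P) : J ⊆ cJ w L' X := by
  intro z hz
  rcases h with ⟨b, hb, h⟩ | ⟨h1, h2, h3⟩
  · refine lt_of_le_of_lt (mk_le_mk_of_subset ?_) (lt_of_lt_of_le h hle)
    rintro x ⟨h1, h2, h3⟩
    exact ⟨h2, fun h4 => h3 ((hJU z hz b hb).trans h4)⟩
  · refine lt_of_le_of_lt (mk_le_mk_of_subset ?_) (lt_of_lt_of_le h3 hle)
    rintro x ⟨h1, h2, -⟩
    exact h2

theorem Bd.U_subset {w : P} {L L' : Cardinal.{u}} {J U : Set P} (h : Bd w L J U) (hle : L ≤ L')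
    (hU : ∀ z ∈ U, ∀ z', z ≤ z' → z' ∈ U) (X : Set P) : cU w L' X ⊆ U := by
  intro z hz
  rcases h with ⟨b, hb, h⟩ | ⟨h1, h2, h3⟩
  · have hbJ : b ∈ cJ w L' X := by
      refine lt_of_le_of_lt (mk_le_mk_of_subset ?_) (lt_of_lt_of_le h hle)
      rintro x ⟨h1, h2, h3⟩
      exact ⟨h2, h3⟩
    exact hU b hb z (cJ_lt_cU hbJ hz).le
  · exfalso
    refine absurd (le_trans hz (mk_le_mk_of_subset ?_)) (not_le_of_gt (lt_of_lt_of_le h3 hle))
    rintro x ⟨h1, h2, -⟩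
    exact h2

theorem Bd.compl {w : P} {L : Cardinal.{u}} {J U : Set P} (h : Bd w L J U)
    (hU : ∀ z ∈ U, ∀ z', z ≤ z' → z' ∈ U) : #({z | w < z ∧ z ∉ U} : Set P) < L := by
  rcases h with ⟨b, hb, h⟩ | ⟨h1, h2, h3⟩
  · refine lt_of_le_of_lt (mk_le_mk_of_subset ?_) h
    rintro x ⟨h1, h2⟩
    exact ⟨h1, fun h3 => h2 (hU b hb x h3.le)⟩
  · refine lt_of_le_of_lt (mk_le_mk_of_subset ?_) h3
    rintro x ⟨h1, h2⟩
    exact h1

theorem Bd.NI_small {w : P} {L : Cardinal.{u}} {J U : Set P} (h : Bd w L J U)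
    (hJU : ∀ z ∈ J, ∀ z' ∈ U, z < z') {z : P} (hz : z ∈ J) :
    #({v | w < v ∧ ¬ v ≤ z ∧ ¬ z ≤ v} : Set P) < L := by
  rcases h with ⟨b, hb, h⟩ | ⟨h1, h2, h3⟩
  · refine lt_of_le_of_lt (mk_le_mk_of_subset ?_) h
    rintro x ⟨h1, h2, h3⟩
    exact ⟨h1, fun h4 => h3 ((hJU z hz b hb).trans h4).le⟩
  · refine lt_of_le_of_lt (mk_le_mk_of_subset ?_) h3
    rintro x ⟨h1, -, -⟩
    exact h1

/-- sizes of the upper parts of the members of a tower -/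
theorem XA_big {w : P} {L θ : Cardinal.{u}} (hL : ℵ₀ ≤ L) (hLθ : L ≤ θ) (hθ : θ.IsRegular)
    (hw : #(NI Set.univ w) < θ) {Q : Set P} {X : Cardinal.{u} → Set P} (hX : IsTower Q X)
    (hQ : θ ≤ #(XA w Q)) : θ ≤ #(XA w (X L)) := by
  have hθ0 := hθ.aleph0_le
  have hwc : ∀ x z : P, w < z → ¬ x ≤ z → ¬ z ≤ x → x ∉ NI Set.univ w → w < x := by
    intro x z h1 h2 h3 h4
    by_cases h5 : x ≤ w
    · exact absurd (h5.trans h1.le) h2
    · by_cases h6 : w ≤ x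
      · exact lt_of_le_of_ne h6 (fun h7 => h5 h7.ge)
      · exact absurd ⟨Set.mem_univ _, h5, h6⟩ h4
  -- step 1
  have h1 : θ ≤ #(XA w (X θ)) := by
    by_contra hcon
    rw [not_le] at hcon
    refine absurd (hQ.trans (mk_le_mk_of_subset (t := XA w (X θ)) ?_)) (not_le_of_gt hcon)
    rintro z ⟨hz, hwz⟩
    refine ⟨?_, hwz⟩
    by_contra hzX
    obtain ⟨x, hx, hxn⟩ := exists_diff ((hX.st θ hθ0).le z hz hzX) (lt_of_union hθ0 hcon hw)
    exact hxn (Or.inl ⟨hx.1, hwc x z hwz hx.2.1 hx.2.2 (fun h => hxn (Or.inr h))⟩)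
  -- step 2
  by_contra hcon
  rw [not_le] at hcon
  have hsub : X L ⊆ X θ := hX.mono L θ hL hLθ
  have hun : #(XA w (X L) ∪ NI (X L) w : Set P) < θ :=
    lt_of_union hθ0 hcon (lt_of_le_of_lt (mk_le_mk_of_subset
      (NI_mono (Set.subset_univ _) w)) hw)
  refine absurd (h1.trans (mk_le_mk_of_subset (t := XA w (X L) ∪
    ⋃ x ∈ (XA w (X L) ∪ NI (X L) w : Set P), NI (X θ) x) ?_)) (not_le_of_gt ?_)
  · rintro z ⟨hz, hwz⟩
    by_cases hzX : z ∈ X L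
    · exact Or.inl ⟨hzX, hwz⟩
    · right
      obtain ⟨x, hx⟩ := nonempty_of_le hL
        ((hX.st L hL).le z ((hX.st θ hθ0).1 hz) hzX)
      simp only [Set.mem_iUnion]
      refine ⟨x, ?_, NI_comm hz ⟨hsub hx.1, hx.2⟩⟩
      by_cases hxw : x ∈ NI Set.univ w
      · exact Or.inr ⟨hx.1, hxw.2⟩
      · exact Or.inl ⟨hx.1, hwc x z hwz hx.2.1 hx.2.2 hxw⟩
  · refine lt_of_union hθ0 hcon ?_
    refine (card_biUnion_lt_iff_forall_of_isRegular (t := fun x _ => NI (X θ) x) hθ hun).2 ?_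
    intro x hx
    apply (hX.st θ hθ0).lt x
    rcases hx with hx | hx
    · exact hsub hx.1
    · exact hsub hx.1

theorem exists_cU {w : P} {L : Cardinal.{u}} (hL : ℵ₀ ≤ L) (X : Set P)
    (hX : ∀ x ∈ X, #(NI X x) < L) (hbig : L < #(XA w X)) : ∃ b ∈ XA w X, b ∈ cU w L X := by
  by_contra hcon
  push Not at hcon
  have hJ : ∀ x ∈ XA w X, x ∈ cJ w L X := fun x hx =>
    (mem_cut hL (hX x hx.1)).resolve_right (hcon x hx)
  obtain ⟨E, hE, hEc⟩ := Cardinal.le_mk_iff_exists_subset.1 hbig.le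
  have hsub : XA w X ⊆ ⋃ x ∈ E, {z | z ∈ X ∧ w < z ∧ ¬ x < z} := by
    intro z hz
    obtain ⟨x, hx, hxn⟩ : ∃ x ∈ E, ¬ x < z := by
      by_contra h
      push Not at h
      have h1 : #({x | x ∈ X ∧ w < x ∧ ¬ z < x} : Set P) < L := hJ z hz
      refine absurd (hEc.ge.trans (mk_le_mk_of_subset ?_)) (not_le_of_gt h1)
      intro x hx
      exact ⟨(hE hx).1, (hE hx).2, fun h2 => lt_asymm h2 (h x hx)⟩
    simp only [Set.mem_iUnion]
    exact ⟨x, hx, hz.1, hz.2, hxn⟩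
  refine absurd (hbig.trans_le (mk_le_mk_of_subset hsub)) (not_lt_of_ge ?_)
  refine (mk_biUnion_le _ _).trans ?_
  have h2 : (⨆ x : E, #({z | z ∈ X ∧ w < z ∧ ¬ x.1 < z} : Set P)) ≤ L := by
    refine ciSup_le' ?_
    intro x
    exact le_of_lt (hJ x.1 (hE x.2))
  calc #E * (⨆ x : E, #({z | z ∈ X ∧ w < z ∧ ¬ x.1 < z} : Set P)) ≤ L * L :=
        mul_le_mul' hEc.le h2
    _ = L := mul_eq_self hL

end Pool.Agent.TH398
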