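import Mathlib

set_option autoImplicit false

/-!
# Sequences in posets: tail order, limits of sequences of sequences, antichains
-/

namespace Pool.Agent.TH398

universe u

/-- tail(x) < tail(y) -/
def Tlt {P : Type u} [PartialOrder P] (x y : ℕ → P) : Prop :=
  ∃ N, ∀ n ≥ N, ∀ m ≥ N, x n < y m

section
variable {P : Type u} [PartialOrder P]

theorem Tlt.trans {x y z : ℕ → P} (h1 : Tlt x y) (h2 : Tlt y z) : Tlt x z := by
  obtain ⟨N, hN⟩ := h1
  obtain ⟨M, hM⟩ := h2
  refine ⟨max N M, fun n hn m hm => ?_⟩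
  exact lt_trans (hN n (le_trans (le_max_left _ _) hn) (max N M) (le_max_left _ _))
    (hM (max N M) (le_max_right _ _) m (le_trans (le_max_right _ _) hm))

theorem Tlt.irrefl (x : ℕ → P) : ¬ Tlt x x := by
  rintro ⟨N, hN⟩
  exact lt_irrefl _ (hN N le_rfl N le_rfl)

theorem inf_seq (x : ℕ → ℕ → P) (h : ∀ i, Tlt (x (i + 1)) (x i)) :
    ∃ z : ℕ → P, StrictAnti z ∧ (∀ i, ∃ N, ∀ n ≥ N, z (i + 1) < x i n) ∧
      (∀ i, ∃ N, ∀ n ≥ N, x (i + 1) n < z i) := by
  choose N hN using h
  let M : ℕ → ℕ := fun i => max (N i) (N (i - 1))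
  have hM1 : ∀ i, N i ≤ M i := fun i => le_max_left _ _
  have hM2 : ∀ i, N i ≤ M (i + 1) := fun i => le_max_right _ _
  refine ⟨fun i => x i (M i), ?_, ?_, ?_⟩
  · apply strictAnti_nat_of_succ_lt
    intro i
    exact hN i _ (hM2 i) _ (hM1 i)
  · intro i
    exact ⟨N i, fun n hn => hN i _ (hM2 i) n hn⟩
  · intro i
    exact ⟨N i, fun n hn => hN i n hn _ (hM1 i)⟩

theorem sup_seq (x : ℕ → ℕ → P) (h : ∀ i, Tlt (x i) (x (i + 1))) :
    ∃ z : ℕ → P, StrictMono z ∧ (∀ i, ∃ N, ∀ n ≥ N, x i n < z (i + 1)) ∧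
      (∀ i, ∃ N, ∀ n ≥ N, z i < x (i + 1) n) := by
  obtain ⟨z, h1, h2, h3⟩ := inf_seq (P := Pᵒᵈ) x (fun i => by
    obtain ⟨N, hN⟩ := h i
    exact ⟨N, fun n hn m hm => hN m hm n hn⟩)
  exact ⟨z, fun a b hab => h1 hab, h2, h3⟩

/-- a finite family of increasing sequences, none of which is dominated by a later one,
and none of which lies below the tail of an earlier one, gives an antichain. -/
theorem antichain_of_seqs (k : ℕ) (y : ℕ → ℕ → P) (hy : ∀ i, StrictMono (y i))
    (h1 : ∀ i j, i < j → j < k → ¬ ∀ n, ∃ m, y i n ≤ y j m)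
    (h2 : ∀ i j, i < j → j < k → ¬ Tlt (y j) (y i)) :
    ∃ A : Finset P, A.card = k ∧ IsAntichain (· ≤ ·) (A : Set P) := by
  classical
  have h1' : ∀ i j, ∃ n, i < j → j < k → ∀ m, ¬ y i n ≤ y j m := by
    intro i j
    by_cases hij : i < j ∧ j < k
    · have := h1 i j hij.1 hij.2
      push Not at this
      obtain ⟨n, hn⟩ := this
      exact ⟨n, fun _ _ => hn⟩
    · exact ⟨0, fun a b => absurd ⟨a, b⟩ hij⟩
  choose nn hnn using h1'
  have h2' : ∀ j i n, ∃ m, i < j → j < k → ¬ y j m ≤ y i n := by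
    intro j i n
    by_cases hij : i < j ∧ j < k
    · by_contra hcon
      push Not at hcon
      apply h2 i j hij.1 hij.2
      refine ⟨n + 1, fun a _ b hb => ?_⟩
      exact lt_of_le_of_lt (hcon a).2.2 (hy i (by omega))
    · exact ⟨0, fun a b => absurd ⟨a, b⟩ hij⟩
  choose mm hmm using h2'
  have key : ∀ t, ∃ N : ℕ → ℕ, (∀ i < t, ∀ j < k, nn i j ≤ N i) ∧
      (∀ i j, i < j → j < t → mm j i (N i) ≤ N j) := by
    intro t
    induction t with
    | zero => exact ⟨fun _ => 0, by simp, by intro i j _ hj; omega⟩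
    | succ t ih =>
      obtain ⟨N, hN1, hN2⟩ := ih
      let v := (Finset.range k).sup (nn t) + (Finset.range t).sup (fun i => mm t i (N i))
      refine ⟨Function.update N t v, ?_, ?_⟩
      · intro i hi j hj
        by_cases hit : i = t
        · subst hit
          rw [Function.update_self]
          have : nn i j ≤ (Finset.range k).sup (nn i) := Finset.le_sup (Finset.mem_range.2 hj)
          omega
        · rw [Function.update_of_ne hit]
          exact hN1 i (by omega) j hj
      · intro i j hij hj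
        have hit : i ≠ t := by omega
        rw [Function.update_of_ne hit]
        by_cases hjt : j = t
        · subst hjt
          rw [Function.update_self]
          have : mm j i (N i) ≤ (Finset.range j).sup (fun i => mm j i (N i)) :=
            Finset.le_sup (f := fun i => mm j i (N i)) (Finset.mem_range.2 hij)
          omega
        · rw [Function.update_of_ne hjt]
          exact hN2 i j hij (by omega)
  obtain ⟨N, hN1, hN2⟩ := key k
  let a : ℕ → P := fun i => y i (N i)
  have ha1 : ∀ i j, i < j → j < k → ¬ a i ≤ a j := by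
    intro i j hij hj hle
    have : y i (nn i j) ≤ y j (N j) :=
      le_trans ((hy i).monotone (hN1 i (by omega) j hj)) hle
    exact hnn i j hij hj _ this
  have ha2 : ∀ i j, i < j → j < k → ¬ a j ≤ a i := by
    intro i j hij hj hle
    have : y j (mm j i (N i)) ≤ y i (N i) :=
      le_trans ((hy j).monotone (hN2 i j hij hj)) hle
    exact hmm j i (N i) hij hj this
  have hainj : Set.InjOn a (Finset.range k : Set ℕ) := by
    intro i hi j hj hij
    have hi' : i < k := by simpa using hi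
    have hj' : j < k := by simpa using hj
    rcases lt_trichotomy i j with h3 | h3 | h3
    · exact absurd hij.le (ha1 i j h3 hj')
    · exact h3
    · exact absurd hij.ge (ha1 j i h3 hi')
  refine ⟨(Finset.range k).image a, ?_, ?_⟩
  · rw [Finset.card_image_of_injOn hainj, Finset.card_range]
  · intro p hp q hq hpq hle
    simp only [Finset.coe_image, Set.mem_image, Finset.coe_range, Set.mem_Iio] at hp hq
    obtain ⟨i, hi, rfl⟩ := hp
    obtain ⟨j, hj, rfl⟩ := hq
    rcases lt_trichotomy i j with h3 | h3 | h3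
    · exact ha1 i j h3 hj hle
    · exact hpq (by rw [h3])
    · exact ha2 j i h3 hi hle

/-- an infinite family of increasing sequences, pairwise not cofinal and pairwise not
tail-comparable, gives arbitrarily large antichains. -/
theorem antichain_of_inf_seqs (x : ℕ → ℕ → P) (hx : ∀ i, StrictMono (x i))
    (hD : ∀ i j, i < j → ¬ ((∀ n, ∃ m, x i n ≤ x j m) ∧ (∀ n, ∃ m, x j n ≤ x i m)))
    (hlt : ∀ i j, i < j → ¬ Tlt (x i) (x j) ∧ ¬ Tlt (x j) (x i)) (k : ℕ) :
    ∃ A : Finset P, A.card = k ∧ IsAntichain (· ≤ ·) (A : Set P) := by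
  let r : (ℕ → P) → (ℕ → P) → Prop := fun u v => ∀ n, ∃ m, u n ≤ v m
  have htr : IsTrans (ℕ → P) r := ⟨fun a b c hab hbc n => by
    obtain ⟨m, hm⟩ := hab n
    obtain ⟨l, hl⟩ := hbc m
    exact ⟨l, hm.trans hl⟩⟩
  obtain ⟨g, hg⟩ := exists_increasing_or_nonincreasing_subseq r x
  rcases hg with hg | hg
  · refine antichain_of_seqs k (fun i => x (g (k - 1 - i))) (fun i => hx _) ?_ ?_
    · intro i j hij hj hcon
      have h3 : k - 1 - j < k - 1 - i := by omega
      exact hD _ _ (g.strictMono h3) ⟨hg _ _ h3, hcon⟩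
    · intro i j hij hj
      have h3 : k - 1 - j < k - 1 - i := by omega
      exact (hlt _ _ (g.strictMono h3)).1
  · refine antichain_of_seqs k (fun i => x (g i)) (fun i => hx _) ?_ ?_
    · intro i j hij _
      exact hg i j hij
    · intro i j hij _
      exact (hlt _ _ (g.strictMono hij)).2

/-- dual version for decreasing sequences -/
theorem antichain_of_inf_seqs_dual (x : ℕ → ℕ → P) (hx : ∀ i, StrictAnti (x i))
    (hD : ∀ i j, i < j → ¬ ((∀ n, ∃ m, x j m ≤ x i n) ∧ (∀ n, ∃ m, x i m ≤ x j n)))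
    (hlt : ∀ i j, i < j → ¬ Tlt (x i) (x j) ∧ ¬ Tlt (x j) (x i)) (k : ℕ) :
    ∃ A : Finset P, A.card = k ∧ IsAntichain (· ≤ ·) (A : Set P) := by
  let x' : ℕ → ℕ → Pᵒᵈ := fun i n => OrderDual.toDual (x i n)
  have hx' : ∀ i, StrictMono (x' i) := fun i a b hab => hx i hab
  have hD' : ∀ i j, i < j → ¬ ((∀ n, ∃ m, x' i n ≤ x' j m) ∧ (∀ n, ∃ m, x' j n ≤ x' i m)) :=
    fun i j hij h => hD i j hij h
  have hlt' : ∀ i j, i < j → ¬ Tlt (x' i) (x' j) ∧ ¬ Tlt (x' j) (x' i) := by
    intro i j hij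
    obtain ⟨h1, h2⟩ := hlt i j hij
    constructor
    · rintro ⟨N, hN⟩
      exact h2 ⟨N, fun n hn m hm => hN m hm n hn⟩
    · rintro ⟨N, hN⟩
      exact h1 ⟨N, fun n hn m hm => hN m hm n hn⟩
  obtain ⟨A, hA1, hA2⟩ := antichain_of_inf_seqs x' hx' hD' hlt' k
  refine ⟨A.map ⟨OrderDual.ofDual, OrderDual.ofDual.injective⟩, by simpa using hA1, ?_⟩
  intro a ha b hb hab hle
  simp only [Finset.coe_map, Function.Embedding.coeFn_mk, Set.mem_image, Finset.mem_coe] at ha hb
  obtain ⟨a', ha', rfl⟩ := ha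
  obtain ⟨b', hb', rfl⟩ := hb
  exact hA2 hb' ha' (fun h => hab (by rw [h])) hle

/-- Ramsey: injective sequences in a poset without infinite antichains have monotone
subsequences. -/
theorem exists_mono_or_anti (hfac : ∀ s : ℕ → P, ∃ m n, m < n ∧ (s m ≤ s n ∨ s n ≤ s m))
    (y : ℕ → P) (hy : Function.Injective y) :
    ∃ φ : ℕ → ℕ, StrictMono φ ∧ (StrictMono (fun n => y (φ n)) ∨ StrictAnti (fun n => y (φ n))) := by
  obtain ⟨g, hg⟩ := exists_increasing_or_nonincreasing_subseq (fun a b : P => a < b) y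
  rcases hg with hg | hg
  · exact ⟨g, g.strictMono, Or.inl (fun a b hab => hg a b hab)⟩
  · obtain ⟨g2, hg2⟩ := exists_increasing_or_nonincreasing_subseq (fun a b : P => b < a)
      (fun n => y (g n))
    rcases hg2 with hg2 | hg2
    · exact ⟨fun n => g (g2 n), g.strictMono.comp g2.strictMono,
        Or.inr (fun a b hab => hg2 a b hab)⟩
    · exfalso
      obtain ⟨m, n, hmn, h1⟩ := hfac (fun n => y (g (g2 n)))
      have hgmn : g2 m < g2 n := g2.strictMono hmn
      have hne : y (g (g2 m)) ≠ y (g (g2 n)) := fun h2 =>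
        absurd (g.injective (hy h2)) (ne_of_lt hgmn)
      rcases h1 with h1 | h1
      · exact hg _ _ hgmn (lt_of_le_of_ne h1 hne)
      · exact hg2 _ _ hmn (lt_of_le_of_ne h1 hne.symm)

end

end Pool.Agent.TH398
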