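import Pool.Agent.TH398.Kernel3
import Pool.Agent.TH398.EndsSeq

set_option autoImplicit false

/-!
# The system of ends of a poset of finite width
-/

namespace Pool.Agent.TH398

universe u

/-- An up end is (a cofinality `ω` ideal without greatest element); a down end is dual. -/
def EndP (P : Type u) [PartialOrder P] : Type u :=
  {q : Bool × Set P // ∃ x : ℕ → P, (q.1 = true ∧ StrictMono x ∧ q.2 = {p | ∃ n, p ≤ x n}) ∨
    (q.1 = false ∧ StrictAnti x ∧ q.2 = {p | ∃ n, x n ≤ p})}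

namespace EndP

variable {P : Type u} [PartialOrder P]

/-- type of an end -/
def up (e : EndP P) : Prop := e.1.1 = true

/-- a sequence representing the end -/
noncomputable def seq (e : EndP P) : ℕ → P := e.2.choose

/-- underlying ideal or filter -/
def carrier (e : EndP P) : Set P := e.1.2

theorem spec_up {e : EndP P} (h : e.up) :
    StrictMono e.seq ∧ e.carrier = {p | ∃ n, p ≤ e.seq n} := by
  rcases e.2.choose_spec with h1 | h1
  · exact h1.2
  · exact absurd (h.symm.trans h1.1) (by simp)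

theorem spec_dn {e : EndP P} (h : ¬ e.up) :
    StrictAnti e.seq ∧ e.carrier = {p | ∃ n, e.seq n ≤ p} := by
  rcases e.2.choose_spec with h1 | h1
  · exact absurd h1.1 h
  · exact h1.2

theorem mem_up {e : EndP P} (h : e.up) (p : P) : p ∈ e.carrier ↔ ∃ n, p ≤ e.seq n := by
  rw [(spec_up h).2]; rfl

theorem mem_dn {e : EndP P} (h : ¬ e.up) (p : P) : p ∈ e.carrier ↔ ∃ n, e.seq n ≤ p := by
  rw [(spec_dn h).2]; rfl

theorem ext' {a b : EndP P} (h1 : a.up ↔ b.up) (h2 : a.carrier = b.carrier) : a = b := by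
  apply Subtype.ext
  apply Prod.ext
  · unfold up at h1
    cases ha : a.1.1 <;> cases hb : b.1.1 <;> simp_all
  · exact h2

/-- constructing up ends -/
def mkUp (x : ℕ → P) (hx : StrictMono x) : EndP P :=
  ⟨(true, {p | ∃ n, p ≤ x n}), ⟨x, Or.inl ⟨rfl, hx, rfl⟩⟩⟩

/-- constructing down ends -/
def mkDn (x : ℕ → P) (hx : StrictAnti x) : EndP P :=
  ⟨(false, {p | ∃ n, x n ≤ p}), ⟨x, Or.inr ⟨rfl, hx, rfl⟩⟩⟩

theorem mkUp_up (x : ℕ → P) (hx : StrictMono x) : (mkUp x hx).up := rfl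

theorem mkDn_up (x : ℕ → P) (hx : StrictAnti x) : ¬ (mkDn x hx).up := by
  unfold up mkDn
  simp

theorem mkUp_seq (x : ℕ → P) (hx : StrictMono x) :
    (∀ n, ∃ m, x n ≤ (mkUp x hx).seq m) ∧ (∀ n, ∃ m, (mkUp x hx).seq n ≤ x m) := by
  have h := (spec_up (mkUp_up x hx)).2
  constructor
  · intro n
    have : x n ∈ (mkUp x hx).carrier := ⟨n, le_rfl⟩
    rw [h] at this
    exact this
  · intro n
    have : (mkUp x hx).seq n ∈ (mkUp x hx).carrier := by
      rw [h]; exact ⟨n, le_rfl⟩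
    exact this

theorem mkDn_seq (x : ℕ → P) (hx : StrictAnti x) :
    (∀ n, ∃ m, (mkDn x hx).seq m ≤ x n) ∧ (∀ n, ∃ m, x m ≤ (mkDn x hx).seq n) := by
  have h := (spec_dn (mkDn_up x hx)).2
  constructor
  · intro n
    have : x n ∈ (mkDn x hx).carrier := ⟨n, le_rfl⟩
    rw [h] at this
    exact this
  · intro n
    have : (mkDn x hx).seq n ∈ (mkDn x hx).carrier := by
      rw [h]; exact ⟨n, le_rfl⟩
    exact this

/-- strong order -/
def slt (a b : EndP P) : Prop := Tlt a.seq b.seq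

/-- weak order -/
def wle (a b : EndP P) : Prop :=
  slt a b ∨ (a.up ∧ b.up ∧ a.carrier ⊆ b.carrier) ∨ (¬ a.up ∧ ¬ b.up ∧ b.carrier ⊆ a.carrier)

/-- `p` is above a tail of `e` -/
def Below (e : EndP P) (p : P) : Prop := ∃ N, ∀ n ≥ N, e.seq n < p

/-- `p` is below a tail of `e` -/
def Above (e : EndP P) (p : P) : Prop := ∃ N, ∀ n ≥ N, p < e.seq n

/-- `p` is incomparable with a tail of `e` -/
def Nb (e : EndP P) (p : P) : Prop := ∃ N, ∀ n ≥ N, ¬ e.seq n ≤ p ∧ ¬ p ≤ e.seq n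

theorem tri (e : EndP P) (p : P) : Below e p ∨ Above e p ∨ Nb e p := by
  by_cases h : e.up
  · obtain ⟨h1, h2⟩ := spec_up h
    by_cases h3 : ∃ n, p ≤ e.seq n
    · obtain ⟨n, hn⟩ := h3
      right; left
      exact ⟨n + 1, fun m hm => lt_of_le_of_lt hn (h1 (by omega))⟩
    · by_cases h4 : ∀ n, e.seq n ≤ p
      · left
        exact ⟨0, fun n _ => lt_of_lt_of_le (h1 (Nat.lt_succ_self n)) (h4 (n + 1))⟩
      · right; right
        push Not at h3 h4
        obtain ⟨n, hn⟩ := h4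
        exact ⟨n, fun m hm => ⟨fun hle => hn ((h1.monotone hm).trans hle), h3 m⟩⟩
  · obtain ⟨h1, h2⟩ := spec_dn h
    by_cases h3 : ∃ n, e.seq n ≤ p
    · obtain ⟨n, hn⟩ := h3
      left
      exact ⟨n + 1, fun m hm => lt_of_lt_of_le (h1 (by omega)) hn⟩
    · by_cases h4 : ∀ n, p ≤ e.seq n
      · right; left
        exact ⟨0, fun n _ => lt_of_le_of_lt (h4 (n + 1)) (h1 (Nat.lt_succ_self n))⟩
      · right; right
        push Not at h3 h4
        obtain ⟨n, hn⟩ := h4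
        exact ⟨n, fun m hm => ⟨h3 m, fun hle => hn (hle.trans (h1.antitone hm))⟩⟩

theorem Nb.not_below {e : EndP P} {p : P} (h : Nb e p) : ¬ Below e p := by
  rintro ⟨N, hN⟩
  obtain ⟨M, hM⟩ := h
  exact (hM (max N M) (le_max_right _ _)).1 (hN (max N M) (le_max_left _ _)).le

theorem Nb.not_above {e : EndP P} {p : P} (h : Nb e p) : ¬ Above e p := by
  rintro ⟨N, hN⟩
  obtain ⟨M, hM⟩ := h
  exact (hM (max N M) (le_max_right _ _)).2 (hN (max N M) (le_max_left _ _)).le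

theorem Below.not_above {e : EndP P} {p : P} (h : Below e p) : ¬ Above e p := by
  rintro ⟨N, hN⟩
  obtain ⟨M, hM⟩ := h
  exact lt_asymm (hM (max N M) (le_max_right _ _)) (hN (max N M) (le_max_left _ _))

theorem nb_of {e : EndP P} {p : P} (h1 : ¬ Below e p) (h2 : ¬ Above e p) : Nb e p := by
  rcases tri e p with h | h | h
  · exact absurd h h1
  · exact absurd h h2
  · exact h

theorem below_of_slt {a b : EndP P} (h : slt a b) {p : P} (hb : Below b p) : Below a p := by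
  obtain ⟨N, hN⟩ := h
  obtain ⟨M, hM⟩ := hb
  exact ⟨N, fun n hn => lt_trans (hN n hn (max N M) (le_max_left _ _))
    (hM (max N M) (le_max_right _ _))⟩

theorem above_of_slt {a b : EndP P} (h : slt a b) {p : P} (hb : Above a p) : Above b p := by
  obtain ⟨N, hN⟩ := h
  obtain ⟨M, hM⟩ := hb
  exact ⟨N, fun n hn => lt_trans (hM (max N M) (le_max_right _ _))
    (hN (max N M) (le_max_left _ _) n hn)⟩

theorem slt_of_above_below {a b : EndP P} {p : P} (ha : Below a p) (hb : Above b p) :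
    slt a b := by
  obtain ⟨N, hN⟩ := ha
  obtain ⟨M, hM⟩ := hb
  exact ⟨max N M, fun n hn m hm => lt_trans (hN n (le_trans (le_max_left _ _) hn))
    (hM m (le_trans (le_max_right _ _) hm))⟩

theorem below_all {e : EndP P} (h : e.up) {p : P} (hb : Below e p) (n : ℕ) : e.seq n < p := by
  obtain ⟨N, hN⟩ := hb
  exact lt_of_le_of_lt ((spec_up h).1.monotone (le_max_left n N)) (hN _ (le_max_right n N))

theorem above_all {e : EndP P} (h : ¬ e.up) {p : P} (hb : Above e p) (n : ℕ) : p < e.seq n := by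
  obtain ⟨N, hN⟩ := hb
  exact lt_of_lt_of_le (hN _ (le_max_right n N)) ((spec_dn h).1.antitone (le_max_left n N))

theorem above_of_le {e : EndP P} (h : e.up) {p : P} {n : ℕ} (hp : p ≤ e.seq n) : Above e p :=
  ⟨n + 1, fun _ hm => lt_of_le_of_lt hp ((spec_up h).1 (by omega))⟩

theorem below_of_ge {e : EndP P} (h : ¬ e.up) {p : P} {n : ℕ} (hp : e.seq n ≤ p) : Below e p :=
  ⟨n + 1, fun _ hm => lt_of_lt_of_le ((spec_dn h).1 (by omega)) hp⟩

/-- if `r ≤ e` and `p` is above a tail of `e` then `p` is above a tail of `r` -/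
theorem below_of_wle {r e : EndP P} (h : wle r e) {p : P} (hb : Below e p) : Below r p := by
  rcases h with h | ⟨h1, h2, h3⟩ | ⟨h1, h2, h3⟩
  · exact below_of_slt h hb
  · refine ⟨0, fun n _ => ?_⟩
    have : r.seq n ∈ e.carrier := h3 ((mem_up h1 _).2 ⟨n, le_rfl⟩)
    obtain ⟨m, hm⟩ := (mem_up h2 _).1 this
    exact lt_of_le_of_lt hm (below_all h2 hb m)
  · obtain ⟨N, hN⟩ := hb
    have : e.seq N ∈ r.carrier := h3 ((mem_dn h2 _).2 ⟨N, le_rfl⟩)
    obtain ⟨m, hm⟩ := (mem_dn h1 _).1 this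
    exact below_of_ge h1 (hm.trans (hN N le_rfl).le)

theorem above_of_wle {r e : EndP P} (h : wle r e) {p : P} (hb : Above r p) : Above e p := by
  rcases h with h | ⟨h1, h2, h3⟩ | ⟨h1, h2, h3⟩
  · exact above_of_slt h hb
  · obtain ⟨N, hN⟩ := hb
    have : r.seq N ∈ e.carrier := h3 ((mem_up h1 _).2 ⟨N, le_rfl⟩)
    obtain ⟨m, hm⟩ := (mem_up h2 _).1 this
    exact above_of_le h2 ((hN N le_rfl).le.trans hm)
  · refine ⟨0, fun n _ => ?_⟩
    have : e.seq n ∈ r.carrier := h3 ((mem_dn h2 _).2 ⟨n, le_rfl⟩)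
    obtain ⟨m, hm⟩ := (mem_dn h1 _).1 this
    exact lt_of_lt_of_le (above_all h1 hb m) hm

theorem slt_wle {a b c : EndP P} (h1 : slt a b) (h2 : wle b c) : slt a c := by
  obtain ⟨N, hN⟩ := h1
  have hA : Above b (a.seq N) := ⟨N, fun n hn => hN N le_rfl n hn⟩
  by_cases hb : b.up
  · -- pick `b.seq N`
    have h3 : Below a (b.seq N) := ⟨N, fun n hn => hN n hn N le_rfl⟩
    exact slt_of_above_below h3 (above_of_wle h2 (above_of_le hb le_rfl))
  · rcases h2 with h2 | ⟨h2, _, _⟩ | ⟨_, h3, h4⟩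
    · exact Tlt.trans ⟨N, hN⟩ h2
    · exact absurd h2 hb
    · refine ⟨N, fun n hn m _ => ?_⟩
      have h5 : Above b (a.seq n) := ⟨N, fun k hk => hN n hn k hk⟩
      have : c.seq m ∈ b.carrier := h4 ((mem_dn h3 _).2 ⟨m, le_rfl⟩)
      obtain ⟨k, hk⟩ := (mem_dn hb _).1 this
      exact lt_of_lt_of_le (above_all hb h5 k) hk

theorem wle_slt {a b c : EndP P} (h1 : wle a b) (h2 : slt b c) : slt a c := by
  obtain ⟨N, hN⟩ := h2
  by_cases hb : b.up
  · rcases h1 with h1 | ⟨h1, _, h4⟩ | ⟨_, h3, _⟩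
    · exact Tlt.trans h1 ⟨N, hN⟩
    · refine ⟨N, fun n _ m hm => ?_⟩
      have h5 : Below b (c.seq m) := ⟨N, fun k hk => hN k hk m hm⟩
      have : a.seq n ∈ b.carrier := h4 ((mem_up h1 _).2 ⟨n, le_rfl⟩)
      obtain ⟨k, hk⟩ := (mem_up hb _).1 this
      exact lt_of_le_of_lt hk (below_all hb h5 k)
    · exact absurd hb h3
  · have h3 : Above c (b.seq N) := ⟨N, fun n hn => hN N le_rfl n hn⟩
    exact slt_of_above_below (below_of_wle h1 (below_of_ge hb le_rfl)) h3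

theorem wle_trans {a b c : EndP P} (h1 : wle a b) (h2 : wle b c) : wle a c := by
  rcases h1 with h1 | ⟨h1, h1', h1''⟩ | ⟨h1, h1', h1''⟩
  · exact Or.inl (slt_wle h1 h2)
  · rcases h2 with h2 | ⟨h2, h2', h2''⟩ | ⟨h2, _, _⟩
    · exact Or.inl (wle_slt (Or.inr (Or.inl ⟨h1, h1', h1''⟩)) h2)
    · exact Or.inr (Or.inl ⟨h1, h2', h1''.trans h2''⟩)
    · exact absurd h1' h2
  · rcases h2 with h2 | ⟨h2, _, _⟩ | ⟨h2, h2', h2''⟩
    · exact Or.inl (wle_slt (Or.inr (Or.inr ⟨h1, h1', h1''⟩)) h2)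
    · exact absurd h2 h1'
    · exact Or.inr (Or.inr ⟨h1, h2', h2''.trans h1''⟩)

theorem wle_refl (a : EndP P) : wle a a := by
  by_cases h : a.up
  · exact Or.inr (Or.inl ⟨h, h, le_rfl⟩)
  · exact Or.inr (Or.inr ⟨h, h, le_rfl⟩)

theorem slt_irrefl (a : EndP P) : ¬ slt a a := Tlt.irrefl _

theorem wle_antisymm {a b : EndP P} (h1 : wle a b) (h2 : wle b a) : a = b := by
  rcases h1 with h1 | ⟨h1, h1', h1''⟩ | ⟨h1, h1', h1''⟩
  · exact absurd (slt_wle h1 h2) (slt_irrefl a)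
  · rcases h2 with h2 | ⟨h2, h2', h2''⟩ | ⟨h2, _, _⟩
    · exact absurd (slt_wle h2 (Or.inr (Or.inl ⟨h1, h1', h1''⟩))) (slt_irrefl b)
    · exact ext' ⟨fun _ => h1', fun _ => h1⟩ (Set.Subset.antisymm h1'' h2'')
    · exact absurd h1' h2
  · rcases h2 with h2 | ⟨h2, _, _⟩ | ⟨h2, h2', h2''⟩
    · exact absurd (slt_wle h2 (Or.inr (Or.inr ⟨h1, h1', h1''⟩))) (slt_irrefl b)
    · exact absurd h2 h1'
    · exact ext' ⟨fun h => absurd h h1, fun h => absurd h h1'⟩ (Set.Subset.antisymm h2'' h1'')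

/-- limits from above -/
theorem exists_inf (s : ℕ → EndP P) (hs : ∀ n, slt (s (n + 1)) (s n)) :
    ∃ f : EndP P, ¬ f.up ∧ (∀ n, slt f (s n)) ∧ (∀ r, (∀ n, wle r (s n)) → wle r f) ∧
      (∀ r, slt f r → ∃ n, slt (s n) r) ∧ (∀ p, Below f p → ∃ n, Below (s n) p) := by
  obtain ⟨z, hz, hz1, hz2⟩ := inf_seq (fun i => (s i).seq) hs
  obtain ⟨hq1, hq2⟩ := mkDn_seq z hz
  have hdn := mkDn_up z hz
  refine ⟨mkDn z hz, hdn, ?_, ?_, ?_, ?_⟩
  · intro i
    obtain ⟨N, hN⟩ := hz1 i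
    obtain ⟨m, hm⟩ := hq1 (i + 1)
    refine ⟨max N m, fun a ha b hb => ?_⟩
    have h1 : (mkDn z hz).seq a ≤ (mkDn z hz).seq m :=
      (spec_dn hdn).1.antitone (le_trans (le_max_right _ _) ha)
    exact lt_of_le_of_lt (h1.trans hm) (hN b (le_trans (le_max_left _ _) hb))
  · intro r hr
    have hb : ∀ m, Below r (z m) := fun m => below_of_wle (hr (m + 1)) (hz2 m)
    by_cases hru : r.up
    · left
      refine ⟨0, fun n _ m _ => ?_⟩
      obtain ⟨k, hk⟩ := hq2 m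
      exact lt_of_lt_of_le (below_all hru (hb k) n) hk
    · right; right
      refine ⟨hru, hdn, ?_⟩
      intro p hp
      obtain ⟨m, hm⟩ : ∃ n, z n ≤ p := hp
      obtain ⟨N, hN⟩ := hb m
      exact (mem_dn hru _).2 ⟨N, (hN N le_rfl).le.trans hm⟩
  · rintro r ⟨N, hN⟩
    obtain ⟨m, hm⟩ := hq2 N
    obtain ⟨M, hM⟩ := hz2 m
    refine ⟨m + 1, max N M, fun a ha b hb => ?_⟩
    exact lt_trans (lt_of_lt_of_le (hM a (le_trans (le_max_right _ _) ha)) hm)
      (hN N le_rfl b (le_trans (le_max_left _ _) hb))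
  · rintro p ⟨N, hN⟩
    obtain ⟨m, hm⟩ := hq2 N
    obtain ⟨M, hM⟩ := hz2 m
    exact ⟨m + 1, M, fun a ha => lt_trans (lt_of_lt_of_le (hM a ha) hm) (hN N le_rfl)⟩

/-- limits from below -/
theorem exists_sup (s : ℕ → EndP P) (hs : ∀ n, slt (s n) (s (n + 1))) :
    ∃ f : EndP P, f.up ∧ (∀ n, slt (s n) f) ∧ (∀ r, (∀ n, wle (s n) r) → wle f r) ∧
      (∀ r, slt r f → ∃ n, slt r (s n)) ∧ (∀ p, Above f p → ∃ n, Above (s n) p) := by
  obtain ⟨z, hz, hz1, hz2⟩ := sup_seq (fun i => (s i).seq) hs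
  obtain ⟨hq1, hq2⟩ := mkUp_seq z hz
  have hup := mkUp_up z hz
  refine ⟨mkUp z hz, hup, ?_, ?_, ?_, ?_⟩
  · intro i
    obtain ⟨N, hN⟩ := hz1 i
    obtain ⟨m, hm⟩ := hq1 (i + 1)
    refine ⟨max N m, fun a ha b hb => ?_⟩
    have h1 : (mkUp z hz).seq m ≤ (mkUp z hz).seq b :=
      (spec_up hup).1.monotone (le_trans (le_max_right _ _) hb)
    exact lt_of_lt_of_le (hN a (le_trans (le_max_left _ _) ha)) (hm.trans h1)
  · intro r hr
    have hb : ∀ m, Above r (z m) := fun m => above_of_wle (hr (m + 1)) (hz2 m)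
    by_cases hru : r.up
    · right; left
      refine ⟨hup, hru, ?_⟩
      intro p hp
      obtain ⟨m, hm⟩ : ∃ n, p ≤ z n := hp
      obtain ⟨N, hN⟩ := hb m
      exact (mem_up hru _).2 ⟨N, hm.trans (hN N le_rfl).le⟩
    · left
      refine ⟨0, fun n _ m _ => ?_⟩
      obtain ⟨k, hk⟩ := hq2 n
      exact lt_of_le_of_lt hk (above_all hru (hb k) m)
  · rintro r ⟨N, hN⟩
    obtain ⟨m, hm⟩ := hq2 N
    obtain ⟨M, hM⟩ := hz2 m
    refine ⟨m + 1, max N M, fun a ha b hb => ?_⟩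
    exact lt_trans (hN a (le_trans (le_max_left _ _) ha) N le_rfl)
      (lt_of_le_of_lt hm (hM b (le_trans (le_max_right _ _) hb)))
  · rintro p ⟨N, hN⟩
    obtain ⟨m, hm⟩ := hq2 N
    obtain ⟨M, hM⟩ := hz2 m
    exact ⟨m + 1, M, fun a ha => lt_trans (hN N le_rfl) (lt_of_le_of_lt hm (hM a ha))⟩

/-- finite width gives the (FAC) axiom for ends -/
theorem fac_ends (w : ℕ) (hw : ∀ A : Finset P, IsAntichain (· ≤ ·) (A : Set P) → A.card ≤ w)
    (s : ℕ → EndP P) : ∃ m n, m < n ∧ (s m = s n ∨ slt (s m) (s n) ∨ slt (s n) (s m)) := by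
  classical
  by_contra hcon
  push Not at hcon
  rcases Classical.em ({n | (s n).up}.Infinite) with hinf | hinf
  · have hinst := hinf.to_subtype
    obtain ⟨φ, hφ⟩ : ∃ φ : ℕ ↪o ℕ, ∀ n, (s (φ n)).up :=
      ⟨Nat.orderEmbeddingOfSet {n | (s n).up}, fun n =>
        (Nat.orderEmbeddingOfSet_range {n | (s n).up}).subset ⟨n, rfl⟩⟩
    obtain ⟨A, hA1, hA2⟩ := antichain_of_inf_seqs (P := P) (fun i => (s (φ i)).seq)
      (fun i => (spec_up (hφ i)).1) (by
        rintro i j hij ⟨h1, h2⟩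
        refine (hcon _ _ (φ.strictMono hij)).1 ?_
        apply ext' ⟨fun _ => hφ j, fun _ => hφ i⟩
        ext p
        rw [mem_up (hφ i), mem_up (hφ j)]
        constructor
        · rintro ⟨n, hn⟩
          obtain ⟨m, hm⟩ := h1 n
          exact ⟨m, hn.trans hm⟩
        · rintro ⟨n, hn⟩
          obtain ⟨m, hm⟩ := h2 n
          exact ⟨m, hn.trans hm⟩) (by
        intro i j hij
        exact (hcon _ _ (φ.strictMono hij)).2) (w + 1)
    have := hw A hA2
    omega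
  · have hinf' : {n | ¬ (s n).up}.Infinite := by
      have : {n | ¬ (s n).up} = {n | (s n).up}ᶜ := rfl
      rw [this]
      exact (Set.not_infinite.1 hinf).infinite_compl
    have hinst := hinf'.to_subtype
    obtain ⟨φ, hφ⟩ : ∃ φ : ℕ ↪o ℕ, ∀ n, ¬ (s (φ n)).up :=
      ⟨Nat.orderEmbeddingOfSet {n | ¬ (s n).up}, fun n =>
        (Nat.orderEmbeddingOfSet_range {n | ¬ (s n).up}).subset ⟨n, rfl⟩⟩
    obtain ⟨A, hA1, hA2⟩ := antichain_of_inf_seqs_dual (P := P) (fun i => (s (φ i)).seq)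
      (fun i => (spec_dn (hφ i)).1) (by
        rintro i j hij ⟨h1, h2⟩
        refine (hcon _ _ (φ.strictMono hij)).1 ?_
        apply ext' ⟨fun h => absurd h (hφ i), fun h => absurd h (hφ j)⟩
        ext p
        rw [mem_dn (hφ i), mem_dn (hφ j)]
        constructor
        · rintro ⟨n, hn⟩
          obtain ⟨m, hm⟩ := h1 n
          exact ⟨m, le_trans hm hn⟩
        · rintro ⟨n, hn⟩
          obtain ⟨m, hm⟩ := h2 n
          exact ⟨m, le_trans hm hn⟩) (by
        intro i j hij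
        exact (hcon _ _ (φ.strictMono hij)).2) (w + 1)
    have := hw A hA2
    omega

/-- the end system of a poset of finite width -/
theorem endSys (w : ℕ) (hw : ∀ A : Finset P, IsAntichain (· ≤ ·) (A : Set P) → A.card ≤ w) :
    EndSys (E := EndP P) slt wle up where
  irr := slt_irrefl
  lt_le := fun h => Or.inl h
  refl := wle_refl
  trans := wle_trans
  ltle := slt_wle
  lelt := wle_slt
  anti := wle_antisymm
  ud := by
    intro a b ha hb h
    rcases h with h | ⟨_, h, _⟩ | ⟨h, _, _⟩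
    · exact h
    · exact absurd h hb
    · exact absurd ha h
  fac := fac_ends w hw
  inf := fun s hs => by
    obtain ⟨f, h1, h2, h3, h4, -⟩ := exists_inf s hs
    exact ⟨f, h1, h2, h3, h4⟩
  sup := fun s hs => by
    obtain ⟨f, h1, h2, h3, h4, -⟩ := exists_sup s hs
    exact ⟨f, h1, h2, h3, h4⟩

end EndP

end Pool.Agent.TH398
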