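import Pool.Agent.TH398.Main

set_option autoImplicit false

/-!
# Strongly maximal chains in posets whose incomparability components have finite width

Every partially ordered set (of any cardinality) each of whose incomparability components has
finite width has a strongly maximal chain.  No bound on the widths of the components is needed.
-/

namespace Pool.Agent.TH398.FiniteWidthComponents

open Cardinal

universe u

/-- `a` and `b` are incomparable. -/
def Incomp {P : Type u} [PartialOrder P] (a b : P) : Prop := ¬ a ≤ b ∧ ¬ b ≤ a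

/-- The connected component of `x` in the incomparability graph of `P`. -/
def Component {P : Type u} [PartialOrder P] (x : P) : Set P :=
  {y | Relation.ReflTransGen Incomp x y}

/-- `S` has finite width: for some `n`, all finite antichains contained in `S` have at most
`n` elements. -/
def FiniteWidth {P : Type u} [PartialOrder P] (S : Set P) : Prop :=
  ∃ n : ℕ, ∀ A : Finset P, (A : Set P) ⊆ S → IsAntichain (· ≤ ·) (A : Set P) → A.card ≤ n

/-- `C` is a strongly maximal chain of `P`. -/
def StronglyMaximalChain {P : Type u} [PartialOrder P] (C : Set P) : Prop :=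
  IsChain (· ≤ ·) C ∧ ∀ D : Set P, IsChain (· ≤ ·) D →
    Cardinal.mk ↥(D \ C) ≤ Cardinal.mk ↥(C \ D)

theorem Incomp.symm {P : Type u} [PartialOrder P] {a b : P} (h : Incomp a b) : Incomp b a :=
  ⟨h.2, h.1⟩

theorem comp_symm {P : Type u} [PartialOrder P] {x y : P} (h : y ∈ Component x) :
    x ∈ Component y := by
  have h' : Relation.ReflTransGen Incomp x y := h
  change Relation.ReflTransGen Incomp y x
  induction h' with
  | refl => exact Relation.ReflTransGen.refl
  | tail hxy hyz ih => exact Relation.ReflTransGen.head hyz.symm (ih hxy)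

theorem comp_eq {P : Type u} [PartialOrder P] {x y : P} (h : y ∈ Component x) :
    Component y = Component x :=
  Set.Subset.antisymm (fun _ hz => Relation.ReflTransGen.trans h hz)
    (fun _ hz => Relation.ReflTransGen.trans (comp_symm h) hz)

theorem comp_self {P : Type u} [PartialOrder P] (x : P) : x ∈ Component x :=
  Relation.ReflTransGen.refl

theorem comparable_of_ne {P : Type u} [PartialOrder P] {x y : P}
    (h : Component x ≠ Component y) : x ≤ y ∨ y ≤ x := by
  by_contra hc
  rw [not_or] at hc
  exact h (comp_eq (x := x) (y := y) (Relation.ReflTransGen.single hc)).symm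

theorem spine_set {P : Type u} [PartialOrder P] (S : Set P) (hS : FiniteWidth S) :
    ∃ Φ : P → P, (∀ p ∈ S, Φ p ∈ S) ∧ (∀ p ∈ S, Φ (Φ p) = Φ p) ∧
      (∀ p ∈ S, ∀ q ∈ S, Φ p = Φ q → ¬ p < q) ∧
      (∀ p ∈ S, ∀ q ∈ S, Φ p ≤ Φ q ∨ Φ q ≤ Φ p) := by
  classical
  obtain ⟨n, hn⟩ := hS
  obtain ⟨Ψ, h1, h2, h3⟩ := Pool.Agent.TH398.exists_spine_fun (P := S) n (by
    intro A hA
    have := hn (A.map (Function.Embedding.subtype _)) (by
      intro x hx
      simp only [Finset.coe_map, Set.mem_image] at hx
      obtain ⟨y, _, rfl⟩ := hx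
      exact y.2) (by
      intro x hx y hy hxy hle
      simp only [Finset.coe_map, Set.mem_image] at hx hy
      obtain ⟨x, hx, rfl⟩ := hx
      obtain ⟨y, hy, rfl⟩ := hy
      exact hA hx hy (fun h => hxy (by rw [h])) hle)
    rwa [Finset.card_map] at this)
  refine ⟨fun p => if h : p ∈ S then (Ψ ⟨p, h⟩).1 else p, ?_, ?_, ?_, ?_⟩
  · intro p hp
    simp only [dif_pos hp]
    exact (Ψ ⟨p, hp⟩).2
  · intro p hp
    have h := (Ψ ⟨p, hp⟩).2
    simp only [dif_pos hp, dif_pos h]
    exact congrArg Subtype.val (h1 ⟨p, hp⟩)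
  · intro p hp q hq hpq
    simp only [dif_pos hp, dif_pos hq] at hpq
    exact h2 ⟨p, hp⟩ ⟨q, hq⟩ (Subtype.ext hpq)
  · intro p hp q hq
    simp only [dif_pos hp, dif_pos hq]
    exact h3 ⟨p, hp⟩ ⟨q, hq⟩

/-- **Result.**  Every partially ordered set `P` of any cardinality, each of whose
incomparability components has finite width, has a strongly maximal chain. -/
theorem result (P : Type u) [PartialOrder P]
    (h : ∀ x : P, FiniteWidth (Component x)) :
    ∃ C : Set P, StronglyMaximalChain C := by
  classical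
  have H : ∀ S : Set P, ∃ Φ : P → P, FiniteWidth S → ((∀ p ∈ S, Φ p ∈ S) ∧
      (∀ p ∈ S, Φ (Φ p) = Φ p) ∧ (∀ p ∈ S, ∀ q ∈ S, Φ p = Φ q → ¬ p < q) ∧
      (∀ p ∈ S, ∀ q ∈ S, Φ p ≤ Φ q ∨ Φ q ≤ Φ p)) := by
    intro S
    by_cases hS : FiniteWidth S
    · obtain ⟨Φ, hΦ⟩ := spine_set S hS
      exact ⟨Φ, fun _ => hΦ⟩
    · exact ⟨id, fun h => absurd h hS⟩
  choose F hF using H
  let Φ : P → P := fun p => F (Component p) p
  have hmem : ∀ p, Φ p ∈ Component p := fun p => (hF _ (h p)).1 p (comp_self p)
  have hcomp : ∀ p, Component (Φ p) = Component p := fun p => comp_eq (hmem p)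
  have h1 : ∀ p, Φ (Φ p) = Φ p := by
    intro p
    have := (hF _ (h p)).2.1 p (comp_self p)
    change F (Component (Φ p)) (Φ p) = Φ p
    rw [hcomp]
    exact this
  have h2 : ∀ p q, Φ p = Φ q → ¬ p < q := by
    intro p q hpq
    have hc : Component p = Component q := by rw [← hcomp p, ← hcomp q, hpq]
    have hq : q ∈ Component p := by rw [hc]; exact comp_self q
    refine (hF _ (h p)).2.2.1 p (comp_self p) q hq ?_
    have : Φ q = F (Component p) q := by
      change F (Component q) q = F (Component p) q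
      rw [hc]
    exact hpq.trans this
  have h3 : ∀ p q, Φ p ≤ Φ q ∨ Φ q ≤ Φ p := by
    intro p q
    by_cases hc : Component p = Component q
    · have hq : q ∈ Component p := by rw [hc]; exact comp_self q
      have := (hF _ (h p)).2.2.2 p (comp_self p) q hq
      have e : Φ q = F (Component p) q := by
        change F (Component q) q = F (Component p) q
        rw [hc]
      rw [e]
      exact this
    · exact comparable_of_ne (by rw [hcomp, hcomp]; exact hc)
  refine ⟨Set.range Φ, ?_, ?_⟩
  · rintro _ ⟨p, rfl⟩ _ ⟨q, rfl⟩ _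
    exact h3 p q
  · intro D hD
    have hinj : ∀ p ∈ D, ∀ q ∈ D, Φ p = Φ q → p = q := by
      intro p hp q hq hpq
      by_contra hne
      rcases hD hp hq hne with hle | hle
      · exact h2 p q hpq (lt_of_le_of_ne hle hne)
      · exact h2 q p hpq.symm (lt_of_le_of_ne hle (Ne.symm hne))
    refine Cardinal.mk_le_of_injective
      (f := fun d : ↥(D \ Set.range Φ) => (⟨Φ d.1, ⟨d.1, rfl⟩, fun hd =>
        d.2.2 ⟨d.1, (hinj _ d.2.1 _ hd (h1 d.1).symm).symm⟩⟩ : ↥(Set.range Φ \ D))) ?_
    intro d d' hdd
    have : Φ d.1 = Φ d'.1 := congrArg Subtype.val hdd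
    exact Subtype.ext (hinj _ d.2.1 _ d'.2.1 this)

end Pool.Agent.TH398.FiniteWidthComponents
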