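import Pool.Agent.TH398.Kernel3

set_option autoImplicit false

/-!
# Ends of arbitrary cofinality
-/

namespace Pool.Agent.TH398

universe u

section basic
variable {P : Type u} [PartialOrder P]

/-- ideals without greatest element -/
structure IsUpEnd (S : Set P) : Prop where
  ne : S.Nonempty
  lower : ∀ x ∈ S, ∀ y, y ≤ x → y ∈ S
  dir : ∀ x ∈ S, ∀ y ∈ S, ∃ z ∈ S, x < z ∧ y < z

/-- filters without least element -/
structure IsDnEnd (S : Set P) : Prop where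
  ne : S.Nonempty
  upper : ∀ x ∈ S, ∀ y, x ≤ y → y ∈ S
  dir : ∀ x ∈ S, ∀ y ∈ S, ∃ z ∈ S, z < x ∧ z < y

end basic

/-- ends of a poset -/
def GE (P : Type u) [PartialOrder P] : Type u :=
  {q : Bool × Set P // (q.1 = true ∧ IsUpEnd q.2) ∨ (q.1 = false ∧ IsDnEnd q.2)}

namespace GE

variable {P : Type u} [PartialOrder P]

/-- type of an end -/
def up (e : GE P) : Prop := e.1.1 = true

/-- underlying set -/
def S (e : GE P) : Set P := e.1.2

theorem isUp {e : GE P} (h : e.up) : IsUpEnd e.S := by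
  rcases e.2 with h1 | h1
  · exact h1.2
  · exact absurd (h.symm.trans h1.1) (by simp)

theorem isDn {e : GE P} (h : ¬ e.up) : IsDnEnd e.S := by
  rcases e.2 with h1 | h1
  · exact absurd h1.1 h
  · exact h1.2

theorem ext' {a b : GE P} (h1 : a.up ↔ b.up) (h2 : a.S = b.S) : a = b := by
  apply Subtype.ext
  apply Prod.ext
  · unfold up at h1
    cases ha : a.1.1 <;> cases hb : b.1.1 <;> simp_all
  · exact h2

/-- build an up end -/
def mkUp (S : Set P) (h : IsUpEnd S) : GE P := ⟨(true, S), Or.inl ⟨rfl, h⟩⟩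

/-- build a down end -/
def mkDn (S : Set P) (h : IsDnEnd S) : GE P := ⟨(false, S), Or.inr ⟨rfl, h⟩⟩

theorem mkUp_up (S : Set P) (h : IsUpEnd S) : (mkUp S h).up := rfl
theorem mkDn_up (S : Set P) (h : IsDnEnd S) : ¬ (mkDn S h).up := by
  unfold up mkDn; simp
theorem mkUp_S (S : Set P) (h : IsUpEnd S) : (mkUp S h).S = S := rfl
theorem mkDn_S (S : Set P) (h : IsDnEnd S) : (mkDn S h).S = S := rfl

/-- basic neighbourhoods of an end -/
def nb (e : GE P) (x : P) : Set P := {z | z ∈ e.S ∧ ((e.up ∧ x ≤ z) ∨ (¬ e.up ∧ z ≤ x))}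

theorem ne (e : GE P) : e.S.Nonempty := by
  by_cases h : e.up
  · exact (isUp h).ne
  · exact (isDn h).ne

theorem self_mem_nb {e : GE P} {x : P} (hx : x ∈ e.S) : x ∈ e.nb x := by
  by_cases h : e.up
  · exact ⟨hx, Or.inl ⟨h, le_rfl⟩⟩
  · exact ⟨hx, Or.inr ⟨h, le_rfl⟩⟩

theorem nb_subset {e : GE P} {x z : P} (hz : z ∈ e.nb x) : e.nb z ⊆ e.nb x := by
  rintro w ⟨hw1, hw2⟩
  obtain ⟨_, hz2⟩ := hz
  refine ⟨hw1, ?_⟩
  rcases hw2 with ⟨h1, h2⟩ | ⟨h1, h2⟩ <;> rcases hz2 with ⟨h3, h4⟩ | ⟨h3, h4⟩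
  · exact Or.inl ⟨h1, h4.trans h2⟩
  · exact absurd h1 h3
  · exact absurd h3 h1
  · exact Or.inr ⟨h1, h2.trans h4⟩

theorem nb_dir {e : GE P} {x y : P} (hx : x ∈ e.S) (hy : y ∈ e.S) :
    ∃ z ∈ e.S, z ∈ e.nb x ∧ z ∈ e.nb y ∧ x ≠ z := by
  by_cases h : e.up
  · obtain ⟨z, hz, h1, h2⟩ := (isUp h).dir x hx y hy
    exact ⟨z, hz, ⟨hz, Or.inl ⟨h, h1.le⟩⟩, ⟨hz, Or.inl ⟨h, h2.le⟩⟩, h1.ne⟩
  · obtain ⟨z, hz, h1, h2⟩ := (isDn h).dir x hx y hy
    exact ⟨z, hz, ⟨hz, Or.inr ⟨h, h1.le⟩⟩, ⟨hz, Or.inr ⟨h, h2.le⟩⟩, h1.ne'⟩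

/-- eventually along the end -/
def ev (e : GE P) (p : P → Prop) : Prop := ∃ x ∈ e.S, ∀ z ∈ e.nb x, p z

theorem ev.mono {e : GE P} {p q : P → Prop} (h : e.ev p) (hpq : ∀ z, p z → q z) : e.ev q := by
  obtain ⟨x, hx, h1⟩ := h
  exact ⟨x, hx, fun z hz => hpq z (h1 z hz)⟩

theorem ev.and {e : GE P} {p q : P → Prop} (hp : e.ev p) (hq : e.ev q) :
    e.ev (fun z => p z ∧ q z) := by
  obtain ⟨x, hx, h1⟩ := hp
  obtain ⟨y, hy, h2⟩ := hq
  obtain ⟨z, hz, hzx, hzy, -⟩ := nb_dir hx hy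
  exact ⟨z, hz, fun w hw => ⟨h1 w (nb_subset hzx hw), h2 w (nb_subset hzy hw)⟩⟩

theorem ev.exists {e : GE P} {p : P → Prop} (hp : e.ev p) : ∃ z ∈ e.S, p z := by
  obtain ⟨x, hx, h1⟩ := hp
  exact ⟨x, hx, h1 x (self_mem_nb hx)⟩

theorem ev_mem (e : GE P) : e.ev (fun z => z ∈ e.S) := by
  obtain ⟨x, hx⟩ := e.ne
  exact ⟨x, hx, fun z hz => hz.1⟩

theorem ev_nb {e : GE P} {x : P} (hx : x ∈ e.S) : e.ev (fun z => z ∈ e.nb x) :=
  ⟨x, hx, fun _ hz => hz⟩

/-- strong order -/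
def slt (a b : GE P) : Prop := ∃ x ∈ a.S, ∃ y ∈ b.S, ∀ u ∈ a.nb x, ∀ v ∈ b.nb y, u < v

/-- weak order -/
def wle (a b : GE P) : Prop :=
  slt a b ∨ (a.up ∧ b.up ∧ a.S ⊆ b.S) ∨ (¬ a.up ∧ ¬ b.up ∧ b.S ⊆ a.S)

/-- `p` is above a tail of `e` -/
def Below (e : GE P) (p : P) : Prop := e.ev (fun z => z < p)

/-- `p` is below a tail of `e` -/
def Above (e : GE P) (p : P) : Prop := e.ev (fun z => p < z)

/-- `p` is incomparable with a tail of `e` -/
def Nb (e : GE P) (p : P) : Prop := e.ev (fun z => ¬ z ≤ p ∧ ¬ p ≤ z)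

theorem above_up {e : GE P} (h : e.up) {p : P} : Above e p ↔ p ∈ e.S := by
  constructor
  · rintro ⟨x, hx, h1⟩
    exact (isUp h).lower x hx p (h1 x (self_mem_nb hx)).le
  · intro hp
    obtain ⟨z, hz, h1, -⟩ := (isUp h).dir p hp p hp
    refine ⟨z, hz, fun w hw => ?_⟩
    rcases hw.2 with h2 | h2
    · exact lt_of_lt_of_le h1 h2.2
    · exact absurd h h2.1

theorem below_dn {e : GE P} (h : ¬ e.up) {p : P} : Below e p ↔ p ∈ e.S := by
  constructor
  · rintro ⟨x, hx, h1⟩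
    exact (isDn h).upper x hx p (h1 x (self_mem_nb hx)).le
  · intro hp
    obtain ⟨z, hz, h1, -⟩ := (isDn h).dir p hp p hp
    refine ⟨z, hz, fun w hw => ?_⟩
    rcases hw.2 with h2 | h2
    · exact absurd h2.1 h
    · exact lt_of_le_of_lt h2.2 h1

theorem below_up {e : GE P} (h : e.up) {p : P} : Below e p ↔ ∀ x ∈ e.S, x < p := by
  constructor
  · rintro ⟨x, hx, h1⟩ y hy
    obtain ⟨z, hz, h2, h3⟩ := (isUp h).dir x hx y hy
    exact lt_trans h3 (h1 z ⟨hz, Or.inl ⟨h, h2.le⟩⟩)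
  · intro h1
    obtain ⟨x, hx⟩ := e.ne
    exact ⟨x, hx, fun z hz => h1 z hz.1⟩

theorem above_dn {e : GE P} (h : ¬ e.up) {p : P} : Above e p ↔ ∀ x ∈ e.S, p < x := by
  constructor
  · rintro ⟨x, hx, h1⟩ y hy
    obtain ⟨z, hz, h2, h3⟩ := (isDn h).dir x hx y hy
    exact lt_trans (h1 z ⟨hz, Or.inr ⟨h, h2.le⟩⟩) h3
  · intro h1
    obtain ⟨x, hx⟩ := e.ne
    exact ⟨x, hx, fun z hz => h1 z hz.1⟩

theorem tri (e : GE P) (p : P) : Below e p ∨ Above e p ∨ Nb e p := by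
  by_cases h : e.up
  · by_cases h3 : p ∈ e.S
    · exact Or.inr (Or.inl ((above_up h).2 h3))
    · by_cases h4 : ∀ x ∈ e.S, x ≤ p
      · left
        rw [below_up h]
        intro x hx
        obtain ⟨z, hz, h5, -⟩ := (isUp h).dir x hx x hx
        exact lt_of_lt_of_le h5 (h4 z hz)
      · right; right
        push Not at h4
        obtain ⟨x, hx, h5⟩ := h4
        refine ⟨x, hx, fun z hz => ⟨fun hle => ?_, fun hle => ?_⟩⟩
        · rcases hz.2 with h6 | h6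
          · exact h5 (h6.2.trans hle)
          · exact absurd h h6.1
        · exact h3 ((isUp h).lower z hz.1 p hle)
  · by_cases h3 : p ∈ e.S
    · exact Or.inl ((below_dn h).2 h3)
    · by_cases h4 : ∀ x ∈ e.S, p ≤ x
      · right; left
        rw [above_dn h]
        intro x hx
        obtain ⟨z, hz, h5, -⟩ := (isDn h).dir x hx x hx
        exact lt_of_le_of_lt (h4 z hz) h5
      · right; right
        push Not at h4
        obtain ⟨x, hx, h5⟩ := h4
        refine ⟨x, hx, fun z hz => ⟨fun hle => ?_, fun hle => ?_⟩⟩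
        · exact h3 ((isDn h).upper z hz.1 p hle)
        · rcases hz.2 with h6 | h6
          · exact absurd h6.1 h
          · exact h5 (hle.trans h6.2)

theorem Nb.not_below {e : GE P} {p : P} (h : Nb e p) : ¬ Below e p := fun h1 => by
  obtain ⟨z, _, h2, h3⟩ := (h.and h1).exists
  exact h2.1 h3.le

theorem Nb.not_above {e : GE P} {p : P} (h : Nb e p) : ¬ Above e p := fun h1 => by
  obtain ⟨z, _, h2, h3⟩ := (h.and h1).exists
  exact h2.2 h3.le

theorem Below.not_above {e : GE P} {p : P} (h : Below e p) : ¬ Above e p := fun h1 => by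
  obtain ⟨z, _, h2, h3⟩ := (ev.and h h1).exists
  exact lt_asymm h2 h3

theorem nb_of {e : GE P} {p : P} (h1 : ¬ Below e p) (h2 : ¬ Above e p) : Nb e p := by
  rcases tri e p with h | h | h
  · exact absurd h h1
  · exact absurd h h2
  · exact h

theorem slt_ev {a b : GE P} (h : slt a b) : a.ev (fun u => Above b u) := by
  obtain ⟨x, hx, y, hy, h1⟩ := h
  exact ⟨x, hx, fun u hu => ⟨y, hy, fun v hv => h1 u hu v hv⟩⟩

theorem slt_ev' {a b : GE P} (h : slt a b) : b.ev (fun v => Below a v) := by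
  obtain ⟨x, hx, y, hy, h1⟩ := h
  exact ⟨y, hy, fun v hv => ⟨x, hx, fun u hu => h1 u hu v hv⟩⟩

theorem below_of_slt {a b : GE P} (h : slt a b) {p : P} (hb : Below b p) : Below a p := by
  obtain ⟨x, hx, y, hy, h1⟩ := h
  obtain ⟨z, hz, hzy, hzp⟩ := (ev.and (ev_nb hy) hb).exists
  exact ⟨x, hx, fun u hu => lt_trans (h1 u hu z hzy) hzp⟩

theorem above_of_slt {a b : GE P} (h : slt a b) {p : P} (hb : Above a p) : Above b p := by
  obtain ⟨x, hx, y, hy, h1⟩ := h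
  obtain ⟨z, hz, hzx, hzp⟩ := (ev.and (ev_nb hx) hb).exists
  exact ⟨y, hy, fun v hv => lt_trans hzp (h1 z hzx v hv)⟩

theorem slt_of_below_above {a b : GE P} {p : P} (ha : Below a p) (hb : Above b p) :
    slt a b := by
  obtain ⟨x, hx, h1⟩ := ha
  obtain ⟨y, hy, h2⟩ := hb
  exact ⟨x, hx, y, hy, fun u hu v hv => lt_trans (h1 u hu) (h2 v hv)⟩

theorem slt_trans {a b c : GE P} (h1 : slt a b) (h2 : slt b c) : slt a c := by
  obtain ⟨z, _, h3, h4⟩ := ((slt_ev' h1).and (slt_ev h2)).exists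
  exact slt_of_below_above h3 h4

theorem slt_irrefl (a : GE P) : ¬ slt a a := fun h => by
  obtain ⟨z, hz, h1, h2⟩ := ((slt_ev' h).and (slt_ev h)).exists
  exact h1.not_above h2

/-- if `r ≤ e` and `p` is above a tail of `e` then `p` is above a tail of `r` -/
theorem below_of_wle {r e : GE P} (h : wle r e) {p : P} (hb : Below e p) : Below r p := by
  rcases h with h | ⟨h1, h2, h3⟩ | ⟨h1, h2, h3⟩
  · exact below_of_slt h hb
  · rw [below_up h1]
    rw [below_up h2] at hb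
    exact fun x hx => hb x (h3 hx)
  · rw [below_dn h1]
    rw [below_dn h2] at hb
    exact h3 hb

theorem above_of_wle {r e : GE P} (h : wle r e) {p : P} (hb : Above r p) : Above e p := by
  rcases h with h | ⟨h1, h2, h3⟩ | ⟨h1, h2, h3⟩
  · exact above_of_slt h hb
  · rw [above_up h2]
    rw [above_up h1] at hb
    exact h3 hb
  · rw [above_dn h2]
    rw [above_dn h1] at hb
    exact fun x hx => hb x (h3 hx)

theorem slt_wle {a b c : GE P} (h1 : slt a b) (h2 : wle b c) : slt a c := by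
  by_cases hb : b.up
  · obtain ⟨z, hz, h3⟩ := (slt_ev' h1).exists
    exact slt_of_below_above h3 (above_of_wle h2 ((above_up hb).2 hz))
  · rcases h2 with h2 | ⟨h2, _, _⟩ | ⟨_, h3, h4⟩
    · exact slt_trans h1 h2
    · exact absurd h2 hb
    · obtain ⟨x, hx, y, hy, h5⟩ := h1
      obtain ⟨z, hz⟩ := c.ne
      refine ⟨x, hx, z, hz, fun u hu v hv => ?_⟩
      have h6 : Above b u := ⟨y, hy, fun w hw => h5 u hu w hw⟩
      exact (above_dn hb).1 h6 v (h4 hv.1)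

theorem wle_slt {a b c : GE P} (h1 : wle a b) (h2 : slt b c) : slt a c := by
  by_cases hb : b.up
  · rcases h1 with h1 | ⟨h1, _, h4⟩ | ⟨_, h3, _⟩
    · exact slt_trans h1 h2
    · obtain ⟨x, hx, y, hy, h5⟩ := h2
      obtain ⟨z, hz⟩ := a.ne
      refine ⟨z, hz, y, hy, fun u hu v hv => ?_⟩
      have h6 : Below b v := ⟨x, hx, fun w hw => h5 w hw v hv⟩
      exact (below_up hb).1 h6 u (h4 hu.1)
    · exact absurd hb h3
  · obtain ⟨z, hz, h3⟩ := (slt_ev h2).exists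
    exact slt_of_below_above (below_of_wle h1 ((below_dn hb).2 hz)) h3

theorem wle_trans {a b c : GE P} (h1 : wle a b) (h2 : wle b c) : wle a c := by
  rcases h1 with h1 | ⟨h1, h1', h1''⟩ | ⟨h1, h1', h1''⟩
  · exact Or.inl (slt_wle h1 h2)
  · rcases h2 with h2 | ⟨h2, h2', h2''⟩ | ⟨h2, _, _⟩
    · exact Or.inl (wle_slt (Or.inr (Or.inl ⟨h1, h1', h1''⟩)) h2)
    · exact Or.inr (Or.inl ⟨h1, h2', h1''.trans h2''⟩)
    · exact absurd h1' h2
  · rcases h2 with h2 | ⟨h2, _, _⟩ | ⟨h2, h2', h2''⟩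
    · exact Or.inl (wle_slt (Or.inr (Or.inr ⟨h1, h1', h1''⟩)) h2)
    · exact absurd h2 h1'
    · exact Or.inr (Or.inr ⟨h1, h2', h2''.trans h1''⟩)

theorem wle_refl (a : GE P) : wle a a := by
  by_cases h : a.up
  · exact Or.inr (Or.inl ⟨h, h, le_rfl⟩)
  · exact Or.inr (Or.inr ⟨h, h, le_rfl⟩)

theorem wle_antisymm {a b : GE P} (h1 : wle a b) (h2 : wle b a) : a = b := by
  rcases h1 with h1 | ⟨h1, h1', h1''⟩ | ⟨h1, h1', h1''⟩
  · exact absurd (slt_wle h1 h2) (slt_irrefl a)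
  · rcases h2 with h2 | ⟨h2, h2', h2''⟩ | ⟨h2, _, _⟩
    · exact absurd (slt_wle h2 (Or.inr (Or.inl ⟨h1, h1', h1''⟩))) (slt_irrefl b)
    · exact ext' ⟨fun _ => h1', fun _ => h1⟩ (Set.Subset.antisymm h1'' h2'')
    · exact absurd h1' h2
  · rcases h2 with h2 | ⟨h2, _, _⟩ | ⟨h2, h2', h2''⟩
    · exact absurd (slt_wle h2 (Or.inr (Or.inr ⟨h1, h1', h1''⟩))) (slt_irrefl b)
    · exact absurd h2 h1'
    · exact ext' ⟨fun h => absurd h h1, fun h => absurd h h1'⟩ (Set.Subset.antisymm h2'' h1'')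

/-- limits from below of chains without greatest element -/
theorem exists_sup (A : Set (GE P)) (hne : A.Nonempty)
    (hc : ∀ a ∈ A, ∀ b ∈ A, a = b ∨ slt a b ∨ slt b a) (hs : ∀ a ∈ A, ∃ b ∈ A, slt a b) :
    ∃ f : GE P, f.up ∧ f.S = {p | ∃ a ∈ A, Above a p} ∧ (∀ a ∈ A, slt a f) ∧
      (∀ r, (∀ a ∈ A, wle a r) → wle f r) ∧ (∀ r, slt r f → ∃ a ∈ A, slt r a) := by
  have hmax : ∀ a ∈ A, ∀ b ∈ A, ∃ c ∈ A, slt a c ∧ slt b c := by
    intro a ha b hb
    obtain ⟨a', ha', haa'⟩ := hs a ha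
    obtain ⟨b', hb', hbb'⟩ := hs b hb
    rcases hc a' ha' b' hb' with h | h | h
    · exact ⟨a', ha', haa', h ▸ hbb'⟩
    · exact ⟨b', hb', slt_trans haa' h, hbb'⟩
    · exact ⟨a', ha', haa', slt_trans hbb' h⟩
  have hS : IsUpEnd {p | ∃ a ∈ A, Above a p} := by
    refine ⟨?_, ?_, ?_⟩
    · obtain ⟨a, ha⟩ := hne
      obtain ⟨b, hb, hab⟩ := hs a ha
      obtain ⟨z, _, hz⟩ := (slt_ev hab).exists
      exact ⟨z, b, hb, hz⟩
    · rintro x ⟨a, ha, hx⟩ y hyx
      exact ⟨a, ha, hx.mono (fun z hz => lt_of_le_of_lt hyx hz)⟩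
    · rintro x ⟨a, ha, hx⟩ y ⟨b, hb, hy⟩
      obtain ⟨c, hcA, hac, hbc⟩ := hmax a ha b hb
      obtain ⟨d, hdA, hcd⟩ := hs c hcA
      obtain ⟨z, _, hz⟩ := (((above_of_slt hac hx).and (above_of_slt hbc hy)).and
        (slt_ev hcd)).exists
      exact ⟨z, ⟨d, hdA, hz.2⟩, hz.1.1, hz.1.2⟩
  refine ⟨mkUp _ hS, mkUp_up _ hS, rfl, ?_, ?_, ?_⟩
  · intro a ha
    obtain ⟨b, hb, hab⟩ := hs a ha
    obtain ⟨c, hcA, hbc⟩ := hs b hb
    obtain ⟨z, _, h1, h2⟩ := ((slt_ev' hab).and (slt_ev hbc)).exists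
    exact slt_of_below_above h1 ((above_up (mkUp_up _ hS)).2 ⟨c, hcA, h2⟩)
  · intro r hr
    by_cases hru : r.up
    · right; left
      refine ⟨mkUp_up _ hS, hru, ?_⟩
      rintro p ⟨a, ha, hp⟩
      exact (above_up hru).1 (above_of_wle (hr a ha) hp)
    · left
      obtain ⟨x, hx⟩ := (mkUp _ hS).ne
      obtain ⟨y, hy⟩ := r.ne
      refine ⟨x, hx, y, hy, ?_⟩
      rintro u ⟨⟨a, ha, hu⟩, -⟩ v hv
      exact (above_dn hru).1 (above_of_wle (hr a ha) hu) v hv.1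
  · intro r hr
    obtain ⟨z, ⟨a, ha, hz⟩, h1⟩ := (slt_ev' hr).exists
    exact ⟨a, ha, slt_of_below_above h1 hz⟩

/-- limits from above of chains without least element -/
theorem exists_inf (A : Set (GE P)) (hne : A.Nonempty)
    (hc : ∀ a ∈ A, ∀ b ∈ A, a = b ∨ slt a b ∨ slt b a) (hs : ∀ a ∈ A, ∃ b ∈ A, slt b a) :
    ∃ f : GE P, ¬ f.up ∧ f.S = {p | ∃ a ∈ A, Below a p} ∧ (∀ a ∈ A, slt f a) ∧
      (∀ r, (∀ a ∈ A, wle r a) → wle r f) ∧ (∀ r, slt f r → ∃ a ∈ A, slt a r) := by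
  have hmax : ∀ a ∈ A, ∀ b ∈ A, ∃ c ∈ A, slt c a ∧ slt c b := by
    intro a ha b hb
    obtain ⟨a', ha', haa'⟩ := hs a ha
    obtain ⟨b', hb', hbb'⟩ := hs b hb
    rcases hc a' ha' b' hb' with h | h | h
    · exact ⟨a', ha', haa', h ▸ hbb'⟩
    · exact ⟨a', ha', haa', slt_trans h hbb'⟩
    · exact ⟨b', hb', slt_trans h haa', hbb'⟩
  have hS : IsDnEnd {p | ∃ a ∈ A, Below a p} := by
    refine ⟨?_, ?_, ?_⟩
    · obtain ⟨a, ha⟩ := hne
      obtain ⟨b, hb, hab⟩ := hs a ha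
      obtain ⟨z, _, hz⟩ := (slt_ev' hab).exists
      exact ⟨z, b, hb, hz⟩
    · rintro x ⟨a, ha, hx⟩ y hyx
      exact ⟨a, ha, hx.mono (fun z hz => lt_of_lt_of_le hz hyx)⟩
    · rintro x ⟨a, ha, hx⟩ y ⟨b, hb, hy⟩
      obtain ⟨c, hcA, hac, hbc⟩ := hmax a ha b hb
      obtain ⟨d, hdA, hcd⟩ := hs c hcA
      obtain ⟨z, _, hz⟩ := (((below_of_slt hac hx).and (below_of_slt hbc hy)).and
        (slt_ev' hcd)).exists
      exact ⟨z, ⟨d, hdA, hz.2⟩, hz.1.1, hz.1.2⟩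
  have hdn := mkDn_up _ hS
  refine ⟨mkDn _ hS, hdn, rfl, ?_, ?_, ?_⟩
  · intro a ha
    obtain ⟨b, hb, hab⟩ := hs a ha
    obtain ⟨c, hcA, hbc⟩ := hs b hb
    obtain ⟨z, _, h1, h2⟩ := ((slt_ev hab).and (slt_ev' hbc)).exists
    exact slt_of_below_above ((below_dn hdn).2 ⟨c, hcA, h2⟩) h1
  · intro r hr
    by_cases hru : r.up
    · left
      obtain ⟨x, hx⟩ := (mkDn _ hS).ne
      obtain ⟨y, hy⟩ := r.ne
      refine ⟨y, hy, x, hx, ?_⟩
      rintro u hu v ⟨⟨a, ha, hv⟩, -⟩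
      exact (below_up hru).1 (below_of_wle (hr a ha) hv) u hu.1
    · right; right
      refine ⟨hru, hdn, ?_⟩
      rintro p ⟨a, ha, hp⟩
      exact (below_dn hru).1 (below_of_wle (hr a ha) hp)
  · intro r hr
    obtain ⟨z, ⟨a, ha, hz⟩, h1⟩ := (slt_ev hr).exists
    exact ⟨a, ha, slt_of_below_above hz h1⟩

/-- finite subsets of an up end have strict upper bounds in it -/
theorem finset_bound {S : Set P} (hS : IsUpEnd S) (s : Finset P) (hs : ∀ x ∈ s, x ∈ S) :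
    ∃ z ∈ S, ∀ x ∈ s, x ≤ z := by
  classical
  induction s using Finset.induction_on with
  | empty =>
    obtain ⟨x, hx⟩ := hS.ne
    exact ⟨x, hx, by simp⟩
  | insert a s ha ih =>
    obtain ⟨z, hz, h1⟩ := ih (fun x hx => hs x (Finset.mem_insert_of_mem hx))
    obtain ⟨w, hw, h2, h3⟩ := hS.dir z hz a (hs a (Finset.mem_insert_self _ _))
    refine ⟨w, hw, fun x hx => ?_⟩
    rcases Finset.mem_insert.1 hx with rfl | hx
    · exact h3.le
    · exact (h1 x hx).trans h2.le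

theorem antichain_of_ideals (k : ℕ) (y : ℕ → Set P) (hy : ∀ i, IsUpEnd (y i))
    (h1 : ∀ i j, i < j → j < k → ¬ y i ⊆ y j)
    (h2 : ∀ i j, i < j → j < k → ¬ ∃ z ∈ y i, ∀ x ∈ y j, x ≤ z) :
    ∃ A : Finset P, A.card = k ∧ IsAntichain (· ≤ ·) (A : Set P) := by
  classical
  have h1' : ∀ i j, ∃ n ∈ y i, i < j → j < k → n ∉ y j := by
    intro i j
    by_cases hij : i < j ∧ j < k
    · obtain ⟨n, hn1, hn2⟩ := Set.not_subset.1 (h1 i j hij.1 hij.2)
      exact ⟨n, hn1, fun _ _ => hn2⟩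
    · obtain ⟨n, hn⟩ := (hy i).ne
      exact ⟨n, hn, fun a b => absurd ⟨a, b⟩ hij⟩
  choose nn hnn1 hnn2 using h1'
  have h2' : ∀ j i z, ∃ m ∈ y j, z ∈ y i → i < j → j < k → ¬ m ≤ z := by
    intro j i z
    by_cases hij : z ∈ y i ∧ i < j ∧ j < k
    · have := h2 i j hij.2.1 hij.2.2
      push Not at this
      obtain ⟨m, hm1, hm2⟩ := this z hij.1
      exact ⟨m, hm1, fun _ _ _ => hm2⟩
    · obtain ⟨n, hn⟩ := (hy j).ne
      exact ⟨n, hn, fun a b c => absurd ⟨a, b, c⟩ hij⟩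
  choose mm hmm1 hmm2 using h2'
  have key : ∀ t, ∃ a : ℕ → P, (∀ i < t, a i ∈ y i ∧ ∀ j < k, nn i j ≤ a i) ∧
      (∀ i j, i < j → j < t → mm j i (a i) ≤ a j) := by
    intro t
    induction t with
    | zero => exact ⟨fun i => (hy i).ne.some, by simp, by intro i j _ hj; omega⟩
    | succ t ih =>
      obtain ⟨a, ha1, ha2⟩ := ih
      obtain ⟨v, hv1, hv2⟩ := finset_bound (hy t)
        ((Finset.range k).image (nn t) ∪ (Finset.range t).image (fun i => mm t i (a i))) (by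
          intro x hx
          rcases Finset.mem_union.1 hx with hx | hx
          · obtain ⟨j, _, rfl⟩ := Finset.mem_image.1 hx
            exact hnn1 t j
          · obtain ⟨j, _, rfl⟩ := Finset.mem_image.1 hx
            exact hmm1 t j (a j))
      refine ⟨Function.update a t v, ?_, ?_⟩
      · intro i hi
        by_cases hit : i = t
        · subst hit
          rw [Function.update_self]
          exact ⟨hv1, fun j hj => hv2 _ (Finset.mem_union_left _
            (Finset.mem_image_of_mem _ (Finset.mem_range.2 hj)))⟩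
        · rw [Function.update_of_ne hit]
          exact ha1 i (by omega)
      · intro i j hij hj
        have hit : i ≠ t := by omega
        rw [Function.update_of_ne hit]
        by_cases hjt : j = t
        · subst hjt
          rw [Function.update_self]
          exact hv2 _ (Finset.mem_union_right _
            (Finset.mem_image_of_mem (fun i => mm j i (a i)) (Finset.mem_range.2 hij)))
        · rw [Function.update_of_ne hjt]
          exact ha2 i j hij (by omega)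
  obtain ⟨a, ha1, ha2⟩ := key k
  have hb1 : ∀ i j, i < j → j < k → ¬ a i ≤ a j := by
    intro i j hij hj hle
    have h3 : nn i j ∈ y j := (hy j).lower (a j) (ha1 j hj).1 _
      (((ha1 i (by omega)).2 j hj).trans hle)
    exact hnn2 i j hij hj h3
  have hb2 : ∀ i j, i < j → j < k → ¬ a j ≤ a i := by
    intro i j hij hj hle
    exact hmm2 j i (a i) (ha1 i (by omega)).1 hij hj ((ha2 i j hij hj).trans hle)
  have hainj : Set.InjOn a (Finset.range k : Set ℕ) := by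
    intro i hi j hj hij
    have hi' : i < k := by simpa using hi
    have hj' : j < k := by simpa using hj
    rcases lt_trichotomy i j with h3 | h3 | h3
    · exact absurd hij.le (hb1 i j h3 hj')
    · exact h3
    · exact absurd hij.ge (hb1 j i h3 hi')
  refine ⟨(Finset.range k).image a, ?_, ?_⟩
  · rw [Finset.card_image_of_injOn hainj, Finset.card_range]
  · intro p hp q hq hpq hle
    simp only [Finset.coe_image, Set.mem_image, Finset.coe_range, Set.mem_Iio] at hp hq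
    obtain ⟨i, hi, rfl⟩ := hp
    obtain ⟨j, hj, rfl⟩ := hq
    rcases lt_trichotomy i j with h3 | h3 | h3
    · exact hb1 i j h3 hj hle
    · exact hpq (by rw [h3])
    · exact hb2 j i h3 hi hle

theorem antichain_of_inf_ideals (x : ℕ → Set P) (hx : ∀ i, IsUpEnd (x i))
    (hD : ∀ i j, i < j → x i ≠ x j)
    (hlt : ∀ i j, i < j → (¬ ∃ z ∈ x i, ∀ w ∈ x j, w ≤ z) ∧ (¬ ∃ z ∈ x j, ∀ w ∈ x i, w ≤ z))
    (k : ℕ) :
    ∃ A : Finset P, A.card = k ∧ IsAntichain (· ≤ ·) (A : Set P) := by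
  have htr : IsTrans (Set P) (fun a b => a ⊆ b) := ⟨fun a b c hab hbc => hab.trans hbc⟩
  obtain ⟨g, hg⟩ := exists_increasing_or_nonincreasing_subseq (fun a b : Set P => a ⊆ b) x
  rcases hg with hg | hg
  · refine antichain_of_ideals k (fun i => x (g (k - 1 - i))) (fun i => hx _) ?_ ?_
    · intro i j hij hj hcon
      have h3 : k - 1 - j < k - 1 - i := by omega
      exact hD _ _ (g.strictMono h3) (Set.Subset.antisymm (hg _ _ h3) hcon)
    · intro i j hij hj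
      have h3 : k - 1 - j < k - 1 - i := by omega
      exact (hlt _ _ (g.strictMono h3)).2
  · refine antichain_of_ideals k (fun i => x (g i)) (fun i => hx _) ?_ ?_
    · intro i j hij _
      exact hg i j hij
    · intro i j hij _
      exact (hlt _ _ (g.strictMono hij)).1

theorem antichain_of_inf_filters (x : ℕ → Set P) (hx : ∀ i, IsDnEnd (x i))
    (hD : ∀ i j, i < j → x i ≠ x j)
    (hlt : ∀ i j, i < j → (¬ ∃ z ∈ x i, ∀ w ∈ x j, z ≤ w) ∧ (¬ ∃ z ∈ x j, ∀ w ∈ x i, z ≤ w))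
    (k : ℕ) :
    ∃ A : Finset P, A.card = k ∧ IsAntichain (· ≤ ·) (A : Set P) := by
  let x' : ℕ → Set Pᵒᵈ := fun i => OrderDual.ofDual ⁻¹' (x i)
  have hx' : ∀ i, IsUpEnd (x' i) := fun i =>
    ⟨(hx i).ne, fun a ha b hb => (hx i).upper a ha b hb, fun a ha b hb => (hx i).dir a ha b hb⟩
  obtain ⟨A, hA1, hA2⟩ := antichain_of_inf_ideals x' hx' (fun i j hij h => hD i j hij h)
    (fun i j hij => hlt i j hij) k
  refine ⟨A.map ⟨OrderDual.ofDual, OrderDual.ofDual.injective⟩, by simpa using hA1, ?_⟩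
  intro a ha b hb hab hle
  simp only [Finset.coe_map, Function.Embedding.coeFn_mk, Set.mem_image, Finset.mem_coe] at ha hb
  obtain ⟨a', ha', rfl⟩ := ha
  obtain ⟨b', hb', rfl⟩ := hb
  exact hA2 hb' ha' (fun h => hab (by rw [h])) hle

/-- finite width gives the (FAC) axiom for ends -/
theorem fac_ends (w : ℕ) (hw : ∀ A : Finset P, IsAntichain (· ≤ ·) (A : Set P) → A.card ≤ w)
    (s : ℕ → GE P) : ∃ m n, m < n ∧ (s m = s n ∨ slt (s m) (s n) ∨ slt (s n) (s m)) := by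
  classical
  by_contra hcon
  push Not at hcon
  rcases Classical.em ({n | (s n).up}.Infinite) with hinf | hinf
  · have hinst := hinf.to_subtype
    obtain ⟨φ, hφ⟩ : ∃ φ : ℕ ↪o ℕ, ∀ n, (s (φ n)).up :=
      ⟨Nat.orderEmbeddingOfSet {n | (s n).up}, fun n =>
        (Nat.orderEmbeddingOfSet_range {n | (s n).up}).subset ⟨n, rfl⟩⟩
    have hkey : ∀ a b : GE P, a.up → b.up → ¬ slt a b → ¬ ∃ z ∈ b.S, ∀ w ∈ a.S, w ≤ z := by
      rintro a b ha hb hab ⟨z, hz, h1⟩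
      apply hab
      refine slt_of_below_above (p := z) ?_ ((above_up hb).2 hz)
      rw [below_up ha]
      intro x hx
      obtain ⟨v, hv, h2, -⟩ := (isUp ha).dir x hx x hx
      exact lt_of_lt_of_le h2 (h1 v hv)
    obtain ⟨A, hA1, hA2⟩ := antichain_of_inf_ideals (fun i => (s (φ i)).S)
      (fun i => isUp (hφ i)) (by
        intro i j hij h
        exact (hcon _ _ (φ.strictMono hij)).1 (ext' ⟨fun _ => hφ j, fun _ => hφ i⟩ h)) (by
        intro i j hij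
        have h3 := (hcon _ _ (φ.strictMono hij)).2
        exact ⟨hkey _ _ (hφ j) (hφ i) h3.2, hkey _ _ (hφ i) (hφ j) h3.1⟩) (w + 1)
    have := hw A hA2
    omega
  · have hinf' : {n | ¬ (s n).up}.Infinite := by
      have : {n | ¬ (s n).up} = {n | (s n).up}ᶜ := rfl
      rw [this]
      exact (Set.not_infinite.1 hinf).infinite_compl
    have hinst := hinf'.to_subtype
    obtain ⟨φ, hφ⟩ : ∃ φ : ℕ ↪o ℕ, ∀ n, ¬ (s (φ n)).up :=
      ⟨Nat.orderEmbeddingOfSet {n | ¬ (s n).up}, fun n =>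
        (Nat.orderEmbeddingOfSet_range {n | ¬ (s n).up}).subset ⟨n, rfl⟩⟩
    have hkey : ∀ a b : GE P, ¬ a.up → ¬ b.up → ¬ slt a b → ¬ ∃ z ∈ a.S, ∀ w ∈ b.S, z ≤ w := by
      rintro a b ha hb hab ⟨z, hz, h1⟩
      apply hab
      refine slt_of_below_above (p := z) ((below_dn ha).2 hz) ?_
      rw [above_dn hb]
      intro x hx
      obtain ⟨v, hv, h2, -⟩ := (isDn hb).dir x hx x hx
      exact lt_of_le_of_lt (h1 v hv) h2
    obtain ⟨A, hA1, hA2⟩ := antichain_of_inf_filters (fun i => (s (φ i)).S)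
      (fun i => isDn (hφ i)) (by
        intro i j hij h
        exact (hcon _ _ (φ.strictMono hij)).1
          (ext' ⟨fun h => absurd h (hφ i), fun h => absurd h (hφ j)⟩ h)) (by
        intro i j hij
        have h3 := (hcon _ _ (φ.strictMono hij)).2
        exact ⟨hkey _ _ (hφ i) (hφ j) h3.1, hkey _ _ (hφ j) (hφ i) h3.2⟩) (w + 1)
    have := hw A hA2
    omega

end GE

end Pool.Agent.TH398
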