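import Pool.Agent.TH398.GEnd

set_option autoImplicit false

/-!
# Kernels of the system of ends of local size at least a given cardinal
-/

namespace Pool.Agent.TH398

open Cardinal

universe u

variable {P : Type u} [PartialOrder P]

theorem lt_of_union {lam : Cardinal.{u}} (hlam : ℵ₀ ≤ lam) {A B : Set P} (hA : #A < lam)
    (hB : #B < lam) : #(A ∪ B : Set P) < lam :=
  lt_of_le_of_lt (mk_union_le A B) (add_lt_of_lt hlam hA hB)

namespace GE

/-- every neighbourhood of the end has at least `lam` elements -/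
def big (lam : Cardinal.{u}) (e : GE P) : Prop := ∀ x ∈ e.S, lam ≤ #(e.nb x)

theorem big.ev {lam : Cardinal.{u}} {e : GE P} (h : big lam e) {T : Set P}
    (hT : e.ev (fun z => z ∈ T)) : lam ≤ #T := by
  obtain ⟨x, hx, h1⟩ := hT
  exact (h x hx).trans (mk_le_mk_of_subset h1)

theorem big_sup {lam : Cardinal.{u}} (A : Set (GE P)) (hA : ∀ a ∈ A, big lam a)
    (hs : ∀ a ∈ A, ∃ b ∈ A, slt a b) (f : GE P) (hf : f.up)
    (hfS : f.S = {p | ∃ a ∈ A, Above a p}) : big lam f := by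
  intro x hx
  have hx' := hx
  rw [hfS] at hx'
  obtain ⟨a, ha, hxa⟩ := hx'
  obtain ⟨b, hb, hab⟩ := hs a ha
  refine (hA a ha).ev ((ev.and hxa (slt_ev hab)).mono ?_)
  rintro z ⟨h1, h2⟩
  exact ⟨by rw [hfS]; exact ⟨b, hb, h2⟩, Or.inl ⟨hf, h1.le⟩⟩

theorem big_inf {lam : Cardinal.{u}} (A : Set (GE P)) (hA : ∀ a ∈ A, big lam a)
    (hs : ∀ a ∈ A, ∃ b ∈ A, slt b a) (f : GE P) (hf : ¬ f.up)
    (hfS : f.S = {p | ∃ a ∈ A, Below a p}) : big lam f := by
  intro x hx
  have hx' := hx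
  rw [hfS] at hx'
  obtain ⟨a, ha, hxa⟩ := hx'
  obtain ⟨b, hb, hab⟩ := hs a ha
  refine (hA a ha).ev ((ev.and hxa (slt_ev' hab)).mono ?_)
  rintro z ⟨h1, h2⟩
  exact ⟨by rw [hfS]; exact ⟨b, hb, h2⟩, Or.inr ⟨hf, h1.le⟩⟩

/-- the system of ends of local size at least `lam` -/
theorem endSys (w : ℕ) (hw : ∀ A : Finset P, IsAntichain (· ≤ ·) (A : Set P) → A.card ≤ w)
    (lam : Cardinal.{u}) :
    EndSys (E := {e : GE P // big lam e}) (fun a b => slt a.1 b.1) (fun a b => wle a.1 b.1)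
      (fun a => a.1.up) where
  irr := fun a => slt_irrefl a.1
  lt_le := fun h => Or.inl h
  refl := fun a => wle_refl a.1
  trans := fun h1 h2 => wle_trans h1 h2
  ltle := fun h1 h2 => slt_wle h1 h2
  lelt := fun h1 h2 => wle_slt h1 h2
  anti := fun h1 h2 => Subtype.ext (wle_antisymm h1 h2)
  ud := by
    intro a b ha hb h
    rcases h with h | ⟨_, h, _⟩ | ⟨h, _, _⟩
    · exact h
    · exact absurd h hb
    · exact absurd ha h
  fac := fun s => by
    obtain ⟨m, n, hmn, h⟩ := fac_ends w hw (fun n => (s n).1)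
    exact ⟨m, n, hmn, h.imp Subtype.ext id⟩
  inf := fun s hs => by
    have hlt : ∀ m n, m < n → slt (s n).1 (s m).1 := by
      intro m n hmn
      induction n, hmn using Nat.le_induction with
      | base => exact hs m
      | succ n hn ih => exact slt_trans (hs n) ih
    obtain ⟨f, h1, h2, h3, h4, h5⟩ := exists_inf (Set.range (fun n => (s n).1))
      ⟨_, 0, rfl⟩ (by
        rintro _ ⟨m, rfl⟩ _ ⟨n, rfl⟩
        rcases lt_trichotomy m n with h | h | h
        · exact Or.inr (Or.inr (hlt _ _ h))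
        · exact Or.inl (by rw [h])
        · exact Or.inr (Or.inl (hlt _ _ h))) (by
        rintro _ ⟨m, rfl⟩
        exact ⟨_, ⟨m + 1, rfl⟩, hs m⟩)
    have hbig : big lam f := big_inf (Set.range (fun n => (s n).1)) (by
      rintro _ ⟨m, rfl⟩
      exact (s m).2) (by
      rintro _ ⟨m, rfl⟩
      exact ⟨_, ⟨m + 1, rfl⟩, hs m⟩) f h1 h2
    refine ⟨⟨f, hbig⟩, h1, fun n => h3 _ ⟨n, rfl⟩, fun r hr => h4 r.1 ?_, fun r hr => ?_⟩
    · rintro _ ⟨m, rfl⟩
      exact hr m
    · obtain ⟨_, ⟨n, rfl⟩, h6⟩ := h5 r.1 hr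
      exact ⟨n, h6⟩
  sup := fun s hs => by
    have hlt : ∀ m n, m < n → slt (s m).1 (s n).1 := by
      intro m n hmn
      induction n, hmn using Nat.le_induction with
      | base => exact hs m
      | succ n hn ih => exact slt_trans ih (hs n)
    obtain ⟨f, h1, h2, h3, h4, h5⟩ := exists_sup (Set.range (fun n => (s n).1))
      ⟨_, 0, rfl⟩ (by
        rintro _ ⟨m, rfl⟩ _ ⟨n, rfl⟩
        rcases lt_trichotomy m n with h | h | h
        · exact Or.inr (Or.inl (hlt _ _ h))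
        · exact Or.inl (by rw [h])
        · exact Or.inr (Or.inr (hlt _ _ h))) (by
        rintro _ ⟨m, rfl⟩
        exact ⟨_, ⟨m + 1, rfl⟩, hs m⟩)
    have hbig : big lam f := big_sup (Set.range (fun n => (s n).1)) (by
      rintro _ ⟨m, rfl⟩
      exact (s m).2) (by
      rintro _ ⟨m, rfl⟩
      exact ⟨_, ⟨m + 1, rfl⟩, hs m⟩) f h1 h2
    refine ⟨⟨f, hbig⟩, h1, fun n => h3 _ ⟨n, rfl⟩, fun r hr => h4 r.1 ?_, fun r hr => ?_⟩
    · rintro _ ⟨m, rfl⟩
      exact hr m
    · obtain ⟨_, ⟨n, rfl⟩, h6⟩ := h5 r.1 hr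
      exact ⟨n, h6⟩

theorem arr_sub {Q : GE P → Prop} (a b : {e : GE P // Q e}) :
    Arr (E := {e : GE P // Q e}) (fun a b => slt a.1 b.1) (fun a b => wle a.1 b.1)
      (fun a => a.1.up) a b ↔ Arr slt wle up a.1 b.1 := by
  unfold Arr
  rw [ne_eq, ne_eq, Subtype.ext_iff]

theorem att_sub {Q : GE P → Prop} (a b : {e : GE P // Q e}) :
    Att (E := {e : GE P // Q e}) (fun a b => slt a.1 b.1) (fun a b => wle a.1 b.1)
      (fun a => a.1.up) a b ↔ Att slt wle up a.1 b.1 := by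
  unfold Att
  rw [arr_sub, ne_eq, ne_eq, Subtype.ext_iff]

/-- kernels of the system of ends of local size at least `lam` -/
structure IsKer (lam : Cardinal.{u}) (K : Set (GE P)) : Prop where
  big : ∀ k ∈ K, big lam k
  chn : ∀ a ∈ K, ∀ b ∈ K, a = b ∨ slt a b ∨ slt b a
  ker : ∀ e, GE.big lam e → e ∉ K → ∃ k ∈ K, Att slt wle up k e

theorem exists_isKer (w : ℕ) (hw : ∀ A : Finset P, IsAntichain (· ≤ ·) (A : Set P) → A.card ≤ w)
    (lam : Cardinal.{u}) : ∃ K : Set (GE P), IsKer lam K := by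
  obtain ⟨K, h1, h2⟩ := (endSys w hw lam).exists_kernel
  refine ⟨Subtype.val '' K, ?_, ?_, ?_⟩
  · rintro _ ⟨k, _, rfl⟩
    exact k.2
  · rintro _ ⟨a, ha, rfl⟩ _ ⟨b, hb, rfl⟩
    exact (h1 a ha b hb).imp (fun h => by rw [h]) id
  · intro e he heK
    obtain ⟨k, hk, hatt⟩ := h2 ⟨e, he⟩ (fun h => heK ⟨_, h, rfl⟩)
    exact ⟨k.1, ⟨k, hk, rfl⟩, (att_sub _ _).1 hatt⟩

/-- elements not attacked by `K` -/
def XK (K : Set (GE P)) : Set P := {p | ∀ k ∈ K, ¬ Nb k p}

theorem not_XK {K : Set (GE P)} {p : P} (h : p ∉ XK K) : ∃ k ∈ K, Nb k p := by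
  by_contra hcon
  push Not at hcon
  exact h hcon

theorem ud' {a b : GE P} (ha : a.up) (hb : ¬ b.up) (h : wle a b) : slt a b := by
  rcases h with h | ⟨_, h, _⟩ | ⟨h, _, _⟩
  · exact h
  · exact absurd h hb
  · exact absurd ha h

/-- kernels are closed under limits from below -/
theorem IsKer.sup {lam : Cardinal.{u}} {K : Set (GE P)} (hK : IsKer lam K) (A : Set (GE P))
    (hAK : A ⊆ K) (hne : A.Nonempty) (hs : ∀ a ∈ A, ∃ b ∈ A, slt a b) :
    ∃ f ∈ K, f.up ∧ f.S = {p | ∃ a ∈ A, Above a p} ∧ (∀ a ∈ A, slt a f) ∧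
      (∀ r, (∀ a ∈ A, wle a r) → wle f r) ∧ (∀ r, slt r f → ∃ a ∈ A, slt r a) := by
  obtain ⟨f, h1, h2, h3, h4, h5⟩ := exists_sup A hne
    (fun a ha b hb => hK.chn a (hAK ha) b (hAK hb)) hs
  refine ⟨f, ?_, h1, h2, h3, h4, h5⟩
  have hbig := big_sup A (fun a ha => hK.big a (hAK ha)) hs f h1 h2
  by_contra hfK
  obtain ⟨k, hkK, hatt⟩ := hK.ker f hbig hfK
  have h6 : ∀ a ∈ A, wle a k := by
    intro a ha
    rcases hK.chn k hkK a (hAK ha) with h | h | h
    · rw [h]; exact wle_refl _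
    · exact absurd (slt_trans h (h3 a ha)) hatt.2.1
    · exact Or.inl h
  have h7 : wle f k := h4 k h6
  have h8 : k.up := by
    by_contra hk
    exact hatt.2.2.1 (ud' h1 hk h7)
  exact hatt.2.2.2 ⟨fun h => hatt.1 h.symm, Or.inl ⟨h1, h8, h7, hatt.2.2.1⟩⟩

/-- kernels are closed under limits from above -/
theorem IsKer.inf {lam : Cardinal.{u}} {K : Set (GE P)} (hK : IsKer lam K) (A : Set (GE P))
    (hAK : A ⊆ K) (hne : A.Nonempty) (hs : ∀ a ∈ A, ∃ b ∈ A, slt b a) :
    ∃ f ∈ K, ¬ f.up ∧ f.S = {p | ∃ a ∈ A, Below a p} ∧ (∀ a ∈ A, slt f a) ∧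
      (∀ r, (∀ a ∈ A, wle r a) → wle r f) ∧ (∀ r, slt f r → ∃ a ∈ A, slt a r) := by
  obtain ⟨f, h1, h2, h3, h4, h5⟩ := exists_inf A hne
    (fun a ha b hb => hK.chn a (hAK ha) b (hAK hb)) hs
  refine ⟨f, ?_, h1, h2, h3, h4, h5⟩
  have hbig := big_inf A (fun a ha => hK.big a (hAK ha)) hs f h1 h2
  by_contra hfK
  obtain ⟨k, hkK, hatt⟩ := hK.ker f hbig hfK
  have h6 : ∀ a ∈ A, wle k a := by
    intro a ha
    rcases hK.chn k hkK a (hAK ha) with h | h | h
    · rw [h]; exact wle_refl _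
    · exact Or.inl h
    · exact absurd (slt_trans (h3 a ha) h) hatt.2.2.1
  have h7 : wle k f := h4 k h6
  have h8 : ¬ k.up := fun hk => hatt.2.1 (ud' hk h1 h7)
  exact hatt.2.2.2 ⟨fun h => hatt.1 h.symm, Or.inr ⟨h1, h8, h7, hatt.2.1⟩⟩

/-- An up end of the kernel which is not realised is a limit from below. -/
theorem limit_up {lam : Cardinal.{u}} {K : Set (GE P)} (hK : IsKer lam K) (b : GE P)
    (hbK : b ∈ K) (hb : b.up) (hX : ∃ x ∈ b.S, #(b.nb x ∩ XK K : Set P) < lam) :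
    ∀ z ∈ b.S, ∃ c ∈ K, slt c b ∧ Above c z := by
  by_contra hcon
  push Not at hcon
  obtain ⟨z0, hz0, h0⟩ := hcon
  obtain ⟨x1, hx1, h1⟩ := hX
  -- it is enough to find a neighbourhood inside `XK K`
  have hsuff : ∀ z ∈ b.S, ¬ b.nb z ⊆ XK K := by
    intro z hz hsub
    obtain ⟨v, hv, hvx, hvz, -⟩ := nb_dir hx1 hz
    have h2 : b.nb v ⊆ b.nb x1 ∩ XK K := fun w hw =>
      ⟨nb_subset hvx hw, hsub (nb_subset hvz hw)⟩
    exact absurd ((hK.big b hbK v hv).trans (mk_le_mk_of_subset h2)) (not_le_of_gt h1)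
  have hlow : ∀ z ∈ b.S, ∀ c ∈ K, Nb c z → slt c b := by
    intro z hz c hc hcz
    have hbz : Above b z := (above_up hb).2 hz
    rcases hK.chn c hc b hbK with h | h | h
    · exact absurd (h ▸ hbz) hcz.not_above
    · exact h
    · exact absurd (above_of_slt h hbz) hcz.not_above
  by_cases hne : ({c | c ∈ K ∧ slt c b} : Set (GE P)).Nonempty
  · by_cases hmax : ∀ a ∈ ({c | c ∈ K ∧ slt c b} : Set (GE P)),
        ∃ a' ∈ ({c | c ∈ K ∧ slt c b} : Set (GE P)), slt a a'
    · obtain ⟨f, hfK, hf1, hf2, hf3, hf4, hf5⟩ := hK.sup _ (fun c hc => hc.1) hne hmax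
      rcases hK.chn f hfK b hbK with h | h | h
      · have : z0 ∈ f.S := h ▸ hz0
        rw [hf2] at this
        obtain ⟨a, ha, haz⟩ := this
        exact h0 a ha.1 ha.2 haz
      · exact slt_irrefl f (hf3 f ⟨hfK, h⟩)
      · exact slt_irrefl b (slt_wle h (hf4 b (fun a ha => Or.inl ha.2)))
    · push Not at hmax
      obtain ⟨c, ⟨hcK, hcb⟩, hc⟩ := hmax
      obtain ⟨z1, hz1, h2⟩ := (slt_ev' hcb).exists
      apply hsuff z1 hz1
      intro w hw k hkK hkw
      have hwS : w ∈ b.S := hw.1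
      have hkb := hlow w hwS k hkK hkw
      have hcw : Below c w := by
        rcases hw.2 with h | h
        · exact h2.mono (fun z hz => lt_of_lt_of_le hz h.2)
        · exact absurd hb h.1
      rcases hK.chn c hcK k hkK with h | h | h
      · exact hkw.not_below (h ▸ hcw)
      · exact hc k ⟨hkK, hkb⟩ h
      · exact hkw.not_below (below_of_slt h hcw)
  · rw [Set.not_nonempty_iff_eq_empty] at hne
    apply hsuff x1 hx1
    intro w hw k hkK hkw
    have : k ∈ ({c | c ∈ K ∧ slt c b} : Set (GE P)) := ⟨hkK, hlow w hw.1 k hkK hkw⟩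
    rw [hne] at this
    exact this

theorem limit_dn {lam : Cardinal.{u}} {K : Set (GE P)} (hK : IsKer lam K) (b : GE P)
    (hbK : b ∈ K) (hb : ¬ b.up) (hX : ∃ x ∈ b.S, #(b.nb x ∩ XK K : Set P) < lam) :
    ∀ z ∈ b.S, ∃ c ∈ K, slt b c ∧ Below c z := by
  by_contra hcon
  push Not at hcon
  obtain ⟨z0, hz0, h0⟩ := hcon
  obtain ⟨x1, hx1, h1⟩ := hX
  have hsuff : ∀ z ∈ b.S, ¬ b.nb z ⊆ XK K := by
    intro z hz hsub
    obtain ⟨v, hv, hvx, hvz, -⟩ := nb_dir hx1 hz
    have h2 : b.nb v ⊆ b.nb x1 ∩ XK K := fun w hw =>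
      ⟨nb_subset hvx hw, hsub (nb_subset hvz hw)⟩
    exact absurd ((hK.big b hbK v hv).trans (mk_le_mk_of_subset h2)) (not_le_of_gt h1)
  have hlow : ∀ z ∈ b.S, ∀ c ∈ K, Nb c z → slt b c := by
    intro z hz c hc hcz
    have hbz : Below b z := (below_dn hb).2 hz
    rcases hK.chn c hc b hbK with h | h | h
    · exact absurd (h ▸ hbz) hcz.not_below
    · exact absurd (below_of_slt h hbz) hcz.not_below
    · exact h
  by_cases hne : ({c | c ∈ K ∧ slt b c} : Set (GE P)).Nonempty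
  · by_cases hmax : ∀ a ∈ ({c | c ∈ K ∧ slt b c} : Set (GE P)),
        ∃ a' ∈ ({c | c ∈ K ∧ slt b c} : Set (GE P)), slt a' a
    · obtain ⟨f, hfK, hf1, hf2, hf3, hf4, hf5⟩ := hK.inf _ (fun c hc => hc.1) hne hmax
      rcases hK.chn f hfK b hbK with h | h | h
      · have : z0 ∈ f.S := h ▸ hz0
        rw [hf2] at this
        obtain ⟨a, ha, haz⟩ := this
        exact h0 a ha.1 ha.2 haz
      · exact slt_irrefl b (wle_slt (hf4 b (fun a ha => Or.inl ha.2)) h)
      · exact slt_irrefl f (hf3 f ⟨hfK, h⟩)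
    · push Not at hmax
      obtain ⟨c, ⟨hcK, hcb⟩, hc⟩ := hmax
      obtain ⟨z1, hz1, h2⟩ := (slt_ev hcb).exists
      apply hsuff z1 hz1
      intro w hw k hkK hkw
      have hwS : w ∈ b.S := hw.1
      have hkb := hlow w hwS k hkK hkw
      have hcw : Above c w := by
        rcases hw.2 with h | h
        · exact absurd h.1 hb
        · exact h2.mono (fun z hz => lt_of_le_of_lt h.2 hz)
      rcases hK.chn c hcK k hkK with h | h | h
      · exact hkw.not_above (h ▸ hcw)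
      · exact hkw.not_above (above_of_slt h hcw)
      · exact hc k ⟨hkK, hkb⟩ h
  · rw [Set.not_nonempty_iff_eq_empty] at hne
    apply hsuff x1 hx1
    intro w hw k hkK hkw
    have : k ∈ ({c | c ∈ K ∧ slt b c} : Set (GE P)) := ⟨hkK, hlow w hw.1 k hkK hkw⟩
    rw [hne] at this
    exact this

theorem ev_finset {e : GE P} (Y : Finset P) (p : P → P → Prop) (h : ∀ y ∈ Y, e.ev (p y)) :
    e.ev (fun z => ∀ y ∈ Y, p y z) := by
  classical
  induction Y using Finset.induction_on with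
  | empty => exact (ev_mem e).mono (fun z _ => by simp)
  | insert a s ha ih =>
    refine ((h a (Finset.mem_insert_self _ _)).and
      (ih (fun y hy => h y (Finset.mem_insert_of_mem hy)))).mono ?_
    rintro z ⟨h1, h2⟩ y hy
    rcases Finset.mem_insert.1 hy with rfl | hy
    · exact h1
    · exact h2 y hy

/-- The main antichain argument. -/
theorem big_antichain {lam : Cardinal.{u}} {K : Set (GE P)} (hK : IsKer lam K)
    (a1 a2 : GE P) (hB : #({x | Below a1 x ∧ Above a2 x} ∩ XK K : Set P) < lam)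
    (b0 : GE P) (hb0 : b0 ∈ K) (h10 : slt a1 b0) (h02 : slt b0 a2) (k : ℕ) :
    ∃ (Y : Finset P) (b : GE P), Y.card = k ∧ IsAntichain (· ≤ ·) (Y : Set P) ∧ b ∈ K ∧
      slt a1 b ∧ slt b a2 ∧ ∀ y ∈ Y, Nb b y := by
  classical
  induction k with
  | zero => exact ⟨∅, b0, rfl, by simp, hb0, h10, h02, by simp⟩
  | succ k ih =>
    obtain ⟨Y, b, hYc, hYa, hbK, h1b, hb2, hnb⟩ := ih
    have hY : b.ev (fun z => ∀ y ∈ Y, ¬ z ≤ y ∧ ¬ y ≤ z) := ev_finset Y _ hnb
    have hBe : b.ev (fun z => Below a1 z ∧ Above a2 z) := (slt_ev' h1b).and (slt_ev hb2)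
    have hX : ∃ x ∈ b.S, #(b.nb x ∩ XK K : Set P) < lam := by
      obtain ⟨x, hx, h3⟩ := hBe
      exact ⟨x, hx, lt_of_le_of_lt (mk_le_mk_of_subset
        (Set.inter_subset_inter_left _ (fun z hz => h3 z hz))) hB⟩
    have hex : ∀ {q : P → Prop}, b.ev q → ∃ z ∈ b.S, q z ∧ z ∉ XK K := by
      intro q hq
      by_contra hcon
      push Not at hcon
      have h3 : b.ev (fun z => z ∈ ({x | Below a1 x ∧ Above a2 x} ∩ XK K : Set P)) :=
        ((hq.and hBe).and (ev_mem b)).mono (fun z hz => ⟨hz.1.2, hcon z hz.2 hz.1.1⟩)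
      exact absurd ((hK.big b hbK).ev h3) (not_le_of_gt hB)
    suffices hsuff : ∃ t, (∀ y ∈ Y, ¬ t ≤ y ∧ ¬ y ≤ t) ∧ ∃ b' ∈ K, slt a1 b' ∧ slt b' a2 ∧
        Nb b' t ∧ ∀ y ∈ Y, Nb b' y by
      obtain ⟨t, ht, b', hb'K, h1b', hb'2, hb't, hb'Y⟩ := hsuff
      have htY : t ∉ Y := fun htY => (ht _ htY).1 le_rfl
      refine ⟨insert t Y, b', ?_, ?_, hb'K, h1b', hb'2, ?_⟩
      · rw [Finset.card_insert_of_notMem htY, hYc]
      · intro p hp q hq hpq hle
        simp only [Finset.coe_insert, Set.mem_insert_iff, Finset.mem_coe] at hp hq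
        rcases hp with rfl | hp <;> rcases hq with rfl | hq
        · exact hpq rfl
        · exact (ht q hq).1 hle
        · exact (ht p hp).2 hle
        · exact hYa hp hq hpq hle
      · intro y hy
        rcases Finset.mem_insert.1 hy with rfl | hy
        · exact hb't
        · exact hb'Y y hy
    by_cases hb : b.up
    · obtain ⟨z0, hz0, ⟨h1z, -⟩, hz0Y⟩ := (hBe.and hY).exists
      obtain ⟨c, hcK, hcb, hc⟩ := limit_up hK b hbK hb hX z0 hz0
      have h1c : slt a1 c := slt_of_below_above h1z hc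
      have hcY : ∀ y ∈ Y, ¬ Below c y := by
        intro y hy hcy
        obtain ⟨v, _, hv1, hv2⟩ := (ev.and hc hcy).exists
        exact (hz0Y y hy).1 (hv1.trans hv2).le
      obtain ⟨t, htS, ⟨hct, htY⟩, htX⟩ := hex ((slt_ev' hcb).and hY)
      obtain ⟨b', hb'K, hb't⟩ := not_XK htX
      have hcb' : slt c b' := by
        rcases hK.chn c hcK b' hb'K with h3 | h3 | h3
        · exact absurd (h3 ▸ hct) hb't.not_below
        · exact h3
        · exact absurd (below_of_slt h3 hct) hb't.not_below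
      have hbt : Above b t := (above_up hb).2 htS
      have hb'b : slt b' b := by
        rcases hK.chn b' hb'K b hbK with h3 | h3 | h3
        · exact absurd (h3 ▸ hbt) hb't.not_above
        · exact h3
        · exact absurd (above_of_slt h3 hbt) hb't.not_above
      refine ⟨t, htY, b', hb'K, slt_trans h1c hcb', slt_trans hb'b hb2, hb't, ?_⟩
      intro y hy
      exact nb_of (fun h3 => hcY y hy (below_of_slt hcb' h3))
        (fun h3 => (hnb y hy).not_above (above_of_slt hb'b h3))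
    · obtain ⟨z0, hz0, ⟨-, h2z⟩, hz0Y⟩ := (hBe.and hY).exists
      obtain ⟨c, hcK, hcb, hc⟩ := limit_dn hK b hbK hb hX z0 hz0
      have h1c : slt c a2 := slt_of_below_above hc h2z
      have hcY : ∀ y ∈ Y, ¬ Above c y := by
        intro y hy hcy
        obtain ⟨v, _, hv1, hv2⟩ := (ev.and hc hcy).exists
        exact (hz0Y y hy).2 (hv2.trans hv1).le
      obtain ⟨t, htS, ⟨hct, htY⟩, htX⟩ := hex ((slt_ev hcb).and hY)
      obtain ⟨b', hb'K, hb't⟩ := not_XK htX
      have hcb' : slt b' c := by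
        rcases hK.chn b' hb'K c hcK with h3 | h3 | h3
        · exact absurd (h3 ▸ hct) hb't.not_above
        · exact h3
        · exact absurd (above_of_slt h3 hct) hb't.not_above
      have hbt : Below b t := (below_dn hb).2 htS
      have hb'b : slt b b' := by
        rcases hK.chn b hbK b' hb'K with h3 | h3 | h3
        · exact absurd (h3 ▸ hbt) hb't.not_below
        · exact h3
        · exact absurd (below_of_slt h3 hbt) hb't.not_below
      refine ⟨t, htY, b', hb'K, slt_trans h1b hb'b, slt_trans hcb' h1c, hb't, ?_⟩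
      intro y hy
      exact nb_of (fun h3 => (hnb y hy).not_below (below_of_slt hb'b h3))
        (fun h3 => hcY y hy (above_of_slt hcb' h3))

/-- ends of the kernel are realised by unattacked elements -/
theorem realised {w : ℕ} (hw : ∀ A : Finset P, IsAntichain (· ≤ ·) (A : Set P) → A.card ≤ w)
    {lam : Cardinal.{u}} {K : Set (GE P)} (hK : IsKer lam K) (a : GE P) (haK : a ∈ K)
    (x : P) (hx : x ∈ a.S) : lam ≤ #(a.nb x ∩ XK K : Set P) := by
  by_contra hcon
  rw [not_le] at hcon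
  by_cases ha : a.up
  · obtain ⟨c1, hc1K, hc1a, hc1⟩ := limit_up hK a haK ha ⟨x, hx, hcon⟩ x hx
    obtain ⟨z1, hz1, h1⟩ := (slt_ev' hc1a).exists
    obtain ⟨c2, hc2K, hc2a, hc2⟩ := limit_up hK a haK ha ⟨x, hx, hcon⟩ z1 hz1
    have h12 : slt c1 c2 := slt_of_below_above h1 hc2
    obtain ⟨Y, b, hYc, hYa, -⟩ := big_antichain hK c1 a (by
      refine lt_of_le_of_lt (mk_le_mk_of_subset (Set.inter_subset_inter_left _ ?_)) hcon
      rintro v ⟨hv1, hv2⟩
      obtain ⟨v', _, hv3, hv4⟩ := (ev.and hc1 hv1).exists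
      exact ⟨(above_up ha).1 hv2, Or.inl ⟨ha, (hv3.trans hv4).le⟩⟩) c2 hc2K h12 hc2a (w + 1)
    have := hw Y hYa
    omega
  · obtain ⟨c1, hc1K, hc1a, hc1⟩ := limit_dn hK a haK ha ⟨x, hx, hcon⟩ x hx
    obtain ⟨z1, hz1, h1⟩ := (slt_ev hc1a).exists
    obtain ⟨c2, hc2K, hc2a, hc2⟩ := limit_dn hK a haK ha ⟨x, hx, hcon⟩ z1 hz1
    have h12 : slt c2 c1 := slt_of_below_above hc2 h1
    obtain ⟨Y, b, hYc, hYa, -⟩ := big_antichain hK a c1 (by
      refine lt_of_le_of_lt (mk_le_mk_of_subset (Set.inter_subset_inter_left _ ?_)) hcon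
      rintro v ⟨hv1, hv2⟩
      obtain ⟨v', _, hv3, hv4⟩ := (ev.and hc1 hv2).exists
      exact ⟨(below_dn ha).1 hv1, Or.inr ⟨ha, (hv4.trans hv3).le⟩⟩) c2 hc2K hc2a h12 (w + 1)
    have := hw Y hYa
    omega

/-- accumulation ends -/
theorem acc {lam : Cardinal.{u}} (hlam : ℵ₀ ≤ lam) (w : ℕ) : ∀ (Y : Set P),
    (∀ A : Finset P, (A : Set P) ⊆ Y → IsAntichain (· ≤ ·) (A : Set P) → A.card ≤ w) →
    lam ≤ #Y → ∃ e : GE P, ∀ x ∈ e.S, lam ≤ #(e.nb x ∩ Y : Set P) := by
  classical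
  have hpos : (0 : Cardinal.{u}) < lam := lt_of_lt_of_le aleph0_pos hlam
  have hone : (1 : Cardinal.{u}) < lam := lt_of_lt_of_le one_lt_aleph0 hlam
  induction w with
  | zero =>
    intro Y hw hY
    exfalso
    have : Y = ∅ := by
      rw [Set.eq_empty_iff_forall_notMem]
      intro p hp
      have := hw {p} (by simpa using hp) (by simp)
      simp at this
    subst this
    rw [mk_emptyCollection] at hY
    exact absurd hY (not_le_of_gt hpos)
  | succ w ih =>
    intro Y hw hY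
    by_cases hp : ∃ p ∈ Y, lam ≤ #({q | q ∈ Y ∧ ¬ q ≤ p ∧ ¬ p ≤ q} : Set P)
    · obtain ⟨p, hpY, hp⟩ := hp
      obtain ⟨e, he⟩ := ih {q | q ∈ Y ∧ ¬ q ≤ p ∧ ¬ p ≤ q} (by
        intro A hAY hA
        have hpA : p ∉ A := fun h => (hAY h).2.1 le_rfl
        have := hw (insert p A) (by
          intro q hq
          simp only [Finset.coe_insert, Set.mem_insert_iff, Finset.mem_coe] at hq
          rcases hq with rfl | hq
          · exact hpY
          · exact (hAY hq).1) (by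
          intro a ha b hb hab hle
          simp only [Finset.coe_insert, Set.mem_insert_iff, Finset.mem_coe] at ha hb
          rcases ha with rfl | ha <;> rcases hb with rfl | hb
          · exact hab rfl
          · exact (hAY hb).2.2 hle
          · exact (hAY ha).2.1 hle
          · exact hA ha hb hab hle)
        rw [Finset.card_insert_of_notMem hpA] at this
        omega) hp
      exact ⟨e, fun x hx => (he x hx).trans (mk_le_mk_of_subset
        (Set.inter_subset_inter_right _ (fun q hq => hq.1)))⟩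
    · push Not at hp
      have hN : ∀ p ∈ Y, #({q | q ∈ Y ∧ ¬ q ≤ p ∧ ¬ p ≤ q} : Set P) < lam := hp
      let L : Set P := {p | p ∈ Y ∧ #({q | q ∈ Y ∧ q ≤ p} : Set P) < lam}
      by_cases hL : lam ≤ #L
      · -- an up end
        have hLge : ∀ x ∈ L, lam ≤ #({z | z ∈ L ∧ x ≤ z} : Set P) := by
          intro x hx
          by_contra hcon
          rw [not_le] at hcon
          have hsub : L ⊆ ({q | q ∈ Y ∧ q ≤ x} ∪ {q | q ∈ Y ∧ ¬ q ≤ x ∧ ¬ x ≤ q}) ∪
              {z | z ∈ L ∧ x ≤ z} := by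
            intro z hz
            by_cases h1 : z ≤ x
            · exact Or.inl (Or.inl ⟨hz.1, h1⟩)
            · by_cases h2 : x ≤ z
              · exact Or.inr ⟨hz, h2⟩
              · exact Or.inl (Or.inr ⟨hz.1, h1, h2⟩)
          exact absurd (hL.trans (mk_le_mk_of_subset hsub)) (not_le_of_gt
            (lt_of_union hlam (lt_of_union hlam hx.2 (hN x hx.1)) hcon))
        have hdir : ∀ x ∈ L, ∀ y ∈ L, ∃ z ∈ L, x < z ∧ y < z := by
          intro x hx y hy
          by_contra hcon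
          push Not at hcon
          have hsub : {z | z ∈ L ∧ x ≤ z} ⊆ ({x} ∪ {q | q ∈ Y ∧ q ≤ y}) ∪
              {q | q ∈ Y ∧ ¬ q ≤ y ∧ ¬ y ≤ q} := by
            rintro z ⟨hz, hxz⟩
            by_cases h0 : z = x
            · exact Or.inl (Or.inl h0)
            · by_cases h1 : z ≤ y
              · exact Or.inl (Or.inr ⟨hz.1, h1⟩)
              · by_cases h2 : y ≤ z
                · exact absurd (lt_of_le_of_ne h2 (fun h3 => h1 h3.ge))
                    (hcon z hz (lt_of_le_of_ne hxz (fun h3 => h0 h3.symm)))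
                · exact Or.inr ⟨hz.1, h1, h2⟩
          exact absurd ((hLge x hx).trans (mk_le_mk_of_subset hsub)) (not_le_of_gt
            (lt_of_union hlam (lt_of_union hlam (by simpa using hone) hy.2) (hN y hy.1)))
        have hLne : L.Nonempty := by
          rw [Set.nonempty_iff_ne_empty]
          intro h
          rw [h, mk_emptyCollection] at hL
          exact absurd hL (not_le_of_gt hpos)
        have hS : IsUpEnd {q | ∃ p ∈ L, q ≤ p} := by
          refine ⟨?_, ?_, ?_⟩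
          · obtain ⟨x, hx⟩ := hLne
            exact ⟨x, x, hx, le_rfl⟩
          · rintro x ⟨p, hp, hxp⟩ y hyx
            exact ⟨p, hp, hyx.trans hxp⟩
          · rintro x ⟨p, hp, hxp⟩ y ⟨q, hq, hyq⟩
            obtain ⟨z, hz, h1, h2⟩ := hdir p hp q hq
            exact ⟨z, ⟨z, hz, le_rfl⟩, lt_of_le_of_lt hxp h1, lt_of_le_of_lt hyq h2⟩
        refine ⟨mkUp _ hS, ?_⟩
        rintro x ⟨p, hp, hxp⟩
        refine (hLge p hp).trans (mk_le_mk_of_subset ?_)
        rintro z ⟨hz, hpz⟩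
        exact ⟨⟨⟨z, hz, le_rfl⟩, Or.inl ⟨mkUp_up _ hS, hxp.trans hpz⟩⟩, hz.1⟩
      · rw [not_le] at hL
        let Y' : Set P := {p | p ∈ Y ∧ p ∉ L}
        have hY'ge : ∀ x ∈ Y', lam ≤ #({z | z ∈ Y' ∧ z ≤ x} : Set P) := by
          intro x hx
          by_contra hcon
          rw [not_le] at hcon
          have h1 : lam ≤ #({q | q ∈ Y ∧ q ≤ x} : Set P) := by
            by_contra h2
            rw [not_le] at h2
            exact hx.2 ⟨hx.1, h2⟩
          have hsub : ({q | q ∈ Y ∧ q ≤ x} : Set P) ⊆ L ∪ {z | z ∈ Y' ∧ z ≤ x} := by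
            rintro z ⟨hz1, hz2⟩
            by_cases hzL : z ∈ L
            · exact Or.inl hzL
            · exact Or.inr ⟨⟨hz1, hzL⟩, hz2⟩
          exact absurd (h1.trans (mk_le_mk_of_subset hsub)) (not_le_of_gt
            (lt_of_union hlam hL hcon))
        have hdir : ∀ x ∈ Y', ∀ y ∈ Y', ∃ z ∈ Y', z < x ∧ z < y := by
          intro x hx y hy
          by_contra hcon
          push Not at hcon
          by_cases hyx : y ≤ x
          · have hsub : {z | z ∈ Y' ∧ z ≤ y} ⊆ ({y} : Set P) := by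
              rintro z ⟨hz, hzy⟩
              by_contra h0
              have h1 : z < y := lt_of_le_of_ne hzy h0
              exact hcon z hz (lt_of_lt_of_le h1 hyx) h1
            exact absurd ((hY'ge y hy).trans (mk_le_mk_of_subset hsub))
              (not_le_of_gt (by simpa using hone))
          · have hsub : {z | z ∈ Y' ∧ z ≤ x} ⊆ {x} ∪ {q | q ∈ Y ∧ ¬ q ≤ y ∧ ¬ y ≤ q} := by
              rintro z ⟨hz, hzx⟩
              by_cases h0 : z = x
              · exact Or.inl h0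
              · right
                refine ⟨hz.1, fun h1 => ?_, fun h1 => hyx (h1.trans hzx)⟩
                exact hcon z hz (lt_of_le_of_ne hzx h0)
                  (lt_of_le_of_ne h1 (fun h3 => hyx (h3 ▸ hzx)))
            exact absurd ((hY'ge x hx).trans (mk_le_mk_of_subset hsub)) (not_le_of_gt
              (lt_of_union hlam (by simpa using hone) (hN y hy.1)))
        have hY'ne : Y'.Nonempty := by
          rw [Set.nonempty_iff_ne_empty]
          intro h
          have hsub : Y ⊆ L := by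
            intro z hz
            by_contra hzL
            have : z ∈ Y' := ⟨hz, hzL⟩
            rw [h] at this
            exact this
          exact absurd (hY.trans (mk_le_mk_of_subset hsub)) (not_le_of_gt hL)
        have hS : IsDnEnd {q | ∃ p ∈ Y', p ≤ q} := by
          refine ⟨?_, ?_, ?_⟩
          · obtain ⟨x, hx⟩ := hY'ne
            exact ⟨x, x, hx, le_rfl⟩
          · rintro x ⟨p, hp, hxp⟩ y hyx
            exact ⟨p, hp, hxp.trans hyx⟩
          · rintro x ⟨p, hp, hxp⟩ y ⟨q, hq, hyq⟩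
            obtain ⟨z, hz, h1, h2⟩ := hdir p hp q hq
            exact ⟨z, ⟨z, hz, le_rfl⟩, lt_of_lt_of_le h1 hxp, lt_of_lt_of_le h2 hyq⟩
        refine ⟨mkDn _ hS, ?_⟩
        rintro x ⟨p, hp, hxp⟩
        refine (hY'ge p hp).trans (mk_le_mk_of_subset ?_)
        rintro z ⟨hz, hpz⟩
        exact ⟨⟨⟨z, hz, le_rfl⟩, Or.inr ⟨mkDn_up _ hS, hpz.trans hxp⟩⟩, hz.1⟩

/-- an end which accumulates unattacked elements is not attacked -/
theorem not_att_of_acc (k e : GE P) (X : Set P) (hX : ∀ x ∈ X, ¬ Nb k x)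
    (he : ∀ x ∈ e.S, (e.nb x ∩ X).Nonempty) : ¬ Att slt wle up k e := by
  intro h
  by_cases heu : e.up
  · have h2 : ∀ z ∈ e.S, Above k z := by
      intro z hz
      obtain ⟨x, ⟨hxS, hzx⟩, hxX⟩ := he z hz
      rcases tri k x with h3 | h3 | h3
      · exact absurd (slt_of_below_above h3 ((above_up heu).2 hxS)) h.2.1
      · rcases hzx with h4 | h4
        · exact h3.mono (fun v hv => lt_of_le_of_lt h4.2 hv)
        · exact absurd heu h4.1
      · exact absurd h3 (hX x hxX)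
    by_cases hk : k.up
    · refine h.2.2.2 ⟨fun h3 => h.1 h3.symm, Or.inl ⟨heu, hk, Or.inr (Or.inl ⟨heu, hk, ?_⟩),
        h.2.2.1⟩⟩
      exact fun z hz => (above_up hk).1 (h2 z hz)
    · apply h.2.2.1
      obtain ⟨x, hx⟩ := e.ne
      obtain ⟨y, hy⟩ := k.ne
      exact ⟨x, hx, y, hy, fun u hu v hv => (above_dn hk).1 (h2 u hu.1) v hv.1⟩
  · have h2 : ∀ z ∈ e.S, Below k z := by
      intro z hz
      obtain ⟨x, ⟨hxS, hzx⟩, hxX⟩ := he z hz
      rcases tri k x with h3 | h3 | h3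
      · rcases hzx with h4 | h4
        · exact absurd h4.1 heu
        · exact h3.mono (fun v hv => lt_of_lt_of_le hv h4.2)
      · exact absurd (slt_of_below_above ((below_dn heu).2 hxS) h3) h.2.2.1
      · exact absurd h3 (hX x hxX)
    by_cases hk : k.up
    · apply h.2.1
      obtain ⟨x, hx⟩ := e.ne
      obtain ⟨y, hy⟩ := k.ne
      exact ⟨y, hy, x, hx, fun u hu v hv => (below_up hk).1 (h2 v hv.1) u hu.1⟩
    · refine h.2.2.2 ⟨fun h3 => h.1 h3.symm, Or.inr ⟨heu, hk, Or.inr (Or.inr ⟨hk, heu, ?_⟩),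
        h.2.1⟩⟩
      exact fun z hz => (below_dn hk).1 (h2 z hz)

end GE

/-- `X` is an `ST lam` set in `Y`. -/
def IsST (lam : Cardinal.{u}) (X Y : Set P) : Prop :=
  X ⊆ Y ∧ (∀ x ∈ X, #({q | q ∈ X ∧ ¬ q ≤ x ∧ ¬ x ≤ q} : Set P) < lam) ∧
    (∀ y ∈ Y, y ∉ X → lam ≤ #({q | q ∈ X ∧ ¬ q ≤ y ∧ ¬ y ≤ q} : Set P))

/-- the unattacked set of a kernel is an ST set -/
theorem isST_of_isKer {w : ℕ}
    (hw : ∀ A : Finset P, IsAntichain (· ≤ ·) (A : Set P) → A.card ≤ w)
    {lam : Cardinal.{u}} (hlam : ℵ₀ ≤ lam) {K : Set (GE P)} (hK : GE.IsKer lam K) :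
    IsST lam (GE.XK K) Set.univ := by
  have hpos : (0 : Cardinal.{u}) < lam := lt_of_lt_of_le aleph0_pos hlam
  refine ⟨Set.subset_univ _, ?_, ?_⟩
  · intro x hx
    by_contra hcon
    rw [not_lt] at hcon
    obtain ⟨e, he⟩ := GE.acc hlam w {q | q ∈ GE.XK K ∧ ¬ q ≤ x ∧ ¬ x ≤ q}
      (fun A _ hA => hw A hA) hcon
    have hne : ∀ z ∈ e.S, (e.nb z ∩ {q | q ∈ GE.XK K ∧ ¬ q ≤ x ∧ ¬ x ≤ q}).Nonempty := by
      intro z hz
      rw [Set.nonempty_iff_ne_empty]
      intro h
      have := he z hz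
      rw [h, mk_emptyCollection] at this
      exact absurd this (not_le_of_gt hpos)
    have hbig : GE.big lam e := fun z hz => (he z hz).trans
      (mk_le_mk_of_subset Set.inter_subset_left)
    by_cases heK : e ∈ K
    · apply hx e heK
      refine GE.nb_of ?_ ?_
      · rintro ⟨y, hy, h1⟩
        obtain ⟨v, hv1, hv2⟩ := hne y hy
        exact hv2.2.1 (h1 v hv1).le
      · rintro ⟨y, hy, h1⟩
        obtain ⟨v, hv1, hv2⟩ := hne y hy
        exact hv2.2.2 (h1 v hv1).le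
    · obtain ⟨k, hkK, hatt⟩ := hK.ker e hbig heK
      exact GE.not_att_of_acc k e (GE.XK K) (fun x hx => hx k hkK)
        (fun z hz => (hne z hz).mono (Set.inter_subset_inter_right _ (fun q hq => hq.1))) hatt
  · intro y _ hy
    obtain ⟨k, hkK, x, hx, h1⟩ := GE.not_XK hy
    refine (GE.realised hw hK k hkK x hx).trans (mk_le_mk_of_subset ?_)
    rintro q ⟨hq1, hq2⟩
    exact ⟨hq2, h1 q hq1⟩

theorem exists_isST {w : ℕ}
    (hw : ∀ A : Finset P, IsAntichain (· ≤ ·) (A : Set P) → A.card ≤ w)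
    {lam : Cardinal.{u}} (hlam : ℵ₀ ≤ lam) : ∃ X : Set P, IsST lam X Set.univ := by
  obtain ⟨K, hK⟩ := GE.exists_isKer w hw lam
  exact ⟨_, isST_of_isKer hw hlam hK⟩

end Pool.Agent.TH398
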