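import Pool.Agent.TH398.CofSeq

set_option autoImplicit false

/-!
# Gluing towers
-/

namespace Pool.Agent.TH398

open Cardinal

universe u

variable {P : Type u} [PartialOrder P]

theorem reg_arg {L lam : Cardinal.{u}} (hreg : L.IsRegular) (hlam : ℵ₀ ≤ lam) {X Z : Set P}
    (hST : IsST lam X Z) (hZ : ∀ x ∈ Z, #(NI Z x) < L) (Y0 : Set P) (hY0Z : Y0 ⊆ Z)
    (hY0 : L ≤ #Y0) (W : Set P) (hW : #W < L) (hWZ : W ⊆ Z)
    (hcl : ∀ y ∈ Y0, ∀ x ∈ NI X y, x ∈ Y0 ∨ x ∈ W) : L ≤ #(X ∩ Y0 : Set P) := by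
  by_contra hcon
  rw [not_le] at hcon
  have hL := hreg.aleph0_le
  have hun : #((X ∩ Y0) ∪ W : Set P) < L := lt_of_union hL hcon hW
  refine absurd (hY0.trans (mk_le_mk_of_subset (t := (X ∩ Y0) ∪
    ⋃ x ∈ ((X ∩ Y0) ∪ W : Set P), NI Z x) ?_)) (not_le_of_gt ?_)
  · intro y hy
    by_cases hyX : y ∈ X
    · exact Or.inl ⟨hyX, hy⟩
    · right
      obtain ⟨x, hx⟩ := nonempty_of_le hlam (hST.le y (hY0Z hy) hyX)
      simp only [Set.mem_iUnion]
      refine ⟨x, ?_, NI_comm (hY0Z hy) ⟨hST.1 hx.1, hx.2⟩⟩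
      rcases hcl y hy x hx with h | h
      · exact Or.inl ⟨hx.1, h⟩
      · exact Or.inr h
  · refine lt_of_union hL hcon ?_
    refine (card_biUnion_lt_iff_forall_of_isRegular (t := fun x _ => NI Z x) hreg hun).2 ?_
    rintro x (hx | hx)
    · exact hZ x (hST.1 hx.1)
    · exact hZ x (hWZ hx)

theorem gamma {ι : Type u} [LinearOrder ι] [WellFoundedLT ι] (w : P) (Λ : ι → Cardinal.{u})
    (Q : ι → Set P) (X : ι → Cardinal.{u} → Set P) (J U J' : ι → Set P) (ix : P → ι)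
    (hreg : ∀ i, (Λ i).IsRegular) (hι : ∀ i, #ι < Λ i) (hmax : ∀ i : ι, ∃ j, i < j)
    (hX : ∀ i, IsTower (Q i) (X i))
    (hJ : ∀ i, J i = cJ w (Λ i) (X i (Λ i))) (hU : ∀ i, U i = cU w (Λ i) (X i (Λ i)))
    (hJs : ∀ i j, i < j → (∀ k < j, k ≤ i) → J i = cJ w (Λ i) (X j (Λ i)))
    (hUs : ∀ i j, i < j → (∀ k < j, k ≤ i) → U i = cU w (Λ i) (X j (Λ i)))
    (hBd : ∀ i j, i < j → Bd w (Λ j) (J i) (U i))
    (hwJ' : ∀ i x, w < x → x ∈ J' i)
    (hcore : ∀ i x, x ∈ J i → x ∈ J' i → x ∈ X i (Λ i))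
    (hix : ∀ z, z ∈ J (ix z) ∧ z ∈ J' (ix z))
    (hixmin : ∀ z i, z ∈ J i → z ∈ J' i → ix z ≤ i)
    (lam : Cardinal.{u}) (hlam : ℵ₀ ≤ lam) (i : ι) (hle : lam ≤ Λ i) (z : P)
    (hzJ : z ∉ J i) (hzU : z ∉ U i) :
    lam ≤ #(NI {y | y ∈ X (ix y) lam} z) := by
  have hL : ∀ i, ℵ₀ ≤ Λ i := fun i => (hreg i).aleph0_le
  have hJU : ∀ i, ∀ z ∈ J i, ∀ z' ∈ U i, z < z' := by
    intro i z hz z' hz'
    rw [hJ] at hz
    rw [hU] at hz'
    exact cJ_lt_cU hz hz'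
  have hUup : ∀ i, ∀ z ∈ U i, ∀ z', z ≤ z' → z' ∈ U i := by
    intro i z hz z' h
    rw [hU] at hz ⊢
    exact cU_upper hz h
  have hJlow : ∀ i, ∀ z ∈ J i, ∀ z', z' ≤ z → z' ∈ J i := by
    intro i z hz z' h
    rw [hJ] at hz ⊢
    exact cJ_lower hz h
  have hJmono : ∀ i j, i ≤ j → J i ⊆ J j := by
    intro i j hij
    rcases hij.eq_or_lt with h | h
    · rw [h]
    · rw [hJ j]
      exact (hBd i j h).J_subset le_rfl (hJU i) _
  have hzJ' : z ∉ cJ w (Λ i) (X i (Λ i)) := by rw [← hJ]; exact hzJ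
  have hzU' : z ∉ cU w (Λ i) (X i (Λ i)) := by rw [← hU]; exact hzU
  have hsmall : #({x | x ∈ X i (Λ i) ∧ w < x ∧ x < z} : Set P) < Λ i := not_le.1 hzU'
  have hZlt : ∀ x ∈ X i (Λ i), #(NI (X i (Λ i)) x) < Λ i := ((hX i).st _ (hL i)).lt
  by_cases hup : Λ i ≤ #({x | x ∈ XA w (X i (Λ i)) ∧ x ∈ J i} : Set P)
  · have hcompl : #({t | w < t ∧ ∃ i' < i, t ∉ U i'} : Set P) < Λ i := by
      refine lt_of_le_of_lt (mk_le_mk_of_subset (t := ⋃ i' : Set.Iio i,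
        {t | w < t ∧ t ∉ U i'.1}) ?_) ?_
      · rintro t ⟨h1, i', h2, h3⟩
        rw [Set.mem_iUnion]
        exact ⟨⟨i', h2⟩, h1, h3⟩
      · refine (card_iUnion_lt_iff_forall_of_isRegular (hreg i)
          (lt_of_le_of_lt (mk_set_le _) (hι i))).2 ?_
        intro i'
        exact (hBd i'.1 i i'.2).compl (hUup i'.1)
    obtain ⟨v, ⟨⟨hvZ, hwv⟩, hvJ⟩, hvn⟩ := exists_diff hup (lt_of_union (hL i) hsmall hcompl)
    have hvz : ¬ v < z := fun h => hvn (Or.inl ⟨hvZ, hwv, h⟩)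
    have hvU : ∀ i' < i, v ∈ U i' := by
      intro i' hi'
      by_contra h
      exact hvn (Or.inr ⟨hwv, i', hi', h⟩)
    have hvJ' : v ∈ cJ w (Λ i) (X i (Λ i)) := by rw [← hJ]; exact hvJ
    have hY0 : Λ i ≤ #({x | x ∈ X i (Λ i) ∧ x ∈ J i ∧ v < x} : Set P) := by
      by_contra hcon
      rw [not_le] at hcon
      refine absurd (hup.trans (mk_le_mk_of_subset
        (t := {x | x ∈ X i (Λ i) ∧ x ∈ J i ∧ v < x} ∪
          {x | x ∈ X i (Λ i) ∧ w < x ∧ ¬ v < x}) ?_))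
        (not_le_of_gt (lt_of_union (hL i) hcon hvJ'))
      rintro x ⟨⟨h1, h2⟩, h3⟩
      by_cases h4 : v < x
      · exact Or.inl ⟨h1, h3, h4⟩
      · exact Or.inr ⟨h1, h2, h4⟩
    have hkey := reg_arg (hreg i) hlam ((hX i).sub hlam hle) hZlt _
      (fun x hx => hx.1) hY0 (NI (X i (Λ i)) v) (hZlt v hvZ) (NI_subset _ _) (by
        rintro y ⟨hy1, hy2, hy3⟩ x hx
        have hxZ : x ∈ X i (Λ i) := (hX i).mono _ _ hlam hle hx.1
        have hxJ : x ∈ J i := by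
          rcases mem_cut (w := w) (hL i) (hZlt x hxZ) with h | h
          · rw [hJ]; exact h
          · rw [← hU] at h
            exact absurd (hJU i y hy2 x h).le hx.2.2
        by_cases hvx : v < x
        · exact Or.inl ⟨hxZ, hxJ, hvx⟩
        · right
          refine ⟨hxZ, fun h => hx.2.1 (h.trans hy3.le), fun h => ?_⟩
          rcases h.eq_or_lt with h1 | h1
          · exact hx.2.1 (h1 ▸ hy3.le)
          · exact hvx h1)
    refine hle.trans (hkey.trans (mk_le_mk_of_subset ?_))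
    rintro u ⟨huX, huZ, huJ, hvu⟩
    have hixu : ix u = i := by
      refine le_antisymm (hixmin u i huJ (hwJ' i u (hwv.trans hvu))) ?_
      by_contra h
      rw [not_le] at h
      exact lt_irrefl u (hJU _ u (hix u).1 u (hUup _ v (hvU _ h) u hvu.le))
    refine ⟨?_, fun h => hvz (lt_of_lt_of_le hvu h), fun h => hzJ (hJlow i u huJ z h)⟩
    change u ∈ X (ix u) lam
    rw [hixu]
    exact huX
  · rw [not_le] at hup
    -- successor of `i`
    obtain ⟨j, hij, hjmin⟩ : ∃ j, i < j ∧ ∀ k < j, k ≤ i := by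
      obtain ⟨j0, hj0⟩ := hmax i
      have hne : ({j | i < j} : Set ι).Nonempty := ⟨j0, hj0⟩
      refine ⟨(wellFounded_lt (α := ι)).min _ hne, (wellFounded_lt (α := ι)).min_mem _ hne, ?_⟩
      intro k hk
      by_contra h
      rw [not_le] at h
      exact (wellFounded_lt (α := ι)).not_lt_min _ h hk
    have hJ2 := hJs i j hij hjmin
    have hU2 := hUs i j hij hjmin
    have hZlt' : ∀ x ∈ X j (Λ i), #(NI (X j (Λ i)) x) < Λ i := ((hX j).st _ (hL i)).lt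
    have hup' : #({x | x ∈ XA w (X j (Λ i)) ∧ x ∈ J i} : Set P) < Λ i := by
      refine lt_of_le_of_lt (mk_le_mk_of_subset ?_) hup
      rintro x ⟨⟨h1, h2⟩, h3⟩
      exact ⟨⟨hcore i x h3 (hwJ' i x h2), h2⟩, h3⟩
    have hnJ : ∀ x ∈ X j (Λ i), x ∉ J i → x ∈ U i := by
      intro x hx hxJ
      rcases mem_cut (w := w) (hL i) (hZlt' x hx) with h | h
      · rw [← hJ2] at h
        exact absurd h hxJ
      · rw [hU2]; exact h
    obtain ⟨b, hbU, hbJ⟩ : ∃ b ∈ U i, b ∈ J j := by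
      rcases hBd i j hij with ⟨b, hb, h⟩ | ⟨h1, h2, h3⟩
      · refine ⟨b, hb, ?_⟩
        rw [hJ]
        refine lt_of_le_of_lt (mk_le_mk_of_subset ?_) h
        rintro x ⟨h1, h2, h3⟩
        exact ⟨h2, h3⟩
      · exact absurd (by rw [h1]; exact Set.mem_univ z) hzJ
    have hUle : ∀ v ∈ U i, Λ i ≤ #({x | x ∈ X j (Λ i) ∧ w < x ∧ x < v} : Set P) := by
      intro v hv
      rw [hU2] at hv
      exact hv
    have hwU : ∀ v ∈ U i, w < v := by
      intro v hv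
      rw [hU2] at hv
      exact cU_gt (hL i) hv
    obtain ⟨x1, ⟨hx1, hx2, hx3⟩, hx4⟩ := exists_diff (hUle b hbU) hup'
    have hx1U : x1 ∈ U i := hnJ x1 hx1 (fun h => hx4 ⟨⟨hx1, hx2⟩, h⟩)
    obtain ⟨v, hvZ, hvU, hvb, hvz1, hvz2⟩ : ∃ v, v ∈ X j (Λ i) ∧ v ∈ U i ∧ v < b ∧
        ¬ v ≤ z ∧ ¬ z ≤ v := by
      by_contra hno
      push Not at hno
      have hcmp : ∀ v, v ∈ X j (Λ i) → v ∈ U i → v < b → z < v := by
        intro v h1 h2 h3
        have h4 : ¬ v ≤ z := fun h => hzU (hUup i v h2 z h)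
        have h5 := hno v h1 h2 h3 h4
        exact lt_of_le_of_ne h5 (fun h => h4 h.ge)
      apply hzJ
      rw [hJ2]
      refine lt_of_le_of_lt (mk_le_mk_of_subset ?_) hup'
      rintro x ⟨h1, h2, h3⟩
      refine ⟨⟨h1, h2⟩, ?_⟩
      by_contra h4
      have hxU := hnJ x h1 h4
      obtain ⟨x', ⟨h5, h6, h7⟩, h8⟩ := exists_diff (hUle x hxU)
        (lt_of_union (hL i) hup' (hZlt' x1 hx1))
      have hx'U : x' ∈ U i := hnJ x' h5 (fun h => h8 (Or.inl ⟨⟨h5, h6⟩, h⟩))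
      by_cases h9 : x' ≤ x1
      · exact h3 ((hcmp x' h5 hx'U (lt_of_le_of_lt h9 hx3)).trans h7)
      · by_cases h10 : x1 ≤ x'
        · exact h3 ((lt_of_lt_of_le (hcmp x1 hx1 hx1U hx3) h10).trans h7)
        · exact h8 (Or.inr ⟨h5, h9, h10⟩)
    have hY0 : Λ i ≤ #({x | x ∈ X j (Λ i) ∧ x ∈ U i ∧ x < v} : Set P) := by
      by_contra hcon
      rw [not_le] at hcon
      refine absurd ((hUle v hvU).trans (mk_le_mk_of_subset
        (t := {x | x ∈ X j (Λ i) ∧ x ∈ U i ∧ x < v} ∪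
          {x | x ∈ XA w (X j (Λ i)) ∧ x ∈ J i}) ?_))
        (not_le_of_gt (lt_of_union (hL i) hcon hup'))
      rintro x ⟨h1, h2, h3⟩
      by_cases h4 : x ∈ J i
      · exact Or.inr ⟨⟨h1, h2⟩, h4⟩
      · exact Or.inl ⟨h1, hnJ x h1 h4, h3⟩
    have hkey := reg_arg (hreg i) hlam ((hX j).sub hlam hle) hZlt' _
      (fun x hx => hx.1) hY0 (NI (X j (Λ i)) v) (hZlt' v hvZ) (NI_subset _ _) (by
        rintro y ⟨hy1, hy2, hy3⟩ x hx
        have hxZ : x ∈ X j (Λ i) := (hX j).mono _ _ hlam hle hx.1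
        have hxU : x ∈ U i := by
          apply hnJ x hxZ
          intro h
          exact hx.2.1 (hJU i x h y hy2).le
        by_cases hvx : x < v
        · exact Or.inl ⟨hxZ, hxU, hvx⟩
        · right
          refine ⟨hxZ, fun h => ?_, fun h => hx.2.2 (hy3.le.trans h)⟩
          rcases h.eq_or_lt with h1 | h1
          · exact hx.2.2 (h1 ▸ hy3.le)
          · exact hvx h1)
    refine hle.trans (hkey.trans (mk_le_mk_of_subset ?_))
    rintro u ⟨huX, huZ, huU, hvu⟩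
    have huJ : u ∈ J j := hJlow j b hbJ u (hvu.trans hvb).le
    have hixu : ix u = j := by
      refine le_antisymm (hixmin u j huJ (hwJ' j u (hwU u huU))) ?_
      by_contra h
      rw [not_le] at h
      have h1 := hjmin _ h
      exact lt_irrefl u (hJU i u (hJmono _ _ h1 (hix u).1) u huU)
    refine ⟨?_, fun h => hzU (hUup i u huU z h), fun h => hvz2 (h.trans hvu.le)⟩
    change u ∈ X (ix u) lam
    rw [hixu]
    exact huX

end Pool.Agent.TH398
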