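import Pool.Agent.TH398.Glue

set_option autoImplicit false

/-!
# Gluing towers: main verification
-/

namespace Pool.Agent.TH398

open Cardinal

universe u

variable {P : Type u} [PartialOrder P]

theorem IsST.dual {lam : Cardinal.{u}} {X Y : Set P} (h : IsST lam X Y) :
    IsST (P := Pᵒᵈ) lam X Y := by
  refine ⟨h.1, ?_, ?_⟩
  · intro x hx
    exact lt_of_eq_of_lt (congrArg (fun A : Set P => #A) (NI_dual (P := P) X x)) (h.lt x hx)
  · intro y hy hyX
    exact le_of_le_of_eq (h.le y hy hyX)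
      (congrArg (fun A : Set P => #A) (NI_dual (P := P) X y).symm)

theorem IsTower.dual {Q : Set P} {X : Cardinal.{u} → Set P} (h : IsTower Q X) :
    IsTower (P := Pᵒᵈ) Q X where
  st := fun lam hlam => (h.st lam hlam).dual
  mono := h.mono

theorem glue {ι : Type u} [LinearOrder ι] [WellFoundedLT ι] (w : P) (Λ : ι → Cardinal.{u})
    (Q : ι → Set P) (X : ι → Cardinal.{u} → Set P) (J U J' U' : ι → Set P) (ix : P → ι)
    (hreg : ∀ i, (Λ i).IsRegular) (hι : ∀ i, #ι < Λ i) (hmax : ∀ i : ι, ∃ j, i < j)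
    (hw : ∀ i, #(NI Set.univ w) < Λ i)
    (hX : ∀ i, IsTower (Q i) (X i))
    (hJ : ∀ i, J i = cJ w (Λ i) (X i (Λ i))) (hU : ∀ i, U i = cU w (Λ i) (X i (Λ i)))
    (hJ' : ∀ i, J' i = cJ (P := Pᵒᵈ) w (Λ i) (X i (Λ i)))
    (hU' : ∀ i, U' i = cU (P := Pᵒᵈ) w (Λ i) (X i (Λ i)))
    (hJs : ∀ i j, i < j → (∀ k < j, k ≤ i) → J i = cJ w (Λ i) (X j (Λ i)))
    (hUs : ∀ i j, i < j → (∀ k < j, k ≤ i) → U i = cU w (Λ i) (X j (Λ i)))
    (hJs' : ∀ i j, i < j → (∀ k < j, k ≤ i) → J' i = cJ (P := Pᵒᵈ) w (Λ i) (X j (Λ i)))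
    (hUs' : ∀ i j, i < j → (∀ k < j, k ≤ i) → U' i = cU (P := Pᵒᵈ) w (Λ i) (X j (Λ i)))
    (hΛ : ∀ i j, i < j → Λ i < Λ j)
    (hBd : ∀ i m j, i < m → m ≤ j →
      Bd w (Λ m) (cJ w (Λ i) (X j (Λ i))) (cU w (Λ i) (X j (Λ i))))
    (hBd' : ∀ i m j, i < m → m ≤ j → Bd (P := Pᵒᵈ) w (Λ m)
      (cJ (P := Pᵒᵈ) w (Λ i) (X j (Λ i))) (cU (P := Pᵒᵈ) w (Λ i) (X j (Λ i))))
    (hBd0 : ∀ i j, i < j → Bd w (Λ j) (J i) (U i))
    (hBd0' : ∀ i j, i < j → Bd (P := Pᵒᵈ) w (Λ j) (J' i) (U' i))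
    (hcoreQ : ∀ i x, x ∈ J i → x ∈ J' i → x ∈ Q i)
    (hix : ∀ z, z ∈ J (ix z) ∧ z ∈ J' (ix z))
    (hixmin : ∀ z i, z ∈ J i → z ∈ J' i → ix z ≤ i) :
    IsTower (Set.univ : Set P) (fun lam => {y | y ∈ X (ix y) lam}) := by
  have hL : ∀ i, ℵ₀ ≤ Λ i := fun i => (hreg i).aleph0_le
  have hΛle : ∀ i j, i ≤ j → Λ i ≤ Λ j := by
    intro i j hij
    rcases hij.eq_or_lt with h | h
    · rw [h]
    · exact (hΛ i j h).le
  have hJU : ∀ i, ∀ z ∈ J i, ∀ z' ∈ U i, z < z' := by
    intro i z hz z' hz'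
    rw [hJ] at hz
    rw [hU] at hz'
    exact cJ_lt_cU hz hz'
  have hJU' : ∀ i, ∀ z ∈ J' i, ∀ z' ∈ U' i, z' < z := by
    intro i z hz z' hz'
    rw [hJ'] at hz
    rw [hU'] at hz'
    exact cJ_lt_cU (P := Pᵒᵈ) hz hz'
  have hUup : ∀ i, ∀ z ∈ U i, ∀ z', z ≤ z' → z' ∈ U i := by
    intro i z hz z' h
    rw [hU] at hz ⊢
    exact cU_upper hz h
  have hUup' : ∀ i, ∀ z ∈ U' i, ∀ z', z' ≤ z → z' ∈ U' i := by
    intro i z hz z' h
    rw [hU'] at hz ⊢
    exact cU_upper (P := Pᵒᵈ) hz h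
  have hUmono : ∀ i j, i ≤ j → U j ⊆ U i := by
    intro i j hij
    rcases hij.eq_or_lt with h | h
    · rw [h]
    · rw [hU j]
      exact (hBd0 i j h).U_subset le_rfl (hUup i) _
  have hUmono' : ∀ i j, i ≤ j → U' j ⊆ U' i := by
    intro i j hij
    rcases hij.eq_or_lt with h | h
    · rw [h]
    · rw [hU' j]
      exact (hBd0' i j h).U_subset le_rfl (hUup' i) _
  have hJmono : ∀ i j, i ≤ j → J i ⊆ J j := by
    intro i j hij
    rcases hij.eq_or_lt with h | h
    · rw [h]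
    · rw [hJ j]
      exact (hBd0 i j h).J_subset le_rfl (hJU i) _
  have hJmono' : ∀ i j, i ≤ j → J' i ⊆ J' j := by
    intro i j hij
    rcases hij.eq_or_lt with h | h
    · rw [h]
    · rw [hJ' j]
      exact (hBd0' i j h).J_subset le_rfl (hJU' i) _
  have hcore : ∀ i x, x ∈ J i → x ∈ J' i → x ∈ X i (Λ i) := by
    intro i x h1 h2
    refine core_mem (hL i) ((hX i).st _ (hL i)) (hw i) (hcoreQ i x h1 h2) ?_ ?_
    · rw [← hJ]; exact h1
    · rw [← hJ']; exact h2
  have hHQ : ∀ i j x, i ≤ j → x ∈ J i → x ∈ J' i → x ∈ Q j := fun i j x hij h1 h2 =>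
    hcoreQ j x (hJmono i j hij h1) (hJmono' i j hij h2)
  -- comparison with the cuts of a fixed tower
  have E1 : ∀ j i, i < j → ∃ m, i ≤ m ∧ m < j ∧ J i ⊆ cJ w (Λ m) (X j (Λ m)) ∧
      cU w (Λ m) (X j (Λ m)) ⊆ U i ∧ J' i ⊆ cJ (P := Pᵒᵈ) w (Λ m) (X j (Λ m)) ∧
      cU (P := Pᵒᵈ) w (Λ m) (X j (Λ m)) ⊆ U' i := by
    intro j i hij
    by_cases hex : ∃ m, i < m ∧ m < j
    · obtain ⟨m, him, hmj⟩ := hex
      exact ⟨m, him.le, hmj, (hBd0 i m him).J_subset le_rfl (hJU i) _,
        (hBd0 i m him).U_subset le_rfl (hUup i) _,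
        (hBd0' i m him).J_subset le_rfl (hJU' i) _,
        (hBd0' i m him).U_subset le_rfl (hUup' i) _⟩
    · have hmin : ∀ k < j, k ≤ i := by
        intro k hk
        by_contra h
        exact hex ⟨k, not_le.1 h, hk⟩
      exact ⟨i, le_rfl, hij, (hJs i j hij hmin).le, (hUs i j hij hmin).ge,
        (hJs' i j hij hmin).le, (hUs' i j hij hmin).ge⟩
  have E2 : ∀ j i, i < j → ∃ m, i ≤ m ∧ m < j ∧ cJ w (Λ i) (X j (Λ i)) ⊆ J m ∧
      cJ (P := Pᵒᵈ) w (Λ i) (X j (Λ i)) ⊆ J' m := by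
    intro j i hij
    by_cases hex : ∃ m, i < m ∧ m < j
    · obtain ⟨m, him, hmj⟩ := hex
      refine ⟨m, him.le, hmj, ?_, ?_⟩
      · rw [hJ m]
        exact (hBd i m j him hmj.le).J_subset le_rfl (fun z hz z' hz' => cJ_lt_cU hz hz') _
      · rw [hJ' m]
        exact (hBd' i m j him hmj.le).J_subset le_rfl
          (fun z hz z' hz' => cJ_lt_cU (P := Pᵒᵈ) hz hz') _
    · have hmin : ∀ k < j, k ≤ i := by
        intro k hk
        by_contra h
        exact hex ⟨k, not_le.1 h, hk⟩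
      exact ⟨i, le_rfl, hij, (hJs i j hij hmin).ge, (hJs' i j hij hmin).ge⟩
  -- (β) below `j`
  have hβ : ∀ lam, ℵ₀ ≤ lam → ∀ j, (∀ k < j, Λ k ≤ lam) → ∀ i < j, ∀ z, z ∈ J i → z ∈ J' i →
      z ∈ X j lam := by
    intro lam hlam j hall i hij z hz hz'
    obtain ⟨m, him, hmj, h1, -, h3, -⟩ := E1 j i hij
    refine (hX j).mono _ _ (hL m) (hall m hmj) ?_
    exact core_mem (hL m) ((hX j).st _ (hL m)) (hw m) (hHQ i j z hij.le hz hz') (h1 hz) (h3 hz')
  -- (α) below `j`
  have hα : ∀ lam, ℵ₀ ≤ lam → ∀ j, (∃ k < j, lam ≤ Λ k) → ∀ x ∈ X j lam,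
      (∀ l < j, x ∈ U l) ∨ (∀ l < j, x ∈ U' l) ∨ ∃ l < j, x ∈ J l ∧ x ∈ J' l := by
    rintro lam hlam j ⟨k, hkj, hk⟩ x hx
    by_contra hcon
    push Not at hcon
    obtain ⟨⟨l1, hl1, hxl1⟩, ⟨l2, hl2, hxl2⟩, hno⟩ := hcon
    have hmj : max k (max l1 l2) < j := max_lt hkj (max_lt hl1 hl2)
    obtain ⟨m, him, hmj', -, h2, -, h4⟩ := E1 j _ hmj
    have hkm : k ≤ m := (le_max_left _ _).trans him
    have hl1m : l1 ≤ max k (max l1 l2) := (le_max_left _ _).trans (le_max_right _ _)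
    have hl2m : l2 ≤ max k (max l1 l2) := (le_max_right _ _).trans (le_max_right _ _)
    have hxm : x ∈ X j (Λ m) := (hX j).mono _ _ hlam (hk.trans (hΛle k m hkm)) hx
    have hsm := ((hX j).st _ (hL m)).lt x hxm
    have hsm' := ((hX j).st _ (hL m)).dual.lt x hxm
    have h5 : x ∈ cJ w (Λ m) (X j (Λ m)) := by
      rcases mem_cut (w := w) (hL m) hsm with h | h
      · exact h
      · exact absurd (hUmono _ _ hl1m (h2 h)) hxl1
    have h6 : x ∈ cJ (P := Pᵒᵈ) w (Λ m) (X j (Λ m)) := by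
      rcases mem_cut (P := Pᵒᵈ) (w := w) (hL m) hsm' with h | h
      · exact h
      · exact absurd (hUmono' _ _ hl2m (h4 h)) hxl2
    obtain ⟨n, _, hnj, h7, h8⟩ := E2 j m hmj'
    exact hno n hnj (h7 h5) (h8 h6)
  refine ⟨?_, ?_⟩
  · intro lam hlam
    refine ⟨Set.subset_univ _, ?_, ?_⟩
    · intro z hz
      change #(NI {y | y ∈ X (ix y) lam} z) < lam
      have hz' : z ∈ X (ix z) lam := hz
      by_cases h1 : ∃ i1, ix z < i1 ∧ Λ i1 ≤ lam
      · obtain ⟨i1, hi1, hle⟩ := h1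
        refine lt_of_lt_of_le ?_ hle
        have h2 := (hBd0 _ _ hi1).NI_small (hJU _) (hix z).1
        have h3 := (hBd0' _ _ hi1).NI_small (hJU' _) (hix z).2
        refine lt_of_le_of_lt (mk_le_mk_of_subset (t := (({v | w < v ∧ ¬ v ≤ z ∧ ¬ z ≤ v} ∪
          {v | v < w ∧ ¬ z ≤ v ∧ ¬ v ≤ z}) ∪ NI Set.univ w) ∪ {w}) ?_) ?_
        · rintro v ⟨-, hv1, hv2⟩
          by_cases h4 : v = w
          · exact Or.inr h4
          · by_cases h5 : v ≤ w
            · exact Or.inl (Or.inl (Or.inr ⟨lt_of_le_of_ne h5 h4, hv2, hv1⟩))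
            · by_cases h6 : w ≤ v
              · exact Or.inl (Or.inl (Or.inl ⟨lt_of_le_of_ne h6 (Ne.symm h4), hv1, hv2⟩))
              · exact Or.inl (Or.inr ⟨Set.mem_univ _, h5, h6⟩)
        · refine lt_of_union (hL i1) (lt_of_union (hL i1) (lt_of_union (hL i1) h2 h3)
            (hw i1)) ?_
          rw [mk_singleton]
          exact one_lt_of_aleph0 (hL i1)
      · push Not at h1
        have hA : ∀ u ∈ NI {y | y ∈ X (ix y) lam} z, ix u ≤ ix z → u ∈ X (ix z) lam := by
          rintro u ⟨hu, hu1, hu2⟩ hle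
          have hu' : u ∈ X (ix u) lam := hu
          rcases hle.eq_or_lt with heq | hlt
          · rw [← heq]; exact hu'
          · by_cases hall : ∀ k < ix z, Λ k ≤ lam
            · exact hβ lam hlam _ hall _ hlt u (hix u).1 (hix u).2
            · push Not at hall
              obtain ⟨k, hk, hkl⟩ := hall
              rcases hα lam hlam (ix z) ⟨k, hk, hkl.le⟩ z hz' with h2 | h2 | ⟨l, hl, h2, h3⟩
              · exact absurd (hJU _ u (hix u).1 z (h2 _ hlt)).le hu1
              · exact absurd (hJU' _ u (hix u).2 z (h2 _ hlt)).le hu2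
              · exact absurd (hixmin z l h2 h3) (not_le_of_gt hl)
        have hB : ∀ u ∈ NI {y | y ∈ X (ix y) lam} z, ix z < ix u →
            z ∈ X (ix u) lam ∧ ∀ k, ix z < k → ix u ≤ k := by
          rintro u ⟨hu, hu1, hu2⟩ hlt
          have hu' : u ∈ X (ix u) lam := hu
          by_cases hall : ∀ k < ix u, Λ k ≤ lam
          · refine ⟨hβ lam hlam _ hall _ hlt z (hix z).1 (hix z).2, fun k hk => ?_⟩
            by_contra h2
            rw [not_le] at h2
            exact absurd (hall k h2) (not_le_of_gt (h1 k hk))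
          · push Not at hall
            obtain ⟨k, hk, hkl⟩ := hall
            rcases hα lam hlam (ix u) ⟨k, hk, hkl.le⟩ u hu' with h2 | h2 | ⟨l, hl, h2, h3⟩
            · exact absurd (hJU _ z (hix z).1 u (h2 _ hlt)).le hu2
            · exact absurd (hJU' _ z (hix z).2 u (h2 _ hlt)).le hu1
            · exact absurd (hixmin u l h2 h3) (not_le_of_gt hl)
        have hsz := ((hX (ix z)).st lam hlam).lt z hz'
        by_cases hex : ∃ u0 ∈ NI {y | y ∈ X (ix y) lam} z, ix z < ix u0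
        · obtain ⟨u0, hu0, hlt0⟩ := hex
          obtain ⟨h2, h3⟩ := hB u0 hu0 hlt0
          refine lt_of_le_of_lt (mk_le_mk_of_subset (t := NI (X (ix z) lam) z ∪
            NI (X (ix u0) lam) z) ?_) (lt_of_union hlam hsz (((hX _).st lam hlam).lt z h2))
          intro u hu
          by_cases hle : ix u ≤ ix z
          · exact Or.inl ⟨hA u hu hle, hu.2⟩
          · rw [not_le] at hle
            have h4 : ix u = ix u0 := le_antisymm ((hB u hu hle).2 _ hlt0) (h3 _ hle)
            right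
            refine ⟨?_, hu.2⟩
            rw [← h4]
            exact hu.1
        · push Not at hex
          refine lt_of_le_of_lt (mk_le_mk_of_subset ?_) hsz
          intro u hu
          exact ⟨hA u hu (hex u hu), hu.2⟩
    · intro z _ hz
      change lam ≤ #(NI {y | y ∈ X (ix y) lam} z)
      have hz' : z ∉ X (ix z) lam := hz
      have hzQ : z ∈ Q (ix z) := hcoreQ _ z (hix z).1 (hix z).2
      have hbig := ((hX (ix z)).st lam hlam).le z hzQ hz'
      have hlt : lam < Λ (ix z) := by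
        by_contra h
        rw [not_lt] at h
        exact hz' ((hX _).mono _ _ (hL _) h (hcore _ z (hix z).1 (hix z).2))
      have hNI : ∀ u ∈ NI (X (ix z) lam) z, u ∈ J (ix z) ∧ u ∈ J' (ix z) := by
        rintro u ⟨hu, hu1, hu2⟩
        have huΛ : u ∈ X (ix z) (Λ (ix z)) := (hX _).mono _ _ hlam hlt.le hu
        have hsm := ((hX (ix z)).st _ (hL _)).lt u huΛ
        have hsm' := ((hX (ix z)).st _ (hL _)).dual.lt u huΛ
        constructor
        · rcases mem_cut (w := w) (hL _) hsm with h | h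
          · rw [hJ]; exact h
          · rw [← hU] at h
            exact absurd (hJU _ z (hix z).1 u h).le hu2
        · rcases mem_cut (P := Pᵒᵈ) (w := w) (hL _) hsm' with h | h
          · rw [hJ']; exact h
          · rw [← hU'] at h
            exact absurd (hJU' _ z (hix z).2 u h).le hu1
      by_cases hall : ∀ k < ix z, Λ k ≤ lam
      · refine hbig.trans (mk_le_mk_of_subset ?_)
        intro u hu
        obtain ⟨h1, h2⟩ := hNI u hu
        refine ⟨?_, hu.2⟩
        change u ∈ X (ix u) lam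
        rcases (hixmin u _ h1 h2).eq_or_lt with heq | hlt'
        · rw [heq]; exact hu.1
        · exact (hX _).mono _ _ (hL _) (hall _ hlt') (hcore _ u (hix u).1 (hix u).2)
      · push Not at hall
        obtain ⟨k, hk, hkl⟩ := hall
        by_cases hUz : ∀ l < ix z, z ∈ U l
        · refine hbig.trans (mk_le_mk_of_subset ?_)
          intro u hu
          obtain ⟨h1, h2⟩ := hNI u hu
          refine ⟨?_, hu.2⟩
          change u ∈ X (ix u) lam
          rcases (hixmin u _ h1 h2).eq_or_lt with heq | hlt'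
          · rw [heq]; exact hu.1
          · exact absurd (hJU _ u (hix u).1 z (hUz _ hlt')).le hu.2.1
        · by_cases hUz' : ∀ l < ix z, z ∈ U' l
          · refine hbig.trans (mk_le_mk_of_subset ?_)
            intro u hu
            obtain ⟨h1, h2⟩ := hNI u hu
            refine ⟨?_, hu.2⟩
            change u ∈ X (ix u) lam
            rcases (hixmin u _ h1 h2).eq_or_lt with heq | hlt'
            · rw [heq]; exact hu.1
            · exact absurd (hJU' _ u (hix u).2 z (hUz' _ hlt')).le hu.2.2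
          · push Not at hUz hUz'
            obtain ⟨l1, hl1, hzl1⟩ := hUz
            obtain ⟨l2, hl2, hzl2⟩ := hUz'
            have hmj : max k (max l1 l2) < ix z := max_lt hk (max_lt hl1 hl2)
            have hkm : k ≤ max k (max l1 l2) := le_max_left _ _
            have hl1m : l1 ≤ max k (max l1 l2) := (le_max_left _ _).trans (le_max_right _ _)
            have hl2m : l2 ≤ max k (max l1 l2) := (le_max_right _ _).trans (le_max_right _ _)
            have hzU : z ∉ U (max k (max l1 l2)) := fun h => hzl1 (hUmono _ _ hl1m h)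
            have hzU' : z ∉ U' (max k (max l1 l2)) := fun h => hzl2 (hUmono' _ _ hl2m h)
            have hle : lam ≤ Λ (max k (max l1 l2)) := hkl.le.trans (hΛle _ _ hkm)
            have hwJ' : ∀ i x, w < x → x ∈ J' i := by
              intro i x hx
              rw [hJ']
              exact gt_mem_dual (hL i) _ hx.le
            have hwJ : ∀ i x, x < w → x ∈ J i := by
              intro i x hx
              rw [hJ]
              exact cJ_lower (mem_cJ_self (hL i) _) hx.le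
            by_cases hzJ : z ∈ J (max k (max l1 l2))
            · have hzJ' : z ∉ J' (max k (max l1 l2)) := fun h =>
                absurd (hixmin z _ hzJ h) (not_le_of_gt hmj)
              have := gamma (P := Pᵒᵈ) w Λ Q X J' U' J ix hreg hι hmax
                (fun i => (hX i).dual) hJ' hU' hJs' hUs' hBd0' hwJ
                (fun i x h1 h2 => hcore i x h2 h1) (fun z => ⟨(hix z).2, (hix z).1⟩)
                (fun z i h1 h2 => hixmin z i h2 h1) lam hlam _ hle z hzJ' hzU'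
              exact le_of_le_of_eq this (congrArg (fun A : Set P => #A) (NI_dual (P := P) _ z))
            · exact gamma w Λ Q X J U J' ix hreg hι hmax hX hJ hU hJs hUs hBd0 hwJ' hcore hix
                hixmin lam hlam _ hle z hzJ hzU
  · intro lam lam' hlam hle z hz
    exact (hX (ix z)).mono _ _ hlam hle hz

end Pool.Agent.TH398
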