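import Mathlib

set_option autoImplicit false

/-!
# A kernel theorem for systems of ends

`EndSys lt le up` axiomatises the structure carried by the ends of a poset without
infinite antichains of ends: a strong order `lt`, a weak order `le`, and two types of ends.
-/

namespace Pool.Agent.TH398

open Filter

universe u

/-- The system of axioms. -/
structure EndSys {E : Type u} (lt le : E → E → Prop) (up : E → Prop) : Prop where
  irr : ∀ a, ¬ lt a a
  lt_le : ∀ {a b}, lt a b → le a b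
  refl : ∀ a, le a a
  trans : ∀ {a b c}, le a b → le b c → le a c
  ltle : ∀ {a b c}, lt a b → le b c → lt a c
  lelt : ∀ {a b c}, le a b → lt b c → lt a c
  anti : ∀ {a b}, le a b → le b a → a = b
  ud : ∀ {a b}, up a → ¬ up b → le a b → lt a b
  fac : ∀ s : ℕ → E, ∃ m n, m < n ∧ (s m = s n ∨ lt (s m) (s n) ∨ lt (s n) (s m))
  inf : ∀ s : ℕ → E, (∀ n, lt (s (n + 1)) (s n)) →
    ∃ f, ¬ up f ∧ (∀ n, lt f (s n)) ∧ (∀ r, (∀ n, le r (s n)) → le r f) ∧
      (∀ r, lt f r → ∃ n, lt (s n) r)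
  sup : ∀ s : ℕ → E, (∀ n, lt (s n) (s (n + 1))) →
    ∃ f, up f ∧ (∀ n, lt (s n) f) ∧ (∀ r, (∀ n, le (s n) r) → le f r) ∧
      (∀ r, lt r f → ∃ n, lt r (s n))

section defs
variable {E : Type u} (lt le : E → E → Prop) (up : E → Prop)

/-- asymmetric attack -/
def Arr (a b : E) : Prop :=
  a ≠ b ∧ ((up a ∧ up b ∧ le a b ∧ ¬ lt a b) ∨ (¬ up a ∧ ¬ up b ∧ le b a ∧ ¬ lt b a))

/-- attack -/
def Att (a b : E) : Prop := a ≠ b ∧ ¬ lt a b ∧ ¬ lt b a ∧ ¬ Arr lt le up b a

/-- chains for the strong order -/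
def Chn (K : Set E) : Prop := ∀ a ∈ K, ∀ b ∈ K, a = b ∨ lt a b ∨ lt b a

/-- local kernel relative to `R` -/
def LocK (R L : Set E) : Prop :=
  L ⊆ R ∧ Chn lt L ∧ ∀ l ∈ L, ∀ g ∈ R, Arr lt le up g l → ∃ l' ∈ L, Att lt le up l' g

end defs

variable {E : Type u} {lt le : E → E → Prop} {up : E → Prop}

theorem EndSys.dual (h : EndSys lt le up) :
    EndSys (fun a b => lt b a) (fun a b => le b a) (fun a => ¬ up a) where
  irr := h.irr
  lt_le := fun hab => h.lt_le hab
  refl := h.refl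
  trans := fun hab hbc => h.trans hbc hab
  ltle := fun hab hbc => h.lelt hbc hab
  lelt := fun hab hbc => h.ltle hbc hab
  anti := fun hab hba => h.anti hba hab
  ud := fun ha hb hab => h.ud (not_not.1 hb) ha hab
  fac := fun s => by
    obtain ⟨m, n, hmn, h1⟩ := h.fac s
    exact ⟨m, n, hmn, by tauto⟩
  inf := fun s hs => by
    obtain ⟨f, h1, h2, h3, h4⟩ := h.sup s hs
    exact ⟨f, by simpa using h1, h2, h3, h4⟩
  sup := fun s hs => by
    obtain ⟨f, h1, h2, h3, h4⟩ := h.inf s hs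
    exact ⟨f, h1, h2, h3, h4⟩

theorem arr_dual (a b : E) :
    Arr (fun a b => lt b a) (fun a b => le b a) (fun a => ¬ up a) a b ↔ Arr lt le up a b := by
  unfold Arr
  constructor
  · rintro ⟨h1, h2 | h2⟩
    · exact ⟨h1, Or.inr h2⟩
    · exact ⟨h1, Or.inl ⟨not_not.1 h2.1, not_not.1 h2.2.1, h2.2.2⟩⟩
  · rintro ⟨h1, h2 | h2⟩
    · exact ⟨h1, Or.inr ⟨not_not.2 h2.1, not_not.2 h2.2.1, h2.2.2⟩⟩
    · exact ⟨h1, Or.inl h2⟩

theorem att_dual (a b : E) :
    Att (fun a b => lt b a) (fun a b => le b a) (fun a => ¬ up a) a b ↔ Att lt le up a b := by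
  unfold Att
  rw [arr_dual]
  tauto

theorem chn_dual (K : Set E) : Chn (fun a b => lt b a) K ↔ Chn lt K := by
  unfold Chn
  constructor
  · intro h a ha b hb
    have := h a ha b hb
    tauto
  · intro h a ha b hb
    have := h a ha b hb
    tauto

theorem locK_dual (R L : Set E) :
    LocK (fun a b => lt b a) (fun a b => le b a) (fun a => ¬ up a) R L ↔ LocK lt le up R L := by
  unfold LocK
  rw [chn_dual]
  simp only [arr_dual, att_dual]

namespace EndSys

theorem asymm (h : EndSys lt le up) {a b : E} (hab : lt a b) : ¬ lt b a := fun hba =>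
  h.irr a (h.ltle hab (h.lt_le hba))

theorem not_lt_of_le (h : EndSys lt le up) {a b : E} (hab : le a b) : ¬ lt b a := fun hba =>
  h.irr b (h.ltle hba hab)

theorem lt_trans (h : EndSys lt le up) {a b c : E} (hab : lt a b) (hbc : lt b c) : lt a c :=
  h.ltle hab (h.lt_le hbc)

theorem arr_not_lt (h : EndSys lt le up) {a b : E} (hab : Arr lt le up a b) :
    ¬ lt a b ∧ ¬ lt b a := by
  obtain ⟨hne, h1 | h1⟩ := hab
  · exact ⟨h1.2.2.2, h.not_lt_of_le h1.2.2.1⟩
  · exact ⟨h.not_lt_of_le h1.2.2.1, h1.2.2.2⟩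

theorem arr_up (_h : EndSys lt le up) {a b : E} (hab : Arr lt le up a b) : up a ↔ up b := by
  obtain ⟨hne, h1 | h1⟩ := hab
  · exact ⟨fun _ => h1.2.1, fun _ => h1.1⟩
  · exact ⟨fun h2 => absurd h2 h1.1, fun h2 => absurd h2 h1.2.1⟩

theorem arr_le_up (h : EndSys lt le up) {a b : E} (hab : Arr lt le up a b) (hb : up b) :
    le a b := by
  obtain ⟨hne, h1 | h1⟩ := hab
  · exact h1.2.2.1
  · exact absurd hb h1.2.1

theorem arr_le_dn (h : EndSys lt le up) {a b : E} (hab : Arr lt le up a b) (hb : ¬ up b) :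
    le b a := by
  obtain ⟨hne, h1 | h1⟩ := hab
  · exact absurd h1.2.1 hb
  · exact h1.2.2.1

theorem finite_arr (h : EndSys lt le up) (e : E) : {g | Arr lt le up g e}.Finite := by
  by_contra hinf
  obtain ⟨s, hs⟩ : ∃ s : ℕ → E, (∀ n, Arr lt le up (s n) e) ∧ Function.Injective s := by
    have := Set.Infinite.natEmbedding _ hinf
    exact ⟨fun n => (this n : E), fun n => (this n).2, fun m n hmn =>
      this.injective (Subtype.ext hmn)⟩
  obtain ⟨m, n, hmn, h1⟩ := h.fac s
  have hm := hs.1 m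
  have hn := hs.1 n
  rcases h1 with h1 | h1 | h1
  · exact absurd (hs.2 h1) (ne_of_lt hmn)
  · by_cases hu : up e
    · exact (h.arr_not_lt hm).1 (h.ltle h1 (h.arr_le_up hn hu))
    · exact (h.arr_not_lt hn).2 (h.lelt (h.arr_le_dn hm hu) h1)
  · by_cases hu : up e
    · exact (h.arr_not_lt hn).1 (h.ltle h1 (h.arr_le_up hm hu))
    · exact (h.arr_not_lt hm).2 (h.lelt (h.arr_le_dn hn hu) h1)

/-- `f` is the lower limit of `s` -/
def IsInf (lt le : E → E → Prop) (up : E → Prop) (f : E) (s : ℕ → E) : Prop :=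
  ¬ up f ∧ (∀ n, lt f (s n)) ∧ (∀ r, (∀ n, le r (s n)) → le r f) ∧
      (∀ r, lt f r → ∃ n, lt (s n) r)

/-- `f` is the upper limit of `s` -/
def IsSup (lt le : E → E → Prop) (up : E → Prop) (f : E) (s : ℕ → E) : Prop :=
  up f ∧ (∀ n, lt (s n) f) ∧ (∀ r, (∀ n, le (s n) r) → le f r) ∧
      (∀ r, lt r f → ∃ n, lt r (s n))

/-- Step B: limits of backward paths. -/
theorem path_limit (h : EndSys lt le up) (p : ℕ → E) (h0 : up (p 0))
    (hp : ∀ n, Arr lt le up (p (n + 1)) (p n)) :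
    ∃ f, ∃ φ : ℕ → ℕ, (∀ n, lt (p (φ (n + 1))) (p (φ n))) ∧
      IsInf lt le up f (fun n => p (φ n)) ∧ IsInf lt le up f p := by
  have hup : ∀ n, up (p n) := by
    intro n
    induction n with
    | zero => exact h0
    | succ n ih => exact (h.arr_up (hp n)).2 ih
  have hle : ∀ m n, n ≤ m → le (p m) (p n) := by
    intro m n hnm
    induction m, hnm using Nat.le_induction with
    | base => exact h.refl _
    | succ m hm ih => exact h.trans (h.arr_le_up (hp m) (hup m)) ih
  have hne : ∀ m n, n < m → p m ≠ p n := by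
    intro m n hnm heq
    have h1 : le (p n) (p (n + 1)) := heq ▸ hle m (n + 1) hnm
    have h2 : le (p (n + 1)) (p n) := hle _ _ (Nat.le_succ n)
    exact (hp n).1 (h.anti h2 h1)
  haveI : IsTrans E (fun a b => lt b a) := ⟨fun a b c hab hbc => h.lt_trans hbc hab⟩
  obtain ⟨g, hg⟩ := exists_increasing_or_nonincreasing_subseq (fun a b => lt b a) p
  have hg' : ∀ m n, m < n → lt (p (g n)) (p (g m)) := by
    rcases hg with hg | hg
    · exact hg
    · exfalso
      obtain ⟨m, n, hmn, h1⟩ := h.fac (fun n => p (g n))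
      have hgmn : g m < g n := g.strictMono hmn
      rcases h1 with h1 | h1 | h1
      · exact hne _ _ hgmn h1.symm
      · exact h.not_lt_of_le (hle _ _ hgmn.le) h1
      · exact hg m n hmn h1
  obtain ⟨f, h1, h2, h3, h4⟩ := h.inf (fun n => p (g n)) (fun n => hg' n (n + 1) (Nat.lt_succ_self n))
  have hgid : ∀ n, n ≤ g n := fun n => g.strictMono.id_le n
  refine ⟨f, g, fun n => hg' n (n + 1) (Nat.lt_succ_self n), ⟨h1, h2, h3, h4⟩, h1, ?_, ?_, ?_⟩
  · intro n
    exact h.ltle (h2 n) (hle _ _ (hgid n))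
  · intro r hr
    exact h3 r (fun n => hr (g n))
  · intro r hr
    obtain ⟨n, hn⟩ := h4 r hr
    exact ⟨g n, hn⟩

/-- Step C. -/
theorem path_good (h : EndSys lt le up) (p : ℕ → E) (hp : ∀ m n, n ≤ m → le (p m) (p n))
    (f : E) (hf : IsInf lt le up f p) :
    ∃ n, ∀ g, Arr lt le up g f → ¬ lt g (p n) := by
  have hex : ∀ g, Arr lt le up g f → ∃ n, ¬ lt g (p n) := by
    intro g hg
    by_contra hcon
    push Not at hcon
    have h1 : le g f := hf.2.2.1 g (fun n => h.lt_le (hcon n))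
    have h2 : le f g := h.arr_le_dn hg hf.1
    exact hg.1 (h.anti h1 h2)
  choose! N hN using hex
  have hfin := h.finite_arr f
  obtain ⟨M, hM⟩ : ∃ M, ∀ g, Arr lt le up g f → N g ≤ M := by
    obtain ⟨M, hM⟩ := (hfin.image N).bddAbove
    exact ⟨M, fun g hg => hM ⟨g, hg, rfl⟩⟩
  refine ⟨M, fun g hg hlt => hN g hg ?_⟩
  exact h.ltle hlt (hp _ _ (hM g hg))

/-- finite kernels among up ends -/
theorem finite_kernel (h : EndSys lt le up) (n : ℕ) : ∀ (Q : Finset E), Q.card ≤ n →
    (∀ q ∈ Q, up q) → ∃ K : Finset E, K ⊆ Q ∧ Chn lt (K : Set E) ∧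
      ∀ s ∈ Q, s ∉ K → ∃ k ∈ K, Att lt le up k s := by
  classical
  induction n with
  | zero =>
    intro Q hQ _
    have : Q = ∅ := by simpa using hQ
    subst this
    exact ⟨∅, by simp, by intro a ha; simp at ha, by simp⟩
  | succ n ih =>
    intro Q hQ hup
    by_cases hne : Q.Nonempty
    · -- a minimal element
      obtain ⟨e, heQ, hmin⟩ : ∃ e ∈ Q, ∀ g ∈ Q, le g e → g = e := by
        letI : PartialOrder E :=
          { le := le, le_refl := h.refl, le_trans := fun _ _ _ => h.trans,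
            le_antisymm := fun _ _ => h.anti }
        obtain ⟨e, he⟩ := Q.exists_minimal hne
        refine ⟨e, he.1, fun g hg hge => ?_⟩
        exact h.anti hge (he.2 hg hge)
      have hsrc : ∀ g ∈ Q, ¬ Arr lt le up g e := fun g hg harr =>
        harr.1 (hmin g hg (h.arr_le_up harr (hup e heQ)))
      obtain ⟨K', hK'1, hK'2, hK'3⟩ := ih ((Q.erase e).filter (fun s => ¬ Att lt le up e s)) (by
        have h1 := Finset.card_filter_le (Q.erase e) (fun s => ¬ Att lt le up e s)
        have h2 := Finset.card_erase_of_mem heQ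
        omega) (fun q hq => hup q (Finset.mem_of_mem_erase (Finset.mem_filter.1 hq).1))
      have hK'e : ∀ k ∈ K', k ∈ Q ∧ k ≠ e ∧ ¬ Att lt le up e k := by
        intro k hk
        have := hK'1 hk
        simp only [Finset.mem_filter, Finset.mem_erase] at this
        exact ⟨this.1.2, this.1.1, this.2⟩
      have hcmp : ∀ k ∈ K', lt e k ∨ lt k e := by
        intro k hk
        obtain ⟨h1, h2, h3⟩ := hK'e k hk
        by_contra hcon
        push Not at hcon
        exact h3 ⟨fun h4 => h2 h4.symm, hcon.1, hcon.2, hsrc k h1⟩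
      refine ⟨insert e K', ?_, ?_, ?_⟩
      · intro x hx
        rcases Finset.mem_insert.1 hx with rfl | hx
        · exact heQ
        · exact (hK'e x hx).1
      · intro a ha b hb
        simp only [Finset.coe_insert, Set.mem_insert_iff, Finset.mem_coe] at ha hb
        rcases ha with rfl | ha <;> rcases hb with rfl | hb
        · exact Or.inl rfl
        · exact Or.inr (hcmp b hb)
        · exact Or.inr (hcmp a ha).symm
        · exact hK'2 a ha b hb
      · intro s hs hsK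
        simp only [Finset.mem_insert, not_or] at hsK
        by_cases hatt : Att lt le up e s
        · exact ⟨e, Finset.mem_insert_self _ _, hatt⟩
        · obtain ⟨k, hk, hks⟩ := hK'3 s (by
            simp only [Finset.mem_filter, Finset.mem_erase]
            exact ⟨⟨hsK.1, hs⟩, hatt⟩) hsK.2
          exact ⟨k, Finset.mem_insert_of_mem hk, hks⟩
    · have : Q = ∅ := Finset.not_nonempty_iff_eq_empty.1 hne
      subst this
      exact ⟨∅, by simp, by intro a ha; simp at ha, by simp⟩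

/-- compactness: a locally finite set of up ends has a kernel -/
theorem locfin_kernel (h : EndSys lt le up) (T : Set E) (hup : ∀ t ∈ T, up t)
    (hfin : ∀ s ∈ T, {t | t ∈ T ∧ ¬ lt t s}.Finite) :
    ∃ K : Set E, K ⊆ T ∧ Chn lt K ∧ ∀ s ∈ T, s ∉ K → ∃ k ∈ K, Att lt le up k s := by
  classical
  have hk : ∀ Q : Finset E, ∃ K : Finset E, K ⊆ Q.filter (· ∈ T) ∧ Chn lt (K : Set E) ∧
      ∀ s ∈ Q.filter (· ∈ T), s ∉ K → ∃ k ∈ K, Att lt le up k s := fun Q =>
    h.finite_kernel _ (Q.filter (· ∈ T)) le_rfl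
      (fun q hq => hup q (Finset.mem_filter.1 hq).2)
  choose k hk1 hk2 hk3 using hk
  let U : Ultrafilter (Finset E) := Ultrafilter.of atTop
  have hU : ∀ s : E, ∀ᶠ Q in (U : Filter (Finset E)), s ∈ Q := by
    intro s
    have : ∀ᶠ Q in (atTop : Filter (Finset E)), s ∈ Q := by
      filter_upwards [eventually_ge_atTop ({s} : Finset E)] with Q hQ
      exact hQ (Finset.mem_singleton_self s)
    exact (Ultrafilter.of_le atTop) this
  refine ⟨{s | ∀ᶠ Q in (U : Filter (Finset E)), s ∈ k Q}, ?_, ?_, ?_⟩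
  · intro s hs
    obtain ⟨Q, hQ⟩ := hs.exists
    exact (Finset.mem_filter.1 (hk1 Q hQ)).2
  · intro a ha b hb
    obtain ⟨Q, hQa, hQb⟩ := (ha.and hb).exists
    exact hk2 Q a hQa b hQb
  · intro s hs hsK
    have h1 : ∀ᶠ Q in (U : Filter (Finset E)), s ∉ k Q := by
      simpa using (Ultrafilter.eventually_not (f := U) (p := fun Q => s ∈ k Q)).2 hsK
    have h2 : ∀ᶠ Q in (U : Filter (Finset E)),
        ∃ t ∈ {t | t ∈ T ∧ ¬ lt t s}, (t ∈ k Q ∧ Att lt le up t s) := by
      filter_upwards [h1, hU s] with Q hQ1 hQ2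
      obtain ⟨t, ht1, ht2⟩ := hk3 Q s (Finset.mem_filter.2 ⟨hQ2, hs⟩) hQ1
      exact ⟨t, ⟨(Finset.mem_filter.1 (hk1 Q ht1)).2, ht2.2.1⟩, ht1, ht2⟩
    rw [Ultrafilter.eventually_exists_mem_iff (hfin s hs)] at h2
    obtain ⟨t, ht, ht2⟩ := h2
    obtain ⟨Q, hQ⟩ := ht2.exists
    exact ⟨t, ht2.mono (fun Q hQ => hQ.1), hQ.2⟩

end EndSys

end Pool.Agent.TH398
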