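import Pool.Agent.TH398.Kernel

set_option autoImplicit false

namespace Pool.Agent.TH398

open Filter

universe u

variable {E : Type u} {lt le : E → E → Prop} {up : E → Prop}

namespace EndSys

/-- Good pairs: `f` is a maximal down end relative to the up end `e`. -/
def GP (lt le : E → E → Prop) (up : E → Prop) (R Km : Set E) (f e : E) : Prop :=
  ¬ up f ∧ (f ∈ R ∨ (f ∈ Km ∧ ∀ k ∈ Km, le k f)) ∧ e ∈ R ∧ up e ∧ lt f e ∧
    ∀ g ∈ R, Arr lt le up g f → ¬ lt g e

/-- the reachable set -/
inductive Reach (lt le : E → E → Prop) (up : E → Prop) (R : Set E) (f e : E) : E → Prop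
  | base : Reach lt le up R f e e
  | step {t g : E} : Reach lt le up R f e t → g ∈ R → Arr lt le up g t → lt f g →
      Reach lt le up R f e g

theorem exists_locK_of_up (h : EndSys lt le up) (R Km : Set E)
    (hm : ∀ k ∈ Km, ∀ r ∈ R, lt k r)
    (hinf : ∀ s : ℕ → E, (∀ n, s n ∈ R) → (∀ n, lt (s (n + 1)) (s n)) → ∀ f,
      IsInf lt le up f s → f ∈ R ∨ f ∈ Km)
    (e₀ : E) (he₀ : e₀ ∈ R) (hue₀ : up e₀) :
    ∃ L : Set E, L.Nonempty ∧ LocK lt le up R L := by
  classical
  by_contra hcon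
  push Not at hcon
  -- no nonempty local kernel
  have NL : ∀ L : Set E, L ⊆ R → L.Nonempty → Chn lt L →
      ∃ l ∈ L, ∃ g ∈ R, Arr lt le up g l ∧ ∀ l' ∈ L, ¬ Att lt le up l' g := by
    intro L hLR hLn hLc
    have := hcon L hLn
    unfold LocK at this
    push Not at this
    exact this hLR hLc
  -- Step A
  have stepA : ∀ e ∈ R, ∃ g ∈ R, Arr lt le up g e := by
    intro e he
    obtain ⟨l, hl, g, hg, harr, -⟩ := NL {e} (by simpa using he) ⟨e, rfl⟩ (by
      intro a ha b hb
      left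
      rw [Set.mem_singleton_iff.1 ha, Set.mem_singleton_iff.1 hb])
    rw [Set.mem_singleton_iff.1 hl] at harr
    exact ⟨g, hg, harr⟩
  -- Step D
  have hexGP : ∃ f e, GP lt le up R Km f e := by
    choose! nx hnx1 hnx2 using stepA
    let p : ℕ → E := fun n => nx^[n] e₀
    have hpR : ∀ n, p n ∈ R := by
      intro n
      induction n with
      | zero => exact he₀
      | succ n ih =>
        have : p (n + 1) = nx (p n) := Function.iterate_succ_apply' nx n e₀
        rw [this]
        exact hnx1 _ ih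
    have hparr : ∀ n, Arr lt le up (p (n + 1)) (p n) := by
      intro n
      have : p (n + 1) = nx (p n) := Function.iterate_succ_apply' nx n e₀
      rw [this]
      exact hnx2 _ (hpR n)
    have hup : ∀ n, up (p n) := by
      intro n
      induction n with
      | zero => exact hue₀
      | succ n ih => exact (h.arr_up (hparr n)).2 ih
    have hle : ∀ m n, n ≤ m → le (p m) (p n) := by
      intro m n hnm
      induction m, hnm using Nat.le_induction with
      | base => exact h.refl _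
      | succ m hm ih => exact h.trans (h.arr_le_up (hparr m) (hup m)) ih
    obtain ⟨f, φ, hφ, hf1, hf2⟩ := h.path_limit p hue₀ hparr
    obtain ⟨n, hn⟩ := h.path_good p hle f hf2
    refine ⟨f, p n, hf2.1, ?_, hpR n, hup n, hf2.2.1 n, fun g _ hg => hn g hg⟩
    rcases hinf (fun n => p (φ n)) (fun n => hpR _) hφ f hf1 with hfR | hfK
    · exact Or.inl hfR
    · exact Or.inr ⟨hfK, fun k hk => hf2.2.2.1 k (fun n => h.lt_le (hm k hk _ (hpR n)))⟩
  -- Step E
  have hterm : ∃ f e, GP lt le up R Km f e ∧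
      ∀ f' e', GP lt le up R Km f' e' → f' ∈ R → lt f f' → ¬ le e' e := by
    by_contra hno
    push Not at hno
    obtain ⟨f₀, e₁, hfe⟩ := hexGP
    let A := {q : E × E // GP lt le up R Km q.1 q.2}
    have hstep : ∀ q : A, ∃ q' : A, q'.1.1 ∈ R ∧ lt q.1.1 q'.1.1 ∧ le q'.1.2 q.1.2 := by
      rintro ⟨⟨f, e⟩, hq⟩
      obtain ⟨f', e', h1, h2, h3, h4⟩ := hno f e hq
      exact ⟨⟨(f', e'), h1⟩, h2, h3, h4⟩
    choose nx hnx1 hnx2 hnx3 using hstep
    let q : ℕ → A := fun n => nx^[n] ⟨(f₀, e₁), hfe⟩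
    have hq : ∀ n, q (n + 1) = nx (q n) := fun n => Function.iterate_succ_apply' nx n _
    let F : ℕ → E := fun n => (q n).1.1
    let G : ℕ → E := fun n => (q n).1.2
    have hFR : ∀ n, F (n + 1) ∈ R := by
      intro n
      change (q (n + 1)).1.1 ∈ R
      rw [hq]
      exact hnx1 _
    have hFlt : ∀ n, lt (F n) (F (n + 1)) := by
      intro n
      change lt (q n).1.1 (q (n + 1)).1.1
      rw [hq]
      exact hnx2 _
    have hGle : ∀ n, le (G (n + 1)) (G n) := by
      intro n
      change le (q (n + 1)).1.2 (q n).1.2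
      rw [hq]
      exact hnx3 _
    have hGP : ∀ n, GP lt le up R Km (F n) (G n) := fun n => (q n).2
    have hFmono : ∀ m n, m < n → lt (F m) (F n) := by
      intro m n hmn
      induction n, hmn using Nat.le_induction with
      | base => exact hFlt m
      | succ n hn ih => exact h.lt_trans ih (hFlt n)
    obtain ⟨s, hs1, hs2, hs3, hs4⟩ := h.sup (fun n => F (n + 1)) (fun n => hFlt (n + 1))
    obtain ⟨l, hl, g, hg, harr, hna⟩ := NL ({x | ∃ n, x = F (n + 1)} ∪ ({s} ∩ R)) (by
      rintro x (⟨n, rfl⟩ | hx)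
      · exact hFR n
      · exact hx.2) ⟨F 1, Or.inl ⟨0, rfl⟩⟩ (by
      rintro a (⟨m, rfl⟩ | ⟨ha, -⟩) b (⟨n, rfl⟩ | ⟨hb, -⟩)
      · rcases lt_trichotomy m n with h1 | h1 | h1
        · exact Or.inr (Or.inl (hFmono _ _ (by omega)))
        · exact Or.inl (by rw [h1])
        · exact Or.inr (Or.inr (hFmono _ _ (by omega)))
      · rw [Set.mem_singleton_iff.1 hb]
        exact Or.inr (Or.inl (hs2 m))
      · rw [Set.mem_singleton_iff.1 ha]
        exact Or.inr (Or.inr (hs2 n))
      · left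
        rw [Set.mem_singleton_iff.1 ha, Set.mem_singleton_iff.1 hb])
    rcases hl with ⟨n, rfl⟩ | ⟨hl, hlR⟩
    · -- `F (n+2)` attacks `g`
      have hndn : ¬ up (F (n + 1)) := (hGP (n + 1)).1
      have hgdn : ¬ up g := fun hgu => hndn ((h.arr_up harr).1 hgu)
      have hle1 : le (F (n + 1)) g := h.arr_le_dn harr hndn
      have hnlt := h.arr_not_lt harr
      apply hna (F (n + 2)) (Or.inl ⟨n + 1, rfl⟩)
      refine ⟨?_, ?_, ?_, ?_⟩
      · intro heq
        exact hnlt.2 (heq ▸ hFlt (n + 1))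
      · intro hlt
        exact hnlt.2 (h.lt_trans (hFlt (n + 1)) hlt)
      · intro hlt
        have h1 : lt g (G (n + 1)) := h.ltle (h.lt_trans hlt (hGP (n + 2)).2.2.2.2.1) (hGle (n + 1))
        exact (hGP (n + 1)).2.2.2.2.2 g hg harr h1
      · intro harr2
        have h1 : le (F (n + 2)) g := h.arr_le_dn harr2 (hGP (n + 2)).1
        exact hnlt.2 (h.ltle (hFlt (n + 1)) h1)
    · rw [Set.mem_singleton_iff.1 hl] at harr
      have hgu : up g := (h.arr_up harr).2 hs1
      have hnlt := h.arr_not_lt harr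
      have : ∃ n, ¬ lt (F (n + 1)) g := by
        by_contra hall
        push Not at hall
        have h1 : le s g := hs3 g (fun n => h.lt_le (hall n))
        exact harr.1 (h.anti (h.arr_le_up harr hs1) h1)
      obtain ⟨n, hn⟩ := this
      apply hna (F (n + 1)) (Or.inl ⟨n, rfl⟩)
      refine ⟨?_, hn, ?_, ?_⟩
      · intro heq
        exact (hGP (n + 1)).1 (heq ▸ hgu)
      · intro hlt
        exact hnlt.1 (h.lt_trans hlt (hs2 n))
      · intro harr2
        exact (hGP (n + 1)).1 ((h.arr_up harr2).1 hgu)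
  -- Step F
  obtain ⟨f, e, hfe, hmax⟩ := hterm
  obtain ⟨hfdn, hfm, heR, heu, hfe1, hgood⟩ := hfe
  have hT : ∀ t, Reach lt le up R f e t → t ∈ R ∧ up t ∧ le t e ∧ lt f t := by
    intro t ht
    induction ht with
    | base => exact ⟨heR, heu, h.refl _, hfe1⟩
    | step _ hg harr hfg ih =>
      obtain ⟨h1, h2, h3, h4⟩ := ih
      exact ⟨hg, (h.arr_up harr).2 h2, h.trans (h.arr_le_up harr h2) h3, hfg⟩
  -- F1
  have hF1 : ∀ p : ℕ → E, (∀ n, Reach lt le up R f e (p n)) →
      (∀ n, Arr lt le up (p (n + 1)) (p n)) → IsInf lt le up f p := by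
    intro p hp hparr
    have hup : ∀ n, up (p n) := fun n => (hT _ (hp n)).2.1
    have hle : ∀ m n, n ≤ m → le (p m) (p n) := by
      intro m n hnm
      induction m, hnm using Nat.le_induction with
      | base => exact h.refl _
      | succ m hm ih => exact h.trans (h.arr_le_up (hparr m) (hup m)) ih
    obtain ⟨f', φ, hφ, hf1, hf2⟩ := h.path_limit p (hup 0) hparr
    have hff' : le f f' := hf2.2.2.1 f (fun n => h.lt_le (hT _ (hp n)).2.2.2)
    have hf'm : f' ∈ R ∨ (f' ∈ Km ∧ ∀ k ∈ Km, le k f') := by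
      rcases hinf (fun n => p (φ n)) (fun n => (hT _ (hp _)).1) hφ f' hf1 with hfR | hfK
      · exact Or.inl hfR
      · exact Or.inr ⟨hfK, fun k hk =>
          hf2.2.2.1 k (fun n => h.lt_le (hm k hk _ (hT _ (hp n)).1))⟩
    have hnlt : ¬ lt f f' := by
      intro hlt
      have hf'R : f' ∈ R := by
        rcases hf'm with h1 | ⟨h1, h2⟩
        · exact h1
        · exfalso
          rcases hfm with h3 | ⟨h3, h4⟩
          · exact h.asymm hlt (hm _ h1 _ h3)
          · exact h.not_lt_of_le (h4 _ h1) hlt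
      obtain ⟨n, hn⟩ := h.path_good p hle f' hf2
      refine hmax f' (p n) ⟨hf2.1, Or.inl hf'R, (hT _ (hp n)).1, hup n, hf2.2.1 n,
        fun g _ hg => hn g hg⟩ hf'R hlt (hT _ (hp n)).2.2.1
    have heq : f = f' := by
      by_contra hne
      have harr : Arr lt le up f' f :=
        ⟨fun h1 => hne h1.symm, Or.inr ⟨hf2.1, hfdn, hff', hnlt⟩⟩
      rcases hf'm with h1 | ⟨h1, h2⟩
      · exact hgood f' h1 harr (h.ltle (hf2.2.1 0) (hT _ (hp 0)).2.2.1)
      · rcases hfm with h3 | ⟨h3, h4⟩
        · exact h.not_lt_of_le hff' (hm _ h1 _ h3)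
        · exact hne (h.anti hff' (h4 _ h1))
    rw [heq]
    exact hf2
  -- F2
  have hF2 : ∀ r, lt f r → {t | Reach lt le up R f e t ∧ ¬ lt t r}.Finite := by
    intro r hfr
    let ρ : E → E → Prop := fun g t =>
      (Reach lt le up R f e g ∧ ¬ lt g r) ∧ (Reach lt le up R f e t ∧ ¬ lt t r) ∧
        Arr lt le up g t
    have hwf : WellFounded ρ := by
      rw [wellFounded_iff_isEmpty_descending_chain]
      refine ⟨fun ⟨p, hp⟩ => ?_⟩
      have hp1 : ∀ n, Reach lt le up R f e (p n) := fun n => (hp n).2.1.1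
      have hp2 : ∀ n, ¬ lt (p n) r := fun n => (hp n).2.1.2
      have := hF1 p hp1 (fun n => (hp n).2.2)
      obtain ⟨n, hn⟩ := this.2.2.2 r hfr
      exact hp2 n hn
    have hdesc : ∀ t, {s | Relation.ReflTransGen ρ s t}.Finite := by
      intro t
      induction t using hwf.induction with
      | _ t ih =>
        have : {s | Relation.ReflTransGen ρ s t} ⊆
            {t} ∪ ⋃ g ∈ {g | Arr lt le up g t}, {s | ρ g t ∧ Relation.ReflTransGen ρ s g} := by
          intro s hs
          rcases Relation.ReflTransGen.cases_tail hs with h1 | ⟨g, h1, h2⟩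
          · left
            exact h1.symm
          · right
            simp only [Set.mem_iUnion]
            exact ⟨g, h2.2.2, h2, h1⟩
        refine Set.Finite.subset ?_ this
        refine (Set.finite_singleton t).union ((h.finite_arr t).biUnion ?_)
        intro g hg
        by_cases hρ : ρ g t
        · exact (ih g hρ).subset (fun s hs => hs.2)
        · refine Set.Finite.subset (Set.finite_empty) ?_
          intro s hs
          exact absurd hs.1 hρ
    refine (hdesc e).subset ?_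
    rintro t ⟨ht, htr⟩
    induction ht with
    | base => exact Relation.ReflTransGen.refl
    | @step t g ht hg harr hfg ih =>
      have htr' : ¬ lt t r := fun h1 =>
        htr (h.lelt (h.arr_le_up harr (hT _ ht).2.1) h1)
      have hρ : ρ g t := ⟨⟨Reach.step ht hg harr hfg, htr⟩, ⟨ht, htr'⟩, harr⟩
      exact Relation.ReflTransGen.head hρ (ih htr')
  -- F3
  obtain ⟨K, hKT, hKc, hKk⟩ := h.locfin_kernel {t | Reach lt le up R f e t}
    (fun t ht => (hT t ht).2.1) (fun s hs => hF2 s (hT s hs).2.2.2)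
  have hKne : ∃ k, k ∈ K := by
    by_cases heK : e ∈ K
    · exact ⟨e, heK⟩
    · obtain ⟨k, hk, -⟩ := hKk e Reach.base heK
      exact ⟨k, hk⟩
  obtain ⟨k₀, hk₀⟩ := hKne
  -- F4
  obtain ⟨l, hl, g, hg, harr, hna⟩ := NL (K ∪ ({f} ∩ R)) (by
    rintro x (hx | hx)
    · exact (hT x (hKT hx)).1
    · exact hx.2) ⟨k₀, Or.inl hk₀⟩ (by
    rintro a (ha | ⟨ha, -⟩) b (hb | ⟨hb, -⟩)
    · exact hKc a ha b hb
    · rw [Set.mem_singleton_iff.1 hb]
      exact Or.inr (Or.inr (hT a (hKT ha)).2.2.2)
    · rw [Set.mem_singleton_iff.1 ha]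
      exact Or.inr (Or.inl (hT b (hKT hb)).2.2.2)
    · left
      rw [Set.mem_singleton_iff.1 ha, Set.mem_singleton_iff.1 hb])
  rcases hl with hl | ⟨hl, hlR⟩
  · have hlT := hT l (hKT hl)
    have hgu : up g := (h.arr_up harr).2 hlT.2.1
    have hnlt := h.arr_not_lt harr
    by_cases hfg : lt f g
    · have hgT : Reach lt le up R f e g := Reach.step (hKT hl) hg harr hfg
      by_cases hgK : g ∈ K
      · rcases hKc l hl g hgK with h1 | h1 | h1
        · exact harr.1 h1.symm
        · exact hnlt.2 h1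
        · exact hnlt.1 h1
      · obtain ⟨k, hk, hatt⟩ := hKk g hgT hgK
        exact hna k (Or.inl hk) hatt
    · have hfR : f ∈ R := by
        rcases hfm with h1 | ⟨h1, -⟩
        · exact h1
        · exact absurd (hm f h1 g hg) hfg
      apply hna f (Or.inr ⟨rfl, hfR⟩)
      refine ⟨fun heq => hfdn (heq ▸ hgu), hfg, fun hlt => ?_, fun harr2 => ?_⟩
      · exact hnlt.1 (h.lt_trans hlt hlT.2.2.2)
      · exact hfdn ((h.arr_up harr2).1 hgu)
  · rw [Set.mem_singleton_iff.1 hl] at harr
    have hgd : ¬ up g := fun hgu => hfdn ((h.arr_up harr).1 hgu)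
    have hnlt := h.arr_not_lt harr
    have hkT := hT k₀ (hKT hk₀)
    apply hna k₀ (Or.inl hk₀)
    refine ⟨fun heq => hgd (heq ▸ hkT.2.1), fun hlt => ?_, fun hlt => ?_, fun harr2 => ?_⟩
    · exact hnlt.2 (h.lt_trans hkT.2.2.2 hlt)
    · exact hgood g hg harr (h.ltle hlt hkT.2.2.1)
    · exact hgd ((h.arr_up harr2).2 hkT.2.1)

end EndSys

end Pool.Agent.TH398
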