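import Pool.Agent.TH398.Kernel2

set_option autoImplicit false

namespace Pool.Agent.TH398

open Filter

universe u

variable {E : Type u} {lt le : E → E → Prop} {up : E → Prop}

/-- The gap of `K` containing `e`. -/
def gapR (lt : E → E → Prop) (K : Set E) (e : E) : Set E :=
  {r | ∀ k ∈ K, (lt k e → lt k r) ∧ (lt e k → lt r k)}

theorem gapR_dual (lt : E → E → Prop) (K : Set E) (e : E) :
    gapR (fun a b => lt b a) K e = gapR lt K e := by
  ext r
  unfold gapR
  simp only [Set.mem_setOf_eq]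
  constructor
  · intro h k hk
    exact ⟨(h k hk).2, (h k hk).1⟩
  · intro h k hk
    exact ⟨(h k hk).2, (h k hk).1⟩

namespace EndSys

theorem cmp_of_locK (_h : EndSys lt le up) (K : Set E) (hK : LocK lt le up Set.univ K) (e : E)
    (heK : e ∉ K) (hna : ∀ k ∈ K, ¬ Att lt le up k e) : ∀ k ∈ K, lt k e ∨ lt e k := by
  intro k hk
  by_contra hcon
  push Not at hcon
  have hke : k ≠ e := fun h1 => heK (h1 ▸ hk)
  by_cases harr : Arr lt le up e k
  · obtain ⟨k', hk', hatt⟩ := hK.2.2 k hk e (Set.mem_univ _) harr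
    exact hna k' hk' hatt
  · exact hna k hk ⟨hke, hcon.1, hcon.2, harr⟩

theorem gap_inf (h : EndSys lt le up) (K : Set E) (hK : LocK lt le up Set.univ K) (e : E)
    (heK : e ∉ K) (hna : ∀ k ∈ K, ¬ Att lt le up k e)
    (s : ℕ → E) (hs : ∀ n, s n ∈ gapR lt K e) (f : E) (hf : IsInf lt le up f s) :
    f ∈ gapR lt K e ∨ f ∈ {k | k ∈ K ∧ lt k e} := by
  have hcmp := h.cmp_of_locK K hK e heK hna
  have hle : ∀ k ∈ K, lt k e → le k f := fun k hk hke =>
    hf.2.2.1 k (fun n => h.lt_le ((hs n k hk).1 hke))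
  have hlt : ∀ k ∈ K, lt e k → lt f k := fun k hk hke =>
    h.lt_trans (hf.2.1 0) ((hs 0 k hk).2 hke)
  by_cases hall : ∀ k ∈ K, lt k e → lt k f
  · left
    intro k hk
    exact ⟨hall k hk, hlt k hk⟩
  · right
    push Not at hall
    obtain ⟨k, hk, hke, hkf⟩ := hall
    by_cases heq : k = f
    · exact heq ▸ ⟨hk, hke⟩
    · exfalso
      have hkdn : ¬ up k := fun hku => hkf (h.ud hku hf.1 (hle k hk hke))
      have harr : Arr lt le up f k :=
        ⟨fun h1 => heq h1.symm, Or.inr ⟨hf.1, hkdn, hle k hk hke, hkf⟩⟩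
      obtain ⟨k', hk', hatt⟩ := hK.2.2 k hk f (Set.mem_univ _) harr
      rcases hcmp k' hk' with h1 | h1
      · have hk'dn : ¬ up k' := fun hku => hatt.2.1 (h.ud hku hf.1 (hle k' hk' h1))
        exact hatt.2.2.2 ⟨fun h2 => hatt.1 h2.symm, Or.inr ⟨hf.1, hk'dn, hle k' hk' h1, hatt.2.1⟩⟩
      · exact hatt.2.2.1 (hlt k' hk' h1)

theorem gap_local_up (h : EndSys lt le up) (K : Set E) (hK : LocK lt le up Set.univ K) (e : E)
    (heK : e ∉ K) (hna : ∀ k ∈ K, ¬ Att lt le up k e) (hue : up e) :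
    ∃ L : Set E, L.Nonempty ∧ LocK lt le up (gapR lt K e) L := by
  refine h.exists_locK_of_up (gapR lt K e) {k | k ∈ K ∧ lt k e} ?_ ?_ e ?_ hue
  · rintro k ⟨hk, hke⟩ r hr
    exact (hr k hk).1 hke
  · intro s hs _ f hf
    exact h.gap_inf K hK e heK hna s hs f hf
  · intro k hk
    exact ⟨id, id⟩

theorem gap_local (h : EndSys lt le up) (K : Set E) (hK : LocK lt le up Set.univ K) (e : E)
    (heK : e ∉ K) (hna : ∀ k ∈ K, ¬ Att lt le up k e) :
    ∃ L : Set E, L.Nonempty ∧ LocK lt le up (gapR lt K e) L := by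
  by_cases hue : up e
  · exact h.gap_local_up K hK e heK hna hue
  · obtain ⟨L, hL1, hL2⟩ := h.dual.gap_local_up K ((locK_dual _ _).2 hK) e heK
      (fun k hk hatt => hna k hk ((att_dual _ _).1 hatt)) hue
    rw [locK_dual, gapR_dual] at hL2
    exact ⟨L, hL1, hL2⟩

/-- **Kernel theorem.** -/
theorem exists_kernel (h : EndSys lt le up) :
    ∃ K : Set E, Chn lt K ∧ ∀ e, e ∉ K → ∃ k ∈ K, Att lt le up k e := by
  obtain ⟨K, hKmax⟩ : ∃ K, Maximal (fun K => K ∈ {K : Set E | LocK lt le up Set.univ K}) K := by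
    apply zorn_subset
    intro c hc hcc
    refine ⟨⋃₀ c, ⟨Set.subset_univ _, ?_, ?_⟩, fun s hs => Set.subset_sUnion_of_mem hs⟩
    · rintro a ⟨s, hs, has⟩ b ⟨t, ht, hbt⟩
      rcases hcc.total hs ht with h1 | h1
      · exact (hc ht).2.1 a (h1 has) b hbt
      · exact (hc hs).2.1 a has b (h1 hbt)
    · rintro l ⟨s, hs, hls⟩ g hg harr
      obtain ⟨l', hl', hatt⟩ := (hc hs).2.2 l hls g hg harr
      exact ⟨l', ⟨s, hs, hl'⟩, hatt⟩
  have hK : LocK lt le up Set.univ K := hKmax.1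
  refine ⟨K, hK.2.1, fun e heK => ?_⟩
  by_contra hna
  push Not at hna
  have hcmp := h.cmp_of_locK K hK e heK hna
  obtain ⟨L, ⟨l₀, hl₀⟩, hLR, hLc, hLk⟩ := h.gap_local K hK e heK hna
  have hun : LocK lt le up Set.univ (K ∪ L) := by
    refine ⟨Set.subset_univ _, ?_, ?_⟩
    · have hKL : ∀ k ∈ K, ∀ l ∈ L, lt k l ∨ lt l k := by
        intro k hk l hl
        rcases hcmp k hk with h1 | h1
        · exact Or.inl ((hLR hl k hk).1 h1)
        · exact Or.inr ((hLR hl k hk).2 h1)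
      rintro a (ha | ha) b (hb | hb)
      · exact hK.2.1 a ha b hb
      · exact Or.inr (hKL a ha b hb)
      · exact Or.inr (hKL b hb a ha).symm
      · exact hLc a ha b hb
    · rintro l (hl | hl) g hg harr
      · obtain ⟨k, hk, hatt⟩ := hK.2.2 l hl g hg harr
        exact ⟨k, Or.inl hk, hatt⟩
      · by_cases hex : ∃ k ∈ K, Att lt le up k g
        · obtain ⟨k, hk, hatt⟩ := hex
          exact ⟨k, Or.inl hk, hatt⟩
        · push Not at hex
          have hnlt := h.arr_not_lt harr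
          have hgK : g ∉ K := by
            intro hgK
            rcases hcmp g hgK with h1 | h1
            · exact hnlt.1 ((hLR hl g hgK).1 h1)
            · exact hnlt.2 ((hLR hl g hgK).2 h1)
          have hcg := h.cmp_of_locK K hK g hgK hex
          have hgR : g ∈ gapR lt K e := by
            intro k hk
            constructor
            · intro hke
              rcases hcg k hk with h1 | h1
              · exact h1
              · exact absurd (h.lt_trans h1 ((hLR hl k hk).1 hke)) hnlt.1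
            · intro hek
              rcases hcg k hk with h1 | h1
              · exact absurd (h.lt_trans ((hLR hl k hk).2 hek) h1) hnlt.2
              · exact h1
          obtain ⟨l', hl', hatt⟩ := hLk l hl g hgR harr
          exact ⟨l', Or.inr hl', hatt⟩
  have hsub : K ∪ L ⊆ K := hKmax.2 hun (Set.subset_union_left)
  have hl₀K : l₀ ∈ K := hsub (Or.inr hl₀)
  rcases hcmp l₀ hl₀K with h1 | h1
  · exact h.irr _ ((hLR hl₀ l₀ hl₀K).1 h1)
  · exact h.irr _ ((hLR hl₀ l₀ hl₀K).2 h1)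

/-- kernels are closed under limits from above -/
theorem kernel_inf (h : EndSys lt le up) (K : Set E) (hc : Chn lt K)
    (hk : ∀ e, e ∉ K → ∃ k ∈ K, Att lt le up k e) (s : ℕ → E) (hs : ∀ n, s n ∈ K) (f : E)
    (hf : IsInf lt le up f s) : f ∈ K := by
  by_contra hfK
  obtain ⟨k, hkK, hatt⟩ := hk f hfK
  have h1 : ∀ n, le k (s n) := by
    intro n
    rcases hc k hkK (s n) (hs n) with h2 | h2 | h2
    · rw [h2]; exact h.refl _
    · exact h.lt_le h2
    · exact absurd (h.lt_trans (hf.2.1 n) h2) hatt.2.2.1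
  have h2 : le k f := hf.2.2.1 k h1
  have h3 : ¬ up k := fun hku => hatt.2.1 (h.ud hku hf.1 h2)
  exact hatt.2.2.2 ⟨fun h4 => hatt.1 h4.symm, Or.inr ⟨hf.1, h3, h2, hatt.2.1⟩⟩

theorem kernel_sup (h : EndSys lt le up) (K : Set E) (hc : Chn lt K)
    (hk : ∀ e, e ∉ K → ∃ k ∈ K, Att lt le up k e) (s : ℕ → E) (hs : ∀ n, s n ∈ K) (f : E)
    (hf : IsSup lt le up f s) : f ∈ K := by
  refine h.dual.kernel_inf K ((chn_dual K).2 hc) ?_ s hs f ?_
  · intro e he
    obtain ⟨k, hkK, hatt⟩ := hk e he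
    exact ⟨k, hkK, (att_dual _ _).2 hatt⟩
  · exact ⟨not_not.2 hf.1, hf.2.1, hf.2.2.1, hf.2.2.2⟩

end EndSys

end Pool.Agent.TH398
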