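import Pool.Agent.TH398.EndP

set_option autoImplicit false

/-!
# The set of elements not attacked by a kernel
-/

namespace Pool.Agent.TH398

universe u

namespace EndP

variable {P : Type u} [PartialOrder P]

/-- `K` is a kernel of the system of ends. -/
def IsKer (K : Set (EndP P)) : Prop :=
  Chn slt K ∧ ∀ e, e ∉ K → ∃ k ∈ K, Att slt wle up k e

/-- elements not attacked by `K` -/
def XK (K : Set (EndP P)) : Set P := {p | ∀ k ∈ K, ¬ Nb k p}

theorem not_XK {K : Set (EndP P)} {p : P} (h : p ∉ XK K) : ∃ k ∈ K, Nb k p := by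
  unfold XK at h
  simp only [Set.mem_setOf_eq, not_forall, not_not] at h
  obtain ⟨k, hk, hn⟩ := h
  exact ⟨k, hk, hn⟩

theorem att_nb_up (k : EndP P) (z : ℕ → P) (hz : StrictMono z)
    (h : Att slt wle up k (mkUp z hz)) : ∃ n, Nb k (z n) := by
  by_contra hcon
  push Not at hcon
  obtain ⟨hq1, hq2⟩ := mkUp_seq z hz
  have hup := mkUp_up z hz
  by_cases h1 : ∃ n, Below k (z n)
  · obtain ⟨n, hn⟩ := h1
    obtain ⟨m, hm⟩ := hq1 n
    exact h.2.1 (slt_of_above_below hn (above_of_le hup hm))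
  · push Not at h1
    have h2 : ∀ n, Above k (z n) := fun n => by
      rcases tri k (z n) with h3 | h3 | h3
      · exact absurd h3 (h1 n)
      · exact h3
      · exact absurd h3 (hcon n)
    by_cases hk : k.up
    · apply h.2.2.2
      refine ⟨fun h3 => h.1 h3.symm, Or.inl ⟨hup, hk, Or.inr (Or.inl ⟨hup, hk, ?_⟩), h.2.2.1⟩⟩
      intro p hp
      obtain ⟨n, hn⟩ : ∃ n, p ≤ z n := hp
      obtain ⟨N, hN⟩ := h2 n
      exact (mem_up hk _).2 ⟨N, hn.trans (hN N le_rfl).le⟩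
    · apply h.2.2.1
      refine ⟨0, fun n _ m _ => ?_⟩
      obtain ⟨j, hj⟩ := hq2 n
      exact lt_of_le_of_lt hj (above_all hk (h2 j) m)

theorem att_nb_dn (k : EndP P) (z : ℕ → P) (hz : StrictAnti z)
    (h : Att slt wle up k (mkDn z hz)) : ∃ n, Nb k (z n) := by
  by_contra hcon
  push Not at hcon
  obtain ⟨hq1, hq2⟩ := mkDn_seq z hz
  have hdn := mkDn_up z hz
  by_cases h1 : ∃ n, Above k (z n)
  · obtain ⟨n, hn⟩ := h1
    obtain ⟨m, hm⟩ := hq1 n
    exact h.2.2.1 (slt_of_above_below (below_of_ge hdn hm) hn)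
  · push Not at h1
    have h2 : ∀ n, Below k (z n) := fun n => by
      rcases tri k (z n) with h3 | h3 | h3
      · exact h3
      · exact absurd h3 (h1 n)
      · exact absurd h3 (hcon n)
    by_cases hk : k.up
    · apply h.2.1
      refine ⟨0, fun n _ m _ => ?_⟩
      obtain ⟨j, hj⟩ := hq2 m
      exact lt_of_lt_of_le (below_all hk (h2 j) n) hj
    · apply h.2.2.2
      refine ⟨fun h3 => h.1 h3.symm, Or.inr ⟨hdn, hk, Or.inr (Or.inr ⟨hk, hdn, ?_⟩), h.2.1⟩⟩
      intro p hp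
      obtain ⟨n, hn⟩ : ∃ n, z n ≤ p := hp
      obtain ⟨N, hN⟩ := h2 n
      exact (mem_dn hk _).2 ⟨N, (hN N le_rfl).le.trans hn⟩

/-- closure of kernels under limits from below, with the element property -/
theorem ker_sup {w : ℕ} (hw : ∀ A : Finset P, IsAntichain (· ≤ ·) (A : Set P) → A.card ≤ w)
    {K : Set (EndP P)} (hK : IsKer K) (d : ℕ → EndP P) (hdK : ∀ n, d n ∈ K)
    (hd : ∀ n, slt (d n) (d (n + 1))) :
    ∃ f ∈ K, (∀ n, slt (d n) f) ∧ (∀ r, (∀ n, wle (d n) r) → wle f r) ∧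
      (∀ p, Above f p → ∃ n, Above (d n) p) := by
  obtain ⟨f, h1, h2, h3, h4, h5⟩ := exists_sup d hd
  exact ⟨f, (endSys w hw).kernel_sup K hK.1 hK.2 d hdK f ⟨h1, h2, h3, h4⟩, h2, h3, h5⟩

theorem ker_inf {w : ℕ} (hw : ∀ A : Finset P, IsAntichain (· ≤ ·) (A : Set P) → A.card ≤ w)
    {K : Set (EndP P)} (hK : IsKer K) (d : ℕ → EndP P) (hdK : ∀ n, d n ∈ K)
    (hd : ∀ n, slt (d (n + 1)) (d n)) :
    ∃ f ∈ K, (∀ n, slt f (d n)) ∧ (∀ r, (∀ n, wle r (d n)) → wle r f) ∧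
      (∀ p, Below f p → ∃ n, Below (d n) p) := by
  obtain ⟨f, h1, h2, h3, h4, h5⟩ := exists_inf d hd
  exact ⟨f, (endSys w hw).kernel_inf K hK.1 hK.2 d hdK f ⟨h1, h2, h3, h4⟩, h2, h3, h5⟩

/-- An up end of the kernel with no unattacked elements near it is a limit from below. -/
theorem limit_up {w : ℕ} (hw : ∀ A : Finset P, IsAntichain (· ≤ ·) (A : Set P) → A.card ≤ w)
    {K : Set (EndP P)} (hK : IsKer K) (b : EndP P) (hbK : b ∈ K) (hb : b.up)
    (hX : ∃ n1, ∀ n ≥ n1, b.seq n ∉ XK K) :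
    ∀ n, ∃ c ∈ K, slt c b ∧ Above c (b.seq n) := by
  by_contra hcon
  push Not at hcon
  obtain ⟨n0, hn0⟩ := hcon
  obtain ⟨n1, hn1⟩ := hX
  have habove : ∀ n, Above b (b.seq n) := fun n => above_of_le hb le_rfl
  have hcc : ∀ n, ∃ c, max n0 n1 ≤ n → c ∈ K ∧ Nb c (b.seq n) ∧ slt c b := by
    intro n
    by_cases hn : max n0 n1 ≤ n
    · obtain ⟨c, hcK, hc⟩ := not_XK (hn1 n (le_trans (le_max_right _ _) hn))
      refine ⟨c, fun _ => ⟨hcK, hc, ?_⟩⟩
      rcases hK.1 c hcK b hbK with h1 | h1 | h1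
      · exact absurd (h1 ▸ habove n) hc.not_above
      · exact h1
      · exact absurd (above_of_slt h1 (habove n)) hc.not_above
    · exact ⟨b, fun h => absurd h hn⟩
  choose cc hcc using hcc
  have hnx : ∀ n, ∃ n', n < n' ∧ (max n0 n1 ≤ n → Below (cc n) (b.seq n')) := by
    intro n
    by_cases hn : max n0 n1 ≤ n
    · obtain ⟨N, hN⟩ := (hcc n hn).2.2
      exact ⟨max N (n + 1), lt_of_lt_of_le (Nat.lt_succ_self n) (le_max_right _ _),
        fun _ => ⟨N, fun m hm => hN m hm _ (le_max_left _ _)⟩⟩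
    · exact ⟨n + 1, Nat.lt_succ_self n, fun h => absurd h hn⟩
  choose nx hnx1 hnx2 using hnx
  let ν : ℕ → ℕ := fun i => nx^[i] (max n0 n1)
  have hν : ∀ i, ν (i + 1) = nx (ν i) := fun i => Function.iterate_succ_apply' nx i _
  have hνlt : ∀ i, ν i < ν (i + 1) := fun i => by rw [hν]; exact hnx1 _
  have hνmono : StrictMono ν := strictMono_nat_of_lt_succ hνlt
  have hνge : ∀ i, max n0 n1 ≤ ν i := fun i => by
    have : ν 0 ≤ ν i := hνmono.monotone (Nat.zero_le i)
    exact this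
  have hd : ∀ i, slt (cc (ν i)) (cc (ν (i + 1))) := by
    intro i
    have h1 : Below (cc (ν i)) (b.seq (ν (i + 1))) := by
      rw [hν]; exact hnx2 _ (hνge i)
    have h2 := (hcc _ (hνge (i + 1))).2.1
    rcases hK.1 _ (hcc _ (hνge i)).1 _ (hcc _ (hνge (i + 1))).1 with h3 | h3 | h3
    · exact absurd (h3 ▸ h1) h2.not_below
    · exact h3
    · exact absurd (below_of_slt h3 h1) h2.not_below
  obtain ⟨f, hfK, hf1, hf2, hf3⟩ := ker_sup hw hK (fun i => cc (ν i))
    (fun i => (hcc _ (hνge i)).1) hd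
  rcases hK.1 f hfK b hbK with h1 | h1 | h1
  · obtain ⟨i, hi⟩ := hf3 (b.seq n0) (h1 ▸ habove n0)
    exact hn0 _ (hcc _ (hνge i)).1 (hcc _ (hνge i)).2.2 hi
  · obtain ⟨N, hN⟩ := h1
    have h2 : Below f (b.seq (ν N)) := ⟨N, fun m hm => hN m hm _ (hνmono.id_le N)⟩
    exact (hcc _ (hνge N)).2.1.not_below (below_of_slt (hf1 N) h2)
  · have h2 : wle f b := hf2 b (fun i => Or.inl (hcc _ (hνge i)).2.2)
    exact slt_irrefl b (slt_wle h1 h2)

theorem limit_dn {w : ℕ} (hw : ∀ A : Finset P, IsAntichain (· ≤ ·) (A : Set P) → A.card ≤ w)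
    {K : Set (EndP P)} (hK : IsKer K) (b : EndP P) (hbK : b ∈ K) (hb : ¬ b.up)
    (hX : ∃ n1, ∀ n ≥ n1, b.seq n ∉ XK K) :
    ∀ n, ∃ c ∈ K, slt b c ∧ Below c (b.seq n) := by
  by_contra hcon
  push Not at hcon
  obtain ⟨n0, hn0⟩ := hcon
  obtain ⟨n1, hn1⟩ := hX
  have hbelow : ∀ n, Below b (b.seq n) := fun n => below_of_ge hb le_rfl
  have hcc : ∀ n, ∃ c, max n0 n1 ≤ n → c ∈ K ∧ Nb c (b.seq n) ∧ slt b c := by
    intro n
    by_cases hn : max n0 n1 ≤ n
    · obtain ⟨c, hcK, hc⟩ := not_XK (hn1 n (le_trans (le_max_right _ _) hn))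
      refine ⟨c, fun _ => ⟨hcK, hc, ?_⟩⟩
      rcases hK.1 c hcK b hbK with h1 | h1 | h1
      · exact absurd (h1 ▸ hbelow n) hc.not_below
      · exact absurd (below_of_slt h1 (hbelow n)) hc.not_below
      · exact h1
    · exact ⟨b, fun h => absurd h hn⟩
  choose cc hcc using hcc
  have hnx : ∀ n, ∃ n', n < n' ∧ (max n0 n1 ≤ n → Above (cc n) (b.seq n')) := by
    intro n
    by_cases hn : max n0 n1 ≤ n
    · obtain ⟨N, hN⟩ := (hcc n hn).2.2
      exact ⟨max N (n + 1), lt_of_lt_of_le (Nat.lt_succ_self n) (le_max_right _ _),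
        fun _ => ⟨N, fun m hm => hN _ (le_max_left _ _) m hm⟩⟩
    · exact ⟨n + 1, Nat.lt_succ_self n, fun h => absurd h hn⟩
  choose nx hnx1 hnx2 using hnx
  let ν : ℕ → ℕ := fun i => nx^[i] (max n0 n1)
  have hν : ∀ i, ν (i + 1) = nx (ν i) := fun i => Function.iterate_succ_apply' nx i _
  have hνlt : ∀ i, ν i < ν (i + 1) := fun i => by rw [hν]; exact hnx1 _
  have hνmono : StrictMono ν := strictMono_nat_of_lt_succ hνlt
  have hνge : ∀ i, max n0 n1 ≤ ν i := fun i => by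
    have : ν 0 ≤ ν i := hνmono.monotone (Nat.zero_le i)
    exact this
  have hd : ∀ i, slt (cc (ν (i + 1))) (cc (ν i)) := by
    intro i
    have h1 : Above (cc (ν i)) (b.seq (ν (i + 1))) := by
      rw [hν]; exact hnx2 _ (hνge i)
    have h2 := (hcc _ (hνge (i + 1))).2.1
    rcases hK.1 _ (hcc _ (hνge (i + 1))).1 _ (hcc _ (hνge i)).1 with h3 | h3 | h3
    · exact absurd (h3 ▸ h1) h2.not_above
    · exact h3
    · exact absurd (above_of_slt h3 h1) h2.not_above
  obtain ⟨f, hfK, hf1, hf2, hf3⟩ := ker_inf hw hK (fun i => cc (ν i))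
    (fun i => (hcc _ (hνge i)).1) hd
  rcases hK.1 f hfK b hbK with h1 | h1 | h1
  · obtain ⟨i, hi⟩ := hf3 (b.seq n0) (h1 ▸ hbelow n0)
    exact hn0 _ (hcc _ (hνge i)).1 (hcc _ (hνge i)).2.2 hi
  · have h2 : wle b f := hf2 b (fun i => Or.inl (hcc _ (hνge i)).2.2)
    exact slt_irrefl b (wle_slt h2 h1)
  · obtain ⟨N, hN⟩ := h1
    have h2 : Above f (b.seq (ν N)) := ⟨N, fun m hm => hN _ (hνmono.id_le N) m hm⟩
    exact (hcc _ (hνge N)).2.1.not_above (above_of_slt (hf1 N) h2)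

/-- The main antichain argument. -/
theorem big_antichain {w : ℕ}
    (hw : ∀ A : Finset P, IsAntichain (· ≤ ·) (A : Set P) → A.card ≤ w)
    {K : Set (EndP P)} (hK : IsKer K) (a1 a2 : EndP P)
    (hB : ∀ x, Below a1 x → Above a2 x → x ∉ XK K)
    (b0 : EndP P) (hb0 : b0 ∈ K) (h10 : slt a1 b0) (h02 : slt b0 a2) (k : ℕ) :
    ∃ (Y : Finset P) (b : EndP P), Y.card = k ∧ IsAntichain (· ≤ ·) (Y : Set P) ∧ b ∈ K ∧
      slt a1 b ∧ slt b a2 ∧ ∀ y ∈ Y, Nb b y := by
  classical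
  induction k with
  | zero => exact ⟨∅, b0, rfl, by simp, hb0, h10, h02, by simp⟩
  | succ k ih =>
    obtain ⟨Y, b, hYc, hYa, hbK, h1b, hb2, hnb⟩ := ih
    -- a uniform bound
    obtain ⟨NY, hNY⟩ : ∃ N, ∀ y ∈ Y, ∀ n ≥ N, ¬ b.seq n ≤ y ∧ ¬ y ≤ b.seq n := by
      have h3 : ∀ y, ∃ N, y ∈ Y → ∀ n ≥ N, ¬ b.seq n ≤ y ∧ ¬ y ≤ b.seq n := by
        intro y
        by_cases hy : y ∈ Y
        · obtain ⟨N, hN⟩ := hnb y hy
          exact ⟨N, fun _ => hN⟩
        · exact ⟨0, fun h => absurd h hy⟩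
      choose N hN using h3
      exact ⟨Y.sup N, fun y hy n hn => hN y hy n (le_trans (Finset.le_sup hy) hn)⟩
    have hB1 : ∃ N, ∀ n ≥ N, Below a1 (b.seq n) ∧ Above a2 (b.seq n) := by
      obtain ⟨N, hN⟩ := h1b
      obtain ⟨M, hM⟩ := hb2
      exact ⟨max N M, fun n hn => ⟨⟨N, fun m hm => hN m hm n (le_trans (le_max_left _ _) hn)⟩,
        ⟨M, fun m hm => hM n (le_trans (le_max_right _ _) hn) m hm⟩⟩⟩
    obtain ⟨NB, hNB⟩ := hB1
    have hX : ∃ n1, ∀ n ≥ n1, b.seq n ∉ XK K :=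
      ⟨NB, fun n hn => hB _ (hNB n hn).1 (hNB n hn).2⟩
    -- it suffices to find `t`, `b'`
    suffices hsuff : ∃ n ≥ max NY NB, ∃ b' ∈ K, slt a1 b' ∧ slt b' a2 ∧ Nb b' (b.seq n) ∧
        ∀ y ∈ Y, Nb b' y by
      obtain ⟨n, hn, b', hb'K, h1b', hb'2, hb't, hb'Y⟩ := hsuff
      have hnY : NY ≤ n := le_trans (le_max_left _ _) hn
      have htY : b.seq n ∉ Y := fun ht => (hNY _ ht n hnY).1 le_rfl
      refine ⟨insert (b.seq n) Y, b', ?_, ?_, hb'K, h1b', hb'2, ?_⟩
      · rw [Finset.card_insert_of_notMem htY, hYc]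
      · intro p hp q hq hpq hle
        simp only [Finset.coe_insert, Set.mem_insert_iff, Finset.mem_coe] at hp hq
        rcases hp with rfl | hp <;> rcases hq with rfl | hq
        · exact hpq rfl
        · exact (hNY q hq n hnY).1 hle
        · exact (hNY p hp n hnY).2 hle
        · exact hYa hp hq hpq hle
      · intro y hy
        rcases Finset.mem_insert.1 hy with rfl | hy
        · exact hb't
        · exact hb'Y y hy
    by_cases hb : b.up
    · obtain ⟨c, hcK, hcb, hc⟩ := limit_up hw hK b hbK hb hX (max NY NB)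
      have h1c : slt a1 c := slt_of_above_below (hNB _ (le_max_right _ _)).1 hc
      have hcY : ∀ y ∈ Y, ¬ Below c y := by
        rintro y hy ⟨M, hM⟩
        obtain ⟨M', hM'⟩ := hc
        exact (hNY y hy _ (le_max_left _ _)).1
          ((hM' (max M M') (le_max_right _ _)).trans (hM (max M M') (le_max_left _ _))).le
      obtain ⟨M, hM⟩ := hcb
      let n := max (max NY NB) M
      have hct : Below c (b.seq n) := ⟨M, fun m hm => hM m hm _ (le_max_right _ _)⟩
      have hn : max NY NB ≤ n := le_max_left _ _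
      have htX : b.seq n ∉ XK K := hB _ (hNB n (le_trans (le_max_right _ _) hn)).1
        (hNB n (le_trans (le_max_right _ _) hn)).2
      obtain ⟨b', hb'K, hb't⟩ := not_XK htX
      have hcb' : slt c b' := by
        rcases hK.1 c hcK b' hb'K with h3 | h3 | h3
        · exact absurd (h3 ▸ hct) hb't.not_below
        · exact h3
        · exact absurd (below_of_slt h3 hct) hb't.not_below
      have hbt : Above b (b.seq n) := above_of_le hb le_rfl
      have hb'b : slt b' b := by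
        rcases hK.1 b' hb'K b hbK with h3 | h3 | h3
        · exact absurd (h3 ▸ hbt) hb't.not_above
        · exact h3
        · exact absurd (above_of_slt h3 hbt) hb't.not_above
      refine ⟨n, hn, b', hb'K, Tlt.trans h1c hcb', Tlt.trans hb'b hb2, hb't, ?_⟩
      intro y hy
      exact nb_of (fun h3 => hcY y hy (below_of_slt hcb' h3))
        (fun h3 => (hnb y hy).not_above (above_of_slt hb'b h3))
    · obtain ⟨c, hcK, hcb, hc⟩ := limit_dn hw hK b hbK hb hX (max NY NB)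
      have h1c : slt c a2 := slt_of_above_below hc (hNB _ (le_max_right _ _)).2
      have hcY : ∀ y ∈ Y, ¬ Above c y := by
        rintro y hy ⟨M, hM⟩
        obtain ⟨M', hM'⟩ := hc
        exact (hNY y hy _ (le_max_left _ _)).2
          ((hM (max M M') (le_max_left _ _)).trans (hM' (max M M') (le_max_right _ _))).le
      obtain ⟨M, hM⟩ := hcb
      let n := max (max NY NB) M
      have hct : Above c (b.seq n) := ⟨M, fun m hm => hM _ (le_max_right _ _) m hm⟩
      have hn : max NY NB ≤ n := le_max_left _ _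
      have htX : b.seq n ∉ XK K := hB _ (hNB n (le_trans (le_max_right _ _) hn)).1
        (hNB n (le_trans (le_max_right _ _) hn)).2
      obtain ⟨b', hb'K, hb't⟩ := not_XK htX
      have hcb' : slt b' c := by
        rcases hK.1 b' hb'K c hcK with h3 | h3 | h3
        · exact absurd (h3 ▸ hct) hb't.not_above
        · exact h3
        · exact absurd (above_of_slt h3 hct) hb't.not_above
      have hbt : Below b (b.seq n) := below_of_ge hb le_rfl
      have hb'b : slt b b' := by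
        rcases hK.1 b hbK b' hb'K with h3 | h3 | h3
        · exact absurd (h3 ▸ hbt) hb't.not_below
        · exact h3
        · exact absurd (below_of_slt h3 hbt) hb't.not_below
      refine ⟨n, hn, b', hb'K, Tlt.trans h1b hb'b, Tlt.trans hcb' h1c, hb't, ?_⟩
      intro y hy
      exact nb_of (fun h3 => (hnb y hy).not_below (below_of_slt hb'b h3))
        (fun h3 => hcY y hy (above_of_slt hcb' h3))

theorem real_up {w : ℕ} (hw : ∀ A : Finset P, IsAntichain (· ≤ ·) (A : Set P) → A.card ≤ w)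
    {K : Set (EndP P)} (hK : IsKer K) (a : EndP P) (haK : a ∈ K) (ha : a.up) (n0 : ℕ) :
    ∃ x ∈ XK K, a.seq n0 ≤ x ∧ ∃ m, x ≤ a.seq m := by
  by_contra hcon
  push Not at hcon
  have hX : ∃ n1, ∀ n ≥ n1, a.seq n ∉ XK K := by
    refine ⟨n0, fun n hn hx => hcon _ hx ((spec_up ha).1.monotone hn) n le_rfl⟩
  obtain ⟨c1, hc1K, hc1a, hc1⟩ := limit_up hw hK a haK ha hX n0
  have hc1a' := hc1a
  obtain ⟨N, hN⟩ := hc1a
  obtain ⟨c2, hc2K, hc2a, hc2⟩ := limit_up hw hK a haK ha hX N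
  have h12 : slt c1 c2 := slt_of_above_below ⟨N, fun m hm => hN m hm N le_rfl⟩ hc2
  obtain ⟨Y, b, hYc, hYa, -⟩ := big_antichain hw hK c1 a (by
    intro x hx1 hx2 hxX
    obtain ⟨M1, hM1⟩ := hc1
    obtain ⟨M2, hM2⟩ := hx1
    obtain ⟨M3, hM3⟩ := hx2
    exact hcon x hxX ((hM1 (max M1 M2) (le_max_left _ _)).trans
      (hM2 (max M1 M2) (le_max_right _ _))).le M3 (hM3 M3 le_rfl).le) c2 hc2K h12 hc2a (w + 1)
  have := hw Y hYa
  omega

theorem real_dn {w : ℕ} (hw : ∀ A : Finset P, IsAntichain (· ≤ ·) (A : Set P) → A.card ≤ w)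
    {K : Set (EndP P)} (hK : IsKer K) (a : EndP P) (haK : a ∈ K) (ha : ¬ a.up) (n0 : ℕ) :
    ∃ x ∈ XK K, x ≤ a.seq n0 ∧ ∃ m, a.seq m ≤ x := by
  by_contra hcon
  push Not at hcon
  have hX : ∃ n1, ∀ n ≥ n1, a.seq n ∉ XK K := by
    refine ⟨n0, fun n hn hx => hcon _ hx ((spec_dn ha).1.antitone hn) n le_rfl⟩
  obtain ⟨c1, hc1K, hc1a, hc1⟩ := limit_dn hw hK a haK ha hX n0
  obtain ⟨N, hN⟩ := hc1a
  obtain ⟨c2, hc2K, hc2a, hc2⟩ := limit_dn hw hK a haK ha hX N
  have h12 : slt c2 c1 := slt_of_above_below hc2 ⟨N, fun m hm => hN N le_rfl m hm⟩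
  obtain ⟨Y, b, hYc, hYa, -⟩ := big_antichain hw hK a c1 (by
    intro x hx1 hx2 hxX
    obtain ⟨M1, hM1⟩ := hc1
    obtain ⟨M2, hM2⟩ := hx2
    obtain ⟨M3, hM3⟩ := hx1
    exact hcon x hxX ((hM2 (max M1 M2) (le_max_right _ _)).trans
      (hM1 (max M1 M2) (le_max_left _ _))).le M3 (hM3 M3 le_rfl).le) c2 hc2K hc2a h12 (w + 1)
  have := hw Y hYa
  omega

end EndP

/-- **Structure theorem**: a poset of finite width contains a set `X` which consists exactly of
the elements incomparable with only finitely many elements of `X`. -/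
theorem exists_ST {P : Type u} [PartialOrder P] (w : ℕ)
    (hw : ∀ A : Finset P, IsAntichain (· ≤ ·) (A : Set P) → A.card ≤ w) :
    ∃ X : Set P, (∀ x ∈ X, {q | q ∈ X ∧ ¬ q ≤ x ∧ ¬ x ≤ q}.Finite) ∧
      (∀ y, y ∉ X → {q | q ∈ X ∧ ¬ q ≤ y ∧ ¬ y ≤ q}.Infinite) := by
  obtain ⟨K, hK1, hK2⟩ := (EndP.endSys w hw).exists_kernel
  have hK : EndP.IsKer K := ⟨hK1, hK2⟩
  have hfac : ∀ s : ℕ → P, ∃ m n, m < n ∧ (s m ≤ s n ∨ s n ≤ s m) := by
    classical
    intro s
    by_contra hcon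
    push Not at hcon
    have hinj : Function.Injective s := by
      intro a b hab
      by_contra hne
      rcases lt_or_gt_of_ne hne with h1 | h1
      · exact (hcon a b h1).1 hab.le
      · exact (hcon b a h1).1 hab.ge
    have := hw ((Finset.range (w + 1)).image s) (by
      intro p hp q hq hpq hle
      simp only [Finset.coe_image, Set.mem_image, Finset.coe_range, Set.mem_Iio] at hp hq
      obtain ⟨i, hi, rfl⟩ := hp
      obtain ⟨j, hj, rfl⟩ := hq
      rcases lt_trichotomy i j with h3 | h3 | h3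
      · exact (hcon i j h3).1 hle
      · exact hpq (by rw [h3])
      · exact (hcon j i h3).2 hle)
    rw [Finset.card_image_of_injective _ hinj, Finset.card_range] at this
    omega
  refine ⟨EndP.XK K, ?_, ?_⟩
  · intro x hx
    by_contra hinf
    obtain ⟨s, hs, hsinj⟩ : ∃ s : ℕ → P, (∀ n, s n ∈ EndP.XK K ∧ ¬ s n ≤ x ∧ ¬ x ≤ s n) ∧
        Function.Injective s := by
      have := Set.Infinite.natEmbedding _ hinf
      exact ⟨fun n => (this n : P), fun n => (this n).2, fun m n hmn =>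
        this.injective (Subtype.ext hmn)⟩
    obtain ⟨φ, hφ, hmono | hanti⟩ := exists_mono_or_anti hfac s hsinj
    · by_cases heK : EndP.mkUp _ hmono ∈ K
      · apply hx _ heK
        obtain ⟨hq1, hq2⟩ := EndP.mkUp_seq _ hmono
        obtain ⟨m, hm⟩ := hq1 0
        refine ⟨m, fun n hn => ⟨fun hle => ?_, fun hle => ?_⟩⟩
        · exact (hs (φ 0)).2.1 ((hm.trans ((EndP.spec_up (EndP.mkUp_up _ hmono)).1.monotone hn)).trans hle)
        · obtain ⟨j, hj⟩ := hq2 n
          exact (hs (φ j)).2.2 (hle.trans hj)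
      · obtain ⟨k, hkK, hatt⟩ := hK2 _ heK
        obtain ⟨n, hn⟩ := EndP.att_nb_up k _ hmono hatt
        exact (hs (φ n)).1 k hkK hn
    · by_cases heK : EndP.mkDn _ hanti ∈ K
      · apply hx _ heK
        obtain ⟨hq1, hq2⟩ := EndP.mkDn_seq _ hanti
        obtain ⟨m, hm⟩ := hq1 0
        refine ⟨m, fun n hn => ⟨fun hle => ?_, fun hle => ?_⟩⟩
        · obtain ⟨j, hj⟩ := hq2 n
          exact (hs (φ j)).2.1 (hj.trans hle)
        · exact (hs (φ 0)).2.2 (hle.trans (((EndP.spec_dn (EndP.mkDn_up _ hanti)).1.antitone hn).trans hm))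
      · obtain ⟨k, hkK, hatt⟩ := hK2 _ heK
        obtain ⟨n, hn⟩ := EndP.att_nb_dn k _ hanti hatt
        exact (hs (φ n)).1 k hkK hn
  · intro y hy hfin
    obtain ⟨k, hkK, N, hN⟩ := EndP.not_XK hy
    by_cases hk : k.up
    · obtain ⟨M, hM⟩ : ∃ M, ∀ q ∈ {q | q ∈ EndP.XK K ∧ ¬ q ≤ y ∧ ¬ y ≤ q},
          (∃ m, q ≤ k.seq m) → q ≤ k.seq M := by
        have h3 : ∀ q : P, ∃ M, (∃ m, q ≤ k.seq m) → q ≤ k.seq M := by
          intro q
          by_cases hq : ∃ m, q ≤ k.seq m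
          · obtain ⟨m, hm⟩ := hq
            exact ⟨m, fun _ => hm⟩
          · exact ⟨0, fun h => absurd h hq⟩
        choose f hf using h3
        obtain ⟨M, hM⟩ := (hfin.image f).bddAbove
        exact ⟨M, fun q hq hq' => (hf q hq').trans
          ((EndP.spec_up hk).1.monotone (hM ⟨q, hq, rfl⟩))⟩
      obtain ⟨x, hxX, hx1, m, hx2⟩ := EndP.real_up hw hK k hkK hk (max (M + 1) N)
      have hxy1 : ¬ x ≤ y := fun h => (hN _ (le_max_right _ _)).1 (hx1.trans h)
      have hxy2 : ¬ y ≤ x := fun h => (hN (max m N) (le_max_right _ _)).2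
        ((h.trans hx2).trans ((EndP.spec_up hk).1.monotone (le_max_left _ _)))
      have h4 := hM x ⟨hxX, hxy1, hxy2⟩ ⟨m, hx2⟩
      have h5 : k.seq M < k.seq (max (M + 1) N) :=
        (EndP.spec_up hk).1 (lt_of_lt_of_le (Nat.lt_succ_self M) (le_max_left _ _))
      exact absurd (hx1.trans h4) (not_le_of_gt h5)
    · obtain ⟨M, hM⟩ : ∃ M, ∀ q ∈ {q | q ∈ EndP.XK K ∧ ¬ q ≤ y ∧ ¬ y ≤ q},
          (∃ m, k.seq m ≤ q) → k.seq M ≤ q := by
        have h3 : ∀ q : P, ∃ M, (∃ m, k.seq m ≤ q) → k.seq M ≤ q := by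
          intro q
          by_cases hq : ∃ m, k.seq m ≤ q
          · obtain ⟨m, hm⟩ := hq
            exact ⟨m, fun _ => hm⟩
          · exact ⟨0, fun h => absurd h hq⟩
        choose f hf using h3
        obtain ⟨M, hM⟩ := (hfin.image f).bddAbove
        exact ⟨M, fun q hq hq' =>
          ((EndP.spec_dn hk).1.antitone (hM ⟨q, hq, rfl⟩)).trans (hf q hq')⟩
      obtain ⟨x, hxX, hx1, m, hx2⟩ := EndP.real_dn hw hK k hkK hk (max (M + 1) N)
      have hxy1 : ¬ y ≤ x := fun h => (hN _ (le_max_right _ _)).2 (h.trans hx1)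
      have hxy2 : ¬ x ≤ y := fun h => (hN (max m N) (le_max_right _ _)).1
        (((EndP.spec_dn hk).1.antitone (le_max_left _ _)).trans (hx2.trans h))
      have h4 := hM x ⟨hxX, hxy2, hxy1⟩ ⟨m, hx2⟩
      have h5 : k.seq (max (M + 1) N) < k.seq M :=
        (EndP.spec_dn hk).1 (lt_of_lt_of_le (Nat.lt_succ_self M) (le_max_left _ _))
      exact absurd (h4.trans hx1) (not_le_of_gt h5)

end Pool.Agent.TH398
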