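import Pool.Agent.TH398.Glue2

set_option autoImplicit false

/-!
# Towers for singular cardinals
-/

namespace Pool.Agent.TH398

open Cardinal Filter

universe u

section side
variable {P : Type u} [PartialOrder P]

theorem finset_union_lt {κ : Cardinal.{u}} (hκ : ℵ₀ ≤ κ) (F : Finset P) (g : P → Set P)
    (h : ∀ b ∈ F, #(g b) < κ) : #(⋃ b ∈ F, g b : Set P) < κ := by
  classical
  induction F using Finset.induction_on with
  | empty =>
    have : (⋃ b ∈ (∅ : Finset P), g b : Set P) = ∅ := by simp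
    rw [this]
    have h0 : #(∅ : Set P) = 0 := by simp
    rw [h0]
    exact lt_of_lt_of_le aleph0_pos hκ
  | insert a s ha ih =>
    rw [Finset.set_biUnion_insert]
    exact lt_of_union hκ (h a (Finset.mem_insert_self _ _))
      (ih (fun b hb => h b (Finset.mem_insert_of_mem hb)))

theorem above_lt {κ : Cardinal.{u}} (hκ : ℵ₀ ≤ κ) (w b : P)
    (hI : #({z | w ≤ z ∧ ¬ b ≤ z} : Set P) < κ) : #({z | w < z ∧ ¬ b < z} : Set P) < κ := by
  refine lt_of_le_of_lt (mk_le_mk_of_subset (t := {z | w ≤ z ∧ ¬ b ≤ z} ∪ {b}) ?_)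
    (lt_of_union hκ hI ?_)
  · rintro z ⟨h1, h2⟩
    by_cases h3 : b ≤ z
    · right
      by_contra h4
      exact h2 (lt_of_le_of_ne h3 (fun h5 => h4 h5.symm))
    · exact Or.inl ⟨h1.le, h3⟩
  · rw [mk_singleton]
    exact one_lt_of_aleph0 hκ

theorem side_small {κ : Cardinal.{u}} (hκ : ℵ₀ ≤ κ) (w : P) (F : Finset P)
    (hI : ∀ b, #({z | w ≤ z ∧ ¬ b ≤ z} : Set P) < κ) :
    #({z | w < z ∧ (κ ≤ #({z | w < z} : Set P) → ∃ b ∈ F, z ≤ b)} : Set P) < κ := by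
  by_cases hA : κ ≤ #({z | w < z} : Set P)
  · refine lt_of_le_of_lt (mk_le_mk_of_subset (t := ⋃ b ∈ F, {z | w < z ∧ ¬ b < z}) ?_)
      (finset_union_lt hκ F _ (fun b _ => above_lt hκ w b (hI b)))
    rintro z ⟨h1, h2⟩
    obtain ⟨b, hb, hzb⟩ := h2 hA
    simp only [Set.mem_iUnion]
    exact ⟨b, hb, h1, fun h3 => lt_irrefl _ (lt_of_lt_of_le h3 hzb)⟩
  · refine lt_of_le_of_lt (mk_le_mk_of_subset ?_) (not_le.1 hA)
    rintro z ⟨h1, h2⟩
    exact h1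

/-- good cuts -/
def CG (κ : Cardinal.{u}) (w : P) (L : Cardinal.{u}) : Set (Set P × Set P) :=
  {c | c ∈ CS w L ∧ (κ ≤ #({z | w < z} : Set P) → c.2.Nonempty) ∧
    (¬ (κ ≤ #({z | w < z} : Set P)) → c.1 = Set.univ ∧ c.2 = ∅)}

theorem CG_bound {κ : Cardinal.{u}} (hκ : ℵ₀ ≤ κ) (hlim : ∀ c < κ, Order.succ c < κ) (w : P)
    (hI : ∀ b, #({z | w ≤ z ∧ ¬ b ≤ z} : Set P) < κ) (L : Cardinal.{u})
    (c : Set P × Set P) (hc : c ∈ CG κ w L) : ∃ β < κ, Bd w β c.1 c.2 := by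
  by_cases hA : κ ≤ #({z | w < z} : Set P)
  · obtain ⟨b, hb⟩ := hc.2.1 hA
    exact ⟨_, hlim _ (above_lt hκ w b (hI b)), Or.inl ⟨b, hb, Order.lt_succ _⟩⟩
  · obtain ⟨h1, h2⟩ := hc.2.2 hA
    exact ⟨_, hlim _ (not_le.1 hA), Or.inr ⟨h1, h2, Order.lt_succ _⟩⟩

theorem CG_bound_all {n : ℕ} (hn : Wd P n) {κ : Cardinal.{u}} (hκ : ℵ₀ ≤ κ)
    (hlim : ∀ c < κ, Order.succ c < κ) (w : P)
    (hI : ∀ b, #({z | w ≤ z ∧ ¬ b ≤ z} : Set P) < κ) (L : Cardinal.{u}) (hL : ℵ₀ ≤ L)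
    (hw : #(NI Set.univ w) < L) : ∃ β < κ, ∀ c ∈ CG κ w L, Bd w β c.1 c.2 := by
  have hfin : (CG κ w L).Finite := (CS_finite hn hL hw).subset (fun c hc => hc.1)
  have hpos : (0 : Cardinal.{u}) < κ := lt_of_lt_of_le aleph0_pos hκ
  have hex : ∀ c : Set P × Set P, ∃ β < κ, c ∈ CG κ w L → Bd w β c.1 c.2 := by
    intro c
    by_cases hc : c ∈ CG κ w L
    · obtain ⟨β, h1, h2⟩ := CG_bound hκ hlim w hI L c hc
      exact ⟨β, h1, fun _ => h2⟩
    · exact ⟨0, hpos, fun h => absurd h hc⟩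
  choose g hg1 hg2 using hex
  refine ⟨hfin.toFinset.sup g, ?_, ?_⟩
  · exact (Finset.sup_lt_iff hpos).2 (fun c _ => hg1 c)
  · intro c hc
    exact (hg2 c hc).mono (Finset.le_sup (f := g) (hfin.mem_toFinset.2 hc))

theorem good_cut {κ : Cardinal.{u}} {w : P} {L θ : Cardinal.{u}} (hL : ℵ₀ ≤ L)
    (hLθ : L < θ) (hθ : θ.IsRegular) (hw : #(NI Set.univ w) < θ)
    (hsm : ¬ (κ ≤ #({z | w < z} : Set P)) → #({z | w < z} : Set P) < L)
    {Q : Set P} {X : Cardinal.{u} → Set P} (hX : IsTower Q X) (hwQ : w ∈ Q)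
    (hQ : Q.OrdConnected) (hbig : κ ≤ #({z | w < z} : Set P) → θ ≤ #(XA w Q)) :
    (cJ w L (X L), cU w L (X L)) ∈ CG κ w L := by
  refine ⟨⟨Q, X L, hwQ, hQ, hX.st L hL, rfl⟩, fun hA => ?_, fun hA => ?_⟩
  · have h1 := XA_big hL hLθ.le hθ hw hX (hbig hA)
    obtain ⟨b, -, hb⟩ := exists_cU hL (X L) (hX.st L hL).lt (lt_of_lt_of_le hLθ h1)
    exact ⟨b, hb⟩
  · exact cut_of_small (lt_of_le_of_lt (mk_le_mk_of_subset (fun x hx => hx.2)) (hsm hA))

end side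

section main
variable {P : Type u} [PartialOrder P]

theorem glue_singular {n : ℕ} (hn : Wd P n) {κ : Cardinal.{u}} (hκ : ℵ₀ ≤ κ)
    (hlim : ∀ c < κ, Order.succ c < κ) (hsing : κ.ord.cof < κ)
    (hN : ∀ x : P, #(NI Set.univ x) < κ)
    (hI : ∀ a b : P, #({z | a ≤ z ∧ ¬ b ≤ z} : Set P) < κ)
    (hI' : ∀ a b : P, #({z | z ≤ a ∧ ¬ z ≤ b} : Set P) < κ)
    (IH : ∀ Q : Set P, #Q < κ → ∃ X, IsTower Q X) (w : P) :
    ∃ X, IsTower (Set.univ : Set P) X := by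
  classical
  have hN' : ∀ x : P, #(NI (P := Pᵒᵈ) Set.univ x) < κ := fun x =>
    lt_of_eq_of_lt (congrArg (fun A : Set P => #A) (NI_dual (P := P) Set.univ x)) (hN x)
  set A : Prop := κ ≤ #({z | w < z} : Set P) with hAdef
  set A' : Prop := κ ≤ #({z : P | z < w} : Set P) with hA'def
  let Qf : Finset P → Set P := fun F =>
    {z | (A → ∃ b ∈ F, z ≤ b) ∧ (A' → ∃ a ∈ F, a ≤ z)}
  have hQc : ∀ F, (Qf F).OrdConnected := by
    intro F
    refine ⟨fun a ha b hb c hc => ⟨fun hA => ?_, fun hA => ?_⟩⟩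
    · obtain ⟨v, hv, h⟩ := hb.1 hA
      exact ⟨v, hv, hc.2.trans h⟩
    · obtain ⟨v, hv, h⟩ := ha.2 hA
      exact ⟨v, hv, h.trans hc.1⟩
  have hQc' : ∀ F, (Set.OrdConnected (α := Pᵒᵈ) (Qf F)) := by
    intro F
    exact ⟨fun a ha b hb c hc => (hQc F).out hb ha ⟨hc.2, hc.1⟩⟩
  have hQsmall : ∀ F, #(Qf F) < κ := by
    intro F
    have h1 := side_small hκ w F (hI w)
    have h2 := side_small (P := Pᵒᵈ) hκ w F (hI' w)
    refine lt_of_le_of_lt (mk_le_mk_of_subset (t :=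
      (({z | w < z ∧ (A → ∃ b ∈ F, z ≤ b)} ∪ {z | z < w ∧ (A' → ∃ a ∈ F, a ≤ z)}) ∪
        NI Set.univ w) ∪ {w}) ?_) ?_
    · rintro z ⟨hz1, hz2⟩
      by_cases h3 : z = w
      · exact Or.inr h3
      · by_cases h4 : z ≤ w
        · exact Or.inl (Or.inl (Or.inr ⟨lt_of_le_of_ne h4 h3, hz2⟩))
        · by_cases h5 : w ≤ z
          · exact Or.inl (Or.inl (Or.inl ⟨lt_of_le_of_ne h5 (Ne.symm h3), hz1⟩))
          · exact Or.inl (Or.inr ⟨Set.mem_univ _, h4, h5⟩)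
    · refine lt_of_union hκ (lt_of_union hκ (lt_of_union hκ h1 h2) (hN w)) ?_
      rw [mk_singleton]
      exact one_lt_of_aleph0 hκ
  choose T hT using fun F => IH (Qf F) (hQsmall F)
  -- the lower bound for the cardinals
  set l0 : Cardinal.{u} := max (max (max ℵ₀ κ.ord.cof) #(NI Set.univ w))
    (max (if A then 0 else #({z | w < z} : Set P)) (if A' then 0 else #({z : P | z < w} : Set P)))
    with hl0def
  have hcof0 : ℵ₀ ≤ κ.ord.cof := by
    by_contra h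
    rw [not_le, Ordinal.cof_lt_aleph0_iff] at h
    exact absurd (Ordinal.one_lt_cof_iff.2 (Cardinal.isSuccLimit_ord hκ)) (not_lt_of_ge h)
  have hκ0 : (0 : Cardinal.{u}) < κ := lt_of_lt_of_le aleph0_pos hκ
  have hl0κ : l0 < κ := by
    refine max_lt (max_lt (max_lt (lt_of_le_of_lt hcof0 hsing) hsing) (hN w)) (max_lt ?_ ?_)
    · by_cases h : A
      · rw [if_pos h]; exact hκ0
      · rw [if_neg h]; exact not_le.1 h
    · by_cases h : A'
      · rw [if_pos h]; exact hκ0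
      · rw [if_neg h]; exact not_le.1 h
  have hl0a : ℵ₀ ≤ l0 := ((le_max_left _ _).trans (le_max_left _ _)).trans (le_max_left _ _)
  have hl0c : κ.ord.cof ≤ l0 :=
    ((le_max_right _ _).trans (le_max_left _ _)).trans (le_max_left _ _)
  have hl0N : #(NI Set.univ w) ≤ l0 := (le_max_right _ _).trans (le_max_left _ _)
  have hl0A : ¬ A → #({z | w < z} : Set P) ≤ l0 := by
    intro h
    refine le_trans ?_ ((le_max_left _ _).trans (le_max_right _ _))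
    rw [if_neg h]
  have hl0A' : ¬ A' → #({z : P | z < w} : Set P) ≤ l0 := by
    intro h
    refine le_trans ?_ ((le_max_right _ _).trans (le_max_right _ _))
    rw [if_neg h]
  have hNle : #(NI (P := Pᵒᵈ) Set.univ w) ≤ l0 :=
    le_of_eq_of_le (congrArg (fun A : Set P => #A) (NI_dual (P := P) Set.univ w)) hl0N
  -- growth function
  have hG : ∀ L : Cardinal.{u}, ∃ β < κ, l0 < L →
      (∀ c ∈ CG κ w L, Bd w β c.1 c.2) ∧
      (∀ c ∈ CG (P := Pᵒᵈ) κ w L, Bd (P := Pᵒᵈ) w β c.1 c.2) := by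
    intro L
    by_cases hL : l0 < L
    · obtain ⟨β, hβ, h1⟩ := CG_bound_all hn hκ hlim w (hI w) L (hl0a.trans hL.le)
        (lt_of_le_of_lt hl0N hL)
      obtain ⟨β', hβ', h2⟩ := CG_bound_all (P := Pᵒᵈ) hn.dual hκ hlim w (hI' w) L
        (hl0a.trans hL.le) (lt_of_le_of_lt hNle hL)
      exact ⟨max β β', max_lt hβ hβ', fun _ => ⟨fun c hc => (h1 c hc).mono (le_max_left _ _),
        fun c hc => (h2 c hc).mono (le_max_right _ _)⟩⟩
    · exact ⟨0, hκ0, fun h => absurd h hL⟩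
  choose G hG1 hG2 using hG
  obtain ⟨ι, hlo, hwf, Λ, hι, hreg, hgt, hlt, hgrow, hcofin⟩ :=
    exists_seq κ hlim G (fun c _ => hG1 c) l0 hl0a hl0κ
  have hL : ∀ i, ℵ₀ ≤ Λ i := fun i => (hreg i).aleph0_le
  have hΛle : ∀ i j, i ≤ j → Λ i ≤ Λ j := by
    intro i j hij
    rcases hij.eq_or_lt with h | h
    · rw [h]
    · exact (hgrow i j h).1.le
  have hmax : ∀ i : ι, ∃ j, i < j := by
    intro i
    obtain ⟨j, hj⟩ := hcofin _ (hlim _ (hlt i))
    refine ⟨j, ?_⟩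
    by_contra h
    exact absurd (hj.trans (hΛle j i (not_lt.1 h))) (not_le_of_gt (Order.lt_succ _))
  -- big finite sets
  let Big : Cardinal.{u} → Finset P → Prop := fun θ F =>
    w ∈ F ∧ (A → θ ≤ #(XA w (Qf F))) ∧ (A' → θ ≤ #(XA (P := Pᵒᵈ) w (Qf F)))
  have hBigev : ∀ θ < κ, ∀ᶠ F in (atTop : Filter (Finset P)), Big θ F := by
    intro θ hθ
    have h1 : ∀ᶠ F in (atTop : Filter (Finset P)), w ∈ F := by
      filter_upwards [eventually_ge_atTop ({w} : Finset P)] with F hF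
      exact hF (Finset.mem_singleton_self w)
    have h2 : ∀ᶠ F in (atTop : Filter (Finset P)), (A → θ ≤ #(XA w (Qf F))) := by
      by_cases hA : A
      · obtain ⟨b, hb⟩ := large_interval hκ hsing hN w hA θ hθ
        filter_upwards [eventually_ge_atTop ({w, b} : Finset P)] with F hF _
        refine hb.trans (mk_le_mk_of_subset ?_)
        rintro z ⟨h3, h4⟩
        exact ⟨⟨fun _ => ⟨b, hF (by simp), h4⟩, fun _ => ⟨w, hF (by simp), h3.le⟩⟩, h3⟩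
      · exact Filter.Eventually.of_forall (fun F h => absurd h hA)
    have h3 : ∀ᶠ F in (atTop : Filter (Finset P)),
        (A' → θ ≤ #(XA (P := Pᵒᵈ) w (Qf F))) := by
      by_cases hA : A'
      · obtain ⟨b, hb⟩ : ∃ b : P, θ ≤ #({z : P | z < w ∧ b ≤ z} : Set P) :=
          large_interval (P := Pᵒᵈ) hκ hsing hN' w hA θ hθ
        filter_upwards [eventually_ge_atTop ({w, b} : Finset P)] with F hF _
        refine hb.trans (mk_le_mk_of_subset ?_)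
        rintro z ⟨h3, h4⟩
        exact ⟨⟨fun _ => ⟨w, hF (Finset.mem_insert_self _ _), h3.le⟩, fun _ =>
          ⟨b, hF (Finset.mem_insert_of_mem (Finset.mem_singleton_self _)), h4⟩⟩, h3⟩
      · exact Filter.Eventually.of_forall (fun F h => absurd h hA)
    filter_upwards [h1, h2, h3] with F h4 h5 h6
    exact ⟨h4, h5, h6⟩
  have hwQ : ∀ F : Finset P, w ∈ F → w ∈ Qf F := fun F hF =>
    ⟨fun _ => ⟨w, hF, le_rfl⟩, fun _ => ⟨w, hF, le_rfl⟩⟩
  have hcut : ∀ i j F, i ≤ j → Big (Order.succ (Λ j)) F →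
      (cJ w (Λ i) (T F (Λ i)), cU w (Λ i) (T F (Λ i))) ∈ CG κ w (Λ i) := by
    intro i j F hij hF
    refine good_cut (hL i) (lt_of_le_of_lt (hΛle i j hij) (Order.lt_succ _))
      (isRegular_succ (hL j)) ?_ ?_ (hT F) (hwQ F hF.1) (hQc F) hF.2.1
    · exact lt_of_le_of_lt hl0N ((hgt j).trans (Order.lt_succ _))
    · exact fun h => lt_of_le_of_lt (hl0A h) (hgt i)
  have hcut' : ∀ i j F, i ≤ j → Big (Order.succ (Λ j)) F →
      (cJ (P := Pᵒᵈ) w (Λ i) (T F (Λ i)), cU (P := Pᵒᵈ) w (Λ i) (T F (Λ i))) ∈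
        CG (P := Pᵒᵈ) κ w (Λ i) := by
    intro i j F hij hF
    refine good_cut (P := Pᵒᵈ) (hL i) (lt_of_le_of_lt (hΛle i j hij) (Order.lt_succ _))
      (isRegular_succ (hL j)) ?_ ?_ (hT F).dual (hwQ F hF.1) (hQc' F) hF.2.2
    · exact lt_of_le_of_lt hNle ((hgt j).trans (Order.lt_succ _))
    · exact fun h => lt_of_le_of_lt (hl0A' h) (hgt i)
  -- compactness
  let Uf : Ultrafilter (Finset P) := Ultrafilter.of atTop
  have hUf : ∀ {p : Finset P → Prop}, (∀ᶠ F in (atTop : Filter (Finset P)), p F) →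
      ∀ᶠ F in (Uf : Filter (Finset P)), p F := fun h => (Ultrafilter.of_le atTop) h
  have hsuccκ : ∀ i, Order.succ (Λ i) < κ := fun i => hlim _ (hlt i)
  have hc : ∀ i, ∃ c : Set P × Set P, ∀ᶠ F in (Uf : Filter (Finset P)),
      (cJ w (Λ i) (T F (Λ i)), cU w (Λ i) (T F (Λ i))) = c := by
    intro i
    have h1 : ∀ᶠ F in (Uf : Filter (Finset P)), ∃ c ∈ CG κ w (Λ i),
        (cJ w (Λ i) (T F (Λ i)), cU w (Λ i) (T F (Λ i))) = c := by
      filter_upwards [hUf (hBigev _ (hsuccκ i))] with F hF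
      exact ⟨_, hcut i i F le_rfl hF, rfl⟩
    have hfin : (CG κ w (Λ i)).Finite := (CS_finite hn (hL i)
      (lt_of_le_of_lt hl0N (hgt i))).subset (fun c hc => hc.1)
    rw [Ultrafilter.eventually_exists_mem_iff hfin] at h1
    obtain ⟨c, _, h2⟩ := h1
    exact ⟨c, h2⟩
  have hc' : ∀ i, ∃ c : Set P × Set P, ∀ᶠ F in (Uf : Filter (Finset P)),
      (cJ (P := Pᵒᵈ) w (Λ i) (T F (Λ i)), cU (P := Pᵒᵈ) w (Λ i) (T F (Λ i))) = c := by
    intro i
    have h1 : ∀ᶠ F in (Uf : Filter (Finset P)), ∃ c ∈ CG (P := Pᵒᵈ) κ w (Λ i),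
        (cJ (P := Pᵒᵈ) w (Λ i) (T F (Λ i)), cU (P := Pᵒᵈ) w (Λ i) (T F (Λ i))) = c := by
      filter_upwards [hUf (hBigev _ (hsuccκ i))] with F hF
      exact ⟨_, hcut' i i F le_rfl hF, rfl⟩
    have hfin : (CG (P := Pᵒᵈ) κ w (Λ i)).Finite := (CS_finite hn.dual (hL i)
      (lt_of_le_of_lt hNle (hgt i))).subset (fun c hc => hc.1)
    rw [Ultrafilter.eventually_exists_mem_iff hfin] at h1
    obtain ⟨c, _, h2⟩ := h1
    exact ⟨c, h2⟩
  choose c hc using hc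
  choose c' hc' using hc'
  have hF : ∀ i, ∃ F : Finset P, Big (Order.succ (Λ i)) F ∧
      (cJ w (Λ i) (T F (Λ i)), cU w (Λ i) (T F (Λ i))) = c i ∧
      (cJ (P := Pᵒᵈ) w (Λ i) (T F (Λ i)), cU (P := Pᵒᵈ) w (Λ i) (T F (Λ i))) = c' i ∧
      ∀ m < i, (∀ k < i, k ≤ m) →
        (cJ w (Λ m) (T F (Λ m)), cU w (Λ m) (T F (Λ m))) = c m ∧
        (cJ (P := Pᵒᵈ) w (Λ m) (T F (Λ m)), cU (P := Pᵒᵈ) w (Λ m) (T F (Λ m))) = c' m := by
    intro i
    have h1 : ∀ᶠ F in (Uf : Filter (Finset P)), ∀ m < i, (∀ k < i, k ≤ m) →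
        (cJ w (Λ m) (T F (Λ m)), cU w (Λ m) (T F (Λ m))) = c m ∧
        (cJ (P := Pᵒᵈ) w (Λ m) (T F (Λ m)), cU (P := Pᵒᵈ) w (Λ m) (T F (Λ m))) = c' m := by
      by_cases hex : ∃ m < i, ∀ k < i, k ≤ m
      · obtain ⟨m0, hm0, hm0'⟩ := hex
        filter_upwards [hc m0, hc' m0] with F h2 h3 m hm hm'
        have : m = m0 := le_antisymm (hm0' m hm) (hm' m0 hm0)
        rw [this]
        exact ⟨h2, h3⟩
      · exact Filter.Eventually.of_forall (fun F m hm hm' => absurd ⟨m, hm, hm'⟩ hex)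
    obtain ⟨F, ⟨h2, h3⟩, h4, h5⟩ :=
      (((hUf (hBigev _ (hsuccκ i))).and (hc i)).and ((hc' i).and h1)).exists
    exact ⟨F, h2, h3, h4, h5⟩
  choose F hF1 hF2 hF3 hF4 using hF
  have hJ : ∀ i, (c i).1 = cJ w (Λ i) (T (F i) (Λ i)) := fun i => by rw [← hF2 i]
  have hU : ∀ i, (c i).2 = cU w (Λ i) (T (F i) (Λ i)) := fun i => by rw [← hF2 i]
  have hJ' : ∀ i, (c' i).1 = cJ (P := Pᵒᵈ) w (Λ i) (T (F i) (Λ i)) := fun i => by rw [← hF3 i]
  have hU' : ∀ i, (c' i).2 = cU (P := Pᵒᵈ) w (Λ i) (T (F i) (Λ i)) := fun i => by rw [← hF3 i]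
  have hall : ∀ z : P, ∃ i, z ∈ (c i).1 ∧ z ∈ (c' i).1 := by
    intro z
    have h1 := above_lt hκ w z (hI w z)
    have h2 := above_lt (P := Pᵒᵈ) hκ w z (hI' w z)
    obtain ⟨i, hi⟩ := hcofin _ (hlim _ (max_lt h1 h2))
    refine ⟨i, ?_, ?_⟩
    · rw [hJ]
      refine lt_of_le_of_lt (mk_le_mk_of_subset ?_)
        (lt_of_le_of_lt (le_max_left _ _) (lt_of_lt_of_le (Order.lt_succ _) hi))
      rintro x ⟨_, h3, h4⟩
      exact ⟨h3, h4⟩
    · rw [hJ']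
      refine lt_of_le_of_lt (mk_le_mk_of_subset ?_)
        (lt_of_le_of_lt (le_max_right _ _) (lt_of_lt_of_le (Order.lt_succ _) hi))
      rintro x ⟨_, h3, h4⟩
      exact ⟨h3, h4⟩
  let ix : P → ι := fun z => (wellFounded_lt (α := ι)).min {i | z ∈ (c i).1 ∧ z ∈ (c' i).1} (hall z)
  have hix : ∀ z, z ∈ (c (ix z)).1 ∧ z ∈ (c' (ix z)).1 := fun z =>
    (wellFounded_lt (α := ι)).min_mem {i | z ∈ (c i).1 ∧ z ∈ (c' i).1} (hall z)
  have hixmin : ∀ z i, z ∈ (c i).1 → z ∈ (c' i).1 → ix z ≤ i := by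
    intro z i h1 h2
    by_contra h
    exact (wellFounded_lt (α := ι)).not_lt_min {i | z ∈ (c i).1 ∧ z ∈ (c' i).1}
      ⟨h1, h2⟩ (not_le.1 h)
  have hBd : ∀ i m j, i < m → m ≤ j →
      Bd w (Λ m) (cJ w (Λ i) (T (F j) (Λ i))) (cU w (Λ i) (T (F j) (Λ i))) := by
    intro i m j him hmj
    exact (((hG2 _ (hgt i)).1 _ (hcut i j (F j) (him.le.trans hmj) (hF1 j))).mono
      (hgrow i m him).2)
  have hBd' : ∀ i m j, i < m → m ≤ j → Bd (P := Pᵒᵈ) w (Λ m)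
      (cJ (P := Pᵒᵈ) w (Λ i) (T (F j) (Λ i))) (cU (P := Pᵒᵈ) w (Λ i) (T (F j) (Λ i))) := by
    intro i m j him hmj
    exact (((hG2 _ (hgt i)).2 _ (hcut' i j (F j) (him.le.trans hmj) (hF1 j))).mono
      (hgrow i m him).2)
  refine ⟨_, glue w Λ (fun i => Qf (F i)) (fun i => T (F i)) (fun i => (c i).1)
    (fun i => (c i).2) (fun i => (c' i).1) (fun i => (c' i).2) ix hreg ?_ hmax ?_
    (fun i => hT (F i)) hJ hU hJ' hU' ?_ ?_ ?_ ?_ (fun i j h => (hgrow i j h).1)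
    hBd hBd' ?_ ?_ ?_ hix hixmin⟩
  · intro i
    rw [hι]
    exact lt_of_le_of_lt hl0c (hgt i)
  · intro i
    exact lt_of_le_of_lt hl0N (hgt i)
  · intro i j hij hmin
    have := (hF4 j i hij hmin).1
    rw [← this]
  · intro i j hij hmin
    have := (hF4 j i hij hmin).1
    rw [← this]
  · intro i j hij hmin
    have := (hF4 j i hij hmin).2
    rw [← this]
  · intro i j hij hmin
    have := (hF4 j i hij hmin).2
    rw [← this]
  · intro i j hij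
    rw [hJ, hU]
    exact (((hG2 _ (hgt i)).1 _ (hcut i i (F i) le_rfl (hF1 i))).mono (hgrow i j hij).2)
  · intro i j hij
    rw [hJ', hU']
    exact (((hG2 _ (hgt i)).2 _ (hcut' i i (F i) le_rfl (hF1 i))).mono (hgrow i j hij).2)
  · intro i x hx hx'
    rw [hJ] at hx
    rw [hJ'] at hx'
    refine ⟨fun hA => ?_, fun hA => ?_⟩
    · have h1 := XA_big (hL i) (Order.le_succ _) (isRegular_succ (hL i))
        (lt_of_le_of_lt hl0N ((hgt i).trans (Order.lt_succ _))) (hT (F i)) ((hF1 i).2.1 hA)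
      obtain ⟨v, hv, hvn⟩ := exists_diff ((Order.le_succ _).trans h1) hx
      have h2 : x < v := by
        by_contra h
        exact hvn ⟨hv.1, hv.2, h⟩
      obtain ⟨b, hb, hvb⟩ := (((hT (F i)).st _ (hL i)).1 hv.1).1 hA
      exact ⟨b, hb, h2.le.trans hvb⟩
    · have h1 := XA_big (P := Pᵒᵈ) (hL i) (Order.le_succ _) (isRegular_succ (hL i))
        (lt_of_le_of_lt hNle ((hgt i).trans (Order.lt_succ _))) (hT (F i)).dual
        ((hF1 i).2.2 hA)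
      obtain ⟨v, hv, hvn⟩ := exists_diff (P := P) (A := XA (P := Pᵒᵈ) w (T (F i) (Λ i)))
        ((Order.le_succ _).trans h1) hx'
      have h2 : v < x := by
        by_contra h
        exact hvn ⟨hv.1, hv.2, h⟩
      obtain ⟨b, hb, hvb⟩ := (((hT (F i)).st _ (hL i)).1 hv.1).2 hA
      exact ⟨b, hb, hvb.trans h2.le⟩

end main

end Pool.Agent.TH398
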