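import Pool.Agent.TH398.Comp

set_option autoImplicit false

/-!
# Transitivity of ST sets and towers
-/

namespace Pool.Agent.TH398

open Cardinal

universe u

variable {P : Type u} [PartialOrder P]

theorem one_lt_of_aleph0 {lam : Cardinal.{u}} (hlam : ℵ₀ ≤ lam) : (1 : Cardinal.{u}) < lam :=
  lt_of_lt_of_le one_lt_aleph0 hlam

theorem nonempty_of_le {lam : Cardinal.{u}} (hlam : ℵ₀ ≤ lam) {A : Set P} (h : lam ≤ #A) :
    A.Nonempty := by
  rw [Set.nonempty_iff_ne_empty]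
  rintro rfl
  have h0 : #(∅ : Set P) = 0 := by simp
  rw [h0] at h
  exact absurd h (not_le_of_gt (lt_of_lt_of_le aleph0_pos hlam))

theorem exists_diff {lam : Cardinal.{u}} {A B : Set P} (hA : lam ≤ #A) (hB : #B < lam) :
    ∃ x ∈ A, x ∉ B := by
  by_contra hcon
  push Not at hcon
  exact absurd (hA.trans (mk_le_mk_of_subset hcon)) (not_le_of_gt hB)

/-- the key counting lemma -/
theorem pair_small {w : ℕ} (hw : Wd P w) {κ : Cardinal.{u}} (hκ : κ.IsRegular)
    (X : Set P) (hX : ∀ x ∈ X, #(NI X x) < κ) (y : P) :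
    #({z | z ∈ NI X y ∧ ∃ z' ∈ NI X z, z' < y} : Set P) < κ := by
  by_contra hcon
  rw [not_lt] at hcon
  obtain ⟨e, he⟩ := GE.acc hκ.aleph0_le w _ (fun A _ hA => hw A hA) hcon
  obtain ⟨x0, hx0⟩ := e.ne
  obtain ⟨z0, hz0, hz0T⟩ := nonempty_of_le hκ.aleph0_le (he x0 hx0)
  have hbig := he z0 hz0.1
  by_cases heu : e.up
  · refine absurd (hbig.trans (mk_le_mk_of_subset (t := ⋃ v ∈ NI X z0, NI X v) ?_))
      (not_le_of_gt ?_)
    · rintro z ⟨hz, hzy, z', hz', hz'y⟩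
      have hle : z0 ≤ z := by
        rcases hz.2 with h | h
        · exact h.2
        · exact absurd heu h.1
      simp only [Set.mem_iUnion]
      refine ⟨z', ⟨hz'.1, fun h => ?_, fun h => ?_⟩, ?_⟩
      · exact hz'.2.1 (h.trans hle)
      · exact hz0T.1.2.1 (h.trans hz'y.le)
      · exact NI_comm hzy.1 hz'
    · exact (card_biUnion_lt_iff_forall_of_isRegular (t := fun v _ => NI X v) hκ
        (hX z0 hz0T.1.1)).2 (fun v hv => hX v hv.1)
  · obtain ⟨z0', hz0', hz0'y⟩ := hz0T.2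
    refine absurd (hbig.trans (mk_le_mk_of_subset (t := NI X z0') ?_))
      (not_le_of_gt (hX z0' hz0'.1))
    rintro z ⟨hz, hzy, -⟩
    have hle : z ≤ z0 := by
      rcases hz.2 with h | h
      · exact absurd h.1 heu
      · exact h.2
    refine ⟨hzy.1, fun h => ?_, fun h => ?_⟩
    · exact hzy.2.1 (h.trans hz0'y.le)
    · exact hz0'.2.1 (h.trans hle)

theorem NI_dual (X : Set P) (y : P) : NI (P := Pᵒᵈ) X y = NI X y := by
  ext q
  exact ⟨fun h => ⟨h.1, h.2.2, h.2.1⟩, fun h => ⟨h.1, h.2.2, h.2.1⟩⟩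

theorem pair_small' {w : ℕ} (hw : Wd P w) {κ : Cardinal.{u}} (hκ : κ.IsRegular)
    (X : Set P) (hX : ∀ x ∈ X, #(NI X x) < κ) (y : P) :
    #({z | z ∈ NI X y ∧ ∃ z' ∈ NI X z, y < z'} : Set P) < κ := by
  have h := pair_small (P := Pᵒᵈ) hw.dual hκ X (fun x hx =>
    lt_of_eq_of_lt (congrArg (fun A : Set P => #A) (NI_dual (P := P) X x)) (hX x hx)) y
  refine lt_of_le_of_lt (mk_le_mk_of_subset ?_) h
  rintro z ⟨hz, z', hz', hlt⟩
  refine ⟨?_, z', ?_, hlt⟩
  · exact (NI_dual X y).symm ▸ hz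
  · exact (NI_dual X z).symm ▸ hz'

/-- transitivity of ST sets through regular cardinals -/
theorem ST_trans {w : ℕ} (hw : Wd P w) {κ : Cardinal.{u}} (hκ : κ.IsRegular)
    {lam : Cardinal.{u}} (hle : lam ≤ κ) {X1 X2 : Set P} (h12 : IsST lam X1 X2)
    (hX2 : ∀ x ∈ X2, #(NI X2 x) < κ) (y : P) (hy : κ ≤ #(NI X2 y)) : lam ≤ #(NI X1 y) := by
  by_contra hcon
  rw [not_le] at hcon
  have hyX2 : y ∉ X2 := fun h => absurd hy (not_le_of_gt (hX2 y h))
  refine absurd (hy.trans (mk_le_mk_of_subset (t := (NI X1 y ∪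
    {z | z ∈ NI X2 y ∧ ∃ z' ∈ NI X2 z, z' < y}) ∪
    {z | z ∈ NI X2 y ∧ ∃ z' ∈ NI X2 z, y < z'}) ?_)) (not_le_of_gt ?_)
  · intro z hz
    by_cases hzX : z ∈ X1
    · exact Or.inl (Or.inl ⟨hzX, hz.2⟩)
    · obtain ⟨z', hz', hz'y⟩ := exists_diff (h12.le z hz.1 hzX) hcon
      have hne : z' ≠ y := fun h => hyX2 (h ▸ h12.1 hz'.1)
      by_cases h1 : z' ≤ y
      · exact Or.inl (Or.inr ⟨hz, z', NI_mono h12.1 z hz', lt_of_le_of_ne h1 hne⟩)
      · by_cases h2 : y ≤ z'
        · exact Or.inr ⟨hz, z', NI_mono h12.1 z hz', lt_of_le_of_ne h2 (Ne.symm hne)⟩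
        · exact absurd ⟨hz'.1, h1, h2⟩ hz'y
  · exact lt_of_union hκ.aleph0_le (lt_of_union hκ.aleph0_le (lt_of_lt_of_le hcon hle)
      (pair_small hw hκ X2 hX2 y)) (pair_small' hw hκ X2 hX2 y)

/-- transitivity of ST sets through limit cardinals -/
theorem ST_trans_lim {w : ℕ} (hw : Wd P w) {κ : Cardinal.{u}} (hκ : ℵ₀ ≤ κ)
    (hlim : ∀ c < κ, Order.succ c < κ) {Z : Set P} {X : Cardinal.{u} → Set P}
    (hX : IsTower Z X) (hZ : ∀ x ∈ Z, #(NI Z x) < κ) (y : P) (hy : κ ≤ #(NI Z y))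
    (lam : Cardinal.{u}) (hlam : ℵ₀ ≤ lam) (hlt : lam < κ) : lam ≤ #(NI (X lam) y) := by
  by_contra hcon
  rw [not_le] at hcon
  have hyZ : y ∉ Z := fun h => absurd hy (not_le_of_gt (hZ y h))
  have hsm : ∀ mu : Cardinal.{u}, mu.IsRegular → lam ≤ mu → #(NI (X mu) y) < mu := by
    intro mu hmu hle
    by_contra hcon2
    rw [not_lt] at hcon2
    exact absurd (ST_trans hw hmu hle (hX.sub hlam hle) (hX.st mu hmu.aleph0_le).lt y hcon2)
      (not_le_of_gt hcon)
  obtain ⟨e, he⟩ := GE.acc hκ w _ (fun A _ hA => hw A hA) hy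
  obtain ⟨x0, hx0⟩ := e.ne
  obtain ⟨z0, hz0, hz0T⟩ := nonempty_of_le hκ (he x0 hx0)
  set mu : Cardinal.{u} := Order.succ (max lam #(NI Z z0)) with hmudef
  have hmu : mu.IsRegular := isRegular_succ (hlam.trans (le_max_left _ _))
  have hlammu : lam ≤ mu := (le_max_left _ _).trans (Order.le_succ _)
  have hz0mu : #(NI Z z0) < mu := lt_of_le_of_lt (le_max_right _ _) (Order.lt_succ _)
  have hmuκ : mu < κ := hlim _ (max_lt hlt (hZ z0 hz0T.1))
  obtain ⟨z, ⟨hznb, hzT⟩, hzX⟩ := exists_diff (he z0 hz0.1)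
    (lt_trans (hsm mu hmu hlammu) hmuκ)
  have hzX' : z ∉ X mu := fun h => hzX ⟨h, hzT.2⟩
  obtain ⟨z', hz', hz'n⟩ := exists_diff ((hX.st mu hmu.aleph0_le).le z hzT.1 hzX')
    (lt_of_union hmu.aleph0_le (hsm mu hmu hlammu) hz0mu)
  have hz'Z : z' ∈ Z := (hX.st mu hmu.aleph0_le).1 hz'.1
  have hz'y : z' ≠ y := fun h => hyZ (h ▸ hz'Z)
  have hcy : z' ≤ y ∨ y ≤ z' := by
    by_contra h
    push Not at h
    exact hz'n (Or.inl ⟨hz'.1, h.1, h.2⟩)
  have hc0 : z' ≤ z0 ∨ z0 ≤ z' := by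
    by_contra h
    push Not at h
    exact hz'n (Or.inr ⟨hz'Z, h.1, h.2⟩)
  have hfin : e.nb z ∩ NI Z y ⊆ NI Z z' → False := fun hsub =>
    absurd ((he z hznb.1).trans (mk_le_mk_of_subset hsub)) (not_le_of_gt (hZ z' hz'Z))
  by_cases heu : e.up
  · have hle : z0 ≤ z := by
      rcases hznb.2 with h | h
      · exact h.2
      · exact absurd heu h.1
    have h0 : z0 ≤ z' := by
      rcases hc0 with h | h
      · exact absurd (h.trans hle) hz'.2.1
      · exact h
    have hy' : y ≤ z' := by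
      rcases hcy with h | h
      · exact absurd (h0.trans h) hz0T.2.1
      · exact h
    apply hfin
    rintro v ⟨hv, hvT⟩
    have hzv : z ≤ v := by
      rcases hv.2 with h | h
      · exact h.2
      · exact absurd heu h.1
    exact ⟨hvT.1, fun h => hz'.2.2 (hzv.trans h), fun h => hvT.2.2 (hy'.trans h)⟩
  · have hle : z ≤ z0 := by
      rcases hznb.2 with h | h
      · exact absurd h.1 heu
      · exact h.2
    have h0 : z' ≤ z0 := by
      rcases hc0 with h | h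
      · exact h
      · exact absurd (hle.trans h) hz'.2.2
    have hy' : z' ≤ y := by
      rcases hcy with h | h
      · exact h
      · exact absurd (h.trans h0) hz0T.2.2
    apply hfin
    rintro v ⟨hv, hvT⟩
    have hzv : v ≤ z := by
      rcases hv.2 with h | h
      · exact absurd h.1 heu
      · exact h.2
    exact ⟨hvT.1, fun h => hvT.2.1 (h.trans hy'), fun h => hz'.2.1 (h.trans hzv)⟩

/-- extending a tower from an ST set -/
theorem tower_extend {κ : Cardinal.{u}} (hcard : #P ≤ κ) {Z : Set P}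
    (hZ : IsST κ Z Set.univ) (X : Cardinal.{u} → Set P)
    (h1 : ∀ lam, ℵ₀ ≤ lam → lam < κ → IsST lam (X lam) Z)
    (h2 : ∀ lam lam', ℵ₀ ≤ lam → lam ≤ lam' → lam' < κ → X lam ⊆ X lam')
    (h3 : ∀ lam, ℵ₀ ≤ lam → lam < κ → ∀ y, κ ≤ #(NI Z y) → lam ≤ #(NI (X lam) y)) :
    ∃ X', IsTower (Set.univ : Set P) X' := by
  classical
  refine ⟨fun lam => if lam < κ then X lam else if lam = κ then Z else Set.univ, ?_, ?_⟩
  · intro lam hlam
    by_cases hlt : lam < κ
    · simp only [hlt, if_true]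
      refine ⟨Set.subset_univ _, (h1 lam hlam hlt).2.1, ?_⟩
      intro y _ hy
      by_cases hyZ : y ∈ Z
      · exact (h1 lam hlam hlt).le y hyZ hy
      · exact h3 lam hlam hlt y (hZ.le y (Set.mem_univ _) hyZ)
    · by_cases heq : lam = κ
      · subst heq
        simp only [lt_irrefl, if_false, if_true]
        exact hZ
      · simp only [hlt, heq, if_false]
        refine ⟨Set.subset_univ _, ?_, fun y _ hy => absurd (Set.mem_univ y) hy⟩
        intro x _
        exact lt_of_le_of_lt ((mk_set_le _).trans hcard)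
          (lt_of_le_of_ne (not_lt.1 hlt) (Ne.symm heq))
  · intro lam lam' hlam hle
    by_cases hlt' : lam' < κ
    · have hlt : lam < κ := lt_of_le_of_lt hle hlt'
      simp only [hlt, hlt', if_true]
      exact h2 lam lam' hlam hle hlt'
    · by_cases heq' : lam' = κ
      · subst heq'
        by_cases hlt : lam < lam'
        · simp only [hlt, lt_irrefl, if_true, if_false]
          exact (h1 lam hlam hlt).1
        · have : lam = lam' := le_antisymm hle (not_lt.1 hlt)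
          subst this
          exact le_rfl
      · simp only [hlt', heq', if_false]
        exact Set.subset_univ _

/-- towers from towers on components -/
theorem tower_of_comps {Z : Set P} (h : ∀ z ∈ Z, ∃ X, IsTower (comp Z z) X) :
    ∃ X, IsTower Z X := by
  classical
  have hex : ∀ D : Set P, ∃ X : Cardinal.{u} → Set P, (∃ z ∈ Z, D = comp Z z) → IsTower D X := by
    intro D
    by_cases hD : ∃ z ∈ Z, D = comp Z z
    · obtain ⟨z, hz, rfl⟩ := hD
      obtain ⟨X, hX⟩ := h z hz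
      exact ⟨X, fun _ => hX⟩
    · exact ⟨fun _ => ∅, fun h => absurd h hD⟩
  choose T hT using hex
  have hT' : ∀ z ∈ Z, IsTower (comp Z z) (T (comp Z z)) := fun z hz => hT _ ⟨z, hz, rfl⟩
  have hNI : ∀ lam, ℵ₀ ≤ lam → ∀ y ∈ Z,
      NI ({z | z ∈ Z ∧ z ∈ T (comp Z z) lam} : Set P) y = NI (T (comp Z y) lam) y := by
    intro lam hlam y hy
    ext q
    constructor
    · rintro ⟨⟨hqZ, hqT⟩, hq⟩
      have : comp Z q = comp Z y := comp_eq (mem_comp_of_NI hy ⟨hqZ, hq⟩)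
      rw [this] at hqT
      exact ⟨hqT, hq⟩
    · rintro ⟨hqT, hq⟩
      have hqD : q ∈ comp Z y := ((hT' y hy).st lam hlam).1 hqT
      have : comp Z q = comp Z y := comp_eq hqD
      exact ⟨⟨comp_subset hy hqD, by rw [this]; exact hqT⟩, hq⟩
  refine ⟨fun lam => {z | z ∈ Z ∧ z ∈ T (comp Z z) lam}, ?_, ?_⟩
  · intro lam hlam
    refine ⟨fun z hz => hz.1, ?_, ?_⟩
    · intro x hx
      change #(NI _ x) < lam
      rw [hNI lam hlam x hx.1]
      exact ((hT' x hx.1).st lam hlam).lt x hx.2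
    · intro y hy hyn
      change lam ≤ #(NI _ y)
      rw [hNI lam hlam y hy]
      exact ((hT' y hy).st lam hlam).le y (comp_self _ _) (fun h => hyn ⟨hy, h⟩)
  · intro lam lam' hlam hle z hz
    exact ⟨hz.1, (hT' z hz.1).mono lam lam' hlam hle hz.2⟩

theorem NI_image (S : Set P) (A : Set S) (y : S) :
    NI (Subtype.val '' A) y.1 = Subtype.val '' (NI A y) := by
  ext q
  constructor
  · rintro ⟨⟨a, ha, rfl⟩, hq⟩
    exact ⟨a, ⟨ha, hq⟩, rfl⟩
  · rintro ⟨a, ⟨ha, hq⟩, rfl⟩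
    exact ⟨⟨a, ha, rfl⟩, hq⟩

theorem mk_NI_image (S : Set P) (A : Set S) (y : S) :
    #(NI (Subtype.val '' A) y.1) = #(NI A y) := by
  rw [NI_image]
  exact mk_image_eq Subtype.val_injective

theorem IsST.map (S : Set P) {lam : Cardinal.{u}} {A : Set S}
    (h : IsST lam A Set.univ) : IsST lam (Subtype.val '' A) S := by
  refine ⟨?_, ?_, ?_⟩
  · rintro _ ⟨a, _, rfl⟩
    exact a.2
  · rintro _ ⟨a, ha, rfl⟩
    change #(NI _ _) < lam
    rw [mk_NI_image]
    exact h.lt a ha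
  · intro y hy hyn
    change lam ≤ #(NI _ _)
    have := mk_NI_image S A ⟨y, hy⟩
    rw [this]
    exact h.le ⟨y, hy⟩ (Set.mem_univ _) (fun h => hyn ⟨_, h, rfl⟩)

theorem IsTower.map (S : Set P) {X : Cardinal.{u} → Set S}
    (h : IsTower (Set.univ : Set S) X) : IsTower S (fun lam => Subtype.val '' (X lam)) where
  st := fun lam hlam => (h.st lam hlam).map S
  mono := fun lam lam' hlam hle => Set.image_mono (h.mono lam lam' hlam hle)

/-- intervals in components are small -/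
theorem comp_interval {κ : Cardinal.{u}} (hκ : ℵ₀ ≤ κ) {Z : Set P}
    (hZ : ∀ x ∈ Z, #(NI Z x) < κ) (a b : P) (h : b ∈ comp Z a) :
    #({z | z ∈ Z ∧ a ≤ z ∧ ¬ b ≤ z} : Set P) < κ := by
  have h' : Relation.ReflTransGen (NR Z) a b := h
  induction h' with
  | refl =>
    have : ({z | z ∈ Z ∧ a ≤ z ∧ ¬ a ≤ z} : Set P) = ∅ := by
      ext z
      simp only [Set.mem_ofPred_eq, Set.mem_empty_iff_false, iff_false]
      exact fun h => h.2.2 h.2.1
    rw [this]
    have h0 : #(∅ : Set P) = 0 := by simp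
    rw [h0]
    exact lt_of_lt_of_le aleph0_pos hκ
  | @tail b b' hab hbb ih =>
    refine lt_of_le_of_lt (mk_le_mk_of_subset (t := {z | z ∈ Z ∧ a ≤ z ∧ ¬ b ≤ z} ∪ NI Z b') ?_)
      (lt_of_union hκ (ih hab) (hZ b' hbb.2.1))
    rintro z ⟨hz, haz, hbz⟩
    by_cases hb : b ≤ z
    · right
      exact ⟨hz, fun h => hbb.2.2.2 (hb.trans h), hbz⟩
    · exact Or.inl ⟨hz, haz, hb⟩

end Pool.Agent.TH398
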